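import Mathlib

-- part Pool.Agent.Lib.MP_9b2593_an.OneD
section

/-!
One-dimensional measure lemmas for the omitted area problem.
-/

namespace Pool.Agent.Lib.MP_9b2593_an

open MeasureTheory Set Filter Topology

theorem le_volume_of_Ioc (m : Measure ℝ) (h0 : ∀ a b, m (Ioc a b) ≤ ENNReal.ofReal (b - a)) :
    m ≤ volume := by
  rw [Real.volume_eq_stieltjes_id, ← Measure.toOuterMeasure_le]
  have : StieltjesFunction.id.measure.toOuterMeasure = StieltjesFunction.id.outer := by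
    rw [StieltjesFunction.measure]
  rw [this, StieltjesFunction.outer, OuterMeasure.le_ofFunction]
  intro s
  rw [StieltjesFunction.length_eq]
  refine le_iInf fun a => le_iInf fun b => le_iInf fun h => ?_
  have hb : (botSet : Set ℝ) = ∅ := by
    ext x; simp [botSet]
  rw [hb, sdiff_empty] at h
  exact (measure_mono h).trans (h0 a b)

/-- the rank function of a finite measure without atoms is at most equidistributed -/
theorem rank_le (ν : Measure ℝ) [IsFiniteMeasure ν] [NullSingletonClass ν] (G : ℝ → ENNReal)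
    (hG : Measurable G) :
    ∫⁻ r, G (ν.real (Iio r) / 2) ∂ν ≤ 2 * ∫⁻ t in Icc 0 (ν.real univ / 2), G t := by
  set Φ : ℝ → ℝ := fun r => ν.real (Iio r) / 2 with hΦ
  have hm : Monotone Φ := fun a b h =>
    div_le_div_of_nonneg_right (measureReal_mono (Iio_subset_Iio h)) (by norm_num)
  have hM : Measurable Φ := hm.measurable
  have key : ∀ a b, ν (Φ ⁻¹' Ioc a b) ≤ 2 * ENNReal.ofReal (b - a) := by
    intro a b
    rw [(hM measurableSet_Ioc).measure_eq_iSup_isCompact ν]
    refine iSup_le fun K => iSup_le fun hK => iSup_le fun hc => ?_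
    rcases K.eq_empty_or_nonempty with rfl | hne
    · simp
    obtain ⟨u, hu, hu'⟩ := hc.exists_isLeast hne
    obtain ⟨v, hv, hv'⟩ := hc.exists_isGreatest hne
    have huv : u ≤ v := hu' hv
    have h1 : ν K ≤ ν (Ico u v) := by
      rw [measure_congr Ico_ae_eq_Icc]
      exact measure_mono fun x hx => ⟨hu' hx, hv' hx⟩
    have h2 : ν.real (Iio u) + ν.real (Ico u v) = ν.real (Iio v) := by
      rw [← measureReal_union _ measurableSet_Ico, Iio_union_Ico_eq_Iio huv]
      exact disjoint_left.2 fun x hx hx' => absurd hx'.1 (not_le.2 hx)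
    have h3 := (hK hu).1
    have h4 := (hK hv).2
    simp only [hΦ] at h3 h4
    refine h1.trans ?_
    rw [← ofReal_measureReal, ← ENNReal.ofReal_ofNat, ← ENNReal.ofReal_mul (by norm_num)]
    exact ENNReal.ofReal_le_ofReal (by linarith)
  have hle : (2 : ENNReal)⁻¹ • ν.map Φ ≤ volume := by
    refine le_volume_of_Ioc _ fun a b => ?_
    rw [Measure.smul_apply, Measure.map_apply hM measurableSet_Ioc, smul_eq_mul]
    calc _ ≤ (2 : ENNReal)⁻¹ * (2 * ENNReal.ofReal (b - a)) := by gcongr; exact key a b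
      _ = _ := by rw [← mul_assoc, ENNReal.inv_mul_cancel (by norm_num) (by norm_num), one_mul]
  have hr : ∀ r, Φ r ∈ Icc 0 (ν.real univ / 2) := fun r =>
    ⟨by simp only [hΦ]; positivity,
      div_le_div_of_nonneg_right (measureReal_mono (subset_univ _)) (by norm_num)⟩
  calc ∫⁻ r, G (Φ r) ∂ν = ∫⁻ r, (Icc 0 (ν.real univ / 2)).indicator G (Φ r) ∂ν := by
        simp only [indicator_of_mem (hr _)]
    _ = ∫⁻ t, (Icc 0 (ν.real univ / 2)).indicator G t ∂(ν.map Φ) :=
        (lintegral_map (hG.indicator measurableSet_Icc) hM).symm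
    _ = 2 * ∫⁻ t, (Icc 0 (ν.real univ / 2)).indicator G t ∂((2 : ENNReal)⁻¹ • ν.map Φ) := by
        rw [lintegral_smul_measure, smul_eq_mul, ← mul_assoc,
          ENNReal.mul_inv_cancel (by norm_num) (by norm_num), one_mul]
    _ ≤ 2 * ∫⁻ t, (Icc 0 (ν.real univ / 2)).indicator G t := by
        gcongr
    _ = _ := by rw [lintegral_indicator measurableSet_Icc]

theorem vol_image_le {s : Set ℝ} (hs : MeasurableSet s) {f f' : ℝ → ℝ}
    (hf : ∀ x, HasDerivAt f (f' x) x) : volume (f '' s) ≤ ∫⁻ x in s, ENNReal.ofReal |f' x| := by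
  simpa only [ContinuousLinearMap.det_toSpanSingleton] using
    addHaar_image_le_lintegral_abs_det_fderiv volume hs
      (fun x _ => (hf x).hasFDerivAt.hasFDerivWithinAt)

theorem vol_mod_le (B S : Set ℝ) (hS : S ⊆ Ioc (-Real.pi) Real.pi)
    (h : ∀ x ∈ S, ∃ n : ℤ, ∃ y ∈ B, x = y + n * (2 * Real.pi)) : volume S ≤ volume B := by
  have hT : 0 < 2 * Real.pi := by positivity
  have hF := isAddFundamentalDomain_Ioc hT (-Real.pi)
  rw [hF.measure_eq_tsum B]
  refine le_trans (measure_mono fun x hx => ?_) (measure_iUnion_le _)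
  obtain ⟨n, y, hy, rfl⟩ := h x hx
  refine mem_iUnion.2 ⟨⟨n • (2 * Real.pi), AddSubgroup.zsmul_mem_zmultiples _ _⟩, ⟨y, hy, ?_⟩, ?_⟩
  · simp [AddSubgroup.vadd_def, add_comm]
  · have := hS hx
    rwa [show -Real.pi + 2 * Real.pi = Real.pi by ring]

theorem exists_cross {H : ℝ → ℝ} (hH : Continuous H) {x y : ℝ} (hxy : x ≤ y) (h : H x < H y) :
    ∃ u v, x ≤ u ∧ u < v ∧ v ≤ y ∧ H u = H x ∧ H v = H y ∧
      ∀ z ∈ Ioo u v, H x < H z ∧ H z < H y := by
  have c1 : IsCompact (Icc x y ∩ H ⁻¹' Iic (H x)) :=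
    isCompact_Icc.inter_right (isClosed_Iic.preimage hH)
  obtain ⟨u, ⟨hu, hu1⟩, hu'⟩ := c1.exists_isGreatest ⟨x, ⟨le_rfl, hxy⟩, show H x ≤ H x from le_rfl⟩
  have c2 : IsCompact (Icc u y ∩ H ⁻¹' Ici (H y)) :=
    isCompact_Icc.inter_right (isClosed_Ici.preimage hH)
  obtain ⟨v, ⟨hv, hv1⟩, hv'⟩ := c2.exists_isLeast ⟨y, ⟨hu.2, le_rfl⟩, show H y ≤ H y from le_rfl⟩
  simp only [mem_preimage, mem_Iic, mem_Ici] at hu1 hv1
  have huv : u < v := lt_of_le_of_ne hv.1 fun e => by rw [e] at hu1; linarith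
  have e1 : H u = H x := by
    obtain ⟨z, hz, hz'⟩ := intermediate_value_Icc hu.2 hH.continuousOn
      (show H x ∈ Icc (H u) (H y) from ⟨hu1, h.le⟩)
    have := hu' ⟨⟨hu.1.trans hz.1, hz.2⟩, show H z ≤ H x from hz'.le⟩
    rw [le_antisymm hz.1 this, hz']
  have e2 : H v = H y := by
    obtain ⟨z, hz, hz'⟩ := intermediate_value_Icc hv.1 hH.continuousOn
      (show H y ∈ Icc (H u) (H v) from ⟨hu1.trans h.le, hv1⟩)
    have := hv' ⟨⟨hz.1, hz.2.trans hv.2⟩, show H y ≤ H z from hz'.ge⟩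
    rw [le_antisymm this hz.2, hz']
  refine ⟨u, v, hu.1, huv, hv.2, e1, e2, fun z hz => ⟨?_, ?_⟩⟩
  · by_contra hc
    have := hu' ⟨⟨hu.1.trans hz.1.le, hz.2.le.trans hv.2⟩, show H z ≤ H x from not_lt.1 hc⟩
    exact absurd hz.1 (not_lt.2 this)
  · by_contra hc
    have := hv' ⟨⟨hz.1.le, hz.2.le.trans hv.2⟩, show H y ≤ H z from not_lt.1 hc⟩
    exact absurd hz.2 (not_lt.2 this)

/-- variation of a truncated function -/
theorem var_le (ν : Measure ℝ) [IsFiniteMeasure ν] [NullSingletonClass ν] {T H : ℝ → ℝ}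
    (hT : Continuous T) (hH : Continuous H) (hν : ∀ x y, x ≤ y → |T y - T x| ≤ ν.real (Icc x y))
    {O : Set ℝ} {a d : ℝ} (h0 : ∀ z, H z ∈ Icc 0 d)
    (hO : ∀ z, H z ∈ Ioo 0 d → z ∈ O ∧ H z = T z - a) {x y : ℝ} (hxy : x ≤ y) :
    |H y - H x| ≤ ν.real (Ioc x y ∩ O) := by
  have main : ∀ u v, x ≤ u → u < v → v ≤ y → (∀ z ∈ Ioo u v, H z ∈ Ioo 0 d) →
      |H v - H u| ≤ ν.real (Ioc x y ∩ O) := by
    intro u v h1 h2 h3 h4
    have e : EqOn H (fun z => T z - a) (closure (Ioo u v)) :=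
      EqOn.closure (fun z hz => (hO z (h4 z hz)).2) hH (hT.sub continuous_const)
    rw [closure_Ioo h2.ne] at e
    rw [e ⟨le_rfl, h2.le⟩, e ⟨h2.le, le_rfl⟩]
    have := hν u v h2.le
    rw [← measureReal_congr Ioo_ae_eq_Icc] at this
    simp only [sub_sub_sub_cancel_right]
    exact this.trans (measureReal_mono fun z hz =>
      ⟨⟨h1.trans_lt hz.1, hz.2.le.trans h3⟩, (hO z (h4 z hz)).1⟩)
  rcases lt_trichotomy (H x) (H y) with h | h | h
  · obtain ⟨u, v, h1, h2, h3, e1, e2, h4⟩ := exists_cross hH hxy h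
    rw [← e1, ← e2]
    exact main u v h1 h2 h3 fun z hz =>
      ⟨(h0 x).1.trans_lt (h4 z hz).1, (h4 z hz).2.trans_le (h0 y).2⟩
  · rw [h]; simp
  · obtain ⟨u, v, h1, h2, h3, e1, e2, h4⟩ := exists_cross hH.neg hxy (neg_lt_neg h)
    simp only [Pi.neg_apply, neg_inj, neg_lt_neg_iff] at e1 e2 h4
    rw [← e1, ← e2]
    exact main u v h1 h2 h3 fun z hz =>
      ⟨(h0 y).1.trans_lt (h4 z hz).2, (h4 z hz).1.trans_le (h0 x).2⟩

/-- the chain inequality along a continuous path -/
theorem chain_le (ν₁ ν₂ : Measure ℝ) [IsFiniteMeasure ν₁] [NullSingletonClass ν₁]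
    [IsFiniteMeasure ν₂] [NullSingletonClass ν₂] (N : ℕ) (b q H : ℕ → ℝ → ℝ) (O : ℕ → Set ℝ)
    {x₀ x₁ C : ℝ} (h01 : x₀ ≤ x₁) (hb : ∀ k, Continuous (b k)) (hq : ∀ k, Measurable (q k))
    (hC : ∀ k s, |q k s| ≤ C) (hC' : ∀ k s, |b k s| ≤ C) (hH : ∀ k, Continuous (H k))
    (hH' : ∀ k s, |H k s| ≤ C) (hO : ∀ k, MeasurableSet (O k))
    (hloc : ∀ k x, ∀ᶠ y in 𝓝[>] x, b k y = b k x + q k x * (y - x) ∧ q k y = q k x)
    (h1 : ∀ x y, x₀ ≤ x → x ≤ y → y ≤ x₁ → y - x ≤ ν₁.real (Ioc x y))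
    (h2 : ∀ k < N, ∀ x y, x ≤ y → |H k y - H k x| ≤ ν₂.real (Ioc x y ∩ O k)) :
    ∑ k ∈ Finset.range N, b k x₀ * H k x₀ - ∑ k ∈ Finset.range N, b k x₁ * H k x₁ ≤
      ∫ s in x₀..x₁, |∑ k ∈ Finset.range N, q k s * H k s| ∂ν₁ +
      ∑ k ∈ Finset.range N, ∫ s in x₀..x₁, (O k).indicator (fun s => |b k s|) s ∂ν₂ := by
  set F : ℝ → ℝ := fun s => ∑ k ∈ Finset.range N, b k s * H k s with hF
  set A : ℝ → ℝ := fun s => |∑ k ∈ Finset.range N, q k s * H k s| with hA
  set B : ℕ → ℝ → ℝ := fun k => (O k).indicator (fun s => |b k s|) with hB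
  have hC0 : 0 ≤ C := (abs_nonneg _).trans (hC 0 0)
  have iA : Integrable A ν₁ := by
    refine Integrable.of_bound (C := N * (C * C)) ?_ (ae_of_all _ fun s => ?_)
    · exact (Finset.measurable_sum _ fun k _ => (hq k).mul (hH k).measurable).abs.aestronglyMeasurable
    · simp only [hA, Real.norm_eq_abs, abs_abs]
      refine (Finset.abs_sum_le_sum_abs _ _).trans ?_
      refine (Finset.sum_le_card_nsmul _ _ (C * C) fun k _ => ?_).trans (by simp)
      rw [abs_mul]; exact mul_le_mul (hC k s) (hH' k s) (abs_nonneg _) hC0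
  have iB : ∀ k, Integrable (B k) ν₂ := fun k => by
    refine (Integrable.of_bound (C := C) (hb k).abs.aestronglyMeasurable
      (ae_of_all _ fun s => ?_)).indicator (hO k)
    simpa using hC' k s
  have hFc : Continuous F := continuous_finsetSum _ fun k _ => (hb k).mul (hH k)
  refine le_of_forall_pos_le_add fun ε hε => ?_
  obtain ⟨δ, hδ, hδ'⟩ : ∃ δ > 0, δ * (ν₁.real univ + N * ν₂.real univ) ≤ ε := by
    have : 0 ≤ ν₁.real univ + N * ν₂.real univ := by positivity
    refine ⟨ε / (ν₁.real univ + N * ν₂.real univ + 1), by positivity, ?_⟩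
    rw [div_mul_eq_mul_div, div_le_iff₀ (by positivity)]; nlinarith
  have iA' : Integrable (fun s => A s + δ) ν₁ := iA.add (integrable_const _)
  have iB' : ∀ k, Integrable (fun s => B k s + δ) ν₂ := fun k => (iB k).add (integrable_const _)
  set Φ : ℝ → ℝ := fun y => ∫ s in x₀..y, (A s + δ) ∂ν₁ +
    ∑ k ∈ Finset.range N, ∫ s in x₀..y, (B k s + δ) ∂ν₂ with hΦ
  have hΦc : Continuous Φ :=
    (intervalIntegral.continuous_primitive (fun _ _ => iA'.intervalIntegrable) _).add
      (continuous_finsetSum _ fun k _ =>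
        intervalIntegral.continuous_primitive (fun _ _ => (iB' k).intervalIntegrable) _)
  have main : Icc x₀ x₁ ⊆ {y | F x₀ - F y ≤ Φ y} := by
    refine IsClosed.Icc_subset_of_forall_exists_gt
      ((isClosed_le (continuous_const.sub hFc) hΦc).inter isClosed_Icc) (by simp [hΦ]) ?_
    rintro x ⟨hx, hx0, hx1⟩ y' hy'
    set G : ℝ → ℝ := fun s => ∑ k ∈ Finset.range N, q k x * H k s with hG
    have hGc : Continuous G := continuous_finsetSum _ fun k _ => continuous_const.mul (hH k)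
    have ev : ∀ᶠ z in 𝓝[>] x, (∀ k ∈ Finset.range N, (b k z = b k x + q k x * (z - x) ∧
        q k z = q k x) ∧ |b k z - b k x| < δ) ∧ |G z - G x| < δ / 2 ∧ z < min x₁ y' := by
      refine ((eventually_all_finset _).2 fun k _ => (hloc k x).and ?_).and (Eventually.and ?_ ?_)
      · exact nhdsWithin_le_nhds (Metric.tendsto_nhds.1 ((hb k).tendsto x) δ hδ)
      · exact nhdsWithin_le_nhds (Metric.tendsto_nhds.1 (hGc.tendsto x) _ (half_pos hδ))
      · exact nhdsWithin_le_nhds (Iio_mem_nhds (lt_min hx1 hy'))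
    obtain ⟨u, hu, hu'⟩ := mem_nhdsGT_iff_exists_Ioc_subset.1 ev
    have hux := hu' ⟨hu, le_rfl⟩
    have hu1 : u < x₁ := (lt_min_iff.1 hux.2.2).1
    refine ⟨u, ?_, hu, (lt_min_iff.1 hux.2.2).2.le⟩
    have e1 : F x - F u = ∑ k ∈ Finset.range N, b k x * (H k x - H k u) - (u - x) * G u := by
      simp only [hF, hG, Finset.mul_sum, ← Finset.sum_sub_distrib]
      refine Finset.sum_congr rfl fun k hk => ?_
      rw [(hux.1 k hk).1.1]; ring
    have e2 : Φ u = Φ x + (∫ s in x..u, (A s + δ) ∂ν₁ +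
        ∑ k ∈ Finset.range N, ∫ s in x..u, (B k s + δ) ∂ν₂) := by
      simp only [hΦ]
      rw [← intervalIntegral.integral_add_adjacent_intervals (b := x) iA'.intervalIntegrable
        iA'.intervalIntegrable, Finset.sum_congr rfl fun k _ =>
        (intervalIntegral.integral_add_adjacent_intervals (a := x₀) (b := x) (c := u)
          (iB' k).intervalIntegrable (iB' k).intervalIntegrable).symm, Finset.sum_add_distrib]
      ring
    have i1 : -((u - x) * G u) ≤ ∫ s in x..u, (A s + δ) ∂ν₁ := by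
      rw [intervalIntegral.integral_of_le (le_of_lt hu)]
      calc -((u - x) * G u) ≤ (u - x) * |G u| := by
            rw [← mul_neg]; exact mul_le_mul_of_nonneg_left (neg_le_abs _) (sub_nonneg.2 hu.le)
        _ ≤ ν₁.real (Ioc x u) * |G u| := by gcongr; exact h1 x u hx0 hu.le hu1.le
        _ = ∫ _ in Ioc x u, |G u| ∂ν₁ := by simp
        _ ≤ _ := by
            refine setIntegral_mono_on (integrable_const _) iA'.integrableOn measurableSet_Ioc
              fun z hz => ?_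
            have hz' := hu' hz
            have : A z = |G z| := by
              simp only [hA, hG]; congr 1
              exact Finset.sum_congr rfl fun k hk => by rw [(hz'.1 k hk).1.2]
            rw [this]
            have a1 := abs_sub_abs_le_abs_sub (G u) (G x)
            have a2 := abs_sub_abs_le_abs_sub (G x) (G z)
            have a3 := hz'.2.1
            rw [abs_sub_comm] at a3
            linarith [hux.2.1]
    have i2 : ∀ k ∈ Finset.range N,
        b k x * (H k x - H k u) ≤ ∫ s in x..u, (B k s + δ) ∂ν₂ := by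
      intro k hk
      rw [intervalIntegral.integral_of_le (le_of_lt hu)]
      calc b k x * (H k x - H k u) ≤ |H k u - H k x| * |b k x| := by
            rw [abs_sub_comm, mul_comm (|_|), ← abs_mul]; exact le_abs_self _
        _ ≤ ν₂.real (Ioc x u ∩ O k) * |b k x| := by
            gcongr; exact h2 k (Finset.mem_range.1 hk) x u hu.le
        _ = ∫ z in Ioc x u, (O k).indicator (fun _ => |b k x|) z ∂ν₂ := by
            rw [integral_indicator (hO k), Measure.restrict_restrict (hO k), inter_comm]; simp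
        _ ≤ _ := by
            refine setIntegral_mono_on ((integrable_const _).indicator (hO k))
              (iB' k).integrableOn measurableSet_Ioc fun z hz => ?_
            have hz' := ((hu' hz).1 k hk).2
            by_cases hzO : z ∈ O k
            · simp only [hB, indicator_of_mem hzO]
              have a1 := abs_sub_abs_le_abs_sub (b k x) (b k z)
              rw [abs_sub_comm] at hz'
              linarith
            · simp only [hB, indicator_of_notMem hzO]; linarith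
    have := Finset.sum_le_sum i2
    simp only [mem_ofPred_eq] at hx ⊢
    linarith
  have fin := main ⟨h01, le_rfl⟩
  simp only [mem_ofPred_eq, hΦ] at fin
  have c1 : ∀ (ν : Measure ℝ) [IsFiniteMeasure ν], ∫ _ in x₀..x₁, δ ∂ν ≤ δ * ν.real univ := by
    intro ν _
    rw [intervalIntegral.integral_of_le h01]
    simp only [integral_const, MeasurableSet.univ, measureReal_restrict_apply, univ_inter,
      smul_eq_mul, mul_comm δ]
    exact mul_le_mul_of_nonneg_right (measureReal_mono (subset_univ _) (measure_ne_top ν _)) hδ.le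
  rw [intervalIntegral.integral_add iA.intervalIntegrable intervalIntegrable_const,
    Finset.sum_congr rfl fun k _ => intervalIntegral.integral_add (iB k).intervalIntegrable
      intervalIntegrable_const, Finset.sum_add_distrib] at fin
  have c2 := Finset.sum_le_card_nsmul (Finset.range N) _ _ fun k _ => c1 ν₂
  simp only [Finset.card_range, nsmul_eq_mul] at c2
  have c3 := c1 ν₁
  nlinarith

end Pool.Agent.Lib.MP_9b2593_an
end

-- part Pool.Agent.Lib.MP_9b2593_an.Geo
section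

/-!
Logarithmic coordinates for a normalized univalent function.
-/

namespace Pool.Agent.Lib.MP_9b2593_an

open MeasureTheory Set Filter Topology Metric Complex

def JJ : Set ℝ := Ioc (-Real.pi) Real.pi

noncomputable def pt (s φ : ℝ) : ℂ := (s : ℂ) + (φ : ℂ) * I

@[simp] theorem pt_re (s φ : ℝ) : (pt s φ).re = s := by simp [pt]
@[simp] theorem pt_im (s φ : ℝ) : (pt s φ).im = φ := by simp [pt]

theorem pt_eta (z : ℂ) : pt z.re z.im = z := Complex.ext (by simp) (by simp)

theorem norm_exp_pt (s φ : ℝ) : ‖exp (pt s φ)‖ = Real.exp s := by simp [Complex.norm_exp]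

theorem cont_pt : Continuous fun p : ℝ × ℝ => pt p.1 p.2 := by unfold pt; fun_prop

theorem exists_pt {w : ℂ} (hw : w ≠ 0) : ∃ φ ∈ JJ, exp (pt (Real.log ‖w‖) φ) = w :=
  ⟨w.arg, w.arg_mem_Ioc, by
    conv_rhs => rw [← Complex.exp_log hw]
    rfl⟩

/-- half of the angular measure of `U` on the circle of radius `exp s` -/
noncomputable def cm (U : Set ℂ) (s : ℝ) : ℝ := volume.real {φ ∈ JJ | exp (pt s φ) ∈ U} / 2

theorem vol_JJ : volume JJ = ENNReal.ofReal (2 * Real.pi) := by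
  simp only [JJ, Real.volume_Ioc]; congr 1; ring

theorem sep_ne_top (p : ℝ → Prop) : volume {φ ∈ JJ | p φ} ≠ ⊤ :=
  ne_top_of_le_ne_top (by rw [vol_JJ]; exact ENNReal.ofReal_ne_top) (measure_mono (sep_subset _ _))

theorem cm_nonneg (U : Set ℂ) (s : ℝ) : 0 ≤ cm U s := by unfold cm; positivity

theorem cm_mono {U V : Set ℂ} (h : U ⊆ V) (s : ℝ) : cm U s ≤ cm V s :=
  div_le_div_of_nonneg_right (measureReal_mono (fun _ hx => ⟨hx.1, h hx.2⟩) (sep_ne_top _))
    (by norm_num)

theorem cm_eq_pi {U : Set ℂ} {s : ℝ} (h : ∀ w : ℂ, ‖w‖ = Real.exp s → w ∈ U) : cm U s = Real.pi := by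
  have : {φ ∈ JJ | exp (pt s φ) ∈ U} = JJ := sep_eq_self_iff_mem_true.2 fun _ _ =>
    h _ (norm_exp_pt _ _)
  rw [cm, this, Measure.real, vol_JJ, ENNReal.toReal_ofReal (by positivity)]; ring

theorem cm_le_pi (U : Set ℂ) (s : ℝ) : cm U s ≤ Real.pi :=
  (cm_mono (subset_univ U) s).trans (cm_eq_pi fun _ _ => mem_univ _).le

theorem cm_eq_zero {U : Set ℂ} {s : ℝ} (h : ∀ w : ℂ, ‖w‖ = Real.exp s → w ∉ U) : cm U s = 0 := by
  have : {φ ∈ JJ | exp (pt s φ) ∈ U} = ∅ := sep_eq_empty_iff_mem_false.2 fun _ _ =>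
    h _ (norm_exp_pt _ _)
  simp [cm, this]

noncomputable def ZZ (L : ℂ → ℂ) (ζ : ℂ) : ℂ := ζ + L (exp ζ)

noncomputable def ZD (L : ℂ → ℂ) (ζ : ℂ) : ℂ := 1 + deriv L (exp ζ) * exp ζ

structure Hyp0 (f L : ℂ → ℂ) : Prop where
  df : DifferentiableOn ℂ f (ball 0 1)
  inj : InjOn f (ball 0 1)
  dL : DifferentiableOn ℂ L (ball 0 1)
  L0 : L 0 = 0
  eq : ∀ z ∈ ball (0 : ℂ) 1, f z = z * exp (L z)

theorem exists_L {f : ℂ → ℂ} (df : DifferentiableOn ℂ f (ball 0 1)) (inj : InjOn f (ball 0 1))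
    (h0 : f 0 = 0) (h1 : deriv f 0 = 1) : ∃ L, Hyp0 f L := by
  have m0 : (0 : ℂ) ∈ ball (0 : ℂ) 1 := mem_ball_self one_pos
  set g := dslope f 0 with hg
  have dg : DifferentiableOn ℂ g (ball 0 1) :=
    (differentiableOn_dslope (ball_mem_nhds _ one_pos)).2 df
  have g0 : g 0 = 1 := by rw [hg, dslope_same, h1]
  have fg : ∀ z, f z = z * g z := fun z => by
    have := sub_smul_dslope f 0 z
    simpa [h0] using this.symm
  have gne : ∀ z ∈ ball (0 : ℂ) 1, g z ≠ 0 := fun z hz hz0 => by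
    have : z = 0 := inj hz m0 (by rw [fg z, hz0, h0, mul_zero])
    rw [this, g0] at hz0; exact one_ne_zero hz0
  have dq : DifferentiableOn ℂ (fun z => deriv g z / g z) (ball 0 1) :=
    (dg.deriv isOpen_ball).div dg gne
  obtain ⟨L, hL0, hL⟩ := dq.isExactOn_ball.with_val_at 0 0
  have dL : DifferentiableOn ℂ L (ball 0 1) := fun z hz =>
    (hL z hz).differentiableAt.differentiableWithinAt
  have hc : ∀ z ∈ ball (0 : ℂ) 1, HasDerivAt (fun z => g z * exp (-L z)) 0 z := fun z hz => by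
    have := ((dg z hz).differentiableAt (isOpen_ball.mem_nhds hz)).hasDerivAt.mul (hL z hz).neg.cexp
    refine this.congr_deriv ?_
    have := gne z hz
    field_simp; ring
  refine ⟨L, df, inj, dL, hL0, fun z hz => ?_⟩
  have := isOpen_ball.is_const_of_deriv_eq_zero (convex_ball (0 : ℂ) 1).isPreconnected
    (fun z hz => (hc z hz).differentiableAt.differentiableWithinAt)
    (fun z hz => (hc z hz).deriv) hz m0
  simp only [g0, hL0, neg_zero, Complex.exp_zero, mul_one] at this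
  rw [fg z]; congr 1
  rw [Complex.exp_neg] at this
  have e := Complex.exp_ne_zero (L z)
  field_simp at this
  exact this

theorem exp_mem_ball {ζ : ℂ} (h : ζ.re < 0) : exp ζ ∈ ball (0 : ℂ) 1 := by
  simpa [Complex.norm_exp] using h

namespace Hyp0

variable {f L : ℂ → ℂ} (H : Hyp0 f L)
include H

theorem f0 : f 0 = 0 := by rw [H.eq 0 (mem_ball_self one_pos), zero_mul]

theorem expZ {ζ : ℂ} (h : ζ.re < 0) : exp (ZZ L ζ) = f (exp ζ) := by
  rw [H.eq _ (exp_mem_ball h), ZZ, Complex.exp_add]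

theorem anL {z : ℂ} (h : z ∈ ball (0 : ℂ) 1) : AnalyticAt ℂ L z :=
  H.dL.analyticAt (isOpen_ball.mem_nhds h)

theorem hasZ {ζ : ℂ} (h : ζ.re < 0) : HasDerivAt (ZZ L) (ZD L ζ) ζ :=
  (hasDerivAt_id ζ).add ((H.anL (exp_mem_ball h)).differentiableAt.hasDerivAt.comp ζ
    (Complex.hasDerivAt_exp ζ))

theorem contZD {ζ : ℂ} (h : ζ.re < 0) : ContinuousAt (ZD L) ζ :=
  continuousAt_const.add ((ContinuousAt.comp (f := exp) (H.anL (exp_mem_ball h)).deriv.continuousAt
    Complex.continuous_exp.continuousAt).mul Complex.continuous_exp.continuousAt)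

theorem hasZpt {σ : ℝ} (h : σ < 0) (ψ : ℝ) :
    HasDerivAt (fun ψ => ZZ L (pt σ ψ)) (ZD L (pt σ ψ) * I) ψ := by
  have h1 : HasDerivAt (fun ψ : ℝ => pt σ ψ) I ψ := by
    simpa [pt] using ((Complex.ofRealCLM.hasDerivAt (x := ψ)).mul_const I).const_add (σ : ℂ)
  exact (H.hasZ (by simpa using h)).comp_of_eq ψ h1 rfl

theorem has_re {σ : ℝ} (h : σ < 0) (ψ : ℝ) :
    HasDerivAt (fun ψ => (ZZ L (pt σ ψ)).re) (-(ZD L (pt σ ψ)).im) ψ := by
  simpa using! Complex.reCLM.hasFDerivAt.comp_hasDerivAt ψ (H.hasZpt h ψ)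

theorem has_im {σ : ℝ} (h : σ < 0) (ψ : ℝ) :
    HasDerivAt (fun ψ => (ZZ L (pt σ ψ)).im) (ZD L (pt σ ψ)).re ψ := by
  simpa using! Complex.imCLM.hasFDerivAt.comp_hasDerivAt ψ (H.hasZpt h ψ)

theorem cont_re {σ : ℝ} (h : σ < 0) : Continuous fun ψ => (ZZ L (pt σ ψ)).re :=
  continuous_iff_continuousAt.2 fun ψ => (H.has_re h ψ).continuousAt

theorem cont_ZD {σ : ℝ} (h : σ < 0) : Continuous fun ψ => ZD L (pt σ ψ) :=
  continuous_iff_continuousAt.2 fun ψ => ContinuousAt.comp (f := fun ψ => pt σ ψ)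
    (H.contZD (by simpa using h)) (by unfold pt; fun_prop)

omit H in
theorem per_re (σ : ℝ) : (ZZ L (pt σ (-Real.pi))).re = (ZZ L (pt σ Real.pi)).re := by
  have : exp (pt σ (-Real.pi)) = exp (pt σ Real.pi) :=
    Complex.exp_eq_exp_iff_exists_int.2 ⟨-1, by simp [pt]; ring⟩
  simp [ZZ, this]

theorem isOpen_img {r : ℝ} (hr : r ≤ 1) : IsOpen (f '' ball 0 r) := by
  rcases (H.df.analyticOnNhd isOpen_ball).is_constant_or_isOpen
    (convex_ball (0 : ℂ) 1).isPreconnected with ⟨w, hw⟩ | h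
  · have m : (1 / 2 : ℂ) ∈ ball (0 : ℂ) 1 := by simp; norm_num
    have := H.inj m (mem_ball_self one_pos) (by rw [hw _ m, hw _ (mem_ball_self one_pos)])
    norm_num at this
  · exact h _ (ball_subset_ball hr) isOpen_ball

/-- a connected set which misses the level curve and meets its inside lies inside -/
theorem conn {σ : ℝ} (h : σ < 0) {C : Set ℂ} (hC : IsPreconnected C)
    (hn : ∀ ψ ∈ JJ, exp (ZZ L (pt σ ψ)) ∉ C) (hm : (C ∩ f '' ball 0 (Real.exp σ)).Nonempty) :
    C ⊆ f '' ball 0 (Real.exp σ) := by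
  have h1 : Real.exp σ < 1 := Real.exp_lt_one_iff.2 h
  have hK : IsCompact (f '' closedBall 0 (Real.exp σ)) := (isCompact_closedBall _ _).image_of_continuousOn
    (H.df.continuousOn.mono (closedBall_subset_ball h1))
  refine hC.subset_left_of_subset_union (H.isOpen_img h1.le) hK.isClosed.isOpen_compl
    (disjoint_compl_right_iff_subset.2 (image_mono ball_subset_closedBall)) (fun w hw => ?_) hm
  by_contra hc
  simp only [mem_union, mem_compl_iff, not_or, not_not] at hc
  obtain ⟨hc1, z, hz, rfl⟩ := hc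
  have hz' : ‖z‖ = Real.exp σ := le_antisymm (by simpa using hz)
    (not_lt.1 fun hlt => hc1 ⟨z, by simpa using hlt, rfl⟩)
  obtain ⟨ψ, hψ, e⟩ := exists_pt (w := z) (by rw [← norm_pos_iff, hz']; positivity)
  rw [hz', Real.log_exp] at e
  exact hn ψ hψ (by rw [H.expZ (by simpa using h), e]; exact hw)

/-- either the function is the identity or the level curves meet circles in countable sets -/
theorem nondeg (hne : ¬ ball (0 : ℂ) 1 ⊆ f '' ball 0 1) {σ : ℝ} (h : σ < 0) (x : ℝ) :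
    {ψ | (ZZ L (pt σ ψ)).re = x}.Countable := by
  have an : AnalyticOnNhd ℝ (fun ψ => (ZZ L (pt σ ψ)).re - x) univ := fun ψ _ => by
    have a1 : AnalyticAt ℝ (fun ψ : ℝ => pt σ ψ) ψ := by
      unfold pt
      exact analyticAt_const.add ((Complex.ofRealCLM.analyticAt ψ).mul analyticAt_const)
    have a2 : AnalyticAt ℂ (ZZ L) (pt σ ψ) :=
      analyticAt_id.add (AnalyticAt.comp (f := exp) (H.anL (exp_mem_ball (by simpa using h)))
        analyticAt_cexp)
    exact ((Complex.reCLM.analyticAt _).comp (AnalyticAt.comp (f := fun ψ : ℝ => pt σ ψ)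
      (a2.restrictScalars (𝕜 := ℝ)) a1)).sub analyticAt_const
  rcases an.eqOn_zero_or_eventually_ne_zero_of_preconnected isPreconnected_univ with hz | hz
  · exfalso
    have h1 : Real.exp σ < 1 := Real.exp_lt_one_iff.2 h
    have hb : ∀ z ∈ frontier (ball (0 : ℂ) (Real.exp σ)), (L z).re = x - σ := by
      rw [frontier_ball _ (Real.exp_pos σ).ne']
      intro z hz'
      have hz' : ‖z‖ = Real.exp σ := by simpa using hz'
      obtain ⟨ψ, -, e⟩ := exists_pt (w := z) (by rw [← norm_pos_iff, hz']; positivity)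
      rw [hz', Real.log_exp] at e
      have := hz (mem_univ ψ)
      simp only [ZZ, e, add_re, pt_re, Pi.zero_apply] at this
      linarith
    have dc : DiffContOnCl ℂ L (ball 0 (Real.exp σ)) := by
      refine DifferentiableOn.diffContOnCl ?_
      rw [closure_ball _ (Real.exp_pos σ).ne']
      exact H.dL.mono (closedBall_subset_ball h1)
    have b1 : ∀ z ∈ ball (0 : ℂ) (Real.exp σ), ‖exp (L z)‖ ≤ Real.exp (x - σ) := fun z hz =>
      Complex.norm_le_of_forall_mem_frontier_norm_le isBounded_ball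
        (Complex.differentiable_exp.comp_diffContOnCl dc)
        (fun z hz => by simp [Complex.norm_exp, hb z hz]) (subset_closure hz)
    have b2 : ‖exp (-L 0)‖ ≤ Real.exp (-(x - σ)) :=
      Complex.norm_le_of_forall_mem_frontier_norm_le (f := fun z => exp (-L z)) isBounded_ball
        (Complex.differentiable_exp.comp_diffContOnCl dc.neg)
        (fun z hz => by simp [Complex.norm_exp, hb z hz])
        (subset_closure (mem_ball_self (Real.exp_pos σ)))
    simp only [H.L0, neg_zero, Complex.exp_zero, norm_one, Real.one_le_exp_iff] at b2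
    have e := Complex.eqOn_of_isPreconnected_of_isMaxOn_norm (f := fun z => exp (L z))
      (convex_ball (0 : ℂ) (Real.exp σ)).isPreconnected isOpen_ball dc.differentiableOn.cexp
      (mem_ball_self (Real.exp_pos σ)) (fun z hz => by
        simp only [mem_ofPred_eq, Function.comp, H.L0, Complex.exp_zero, norm_one]
        exact (b1 z hz).trans (Real.exp_le_one_iff.2 (by linarith)))
    have e2 : EqOn f id (ball 0 1) := by
      refine (H.df.analyticOnNhd isOpen_ball).eqOn_of_preconnected_of_eventuallyEq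
        analyticOnNhd_id (convex_ball (0 : ℂ) 1).isPreconnected (mem_ball_self one_pos) ?_
      filter_upwards [ball_mem_nhds (0 : ℂ) (Real.exp_pos σ)] with z hz
      have := e hz
      simp only [H.L0, Complex.exp_zero, Function.const] at this
      rw [H.eq z (ball_subset_ball h1.le hz), this]; simp
    exact hne fun z hz => ⟨z, hz, e2 hz⟩
  · have := (HereditarilyLindelofSpace.isLindelof _).countable_of_isDiscrete
      (isDiscrete_of_codiscreteWithin (s := {ψ | (ZZ L (pt σ ψ)).re = x}) (U := univ)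
        (by simpa [sub_eq_zero] using! hz))
    simpa using this

end Hyp0

end Pool.Agent.Lib.MP_9b2593_an
end

-- part Pool.Agent.Lib.MP_9b2593_an.Curve
section

/-!
Length inequalities on a level curve.
-/

namespace Pool.Agent.Lib.MP_9b2593_an

open MeasureTheory Set Filter Topology Metric Complex

noncomputable def nu (s w : ℝ → ℝ) : Measure ℝ :=
  ((volume.restrict JJ).withDensity fun ψ => ENNReal.ofReal (|w ψ| / 2)).map s

theorem measJJ : MeasurableSet JJ := measurableSet_Ioc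

theorem nu_lint {s w : ℝ → ℝ} (hs : Continuous s) (hw : Continuous w) {g : ℝ → ENNReal}
    (hg : Measurable g) :
    ∫⁻ x, g x ∂(nu s w) = ∫⁻ ψ in JJ, ENNReal.ofReal (|w ψ| / 2) * g (s ψ) := by
  rw [nu, lintegral_map hg hs.measurable]
  exact lintegral_withDensity_eq_lintegral_mul _ (by fun_prop) (hg.comp hs.measurable)

theorem nu_apply {s w : ℝ → ℝ} (hs : Continuous s) (hw : Continuous w) {E : Set ℝ}
    (hE : MeasurableSet E) :
    2 * nu s w E = ∫⁻ ψ in s ⁻¹' E ∩ JJ, ENNReal.ofReal |w ψ| := by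
  rw [nu, Measure.map_apply hs.measurable hE, withDensity_apply _ (hs.measurable hE),
    Measure.restrict_restrict (hs.measurable hE), ← lintegral_const_mul _ (by fun_prop)]
  refine lintegral_congr fun ψ => ?_
  rw [← ENNReal.ofReal_ofNat, ← ENNReal.ofReal_mul (by norm_num)]; congr 1; ring

theorem nu_fin {s w : ℝ → ℝ} (hw : Continuous w) : IsFiniteMeasure (nu s w) := by
  have : IntegrableOn (fun ψ => |w ψ| / 2) JJ :=
    ((hw.abs.div_const 2).integrableOn_Icc).mono_set Ioc_subset_Icc_self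
  have := isFiniteMeasure_withDensity_ofReal this.2
  unfold nu; infer_instance

theorem nu_null {s w : ℝ → ℝ} (hs : Continuous s) (hc : ∀ x, {ψ | s ψ = x}.Countable) :
    NullSingletonClass (nu s w) := ⟨fun x => by
  rw [nu, Measure.map_apply hs.measurable (measurableSet_singleton x)]
  exact withDensity_absolutelyContinuous _ _
    (Measure.restrict_le_self.absolutelyContinuous ((hc x).measure_zero _))⟩

theorem le_nu {s w : ℝ → ℝ} (hw : Continuous w) {E : Set ℝ} {a : ℝ}
    (h : ENNReal.ofReal (2 * a) ≤ 2 * nu s w E) : a ≤ (nu s w).real E := by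
  have := nu_fin (s := s) hw
  rw [← ofReal_measureReal, ← ENNReal.ofReal_ofNat, ← ENNReal.ofReal_mul (by norm_num),
    ENNReal.ofReal_le_ofReal_iff (by positivity)] at h
  linarith

/-- a closed curve crosses every level between its extreme values twice -/
theorem len_le {s w : ℝ → ℝ} (hs : ∀ ψ, HasDerivAt s (w ψ) ψ) (hw : Continuous w)
    (hp : s (-Real.pi) = s Real.pi) {p q : ℝ} (hp' : p ∈ Icc (-Real.pi) Real.pi)
    (hq' : q ∈ Icc (-Real.pi) Real.pi) {x y : ℝ} (hx : s p ≤ x) (hy : y ≤ s q) :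
    y - x ≤ (nu s w).real (Ioc x y) := by
  have hc : Continuous s := continuous_iff_continuousAt.2 fun ψ => (hs ψ).continuousAt
  refine le_nu hw ?_
  have hE : MeasurableSet (s ⁻¹' Ioc x y ∩ JJ) := (hc.measurable measurableSet_Ioc).inter measJJ
  obtain ⟨a, b, hab, ha, hb, hz⟩ : ∃ a b, a ≤ b ∧ -Real.pi ≤ a ∧ b ≤ Real.pi ∧
      ∀ z ∈ Ioo x y, z ∈ uIcc (s a) (s b) ∧ z ≠ s a ∧ z ≠ s b := by
    rcases le_total p q with h | h
    · exact ⟨p, q, h, hp'.1, hq'.2, fun z hz => ⟨mem_uIcc_of_le (hx.trans hz.1.le)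
        (hz.2.le.trans hy), (hx.trans_lt hz.1).ne', (hz.2.trans_le hy).ne⟩⟩
    · exact ⟨q, p, h, hq'.1, hp'.2, fun z hz => ⟨mem_uIcc_of_ge (hx.trans hz.1.le)
        (hz.2.le.trans hy), (hz.2.trans_le hy).ne, (hx.trans_lt hz.1).ne'⟩⟩
  rw [nu_apply hc hw measurableSet_Ioc,
    ← lintegral_inter_add_sdiff _ _ (measurableSet_Ioc (a := a) (b := b)), two_mul]
  refine ENNReal.ofReal_add_le.trans (add_le_add ?_ ?_)
  · refine le_trans ?_ (vol_image_le (hE.inter measurableSet_Ioc) hs)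
    rw [← Real.volume_Ioo]
    refine measure_mono fun z hz' => ?_
    obtain ⟨h1, h2, -⟩ := hz z hz'
    obtain ⟨ψ, hψ, rfl⟩ := intermediate_value_uIcc hc.continuousOn h1
    rw [uIcc_of_le hab] at hψ
    have : a < ψ := lt_of_le_of_ne hψ.1 fun e => h2 (by rw [e])
    exact ⟨ψ, ⟨⟨Ioo_subset_Ioc_self hz', ha.trans_lt this, hψ.2.trans hb⟩, this, hψ.2⟩, rfl⟩
  · refine le_trans ?_ (vol_image_le (hE.diff measurableSet_Ioc) hs)
    rw [← Real.volume_Ioo]
    refine measure_mono fun z hz' => ?_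
    obtain ⟨h1, h2, h3⟩ := hz z hz'
    rcases uIcc_subset_uIcc_union_uIcc (b := s Real.pi) h1 with h | h
    · rw [← hp] at h
      obtain ⟨ψ, hψ, rfl⟩ := intermediate_value_uIcc hc.continuousOn h
      rw [uIcc_of_ge ha] at hψ
      rcases hψ.1.eq_or_lt with e | e
      · refine ⟨Real.pi, ⟨⟨?_, by linarith [Real.pi_pos], le_rfl⟩, fun h' => h3 ?_⟩, ?_⟩
        · rw [mem_preimage, ← hp, e]; exact Ioo_subset_Ioc_self hz'
        · rw [← e, hp, le_antisymm h'.2 hb]
        · rw [← hp, e]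
      · exact ⟨ψ, ⟨⟨Ioo_subset_Ioc_self hz', e, hψ.2.trans (hab.trans hb)⟩,
          fun h' => absurd h'.1 (not_lt.2 hψ.2)⟩, rfl⟩
    · obtain ⟨ψ, hψ, rfl⟩ := intermediate_value_uIcc hc.continuousOn h
      rw [uIcc_of_ge hb] at hψ
      have : b < ψ := lt_of_le_of_ne hψ.1 fun e => h3 (by rw [e])
      exact ⟨ψ, ⟨⟨Ioo_subset_Ioc_self hz', (ha.trans hab).trans_lt this, hψ.2⟩,
        fun h' => absurd h'.2 (not_le.2 this)⟩, rfl⟩

theorem cont_of_var (ν : Measure ℝ) [IsFiniteMeasure ν] [NullSingletonClass ν] {T : ℝ → ℝ}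
    (h : ∀ x y, x ≤ y → |T y - T x| ≤ ν.real (Icc x y)) : Continuous T := by
  have i1 : ∀ a b, IntervalIntegrable (fun _ : ℝ => (1 : ℝ)) ν a b := fun _ _ =>
    intervalIntegrable_const
  refine continuous_iff_continuousAt.2 fun x => ?_
  have hc := (intervalIntegral.continuous_primitive i1 x).abs.tendsto x
  simp only [intervalIntegral.integral_same, abs_zero] at hc
  refine tendsto_iff_norm_sub_tendsto_zero.2 (squeeze_zero (fun _ => norm_nonneg _) (fun y => ?_) hc)
  rcases le_total x y with hxy | hxy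
  · rw [intervalIntegral.integral_of_le hxy]
    simpa [measureReal_congr (Ioc_ae_eq_Icc (μ := ν))] using (h x y hxy).trans (le_abs_self _)
  · rw [intervalIntegral.integral_of_ge hxy, norm_sub_rev]
    simpa [measureReal_congr (Ioc_ae_eq_Icc (μ := ν))] using (h y x hxy).trans (le_abs_self _)

namespace Hyp0

variable {f L : ℂ → ℂ} (H : Hyp0 f L)
include H

theorem ang_le {σ : ℝ} (h : σ < 0) {x y u v : ℝ} (hu : u ∈ Icc x y) (hv : v ∈ Icc x y) :
    cm (f '' ball 0 (Real.exp σ)) u - cm (f '' ball 0 (Real.exp σ)) v ≤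
      (nu (fun ψ => (ZZ L (pt σ ψ)).re) (fun ψ => (ZD L (pt σ ψ)).re)).real (Icc x y) := by
  have hw : Continuous fun ψ => (ZD L (pt σ ψ)).re := Complex.continuous_re.comp (H.cont_ZD h)
  refine le_nu hw ?_
  have hE := ((H.cont_re h).measurable (measurableSet_Icc (a := x) (b := y))).inter measJJ
  rw [nu_apply (H.cont_re h) hw measurableSet_Icc]
  refine le_trans ?_ (vol_image_le hE (H.has_im h))
  set D := f '' ball 0 (Real.exp σ)
  refine le_trans ?_ (vol_mod_le _ {φ ∈ JJ | exp (pt u φ) ∈ D ∧ exp (pt v φ) ∉ D}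
    (sep_subset _ _) ?_)
  · rw [← ENNReal.ofReal_toReal (sep_ne_top fun φ => exp (pt u φ) ∈ D ∧ exp (pt v φ) ∉ D)]
    refine ENNReal.ofReal_le_ofReal ?_
    have : volume.real {φ ∈ JJ | exp (pt u φ) ∈ D} ≤ volume.real ({φ ∈ JJ | exp (pt v φ) ∈ D} ∪
        {φ ∈ JJ | exp (pt u φ) ∈ D ∧ exp (pt v φ) ∉ D}) :=
      measureReal_mono (fun φ hφ => by
        by_cases h' : exp (pt v φ) ∈ D
        · exact Or.inl ⟨hφ.1, h'⟩
        · exact Or.inr ⟨hφ.1, hφ.2, h'⟩)
        (measure_union_ne_top (sep_ne_top _) (sep_ne_top _))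
    have := this.trans (measureReal_union_le _ _)
    simp only [cm, Measure.real] at this ⊢
    linarith
  · rintro φ ⟨-, h1, h2⟩
    by_contra hc
    have hC : IsPreconnected ((fun s => exp (pt s φ)) '' Icc x y) :=
      isPreconnected_Icc.image _ (by unfold pt; fun_prop)
    refine h2 (H.conn h hC ?_ ⟨_, ⟨u, hu, rfl⟩, h1⟩ ⟨v, hv, rfl⟩)
    rintro ψ hψ ⟨s, hs, e⟩
    obtain ⟨n, hn⟩ := Complex.exp_eq_exp_iff_exists_int.1 e
    refine hc ⟨n, _, ⟨ψ, ⟨?_, hψ⟩, rfl⟩, ?_⟩
    · have := congrArg Complex.re hn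
      simp at this
      rw [mem_preimage, ← this]; exact hs
    · simpa using congrArg Complex.im hn

/-- the facts about one level curve which are used in the length estimate -/
theorem curve (hne : ¬ ball (0 : ℂ) 1 ⊆ f '' ball 0 1) {σ : ℝ} (h : σ < 0) :
    Continuous (cm (f '' ball 0 (Real.exp σ))) ∧
    ∃ p q, (ZZ L (pt σ p)).re ≤ (ZZ L (pt σ q)).re ∧ p ∈ Icc (-Real.pi) Real.pi ∧
      q ∈ Icc (-Real.pi) Real.pi ∧
      ball 0 (Real.exp (ZZ L (pt σ p)).re) ⊆ f '' ball 0 (Real.exp σ) ∧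
      cm (f '' ball 0 (Real.exp σ)) (ZZ L (pt σ p)).re = Real.pi ∧
      cm (f '' ball 0 (Real.exp σ)) (ZZ L (pt σ q)).re = 0 := by
  have hw : Continuous fun ψ => (ZD L (pt σ ψ)).re := Complex.continuous_re.comp (H.cont_ZD h)
  have := nu_fin (s := fun ψ => (ZZ L (pt σ ψ)).re) hw
  have := nu_null (w := fun ψ => (ZD L (pt σ ψ)).re) (H.cont_re h) (H.nondeg hne h)
  have hT : Continuous (cm (f '' ball 0 (Real.exp σ))) := cont_of_var _ fun x y hxy =>
    abs_sub_le_iff.2 ⟨H.ang_le h ⟨hxy, le_rfl⟩ ⟨le_rfl, hxy⟩, H.ang_le h ⟨le_rfl, hxy⟩ ⟨hxy, le_rfl⟩⟩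
  have ne : (Icc (-Real.pi) Real.pi).Nonempty := ⟨0, by simp [Real.pi_pos.le]⟩
  obtain ⟨p, hp, hp'⟩ := isCompact_Icc.exists_isMinOn ne (H.cont_re h).continuousOn
  obtain ⟨q, hq, hq'⟩ := isCompact_Icc.exists_isMaxOn ne (H.cont_re h).continuousOn
  have h1 : Real.exp σ < 1 := Real.exp_lt_one_iff.2 h
  have hb : ball 0 (Real.exp (ZZ L (pt σ p)).re) ⊆ f '' ball 0 (Real.exp σ) := by
    refine H.conn h (convex_ball _ _).isPreconnected (fun ψ hψ => ?_)
      ⟨0, mem_ball_self (Real.exp_pos _), 0, mem_ball_self (Real.exp_pos _), H.f0⟩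
    simpa [Complex.norm_exp] using hp' (Ioc_subset_Icc_self hψ)
  have hb2 : ∀ z ∈ ball (0 : ℂ) (Real.exp σ), ‖f z‖ ≤ Real.exp (ZZ L (pt σ q)).re := by
    intro z hz
    refine Complex.norm_le_of_forall_mem_frontier_norm_le isBounded_ball
      (DifferentiableOn.diffContOnCl ?_) (fun z hz => ?_) (subset_closure hz)
    · rw [closure_ball _ (Real.exp_pos σ).ne']
      exact H.df.mono (closedBall_subset_ball h1)
    · rw [frontier_ball _ (Real.exp_pos σ).ne'] at hz
      have hz' : ‖z‖ = Real.exp σ := by simpa using hz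
      obtain ⟨ψ, hψ, e⟩ := exists_pt (w := z) (by rw [← norm_pos_iff, hz']; positivity)
      rw [hz', Real.log_exp] at e
      rw [← e, ← H.expZ (by simpa using h), Complex.norm_exp]
      exact Real.exp_le_exp.2 (hq' (Ioc_subset_Icc_self hψ))
  refine ⟨hT, p, q, hp' hq, hp, hq, hb, ?_, ?_⟩
  · have e : EqOn (cm (f '' ball 0 (Real.exp σ))) (fun _ => Real.pi)
        (closure (Iio (ZZ L (pt σ p)).re)) :=
      EqOn.closure (fun x hx => cm_eq_pi fun w hw => hb (by simpa [hw] using hx)) hT continuous_const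
    exact e (by simp)
  · have e : EqOn (cm (f '' ball 0 (Real.exp σ))) (fun _ => 0)
        (closure (Ioi (ZZ L (pt σ q)).re)) :=
      EqOn.closure (fun x hx => cm_eq_zero fun w hw => by
        rintro ⟨z, hz, rfl⟩
        have := hb2 z hz
        rw [hw, Real.exp_le_exp] at this
        exact absurd hx (not_lt.2 this)) hT continuous_const
    exact e (by simp)

end Hyp0

end Pool.Agent.Lib.MP_9b2593_an
end

-- part Pool.Agent.Lib.MP_9b2593_an.Length
section

/-!
The length inequality for a test stream function.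
-/

namespace Pool.Agent.Lib.MP_9b2593_an

open MeasureTheory Set Filter Topology Metric Complex

/-- slopes of a stream function in the rows and their radial derivatives -/
structure Fld where
  b : ℕ → ℝ → ℝ
  q : ℕ → ℝ → ℝ

structure Fld.Ok (F : Fld) : Prop where
  cb : ∀ k, Continuous (F.b k)
  mq : ∀ k, Measurable (F.q k)
  bd : ∃ C, ∀ k s, |F.q k s| ≤ C ∧ |F.b k s| ≤ C
  loc : ∀ k x, ∀ᶠ y in 𝓝[>] x, F.b k y = F.b k x + F.q k x * (y - x) ∧ F.q k y = F.q k x

noncomputable def clp (t : ℕ → ℝ) (k : ℕ) (x : ℝ) : ℝ := min (max (x - t k) 0) (t (k + 1) - t k)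

/-- radii at which the row starting at height `u` is switched off -/
def II (τ : ℝ → ℝ) (c u : ℝ) : Set ℝ :=
  {s | (s ≤ c ∧ ∃ s' ≤ s, τ s' ≤ u) ∨ (c < s ∧ ∃ s' ∈ Icc s 0, τ s' ≤ u)}

open Classical in
noncomputable def hh (I : ℕ → Set ℝ) (t : ℕ → ℝ) (k : ℕ) (s x : ℝ) : ℝ :=
  if s ∈ I k then 0 else clp t k x

noncomputable def AA (I : ℕ → Set ℝ) (t : ℕ → ℝ) (N : ℕ) (F : Fld) (s x : ℝ) : ℝ :=
  ∑ k ∈ Finset.range N, F.q k s * hh I t k s x

open Classical in
noncomputable def BB (I : ℕ → Set ℝ) (t : ℕ → ℝ) (N : ℕ) (F : Fld) (s x : ℝ) : ℝ :=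
  ∑ k ∈ Finset.range N, if s ∉ I k ∧ x ∈ Ioo (t k) (t (k + 1)) then |F.b k s| else 0

noncomputable def MM (I : ℕ → Set ℝ) (t : ℕ → ℝ) (N : ℕ) (F : Fld) (s x : ℝ) : ℝ :=
  AA I t N F s x ^ 2 + BB I t N F s x ^ 2

theorem cont_clp (t : ℕ → ℝ) (k : ℕ) : Continuous (clp t k) := by unfold clp; fun_prop

theorem clp_mem {t : ℕ → ℝ} {k : ℕ} (h : t k ≤ t (k + 1)) (x : ℝ) :
    clp t k x ∈ Icc 0 (t (k + 1) - t k) :=
  ⟨le_min (le_max_right _ _) (sub_nonneg.2 h), min_le_right _ _⟩

theorem clp_low {t : ℕ → ℝ} {k : ℕ} (h : t k ≤ t (k + 1)) {x : ℝ} (hx : x ≤ t k) : clp t k x = 0 := by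
  rw [clp, max_eq_right (by linarith), min_eq_left (by linarith)]

theorem clp_high {t : ℕ → ℝ} {k : ℕ} {x : ℝ} (hx : t (k + 1) ≤ x) :
    clp t k x = t (k + 1) - t k :=
  min_eq_right (le_max_of_le_left (by linarith))

theorem clp_mid {t : ℕ → ℝ} {k : ℕ} {x : ℝ} (h1 : t k ≤ x) (h2 : x ≤ t (k + 1)) :
    clp t k x = x - t k := by
  rw [clp, max_eq_left (by linarith), min_eq_left (by linarith)]

theorem meas_II (τ : ℝ → ℝ) (c u : ℝ) : MeasurableSet (II τ c u) := by
  have h1 : OrdConnected {s | s ≤ c ∧ ∃ s' ≤ s, τ s' ≤ u} :=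
    ⟨fun x ⟨_, s', h, h'⟩ y hy z hz => ⟨hz.2.trans hy.1, s', h.trans hz.1, h'⟩⟩
  have h2 : OrdConnected {s | c < s ∧ ∃ s' ∈ Icc s 0, τ s' ≤ u} :=
    ⟨fun x hx y ⟨_, s', h, h'⟩ z hz => ⟨hx.1.trans_le hz.1, s', ⟨hz.2.trans h.1, h.2⟩, h'⟩⟩
  exact h1.measurableSet.union h2.measurableSet

theorem meas_AA {I : ℕ → Set ℝ} (hI : ∀ k, MeasurableSet (I k)) (t : ℕ → ℝ) (N : ℕ) {F : Fld}
    (hF : F.Ok) : Measurable fun p : ℝ × ℝ => AA I t N F p.1 p.2 :=
  Finset.measurable_sum _ fun k _ => ((hF.mq k).comp measurable_fst).mul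
    (Measurable.ite (measurable_fst (hI k)) measurable_const
      ((cont_clp t k).measurable.comp measurable_snd))

theorem meas_BB {I : ℕ → Set ℝ} (hI : ∀ k, MeasurableSet (I k)) (t : ℕ → ℝ) (N : ℕ) {F : Fld}
    (hF : F.Ok) : Measurable fun p : ℝ × ℝ => BB I t N F p.1 p.2 :=
  Finset.measurable_sum _ fun k _ => Measurable.ite
    ((measurable_fst (hI k).compl).inter (measurable_snd measurableSet_Ioo))
    ((hF.cb k).abs.measurable.comp measurable_fst) measurable_const

theorem front_II {τ T : ℝ → ℝ} (hT : Continuous T) (hτ : ∀ s, T s ≤ τ s) {c u : ℝ} (hc : c ≤ 0)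
    (hm : ∀ s ≤ 0, τ c ≤ τ s) {x : ℝ} (hx : x ∈ frontier (II τ c u)) : T x ≤ u := by
  by_contra hlt
  have hlt : u < T x := not_le.1 hlt
  have ev : ∀ᶠ y in 𝓝 x, u < T y := hT.continuousAt.eventually (lt_mem_nhds hlt)
  obtain ⟨l, r, hlr, hsub⟩ := mem_nhds_iff_exists_Ioo_subset.1 ev
  have no : ∀ y ∈ Ioo l r, ¬ τ y ≤ u := fun y hy h => absurd ((hτ y).trans h) (not_le.2 (hsub hy))
  rcases lt_trichotomy x c with h | h | h
  · obtain ⟨y, hy, hy'⟩ := mem_closure_iff_nhds.1 hx.1 _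
      (inter_mem (Ioo_mem_nhds hlr.1 hlr.2) (Iio_mem_nhds h))
    rcases hy' with ⟨-, s', h1, h2⟩ | ⟨h1, -⟩
    · have : s' ≤ l := not_lt.1 fun h' => no s' ⟨h', h1.trans_lt hy.1.2⟩ h2
      exact hx.2 (mem_interior_iff_mem_nhds.2 (mem_of_superset (Ioo_mem_nhds hlr.1 h)
        fun z hz => Or.inl ⟨hz.2.le, s', this.trans hz.1.le, h2⟩))
    · exact absurd hy.2 (not_lt.2 h1.le)
  · obtain ⟨y, -, hy'⟩ := mem_closure_iff_nhds.1 hx.1 _ univ_mem
    have : τ c ≤ u := by
      rcases hy' with ⟨h0, s', h1, h2⟩ | ⟨-, s', h1, h2⟩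
      · exact (hm s' (h1.trans (h0.trans hc))).trans h2
      · exact (hm s' h1.2).trans h2
    exact no x hlr (h ▸ this)
  · obtain ⟨y, hy, hy'⟩ := mem_closure_iff_nhds.1 hx.1 _
      (inter_mem (Ioo_mem_nhds hlr.1 hlr.2) (Ioi_mem_nhds h))
    rcases hy' with ⟨h1, -⟩ | ⟨-, s', h1, h2⟩
    · exact absurd hy.2 (not_lt.2 h1)
    · have : r ≤ s' := not_lt.1 fun h' => no s' ⟨hy.1.1.trans_le h1.1, h'⟩ h2
      exact hx.2 (mem_interior_iff_mem_nhds.2 (mem_of_superset (Ioo_mem_nhds h hlr.2)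
        fun z hz => Or.inr ⟨hz.1, s', ⟨hz.2.le.trans this, h1.2⟩, h2⟩))

theorem chain_le' (ν₁ ν₂ : Measure ℝ) [IsFiniteMeasure ν₁] [NullSingletonClass ν₁]
    [IsFiniteMeasure ν₂] [NullSingletonClass ν₂] {N : ℕ} {t : ℕ → ℝ} (ht : Monotone t)
    (ht' : ∀ k, t k ∈ Icc 0 Real.pi) {I : ℕ → Set ℝ} (hI : ∀ k, MeasurableSet (I k))
    {T : ℝ → ℝ} (hT : Continuous T) (hf : ∀ k, ∀ x ∈ frontier (I k), T x ≤ t k)
    {F : Fld} (hF : F.Ok) {x₀ x₁ : ℝ} (h01 : x₀ ≤ x₁)
    (h1 : ∀ x y, x₀ ≤ x → y ≤ x₁ → y - x ≤ ν₁.real (Ioc x y))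
    (h2 : ∀ x y, x ≤ y → |T y - T x| ≤ ν₂.real (Icc x y)) :
    ENNReal.ofReal (∑ k ∈ Finset.range N, F.b k x₀ * hh I t k x₀ (T x₀) -
      ∑ k ∈ Finset.range N, F.b k x₁ * hh I t k x₁ (T x₁)) ≤
      ∫⁻ s in Ioc x₀ x₁, ENNReal.ofReal |AA I t N F s (T s)| ∂ν₁ +
      ∫⁻ s in Ioc x₀ x₁, ENNReal.ofReal |BB I t N F s (T s)| ∂ν₂ := by
  classical
  obtain ⟨C, hC⟩ := hF.bd
  have hm : ∀ k, t k ≤ t (k + 1) := fun k => ht (Nat.le_succ k)
  have hH : ∀ k, Continuous fun s => hh I t k s (T s) := fun k =>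
    Continuous.if (fun a ha => (clp_low (hm k) (hf k a ha)).symm) continuous_const
      ((cont_clp t k).comp hT)
  have hH0 : ∀ k s, hh I t k s (T s) ∈ Icc 0 (t (k + 1) - t k) := fun k s => by
    unfold hh; split_ifs
    · exact ⟨le_rfl, sub_nonneg.2 (hm k)⟩
    · exact clp_mem (hm k) _
  have hO : ∀ k, MeasurableSet {s | s ∉ I k ∧ T s ∈ Ioo (t k) (t (k + 1))} := fun k =>
    (hI k).compl.inter (hT.measurable measurableSet_Ioo)
  have := chain_le ν₁ ν₂ N F.b F.q (fun k s => hh I t k s (T s))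
    (fun k => {s | s ∉ I k ∧ T s ∈ Ioo (t k) (t (k + 1))}) (C := max C Real.pi) h01 hF.cb hF.mq
    (fun k s => le_max_of_le_left (hC k s).1) (fun k s => le_max_of_le_left (hC k s).2) hH
    (fun k s => le_max_of_le_right (by
      rw [abs_of_nonneg (hH0 k s).1]; linarith [(hH0 k s).2, (ht' k).1, (ht' (k + 1)).2]))
    hO hF.loc (fun x y a _ b => h1 x y a b) fun k _ x y hxy =>
      var_le ν₂ hT (hH k) h2 (a := t k) (hH0 k) (fun z hz => by
        have hz1 : z ∉ I k := fun h => by simp [hh, h] at hz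
        simp only [hh, if_neg hz1] at hz ⊢
        have a1 : t k < T z := not_le.1 fun h => by simp [clp_low (hm k) h] at hz
        have a2 : T z < t (k + 1) := not_le.1 fun h => by simp [clp_high h] at hz
        exact ⟨⟨hz1, a1, a2⟩, clp_mid a1.le a2.le⟩) hxy
  have cv : ∀ (ν : Measure ℝ) (g : ℝ → ℝ), ENNReal.ofReal (∫ s in x₀..x₁, g s ∂ν) ≤
      ∫⁻ s in Ioc x₀ x₁, ENNReal.ofReal |g s| ∂ν := fun ν g => by
    rw [intervalIntegral.integral_of_le h01]
    simpa only [Real.enorm_eq_ofReal_abs] using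
      (Real.ofReal_le_enorm _).trans (enorm_integral_le_lintegral_enorm g)
  refine (ENNReal.ofReal_le_ofReal this).trans (ENNReal.ofReal_add_le.trans (add_le_add ?_ ?_))
  · simpa only [abs_abs] using! cv ν₁ fun s => |AA I t N F s (T s)|
  · rw [← intervalIntegral.integral_finsetSum fun k _ => ?_]
    · refine (cv ν₂ _).trans (le_of_eq ?_)
      simp only [BB, indicator_apply, mem_ofPred_eq]
    · refine ((Integrable.of_bound (C := C) (hF.cb k).abs.aestronglyMeasurable
        (ae_of_all _ fun s => ?_)).indicator (hO k)).intervalIntegrable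
      simpa using (hC k s).2

noncomputable def MC (I : ℕ → Set ℝ) (t : ℕ → ℝ) (N : ℕ) (c : ℝ) (FL FR : Fld) (s x : ℝ) : ℝ :=
  if s ≤ c then MM I t N FL s x else MM I t N FR s x

theorem MC_nonneg (I : ℕ → Set ℝ) (t : ℕ → ℝ) (N : ℕ) (c : ℝ) (FL FR : Fld) (s x : ℝ) :
    0 ≤ MC I t N c FL FR s x := by
  unfold MC MM; split_ifs <;> positivity

theorem meas_MC {I : ℕ → Set ℝ} (hI : ∀ k, MeasurableSet (I k)) (t : ℕ → ℝ) (N : ℕ) (c : ℝ)
    {FL FR : Fld} (hL : FL.Ok) (hR : FR.Ok) :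
    Measurable fun p : ℝ × ℝ => MC I t N c FL FR p.1 p.2 :=
  Measurable.ite (measurable_fst measurableSet_Iic)
    (((meas_AA hI t N hL).pow_const 2).add ((meas_BB hI t N hL).pow_const 2))
    (((meas_AA hI t N hR).pow_const 2).add ((meas_BB hI t N hR).pow_const 2))

theorem Hyp0.length {f L : ℂ → ℂ} (H : Hyp0 f L) (hne : ¬ ball (0 : ℂ) 1 ⊆ f '' ball 0 1)
    {N : ℕ} {t : ℕ → ℝ} (ht : Monotone t) (ht' : ∀ k, t k ∈ Icc 0 Real.pi)
    (ht2 : ∀ k < N, t k < Real.pi) {c : ℝ} (hc : c ≤ 0)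
    (hm : ∀ s ≤ 0, cm (f '' ball 0 1) c ≤ cm (f '' ball 0 1) s)
    (hcp : cm (f '' ball 0 1) c < Real.pi) {FL FR : Fld} (hL : FL.Ok) (hR : FR.Ok) {d : ℝ}
    (hd : ¬ ball (0 : ℂ) (Real.exp d) ⊆ f '' ball 0 1)
    (htop : ∀ s ≤ d, s ≤ c → ∑ k ∈ Finset.range N, FL.b k s * (t (k + 1) - t k) = Real.pi)
    (hj : ∀ k < N, t k < cm (f '' ball 0 1) c → FL.b k c = FR.b k c) {σ : ℝ} (h : σ < 0) :
    ENNReal.ofReal (2 * Real.pi) ≤ ∫⁻ ψ in JJ, ENNReal.ofReal
      (MC (fun k => II (cm (f '' ball 0 1)) c (t k)) t N c FL FR (ZZ L (pt σ ψ)).re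
        (cm (f '' ball 0 (Real.exp σ)) (ZZ L (pt σ ψ)).re) * ‖ZD L (pt σ ψ)‖ ^ 2) := by
  set τ := cm (f '' ball 0 1) with hτ
  set T := cm (f '' ball 0 (Real.exp σ)) with hT
  set I : ℕ → Set ℝ := fun k => II τ c (t k) with hI
  set sf := fun ψ => (ZZ L (pt σ ψ)).re with hsf
  have hw1 : Continuous fun ψ => -(ZD L (pt σ ψ)).im :=
    (Complex.continuous_im.comp (H.cont_ZD h)).neg
  have hw2 : Continuous fun ψ => (ZD L (pt σ ψ)).re := Complex.continuous_re.comp (H.cont_ZD h)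
  have hs : Continuous sf := H.cont_re h
  set ν₁ := nu sf fun ψ => -(ZD L (pt σ ψ)).im with hν₁
  set ν₂ := nu sf fun ψ => (ZD L (pt σ ψ)).re with hν₂
  have : IsFiniteMeasure ν₁ := nu_fin hw1
  have : IsFiniteMeasure ν₂ := nu_fin hw2
  have : NullSingletonClass ν₁ := nu_null hs (H.nondeg hne h)
  have : NullSingletonClass ν₂ := nu_null hs (H.nondeg hne h)
  obtain ⟨hTc, p, q, hpq, hp, hq, hb, hTp, hTq⟩ := H.curve hne h
  have hsub : f '' ball 0 (Real.exp σ) ⊆ f '' ball 0 1 :=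
    image_mono (ball_subset_ball (Real.exp_lt_one_iff.2 h).le)
  have hTτ : ∀ s, T s ≤ τ s := cm_mono hsub
  have hm1 : ∀ k, t k ≤ t (k + 1) := fun k => ht (Nat.le_succ k)
  have hpi : ∀ s ≤ sf p, τ s = Real.pi := fun s hs' => by
    rcases hs'.eq_or_lt with rfl | hlt
    · exact le_antisymm (cm_le_pi _ _) (hTp.ge.trans (hTτ _))
    · exact cm_eq_pi fun w hw => hsub (hb (by simpa [hw] using hlt))
  have hpc : sf p ≤ c := not_lt.1 fun hlt => hcp.ne (hpi c hlt.le)
  have hpd : sf p ≤ d := not_lt.1 fun hlt => hd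
    ((ball_subset_ball (Real.exp_le_exp.2 hlt.le)).trans (hb.trans hsub))
  have mI : ∀ k, MeasurableSet (I k) := fun k => meas_II _ _ _
  have fI : ∀ k, ∀ x ∈ frontier (I k), T x ≤ t k := fun k x hx => front_II hTc hTτ hc hm hx
  have l1 : ∀ x y, sf p ≤ x → y ≤ sf q → y - x ≤ ν₁.real (Ioc x y) := fun x y hx hy =>
    len_le (H.has_re h) hw1 (Hyp0.per_re σ) hp hq hx hy
  have l2 : ∀ x y, x ≤ y → |T y - T x| ≤ ν₂.real (Icc x y) := fun x y hxy =>
    abs_sub_le_iff.2 ⟨H.ang_le h ⟨hxy, le_rfl⟩ ⟨le_rfl, hxy⟩, H.ang_le h ⟨le_rfl, hxy⟩ ⟨hxy, le_rfl⟩⟩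
  have c1 := chain_le' ν₁ ν₂ (N := N) ht ht' mI hTc fI hL (le_min hpc hpq)
    (fun x y hx hy => l1 x y hx (hy.trans (min_le_right _ _))) l2
  have c2 := chain_le' ν₁ ν₂ (N := N) ht ht' mI hTc fI hR (min_le_right c (sf q))
    (fun x y hx hy => l1 x y ((le_min hpc hpq).trans hx) hy) l2
  have z : ∀ k, hh I t k (sf q) (T (sf q)) = 0 := fun k => by
    unfold hh; split_ifs
    · rfl
    · exact clp_low (hm1 k) (hTq.le.trans (ht' k).1)
  have e1 : ∑ k ∈ Finset.range N, FL.b k (sf p) * hh I t k (sf p) (T (sf p)) = Real.pi := by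
    rw [← htop _ hpd hpc]
    refine Finset.sum_congr rfl fun k hk => ?_
    have : sf p ∉ I k := by
      rintro (⟨-, s', h1, h2⟩ | ⟨h1, -⟩)
      · rw [hpi s' h1] at h2; exact absurd (ht2 k (Finset.mem_range.1 hk)) (not_lt.2 h2)
      · exact absurd hpc (not_le.2 h1)
    rw [hh, if_neg this, clp_high ((ht' _).2.trans hTp.ge)]
  have e2 : ∑ k ∈ Finset.range N, FL.b k (min c (sf q)) * hh I t k (min c (sf q)) (T (min c (sf q)))
      = ∑ k ∈ Finset.range N, FR.b k (min c (sf q)) * hh I t k (min c (sf q)) (T (min c (sf q))) := by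
    refine Finset.sum_congr rfl fun k hk => ?_
    rcases le_total c (sf q) with h' | h'
    · rw [min_eq_left h']
      rcases lt_or_ge (t k) (τ c) with h2 | h2
      · rw [hj k (Finset.mem_range.1 hk) h2]
      · have : c ∈ I k := Or.inl ⟨le_rfl, c, le_rfl, h2⟩
        simp [hh, this]
    · rw [min_eq_right h', z]; simp
  have e3 : ∑ k ∈ Finset.range N, FR.b k (sf q) * hh I t k (sf q) (T (sf q)) = 0 := by
    simp only [z, mul_zero, Finset.sum_const_zero]
  replace c2 := (congrArg (fun x => ENNReal.ofReal (_ - x)) e3).symm.trans_le c2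
  set A : ℝ → ℝ := fun s => if s ≤ c then |AA I t N FL s (T s)| else |AA I t N FR s (T s)| with hA
  set B : ℝ → ℝ := fun s => if s ≤ c then |BB I t N FL s (T s)| else |BB I t N FR s (T s)| with hB
  have mp : Measurable fun s => (s, T s) := measurable_id.prodMk hTc.measurable
  have mA : Measurable A := Measurable.ite measurableSet_Iic ((meas_AA mI t N hL).comp mp).abs
    ((meas_AA mI t N hR).comp mp).abs
  have mB : Measurable B := Measurable.ite measurableSet_Iic ((meas_BB mI t N hL).comp mp).abs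
    ((meas_BB mI t N hR).comp mp).abs
  have glue : ∀ (ν : Measure ℝ) (g g' : ℝ → ℝ),
      ∫⁻ s in Ioc (sf p) (min c (sf q)), ENNReal.ofReal (g s) ∂ν +
      ∫⁻ s in Ioc (min c (sf q)) (sf q), ENNReal.ofReal (g' s) ∂ν ≤
      ∫⁻ s, ENNReal.ofReal (if s ≤ c then g s else g' s) ∂ν := fun ν g g' => by
    rw [← lintegral_add_compl (fun s => ENNReal.ofReal (if s ≤ c then g s else g' s))
      (measurableSet_Iic (a := c))]
    refine add_le_add ?_ ?_
    · rw [setLIntegral_congr_fun measurableSet_Iic (g := fun s => ENNReal.ofReal (g s))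
        fun s hs => by simp only [if_pos (mem_Iic.1 hs)]]
      exact lintegral_mono_set fun s hs => hs.2.trans (min_le_left _ _)
    · rw [setLIntegral_congr_fun measurableSet_Iic.compl (g := fun s => ENNReal.ofReal (g' s))
        fun s hs => by simp only [if_neg (show ¬ s ≤ c from hs)]]
      exact lintegral_mono_set fun s hs h' => absurd hs.1 (not_lt.2 (le_min h' hs.2))
  have c3 : ENNReal.ofReal Real.pi ≤
      ∫⁻ s, ENNReal.ofReal (A s) ∂ν₁ + ∫⁻ s, ENNReal.ofReal (B s) ∂ν₂ := by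
    rw [e1, e2] at c1
    refine le_trans ?_ (add_le_add (glue ν₁ _ _) (glue ν₂ _ _))
    rw [add_add_add_comm]
    refine le_trans ?_ (add_le_add c1 c2)
    exact le_trans (le_of_eq (by congr 1; ring)) ENNReal.ofReal_add_le
  have m1 : Measurable fun ψ => ENNReal.ofReal (|(-(ZD L (pt σ ψ)).im)| / 2) *
      ENNReal.ofReal (A (sf ψ)) := (hw1.abs.div_const 2).measurable.ennreal_ofReal.mul
      (mA.comp hs.measurable).ennreal_ofReal
  rw [nu_lint hs hw1 mA.ennreal_ofReal, nu_lint hs hw2 mB.ennreal_ofReal,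
    ← lintegral_add_left m1] at c3
  set G : ℝ → ℝ := fun ψ => MC I t N c FL FR (sf ψ) (T (sf ψ)) * ‖ZD L (pt σ ψ)‖ ^ 2 with hG
  have c4 : 4 * ENNReal.ofReal Real.pi ≤
      (∫⁻ ψ in JJ, ENNReal.ofReal (G ψ)) + ENNReal.ofReal (2 * Real.pi) := by
    rw [← vol_JJ, ← setLIntegral_one, ← lintegral_add_right _ measurable_const]
    refine (mul_le_mul_right c3 4).trans ?_
    rw [← lintegral_const_mul' _ _ (by norm_num)]
    refine lintegral_mono fun ψ => ?_
    have a0 : 0 ≤ A (sf ψ) := by simp only [hA]; split_ifs <;> positivity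
    have b0 : 0 ≤ B (sf ψ) := by simp only [hB]; split_ifs <;> positivity
    have g0 : G ψ = (A (sf ψ) ^ 2 + B (sf ψ) ^ 2) *
        (|-(ZD L (pt σ ψ)).im| ^ 2 + |(ZD L (pt σ ψ)).re| ^ 2) := by
      simp only [hG, hA, hB, MC, MM, Complex.sq_norm, Complex.normSq_apply, sq_abs]
      split_ifs <;> simp only [sq_abs] <;> ring
    rw [← ENNReal.ofReal_mul (by positivity), ← ENNReal.ofReal_mul (by positivity),
      ← ENNReal.ofReal_add (by positivity) (by positivity), ← ENNReal.ofReal_ofNat,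
      ← ENNReal.ofReal_mul (by norm_num), ← ENNReal.ofReal_one,
      ← ENNReal.ofReal_add (by rw [g0]; positivity) (by norm_num), g0]
    refine ENNReal.ofReal_le_ofReal ?_
    generalize |-(ZD L (pt σ ψ)).im| = u
    generalize |(ZD L (pt σ ψ)).re| = v
    generalize A (sf ψ) = a
    generalize B (sf ψ) = b
    nlinarith [sq_nonneg (a * v - b * u), sq_nonneg (a * u + b * v - 1)]
  refine (ENNReal.add_le_add_iff_right (a := ENNReal.ofReal (2 * Real.pi))
    ENNReal.ofReal_ne_top).1 (le_trans (le_of_eq ?_) c4)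
  rw [← ENNReal.ofReal_add (by positivity) (by positivity), ← ENNReal.ofReal_ofNat,
    ← ENNReal.ofReal_mul (by norm_num)]
  congr 1; ring

end Pool.Agent.Lib.MP_9b2593_an
end

-- part Pool.Agent.Lib.MP_9b2593_an.Area
section

/-!
From the length inequality to an area inequality.
-/

namespace Pool.Agent.Lib.MP_9b2593_an

open MeasureTheory Set Filter Topology Metric Complex

theorem cv_holo {h h' : ℂ → ℂ} {S : Set ℂ} (hS : MeasurableSet S)
    (hd : ∀ ζ ∈ S, HasDerivAt h (h' ζ) ζ) (inj : InjOn h S) (K : ℂ → ENNReal) :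
    ∫⁻ w in h '' S, K w = ∫⁻ ζ in S, ENNReal.ofReal (‖h' ζ‖ ^ 2) * K (h ζ) := by
  rw [lintegral_image_eq_lintegral_abs_det_fderiv_mul volume hS
    (fun ζ hζ => ((hd ζ hζ).hasFDerivAt.restrictScalars ℝ).hasFDerivWithinAt) inj K]
  refine lintegral_congr fun ζ => ?_
  congr 2
  simp [ContinuousLinearMap.det, LinearMap.det_restrictScalars, Algebra.norm_complex_eq,
    Complex.normSq_eq_norm_sq]

theorem lint_pt (G : ℂ → ENNReal) : ∫⁻ ζ, G ζ = ∫⁻ p : ℝ × ℝ, G (pt p.1 p.2) ∂(volume.prod volume) := by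
  rw [← Complex.volume_preserving_equiv_real_prod.symm.lintegral_comp_emb
    Complex.measurableEquivRealProd.symm.measurableEmbedding G]
  refine lintegral_congr fun p => ?_
  congr 1
  exact Complex.ext (by simp) (by simp)

theorem lint_le (G : ℂ → ENNReal) : ∫⁻ ζ, G ζ ≤ ∫⁻ s, ∫⁻ φ, G (pt s φ) := by
  rw [lint_pt]; exact lintegral_prod_le _

theorem lint_eq {G : ℂ → ENNReal} (hG : AEMeasurable G) : ∫⁻ s, ∫⁻ φ, G (pt s φ) = ∫⁻ ζ, G ζ := by
  rw [lint_pt, lintegral_prod]
  have := hG.comp_quasiMeasurePreserving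
    Complex.volume_preserving_equiv_real_prod.symm.quasiMeasurePreserving
  refine this.congr (ae_of_all _ fun p => ?_)
  simp only [Function.comp]
  congr 1
  exact Complex.ext (by simp) (by simp)

theorem exp_injOn {S : Set ℂ} (h : ∀ ζ ∈ S, ζ.im ∈ JJ) : InjOn exp S := fun a ha b hb e =>
  Complex.exp_inj_of_neg_pi_lt_of_le_pi (h a ha).1 (h a ha).2 (h b hb).1 (h b hb).2 e

open Classical in
noncomputable def rho (f : ℂ → ℂ) (w : ℂ) : ℝ :=
  if w ∈ f '' ball 0 1 then ‖Function.invFunOn f (ball 0 1) w‖ else 1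

namespace Hyp0

variable {f L : ℂ → ℂ} (H : Hyp0 f L)
include H

theorem rho_f {z : ℂ} (hz : z ∈ ball (0 : ℂ) 1) : rho f (f z) = ‖z‖ := by
  rw [rho, if_pos ⟨z, hz, rfl⟩, H.inj.leftInvOn_invFunOn hz]

theorem rho_lt {r : ℝ} (hr : r ≤ 1) (w : ℂ) : rho f w < r ↔ w ∈ f '' ball 0 r := by
  constructor
  · intro h
    by_cases hw : w ∈ f '' ball 0 1
    · obtain ⟨z, hz, rfl⟩ := hw
      exact ⟨z, by simpa [H.rho_f hz] using h, rfl⟩
    · rw [rho, if_neg hw] at h; linarith
  · rintro ⟨z, hz, rfl⟩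
    rw [H.rho_f (ball_subset_ball hr hz)]; simpa using hz

theorem rho_le (w : ℂ) : rho f w ≤ 1 := by
  by_cases hw : w ∈ f '' ball 0 1
  · exact ((H.rho_lt le_rfl w).2 hw).le
  · rw [rho, if_neg hw]

theorem meas_rho : Measurable (rho f) := measurable_of_Iio fun r => by
  rcases le_or_gt r 1 with h | h
  · have : rho f ⁻¹' Iio r = f '' ball 0 r := Set.ext fun w => H.rho_lt h w
    rw [this]; exact (H.isOpen_img h).measurableSet
  · have : rho f ⁻¹' Iio r = univ := eq_univ_of_forall fun w => (H.rho_le w).trans_lt h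
    rw [this]; exact MeasurableSet.univ

theorem meas_T : Measurable fun p : ℝ × ℝ => cm (f '' ball 0 (Real.exp (min p.1 0))) p.2 := by
  have hW : MeasurableSet {x : (ℝ × ℝ) × ℝ | x.2 ∈ JJ ∧
      rho f (exp (pt x.1.2 x.2)) < Real.exp (min x.1.1 0)} :=
    (measurable_snd measJJ).inter (measurableSet_lt
      (H.meas_rho.comp (by unfold pt; fun_prop)) (by fun_prop))
  have := (measurable_measure_prodMk_left (ν := volume) hW).ennreal_toReal.div_const 2
  convert this using 2 with p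
  simp only [cm, Measure.real]
  congr 3
  ext φ
  simp [H.rho_lt (Real.exp_le_one_iff.2 (min_le_right p.1 0))]

/-- the rank of a point of a circle is at most equidistributed -/
theorem circle (hne : ¬ ball (0 : ℂ) 1 ⊆ f '' ball 0 1) (s : ℝ) {G : ℝ → ENNReal}
    (hG : Measurable G) :
    ∫⁻ φ in {φ ∈ JJ | exp (pt s φ) ∈ f '' ball 0 1},
      G (cm (f '' ball 0 (rho f (exp (pt s φ)))) s) ≤
      2 * ∫⁻ t in Icc 0 (cm (f '' ball 0 1) s), G t := by
  set X := {φ ∈ JJ | exp (pt s φ) ∈ f '' ball 0 1} with hX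
  have mρ : Measurable fun φ => rho f (exp (pt s φ)) := H.meas_rho.comp (by unfold pt; fun_prop)
  have : IsFiniteMeasure (volume.restrict X) := isFiniteMeasure_restrict.2 (sep_ne_top _)
  set ν := (volume.restrict X).map fun φ => rho f (exp (pt s φ)) with hν
  have : NullSingletonClass ν := ⟨fun r => by
    rw [hν, Measure.map_apply mρ (measurableSet_singleton r),
      Measure.restrict_apply (mρ (measurableSet_singleton r))]
    refine Countable.measure_zero ?_ _
    rcases ((fun φ => rho f (exp (pt s φ))) ⁻¹' {r} ∩ X).eq_empty_or_nonempty with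
      h | ⟨φ₀, h1, -, z₀, hz₀, h2⟩
    · rw [h]; exact countable_empty
    have key : ∀ φ, ∀ z ∈ ball (0 : ℂ) 1, f z = exp (pt s φ) → z ≠ 0 := fun φ z _ e h0 =>
      Complex.exp_ne_zero _ (by rw [← e, h0, H.f0])
    have hr : Real.log r < 0 := by
      have : ‖z₀‖ = r := by rw [← H.rho_f hz₀, h2]; exact h1
      exact Real.log_neg (this ▸ norm_pos_iff.2 (key _ _ hz₀ h2)) (this ▸ by simpa using hz₀)
    refine (countable_iUnion fun n : ℤ => (H.nondeg hne hr s).image
      fun ψ => (ZZ L (pt (Real.log r) ψ)).im + n * (2 * Real.pi)).mono ?_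
    rintro φ ⟨h1, -, z, hz, h2⟩
    have e1 : ‖z‖ = r := by rw [← H.rho_f hz, h2]; exact h1
    obtain ⟨ψ, -, e⟩ := exists_pt (key _ _ hz h2)
    rw [e1] at e
    rw [← e, ← H.expZ (by simpa using hr), eq_comm] at h2
    obtain ⟨n, hn⟩ := Complex.exp_eq_exp_iff_exists_int.1 h2
    refine mem_iUnion.2 ⟨n, ψ, ?_, ?_⟩
    · simpa using (congrArg Complex.re hn).symm
    · simpa using (congrArg Complex.im hn).symm⟩
  have e : ∀ r ≤ 1, cm (f '' ball 0 r) s = ν.real (Iio r) / 2 := fun r hr => by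
    rw [cm, hν, Measure.real, Measure.real, Measure.map_apply mρ measurableSet_Iio,
      Measure.restrict_apply (mρ measurableSet_Iio)]
    congr 3
    ext φ
    simp only [mem_sep_iff, mem_inter_iff, mem_preimage, mem_Iio, H.rho_lt hr, hX]
    exact ⟨fun h => ⟨h.2, h.1, image_mono (ball_subset_ball hr) h.2⟩, fun h => ⟨h.2.1, h.1⟩⟩
  have e' : cm (f '' ball 0 1) s = ν.real univ / 2 := by
    rw [cm, hν, Measure.real, Measure.real, Measure.map_apply mρ MeasurableSet.univ]; simp [hX]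
  have mΦ : Measurable fun r => ν.real (Iio r) / 2 := Monotone.measurable fun a b h =>
    div_le_div_of_nonneg_right (measureReal_mono (Iio_subset_Iio h)) (by norm_num)
  rw [e']
  refine le_trans (le_of_eq ?_) (rank_le ν G hG)
  rw [hν, lintegral_map (f := fun r => G (ν.real (Iio r) / 2)) (hG.comp mΦ) mρ]
  exact lintegral_congr fun φ => by rw [e _ (H.rho_le _)]

theorem energy0 (hne : ¬ ball (0 : ℂ) 1 ⊆ f '' ball 0 1) {M : ℝ → ℝ → ℝ}
    (hM : Measurable fun p : ℝ × ℝ => M p.1 p.2)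
    (hl : ∀ σ < 0, ENNReal.ofReal (2 * Real.pi) ≤ ∫⁻ ψ in JJ, ENNReal.ofReal
      (M (ZZ L (pt σ ψ)).re (cm (f '' ball 0 (Real.exp σ)) (ZZ L (pt σ ψ)).re) *
        ‖ZD L (pt σ ψ)‖ ^ 2)) {σ₀ x₀ : ℝ} (h0 : σ₀ < 0)
    (hb : ball 0 (Real.exp x₀) ⊆ f '' ball 0 (Real.exp σ₀)) :
    ENNReal.ofReal (2 * Real.pi * (-σ₀)) ≤
      ∫⁻ s in Ici x₀, 2 * ∫⁻ t in Icc 0 (cm (f '' ball 0 1) s), ENNReal.ofReal (M s t) := by
  set S1 : Set ℂ := {ζ | ζ.re ∈ Ioo σ₀ 0 ∧ ζ.im ∈ JJ} with hS1
  set S2 : Set ℂ := {ζ | ζ.re ∈ Ici x₀ ∧ ζ.im ∈ JJ ∧ exp ζ ∈ f '' ball 0 1} with hS2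
  have m1 : MeasurableSet S1 :=
    (Complex.measurable_re measurableSet_Ioo).inter (Complex.measurable_im measJJ)
  have m2 : MeasurableSet S2 := (Complex.measurable_re measurableSet_Ici).inter
    ((Complex.measurable_im measJJ).inter
      (Complex.measurable_exp (H.isOpen_img le_rfl).measurableSet))
  set g : ℂ → ENNReal := fun ζ => ENNReal.ofReal (M (ZZ L ζ).re
    (cm (f '' ball 0 (Real.exp (min ζ.re 0))) (ZZ L ζ).re) * ‖ZD L ζ‖ ^ 2) with hg
  have mg : AEMeasurable g (volume.restrict S1) := by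
    have a1 : AEMeasurable (fun ζ => (ZZ L ζ).re) (volume.restrict S1) :=
      (Complex.continuous_re.comp_continuousOn fun ζ hζ =>
        (H.hasZ hζ.1.2).continuousAt.continuousWithinAt).aemeasurable m1
    have a2 : AEMeasurable (fun ζ => ‖ZD L ζ‖ ^ 2) (volume.restrict S1) :=
      (ContinuousOn.aemeasurable (fun ζ hζ =>
        (H.contZD hζ.1.2).norm.continuousWithinAt) m1).pow_const 2
    exact ((hM.comp_aemeasurable (a1.prodMk (H.meas_T.comp_aemeasurable
      (Complex.measurable_re.aemeasurable.prodMk a1)))).mul a2).ennreal_ofReal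
  set K : ℂ → ENNReal := fun w => ENNReal.ofReal
    (M (Real.log ‖w‖) (cm (f '' ball 0 (rho f w)) (Real.log ‖w‖)) / ‖w‖ ^ 2) with hK
  calc ENNReal.ofReal (2 * Real.pi * (-σ₀))
      = ∫⁻ _ in Ioo σ₀ 0, ENNReal.ofReal (2 * Real.pi) := by
        rw [setLIntegral_const, Real.volume_Ioo, ← ENNReal.ofReal_mul (by positivity), zero_sub]
    _ ≤ ∫⁻ σ, ∫⁻ ψ, S1.indicator g (pt σ ψ) := by
        refine le_trans (setLIntegral_mono' measurableSet_Ioo fun σ hσ => ?_)
          (setLIntegral_le_lintegral _ _)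
        refine (hl σ hσ.2).trans (le_trans (le_of_eq ?_) (setLIntegral_le_lintegral JJ _))
        refine setLIntegral_congr_fun measJJ fun ψ hψ => ?_
        rw [indicator_of_mem (show pt σ ψ ∈ S1 from ⟨by simpa using hσ, by simpa using hψ⟩)]
        simp [hg, min_eq_left hσ.2.le]
    _ = ∫⁻ ζ in S1, g ζ := by
        rw [lint_eq ((aemeasurable_indicator_iff m1).2 mg), lintegral_indicator m1]
    _ = ∫⁻ w in (fun ζ => exp (ZZ L ζ)) '' S1, K w := by
        rw [cv_holo m1 (fun ζ hζ => (H.hasZ hζ.1.2).cexp) fun a ha b hb e => ?_]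
        · refine setLIntegral_congr_fun m1 fun ζ hζ => ?_
          have e1 : rho f (exp (ZZ L ζ)) = Real.exp ζ.re := by
            rw [H.expZ hζ.1.2, H.rho_f (exp_mem_ball hζ.1.2), Complex.norm_exp]
          have e2 : ‖exp (ZZ L ζ)‖ ≠ 0 := by simp
          simp only [hg, hK, e1, min_eq_left hζ.1.2.le]
          rw [← ENNReal.ofReal_mul (by positivity), norm_mul, Complex.norm_exp, Real.log_exp]
          congr 1
          field_simp
        · simp only [H.expZ ha.1.2, H.expZ hb.1.2] at e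
          exact exp_injOn (fun _ h => h.2) ha hb
            (H.inj (exp_mem_ball ha.1.2) (exp_mem_ball hb.1.2) e)
    _ ≤ ∫⁻ w in exp '' S2, K w := by
        refine lintegral_mono_set ?_
        rintro _ ⟨ζ, hζ, rfl⟩
        obtain ⟨φ, hφ, e⟩ := exists_pt (Complex.exp_ne_zero (ZZ L ζ))
        refine ⟨_, ⟨?_, by simpa using hφ, ?_⟩, e⟩
        · simp only [pt_re, mem_Ici, Complex.norm_exp, Real.log_exp]
          by_contra hc
          obtain ⟨z, hz, e'⟩ := hb (a := exp (ZZ L ζ))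
            (by simpa [Complex.norm_exp] using not_le.1 hc)
          rw [H.expZ hζ.1.2] at e'
          rw [H.inj (ball_subset_ball (Real.exp_lt_one_iff.2 h0).le hz)
            (exp_mem_ball hζ.1.2) e'] at hz
          simp only [mem_ball_zero_iff, Complex.norm_exp, Real.exp_lt_exp] at hz
          exact absurd hζ.1.1 (not_lt.2 hz.le)
        · rw [e, H.expZ hζ.1.2]; exact ⟨_, exp_mem_ball hζ.1.2, rfl⟩
    _ = ∫⁻ ζ, S2.indicator (fun ζ => ENNReal.ofReal (‖exp ζ‖ ^ 2) * K (exp ζ)) ζ := by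
        rw [cv_holo m2 (fun ζ _ => Complex.hasDerivAt_exp ζ) (exp_injOn fun _ h => h.2.1),
          lintegral_indicator m2]
    _ ≤ _ := by
        refine (lint_le _).trans ?_
        rw [← lintegral_indicator measurableSet_Ici]
        refine lintegral_mono fun s => ?_
        by_cases hs : s ∈ Ici x₀
        · rw [indicator_of_mem hs]
          refine le_trans (le_of_eq ?_) (H.circle hne s
            (G := fun t => ENNReal.ofReal (M s t))
            (hM.comp (measurable_const.prodMk measurable_id)).ennreal_ofReal)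
          have mX : MeasurableSet {φ ∈ JJ | exp (pt s φ) ∈ f '' ball 0 1} :=
            measJJ.inter ((by unfold pt; fun_prop : Measurable fun φ => exp (pt s φ))
              (H.isOpen_img le_rfl).measurableSet)
          rw [← lintegral_indicator mX]
          refine lintegral_congr fun φ => ?_
          by_cases hφ : φ ∈ JJ ∧ exp (pt s φ) ∈ f '' ball 0 1
          · rw [indicator_of_mem (show pt s φ ∈ S2 from ⟨by simpa using hs, by simpa using hφ⟩),
              indicator_of_mem (by exact hφ)]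
            simp only [hK, norm_exp_pt, Real.log_exp]
            rw [← ENNReal.ofReal_mul (by positivity)]
            congr 1
            field_simp
          · rw [indicator_of_notMem (fun h : pt s φ ∈ S2 => hφ (by simpa using h.2)),
              indicator_of_notMem (by exact hφ)]
        · rw [indicator_of_notMem hs]
          refine le_of_eq ((lintegral_congr fun φ => ?_).trans lintegral_zero)
          exact indicator_of_notMem (fun h : pt s φ ∈ S2 => hs (by simpa using h.1)) _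

theorem area_le : volume (ball (0 : ℂ) 1 \ f '' ball 0 1) ≤
    ∫⁻ s in Iio 0, ENNReal.ofReal (2 * (Real.pi - cm (f '' ball 0 1) s) * Real.exp (2 * s)) := by
  set S : Set ℂ := {ζ | ζ.re ∈ Iio 0 ∧ ζ.im ∈ JJ ∧ exp ζ ∉ f '' ball 0 1} with hS
  have mo := (H.isOpen_img le_rfl).measurableSet
  have m : MeasurableSet S := (Complex.measurable_re measurableSet_Iio).inter
    ((Complex.measurable_im measJJ).inter (Complex.measurable_exp mo.compl))
  calc volume (ball (0 : ℂ) 1 \ f '' ball 0 1) ≤ ∫⁻ _ in exp '' S, 1 := by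
        rw [setLIntegral_one]
        refine measure_mono fun w hw => ?_
        have w0 : w ≠ 0 := fun h => hw.2 ⟨0, mem_ball_self one_pos, by rw [H.f0, h]⟩
        obtain ⟨φ, hφ, e⟩ := exists_pt w0
        refine ⟨_, ⟨?_, by simpa using hφ, by rw [e]; exact hw.2⟩, e⟩
        simpa using Real.log_neg (norm_pos_iff.2 w0) (by simpa using hw.1)
    _ = ∫⁻ ζ, S.indicator (fun ζ => ENNReal.ofReal (‖exp ζ‖ ^ 2) * 1) ζ := by
        rw [cv_holo m (fun ζ _ => Complex.hasDerivAt_exp ζ) (exp_injOn fun _ h => h.2.1),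
          lintegral_indicator m]
    _ ≤ _ := by
        refine (lint_le _).trans ?_
        rw [← lintegral_indicator measurableSet_Iio]
        refine lintegral_mono fun s => ?_
        by_cases hs : s ∈ Iio 0
        · rw [indicator_of_mem hs]
          have mX : MeasurableSet {φ ∈ JJ | exp (pt s φ) ∈ f '' ball 0 1} :=
            measJJ.inter ((by unfold pt; fun_prop : Measurable fun φ => exp (pt s φ)) mo)
          calc _ = ∫⁻ φ, (JJ \ {φ ∈ JJ | exp (pt s φ) ∈ f '' ball 0 1}).indicator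
                (fun _ => ENNReal.ofReal (Real.exp (2 * s))) φ := by
                refine lintegral_congr fun φ => ?_
                by_cases hφ : φ ∈ JJ ∧ exp (pt s φ) ∉ f '' ball 0 1
                · rw [indicator_of_mem (show pt s φ ∈ S from
                    ⟨by simpa using hs, by simpa using hφ⟩),
                    indicator_of_mem (mem_sdiff_of_mem hφ.1 fun h => hφ.2 h.2), norm_exp_pt,
                    ← Real.exp_nat_mul, mul_one]
                  norm_num
                · rw [indicator_of_notMem (fun h : pt s φ ∈ S => hφ (by simpa using h.2)),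
                    indicator_of_notMem fun h => hφ ⟨h.1, fun h' => h.2 ⟨h.1, h'⟩⟩]
            _ ≤ _ := by
                rw [lintegral_indicator (measJJ.diff mX), setLIntegral_const,
                  measure_sdiff (sep_subset _ _) mX.nullMeasurableSet (sep_ne_top _), vol_JJ,
                  ← ENNReal.ofReal_toReal (sep_ne_top _),
                  ← ENNReal.ofReal_sub _ ENNReal.toReal_nonneg,
                  ← ENNReal.ofReal_mul (by positivity)]
                refine le_of_eq (congrArg _ ?_)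
                simp only [cm, Measure.real]; ring
        · rw [indicator_of_notMem hs]
          refine le_of_eq ((lintegral_congr fun φ => ?_).trans lintegral_zero)
          exact indicator_of_notMem (fun h : pt s φ ∈ S => hs (by simpa using h.1)) _

end Hyp0

end Pool.Agent.Lib.MP_9b2593_an
end
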