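import Mathlib

-- part Pool.Agent.Lib.MP_9b2593_an.Chk
section
/-!
Kernel-friendly checker for the omitted area certificates (definitions only).
Units: radial coordinate `s = π (Y - 6144) / 4096`, angular coordinate `t = π T / 4096`,
stream function `θ = π X / 2^24`.
-/

namespace Pool.Agent.Lib.MP_9b2593_an

noncomputable def force {α : Type} (n : Nat) (k : Nat → α) : α :=
  Nat.rec (motive := fun _ => α) (k 0) (fun m _ => k m) (Nat.add n 1)

noncomputable def ifz {α : Type} (x : Nat) (a b : α) : α :=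
  Nat.rec (motive := fun _ => α) a (fun _ _ => b) x

noncomputable def cnd {α : Type} (c : Bool) (a b : α) : α :=
  Bool.rec (motive := fun _ => α) b a c

noncomputable def andB (a b : Bool) : Bool := Bool.rec (motive := fun _ => Bool) false b a

def mx (a b : Nat) : Nat := Nat.add a (Nat.sub b a)

def ad (a b : Nat) : Nat := Nat.add (Nat.sub a b) (Nat.sub b a)

inductive L2 : Type
  | nil : L2
  | cons : Nat → Nat → L2 → L2

/-- records of a pass: costs, value list at the inner node, value at the outer node, maximum -/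
inductive Rc : Type
  | nil : Rc
  | cons : L2 → List Nat → Nat → Nat → Rc → Rc

structure Cls : Type where
  dlo : Nat
  dhi : Nat
  clo : Nat
  chi : Nat
  pL : L2
  nL : L2
  pR : L2
  nR : L2

/-- digit `k` in base `2^16` -/
def dig (a k : Nat) : Nat := Nat.land (Nat.shiftRight a (Nat.mul 16 k)) 65535

/-- value in row `k` of a column which has been multiplied by `2^20` -/
def val' (c k : Nat) : Nat :=
  Nat.mul (Nat.land (Nat.shiftRight c (Nat.mul 20 k)) 1048575) 32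

noncomputable def nth (l : List Nat) : Nat → Nat :=
  List.rec (motive := fun _ => Nat → Nat) (fun _ => 0)
    (fun a _ ih n => Nat.rec (motive := fun _ => Nat) a (fun m _ => ih m) n) l

noncomputable def hd (l : List Nat) : Nat :=
  List.rec (motive := fun _ => Nat) 0 (fun a _ _ => a) l

noncomputable def rev {α : Type} (l : List Nat) : List Nat → (List Nat → α) → α :=
  List.rec (motive := fun _ => List Nat → (List Nat → α) → α) (fun acc c => c acc)
    (fun a _ ih acc c => ih (a :: acc) c) l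

noncomputable def rev2 {α : Type} (l : L2) : L2 → (L2 → α) → α :=
  L2.rec (motive := fun _ => L2 → (L2 → α) → α) (fun acc c => c acc)
    (fun a b _ ih acc c => ih (L2.cons a b acc) c) l

/-- the list `dig a k, ..., dig a (k + n - 1)` put in front of `acc` -/
noncomputable def digs (a k n : Nat) : List Nat → (List Nat → Bool) → Bool :=
  Nat.rec (motive := fun _ => List Nat → (List Nat → Bool) → Bool) (fun acc c => c acc)
    (fun i ih acc c => force (dig a (Nat.add k i)) fun d => ih (d :: acc) c) n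

/-- `n` copies of `v` -/
noncomputable def rep (v n : Nat) : List Nat → (List Nat → Bool) → Bool :=
  Nat.rec (motive := fun _ => List Nat → (List Nat → Bool) → Bool) (fun acc c => c acc)
    (fun _ ih acc c => ih (v :: acc) c) n

/-- pairs (shift, square of the height of the row), listed from the top -/
noncomputable def mktq (T n : Nat) : Nat → L2 → (L2 → Bool) → Bool :=
  Nat.rec (motive := fun _ => Nat → L2 → (L2 → Bool) → Bool) (fun _ acc k => k acc)
    (fun _ ih i acc k =>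
      force (Nat.succ i) fun i' =>
      force (Nat.mul 20 i) fun sh =>
      force (Nat.pow (Nat.sub (dig T i') (dig T i)) 2) fun e => ih i' (L2.cons sh e acc) k) n

def vx (c sh : Nat) : Nat := Nat.mul (Nat.land (Nat.shiftRight c sh) 1048575) 32

/-- prepared column -/
noncomputable def prep (c : Nat) (tq : L2) : Nat → L2 → (L2 → Bool) → Bool :=
  L2.rec (motive := fun _ => Nat → L2 → (L2 → Bool) → Bool)
    (fun _ acc k => k acc)
    (fun sh e _ ih xn acc k =>
      ih (vx c sh) (L2.cons xn (Nat.succ (Nat.div (Nat.pow (ad xn (vx c sh)) 2) e)) acc) k) tq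

noncomputable def prepC (N : Nat) (tq : L2) (col : Nat) (k : L2 → Bool) : Bool :=
  force (Nat.mul col 1048576) fun c => prep c tq (val' c N) L2.nil k

/-- numerator of the cost of a layer in which all the rows are active -/
noncomputable def fixc (h3 : Nat) (ta : List Nat) :
    L2 → L2 → Nat → Nat → Nat → Nat → (Nat → Bool) → Bool :=
  List.rec (motive := fun _ => L2 → L2 → Nat → Nat → Nat → Nat → (Nat → Bool) → Bool)
    (fun _ _ _ _ _ C k => k C)
    (fun t _ ih A B tp dp dq C k =>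
      L2.rec (motive := fun _ => Bool) false (fun xa ba A' _ =>
      L2.rec (motive := fun _ => Bool) false (fun xb bb B' _ =>
        ih A' B' t (ad xa xb) (Nat.pow (ad xa xb) 2) (Nat.add C (Nat.mul (Nat.sub t tp)
          (Nat.add (Nat.add (Nat.add dq (Nat.pow (ad xa xb) 2)) (Nat.pow (Nat.add dp (ad xa xb)) 2))
          (Nat.mul h3 (Nat.add ba bb))))) k) B) A) ta

/-- cost of a state -/
def cst (C D R dq d2 hb w h6 : Nat) : Nat :=
  Nat.succ (Nat.div (Nat.add (Nat.add C (Nat.mul (Nat.mul 3 D)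
    (Nat.add (mx w (Nat.add dq hb)) (mx w (Nat.add d2 hb))))) (Nat.mul R (mx w d2))) h6)

/-- costs of a free layer -/
noncomputable def frc (h2 h26 h6 wa wb tn1 tp : Nat) (ta : List Nat) :
    L2 → L2 → Nat → Nat → Nat → Nat → Nat → L2 → (L2 → Bool) → Bool :=
  List.rec
    (motive := fun _ => L2 → L2 → Nat → Nat → Nat → Nat → Nat → L2 → (L2 → Bool) → Bool)
    (fun _ _ _ _ _ _ _ acc k => k acc)
    (fun t _ ih A B t0 dp dq Ca Cb acc k =>
      Bool.rec (motive := fun _ => Bool) (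
      L2.rec (motive := fun _ => Bool) false (fun xa ba A' _ =>
      L2.rec (motive := fun _ => Bool) false (fun xb bb B' _ =>
        ih A' B' t (ad xa xb) (Nat.pow (ad xa xb) 2)
          (Nat.add (Nat.add Ca (Nat.mul (Nat.sub t t0) (Nat.add (Nat.add dq (Nat.pow (ad xa xb) 2))
            (Nat.pow (Nat.add dp (ad xa xb)) 2)))) (Nat.mul (Nat.sub t t0) (Nat.mul h26 ba)))
          (Nat.add (Nat.add Cb (Nat.mul (Nat.sub t t0) (Nat.add (Nat.add dq (Nat.pow (ad xa xb) 2))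
            (Nat.pow (Nat.add dp (ad xa xb)) 2)))) (Nat.mul (Nat.sub t t0) (Nat.mul h26 bb)))
          (L2.cons
            (Bool.rec (motive := fun _ => Nat) 0 (cst Ca (Nat.sub t t0) (Nat.mul 6 (Nat.sub 4096 t)) dq
              (Nat.pow (ad xa xb) 2) (Nat.mul h2 ba) wa h6) (Nat.ble tn1 t))
            (cst Cb (Nat.sub t t0) (Nat.mul 6 (Nat.sub 4096 t)) dq
              (Nat.pow (ad xa xb) 2) (Nat.mul h2 bb) wb h6) acc) k) B) A)
      (ih A B t dp dq Ca Cb (L2.cons 0 0 acc) k) (Nat.ble tp t0)) ta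

/-- one step of the dynamic programme -/
noncomputable def step (cs : L2) :
    List Nat → Nat → Nat → Nat → List Nat → (Nat → List Nat → Bool) → Bool :=
  L2.rec (motive := fun _ => List Nat → Nat → Nat → Nat → List Nat → (Nat → List Nat → Bool) → Bool)
    (fun _ X _ _ acc k => k X acc)
    (fun x y _ ih u X Y Z acc k =>
      List.rec (motive := fun _ => Bool) false (fun v u' _ =>
        Nat.rec (motive := fun _ => Bool) (ih u' X Y Z (Z :: acc) k) (fun _ _ =>
           force (mx Z (mx (Nat.add y (mx X (Nat.add x v))) (Nat.add x (mx Y (Nat.add y v))))) fun Z' =>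
           ih u' (mx X (Nat.add x v)) (mx Y (Nat.add y v)) Z' (Z' :: acc) k) x) u) cs

/-- partial sums of the exponential series in fixed point arithmetic -/
noncomputable def tay (y : Nat) (n : Nat) : Nat → Nat → Nat → Nat :=
  Nat.rec (motive := fun _ => Nat → Nat → Nat → Nat) (fun _ _ s => s)
    (fun _ ih i a s => ih (Nat.add i 4096000000) (Nat.div (Nat.mul a y) i)
      (Nat.add s (Nat.div (Nat.mul a y) i))) n

/-- upper bound for the weight at the node `Y` -/
noncomputable def wv (lam Y : Nat) (k : Nat → Bool) : Bool :=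
  force (Nat.succ (Nat.div (Nat.mul lam 18014398509481984)
    (tay (Nat.mul 6283184 (Nat.sub 6144 Y)) 16 4096000000 1099511627776 1099511627776))) k

/-- least second coordinate among the pairs whose first coordinate passes the test -/
noncomputable def fmin (p : Nat → Bool) (l : L2) : Nat → (Nat → Bool) → Bool :=
  L2.rec (motive := fun _ => Nat → (Nat → Bool) → Bool) (fun r k => k r)
    (fun x t _ ih r k => cnd (p x) (force (Nat.sub r (Nat.sub r t)) fun r' => ih r' k) (ih r k)) l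

/-- largest successor of a second coordinate among the pairs passing the test -/
noncomputable def fmax (p : Nat → Bool) (l : L2) : Nat → (Nat → Bool) → Bool :=
  L2.rec (motive := fun _ => Nat → (Nat → Bool) → Bool) (fun r k => k r)
    (fun x t _ ih r k => cnd (p x) (force (mx r (Nat.succ t)) fun r' => ih r' k) (ih r k)) l

noncomputable def winL (c : Cls) (Y Y' : Nat) (k : Nat → Nat → Bool) : Bool :=
  fmax (fun x => Nat.ble Y' x) c.nL 0 fun tn =>
  fmin (fun x => Nat.ble x Y) c.pL 4097 fun tp => k tn tp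

noncomputable def winR (c : Cls) (Y Y' : Nat) (k : Nat → Nat → Bool) : Bool :=
  fmax (fun x => Nat.ble 6144 x) c.nL 0 fun t0 =>
  fmax (fun x => Nat.ble x Y') c.nR t0 fun tn =>
  fmin (fun x => Nat.ble Y x) c.pR 4097 fun tp => k tn tp

/-- pass through the fixed layers -/
noncomputable def fpass (N : Nat) (ta : List Nat) (td : L2) (Yf : Nat → Nat) (cols : List Nat) (n : Nat) :
    Nat → L2 → Nat → (L2 → Nat → Bool) → Bool :=
  Nat.rec (motive := fun _ => Nat → L2 → Nat → (L2 → Nat → Bool) → Bool) (fun _ A J k => k A J)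
    (fun _ ih i A J k =>
      force (Nat.succ i) fun i' =>
      force (ad (Yf i) (Yf i')) fun h =>
      force (nth cols i') fun col =>
      prepC N td col fun B =>
      force (Nat.mul 3 (Nat.mul h h)) fun h3 =>
      fixc h3 ta A B 0 0 0 0 fun C =>
      force (Nat.add J (Nat.succ (Nat.div C (Nat.mul 3 h)))) fun J' => ih i' B J' k) n

/-- pass through the free layers from the outside -/
noncomputable def upass (N lam : Nat) (ta : List Nat) (td : L2) (Yf : Nat → Nat) (cols : List Nat)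
    (win : Nat → Nat → (Nat → Nat → Bool) → Bool) (n : Nat) :
    Nat → L2 → Nat → List Nat → Nat → Rc → (L2 → Nat → List Nat → Nat → Rc → Bool) → Bool :=
  Nat.rec (motive := fun _ => Nat → L2 → Nat → List Nat → Nat → Rc →
      (L2 → Nat → List Nat → Nat → Rc → Bool) → Bool)
    (fun _ A w u E rc k => k A w u E rc)
    (fun _ ih i A w u E rc k =>
      force (Nat.succ i) fun i' =>
      force (Yf i) fun Y => force (Yf i') fun Y' =>
      force (ad Y Y') fun h =>
      force (nth cols i') fun col =>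
      prepC N td col fun B =>
      wv lam Y' fun w' =>
      win Y Y' fun tn tp =>
      force (Nat.mul h h) fun h2 => force (Nat.mul 6 h) fun h6 => force (Nat.mul 6 h2) fun h26 =>
      force (Nat.mul h2 w) fun wa => force (Nat.mul h2 w') fun wb =>
      force (ifz tn (Nat.succ (Nat.div (Nat.mul 24576 wa) h6)) 0) fun ca =>
      force (ifz tn (Nat.succ (Nat.div (Nat.mul 24576 wb) h6)) 0) fun cb =>
      frc h2 h26 h6 wa wb tn tp ta A B 0 0 0 0 0 (L2.cons ca cb L2.nil) fun cd =>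
      step cd u 0 0 0 [] fun X ua =>
      rev ua [] fun ud => rev2 cd L2.nil fun cs =>
      force (hd ua) fun E' =>
      ih i' B w' ud E' (Rc.cons cs ua E X rc) k) n

/-- pairs (value at the inner node, maximum) listed from the outside -/
noncomputable def info (rc : Rc) : L2 → (L2 → Bool) → Bool :=
  Rc.rec (motive := fun _ => L2 → (L2 → Bool) → Bool) (fun acc k => k acc)
    (fun _ u _ X _ ih acc k => force (hd u) fun F => ih (L2.cons F X acc) k) rc

/-- checks the turning layers with index below `a` or at least `b` -/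
noncomputable def turn (thr a b : Nat) (rc : Rc) : L2 → Nat → Nat → Bool :=
  Rc.rec (motive := fun _ => L2 → Nat → Nat → Bool) (fun _ _ _ => true)
    (fun _ u E X _ ih inf E' i =>
      L2.rec (motive := fun _ => Bool) false (fun F' X' inf' _ =>
        force (Nat.pred i) fun i' =>
        andB (cnd (andB (Nat.ble a i') (Nat.blt i' b)) true
          (andB (Nat.ble (Nat.add E F') thr)
            (andB (Nat.ble (Nat.add (hd u) E') thr) (Nat.ble (Nat.add X X') thr))))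
          (ih inf' F' i')) inf) rc

/-- pass from the inside through the turning layers -/
noncomputable def vov (rc : Rc) : L2 → List Nat → (List Nat → Bool) → Bool :=
  Rc.rec (motive := fun _ => L2 → List Nat → (List Nat → Bool) → Bool) (fun _ v k => k v)
    (fun cs _ _ _ _ ih inf v k =>
      L2.rec (motive := fun _ => Bool) false (fun F' X' inf' _ =>
        step cs v 0 X' F' [] fun _ vd => rev vd [] fun va => ih inf' va k) inf) rc

noncomputable def thru (thr l h : Nat) (u : List Nat) : List Nat → Nat → Bool :=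
  List.rec (motive := fun _ => List Nat → Nat → Bool) (fun _ _ => true)
    (fun a _ ih v i =>
      List.rec (motive := fun _ => Bool) false (fun b v' _ =>
        force (Nat.succ i) fun i' =>
        andB (cnd (andB (Nat.ble l i) (Nat.ble i h)) true (Nat.ble (Nat.add a b) thr))
          (ih v' i')) v) u

noncomputable def sel (b : Bool) (x y : L2) (k : L2 → Bool) : Bool := cnd b (k x) (k y)

/-- pass from the inside through the other free layers, collecting new facts -/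
noncomputable def vpass (N thr T lc hc : Nat) (Yf : Nat → Nat) (rc : Rc) :
    Nat → List Nat → L2 → L2 → (L2 → L2 → Bool) → Bool :=
  Rc.rec (motive := fun _ => Nat → List Nat → L2 → L2 → (L2 → L2 → Bool) → Bool)
    (fun _ _ P Ng k => k P Ng)
    (fun cs u _ _ _ ih i v P Ng k =>
      force (dig lc i) fun l => force (Nat.sub N (dig hc i)) fun h =>
      force (Yf i) fun Y => force (Nat.pred i) fun i' =>
      force (dig T h) fun th => force (dig T (Nat.pred l)) fun tl =>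
      andB (andB (Nat.ble l N) (cnd (andB (Nat.ble l 0) (Nat.ble N h)) true (thru thr l h u v 0)))
        (step cs v 0 0 0 [] fun _ vd => rev vd [] fun va =>
          sel (Nat.ble N h) P (L2.cons Y th P) fun P' =>
          sel (Nat.ble l 0) Ng (L2.cons Y tl Ng) fun Ng' => ih i' va P' Ng' k)) rc

noncomputable def anyL (p : Nat → Nat → Bool) (l : L2) : Bool :=
  L2.rec (motive := fun _ => Bool) false (fun x t _ ih => cnd (p x t) true ih) l

noncomputable def allL (p : Nat → Nat → Bool) (l : L2) : Bool :=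
  L2.rec (motive := fun _ => Bool) true (fun x t _ ih => andB (p x t) ih) l

noncomputable def allN (p : Nat → Bool) (n : Nat) : Bool :=
  Nat.rec (motive := fun _ => Bool) true (fun i ih => andB (p i) ih) n

/-- every fact of `c'` follows from a fact of `c` -/
noncomputable def imp (c c' : Cls) : Bool :=
  andB (Nat.ble c'.dlo c.dlo) (andB (Nat.ble c.dhi c'.dhi)
  (andB (Nat.ble c'.clo c.clo) (andB (Nat.ble c.chi c'.chi)
  (andB (allL (fun x t => anyL (fun y u => andB (Nat.ble y x) (Nat.ble u t)) c.pL) c'.pL)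
  (andB (allL (fun x t => anyL (fun y u => andB (Nat.ble x y) (Nat.ble t u)) c.nL) c'.nL)
  (andB (allL (fun x t => anyL (fun y u => andB (Nat.ble x y) (Nat.ble u t)) c.pR) c'.pR)
    (allL (fun x t => anyL (fun y u => andB (Nat.ble y x) (Nat.ble t u)) c.nR) c'.nR)))))))

structure Cert : Type where
  N : Nat
  fL : Nat
  mL : Nat
  ov : Nat
  mR : Nat
  fR : Nat
  lam : Nat
  km : Nat
  a : Nat
  b : Nat
  T : Nat
  S : Nat
  lL : Nat
  hL : Nat
  lR : Nat
  hR : Nat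
  cL : List Nat
  cR : List Nat

/-- structural conditions -/
noncomputable def wf (c : Cls) (x : Cert) (j0 Ns : Nat) : Bool :=
  andB (Nat.beq (dig x.T 0) 0) (andB (Nat.beq (dig x.T x.N) 4096)
  (andB (allN (fun k => Nat.blt (dig x.T k) (dig x.T (Nat.succ k))) x.N)
  (andB (allN (fun j => Nat.blt (dig x.S j) (dig x.S (Nat.succ j))) Ns)
  (andB (Nat.beq (dig x.S 0) 0) (andB (Nat.beq (dig x.S (Nat.sub Ns x.fR)) 6144)
  (andB (Nat.ble (dig x.S x.fL) c.dlo) (andB (Nat.ble (dig x.S j0) (mx c.clo c.dlo))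
  (andB (Nat.ble c.chi (dig x.S (Nat.add j0 x.ov))) (andB (Nat.ble 1 x.ov)
  (andB (Nat.beq (nth x.cR 0) 0)
  (andB (force (Nat.mul (nth x.cL 0) 1048576) fun c0 =>
    allN (fun k => Nat.beq (val' c0 (Nat.succ k)) (Nat.mul (dig x.T (Nat.succ k)) 4096)) x.N)
  (andB (ifz j0 (Nat.beq (nth x.cR Ns) (nth x.cL 0)) true)
  (andB (allN (fun j => cnd (Nat.ble c.dhi (dig x.S j)) true
    (Nat.beq (val' (Nat.mul (nth x.cL (Nat.succ j)) 1048576) x.N) 16777216)) (Nat.add j0 x.ov))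
  (andB (Nat.ble x.km x.N)
  (andB (fmin (fun _ => true) c.pL 4096 fun t1 => fmin (fun _ => true) c.pR t1 fun t2 =>
    Nat.ble t2 (dig x.T x.km))
  (andB (force (Nat.shiftLeft 1 (Nat.mul 20 x.km)) fun m =>
    allN (fun i => Nat.beq (Nat.mod (nth x.cL (Nat.add j0 i)) m)
      (Nat.mod (nth x.cR (Nat.sub Ns (Nat.add j0 i))) m)) (Nat.succ x.ov))
  (andB (Nat.ble 1 x.lam) (wv x.lam 0 fun w => Nat.ble w 16777216))))))))))))))))))

/-- the check of a certificate; `cn / 100000` is the constant in the area bound -/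
noncomputable def chk (cn : Nat) (c : Cls) (x : Cert) (nx : Cls) : Bool :=
  force (Nat.add x.fL x.mL) fun j0 =>
  force (Nat.add x.fR x.mR) fun i0 =>
  force (Nat.add (Nat.add j0 x.ov) i0) fun Ns =>
  andB (wf c x j0 Ns) (
  digs x.T 1 x.N [] fun ta => mktq x.T x.N 0 L2.nil fun td =>
  rep 0 (Nat.succ x.N) [] fun z =>
  prepC x.N td (nth x.cL 0) fun A0 =>
  fpass x.N ta td (fun i => dig x.S i) x.cL x.fL 0 A0 0 fun A1 J1 =>
  prepC x.N td (nth x.cR 0) fun B0 =>
  fpass x.N ta td (fun i => dig x.S (Nat.sub Ns i)) x.cR x.fR 0 B0 J1 fun B1 J2 =>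
  force (Nat.add 844424930131968 (Nat.div (Nat.mul (Nat.mul cn x.lam) 2748779069440) 3141593)) fun D =>
  force (Nat.sub D J2) fun thr =>
  andB (Nat.ble J2 D) (
  wv x.lam (dig x.S x.fL) fun wl =>
  upass x.N x.lam ta td (fun i => dig x.S i) x.cL (winL c) x.mL x.fL A1 wl z 0 Rc.nil
    fun A2 wl2 ul El rl1 =>
  upass x.N x.lam ta td (fun i => dig x.S i) x.cL (winL c) x.ov j0 A2 wl2 ul El Rc.nil
    fun _ _ _ _ rl2 =>
  wv x.lam 6144 fun wr =>
  upass x.N x.lam ta td (fun i => dig x.S (Nat.sub Ns i)) x.cR (winR c) x.mR x.fR B1 wr z 0 Rc.nil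
    fun B2 wr2 ur Er rr1 =>
  upass x.N x.lam ta td (fun i => dig x.S (Nat.sub Ns i)) x.cR (winR c) x.ov i0 B2 wr2 ur Er Rc.nil
    fun _ _ _ _ rr2 =>
  info rr2 L2.nil fun ir =>
  andB (turn thr x.a x.b rl2 ir Er x.ov) (
  cnd (Nat.ble x.b x.a) true (
  (fun k : L2 → L2 → Bool => ifz (Nat.add x.lL x.hL) (k c.pL c.nL)
    (rep Er (Nat.succ x.N) [] fun v0 => vov rl2 ir v0 fun v1 =>
      vpass x.N thr x.T x.lL x.hL (fun i => dig x.S i) rl1 j0 v1 c.pL c.nL k)) fun pL nL =>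
  (fun k : L2 → L2 → Bool => ifz (Nat.add x.lR x.hR) (k c.pR c.nR)
    (info rl2 L2.nil fun il => rep El (Nat.succ x.N) [] fun v0 => vov rr2 il v0 fun v1 =>
      vpass x.N thr x.T x.lR x.hR (fun i => dig x.S (Nat.sub Ns i)) rr1 i0 v1 c.pR c.nR k))
    fun pR nR =>
  andB (Nat.ble x.b x.ov)
  (imp ⟨c.dlo, c.dhi, mx c.clo (dig x.S (Nat.add j0 x.a)),
    Nat.sub c.chi (Nat.sub c.chi (dig x.S (Nat.add j0 x.b))), pL, nL, pR, nR⟩ nx)))))

/-- a contradictory class -/
def bot : Cls := ⟨1, 0, 0, 0, L2.nil, L2.nil, L2.nil, L2.nil⟩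

end Pool.Agent.Lib.MP_9b2593_an
end

-- part Pool.Agent.Lib.MP_9b2593_an.Spec
section

/-!
What the elementary passes of the checker compute.
-/

namespace Pool.Agent.Lib.MP_9b2593_an

theorem force_eq {α : Type} (n : ℕ) (k : ℕ → α) : force n k = k n := by cases n <;> rfl

theorem ifz_eq {α : Type} (x : ℕ) (a b : α) : ifz x a b = if x = 0 then a else b := by
  cases x <;> rfl

theorem cnd_eq {α : Type} (c : Bool) (a b : α) : cnd c a b = if c = true then a else b := by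
  cases c <;> rfl

@[simp] theorem andB_eq (a b : Bool) : (andB a b = true) = (a = true ∧ b = true) := by
  cases a <;> simp [andB]

theorem mx_eq (a b : ℕ) : mx a b = max a b := by
  simp only [mx, Nat.add_eq, Nat.sub_eq]; omega

def up1 (f : ℕ → ℕ) : ℕ → ℕ → List ℕ
  | _, 0 => []
  | k, n + 1 => f k :: up1 f (k + 1) n

def dn1 (f : ℕ → ℕ) : ℕ → List ℕ
  | 0 => []
  | n + 1 => f n :: dn1 f n

def up2 (f g : ℕ → ℕ) : ℕ → ℕ → L2
  | _, 0 => L2.nil
  | k, n + 1 => L2.cons (f k) (g k) (up2 f g (k + 1) n)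

def dn2 (f g : ℕ → ℕ) : ℕ → L2
  | 0 => L2.nil
  | n + 1 => L2.cons (f n) (g n) (dn2 f g n)

theorem dn2_succ (f g : ℕ → ℕ) (n : ℕ) : dn2 f g (n + 1) = L2.cons (f n) (g n) (dn2 f g n) := rfl

theorem dn1_up (f : ℕ → ℕ) (M n k : ℕ) (h : k + n = M + 1) :
    dn1 f n = up1 (fun i => f (M - i)) k n := by
  induction n generalizing k with
  | zero => rfl
  | succ n ih => rw [dn1, up1, ih (k + 1) (by omega), show M - k = n by omega]

theorem dn2_up (f g : ℕ → ℕ) (M n k : ℕ) (h : k + n = M + 1) :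
    dn2 f g n = up2 (fun i => f (M - i)) (fun i => g (M - i)) k n := by
  induction n generalizing k with
  | zero => rfl
  | succ n ih => rw [dn2, up2, ih (k + 1) (by omega), show M - k = n by omega]

theorem up1_const (v k n : ℕ) : up1 (fun _ => v) k n = List.replicate n v := by
  induction n generalizing k with
  | zero => rfl
  | succ n ih => rw [up1, ih, List.replicate_succ]

theorem dn1_const (v n : ℕ) : dn1 (fun _ => v) n = List.replicate n v := by
  induction n with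
  | zero => rfl
  | succ n ih => rw [dn1, ih, List.replicate_succ]

theorem rev_dn {α : Type} (f : ℕ → ℕ) (k n : ℕ) (c : List ℕ → α) :
    rev (dn1 f k) (up1 f k n) c = c (up1 f 0 (k + n)) := by
  induction k generalizing n with
  | zero => rw [Nat.zero_add]; rfl
  | succ k ih => rw [show k + 1 + n = k + (n + 1) by omega, ← ih]; rfl

theorem rev_up {α : Type} (f : ℕ → ℕ) (k n : ℕ) (c : List ℕ → α) :
    rev (up1 f k n) (dn1 f k) c = c (dn1 f (k + n)) := by
  induction n generalizing k with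
  | zero => rfl
  | succ n ih => rw [show k + (n + 1) = k + 1 + n by omega, ← ih]; rfl

theorem rev2_dn {α : Type} (f g : ℕ → ℕ) (k n : ℕ) (c : L2 → α) :
    rev2 (dn2 f g k) (up2 f g k n) c = c (up2 f g 0 (k + n)) := by
  induction k generalizing n with
  | zero => rw [Nat.zero_add]; rfl
  | succ k ih => rw [show k + 1 + n = k + (n + 1) by omega, ← ih]; rfl

theorem digs_eq (a k i n : ℕ) (c : List ℕ → Bool) :
    digs a k i (up1 (fun j => dig a (k + j)) i n) c = c (up1 (fun j => dig a (k + j)) 0 (i + n)) := by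
  induction i generalizing n with
  | zero => rw [Nat.zero_add]; rfl
  | succ i ih => rw [show i + 1 + n = i + (n + 1) by omega, ← ih]; rfl

theorem rep_eq (v i n : ℕ) (c : List ℕ → Bool) :
    rep v i (List.replicate n v) c = c (List.replicate (i + n) v) := by
  induction i generalizing n with
  | zero => rw [Nat.zero_add]; rfl
  | succ i ih => rw [show i + 1 + n = i + (n + 1) by omega, ← ih]; rfl

def tq (T : ℕ → ℕ) (N : ℕ) : L2 := dn2 (fun i => 20 * i) (fun i => (T (i + 1) - T i) ^ 2) N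

theorem mktq_eq (T n i : ℕ) (c : L2 → Bool) :
    mktq T n i (tq (dig T) i) c = c (tq (dig T) (i + n)) := by
  induction n generalizing i with
  | zero => rfl
  | succ n ih => rw [show i + (n + 1) = i + 1 + n by omega, ← ih]; rfl

def Bq (T x : ℕ → ℕ) (k : ℕ) : ℕ := ad (x (k + 1)) (x k) ^ 2 / (T (k + 1) - T k) ^ 2 + 1

def pc (T x : ℕ → ℕ) (k n : ℕ) : L2 := up2 (fun j => x (j + 1)) (Bq T x) k n

theorem prep_cons (c sh e xn : ℕ) (l acc : L2) (k : L2 → Bool) : prep c (L2.cons sh e l) xn acc k =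
    prep c l (vx c sh) (L2.cons xn (ad xn (vx c sh) ^ 2 / e + 1) acc) k := rfl

theorem prep_eq (T : ℕ → ℕ) (c : ℕ) (k : L2 → Bool) (i n : ℕ) :
    prep c (tq T i) (val' c i) (pc T (val' c) i n) k = k (pc T (val' c) 0 (i + n)) := by
  induction i generalizing n with
  | zero => rw [Nat.zero_add]; rfl
  | succ i ih => rw [show i + 1 + n = i + (n + 1) by omega, ← ih, tq, dn2, prep_cons]; rfl

/-- value of a column in row `k` -/
def xv (col : ℕ) : ℕ → ℕ := val' (col * 1048576)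

theorem prepC_eq (T : ℕ → ℕ) (N col : ℕ) (c : L2 → Bool) :
    prepC N (tq T N) col c = c (pc T (xv col) 0 N) := by
  have h := prep_eq T (col * 1048576) c N 0
  rw [Nat.add_zero] at h
  rw [prepC, force_eq, xv, ← h, Nat.mul_eq]
  generalize col * 1048576 = y
  rfl

theorem xv_zero (col : ℕ) : xv col 0 = 0 := by
  have h := Nat.and_two_pow_sub_one_eq_mod (col * 1048576) 20
  have : ∀ c, val' c 0 = (c &&& 1048575) * 32 := fun c => rfl
  norm_num at h
  rw [xv, this, h]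

def dd (a b : ℕ → ℕ) (k : ℕ) : ℕ := ad (a k) (b k)

theorem dd_zero (a b : ℕ) : dd (xv a) (xv b) 0 = 0 := by rw [dd, xv_zero, xv_zero]; rfl

def ta (T : ℕ → ℕ) (k n : ℕ) : List ℕ := up1 (fun j => T (j + 1)) k n

def Cf (T d : ℕ → ℕ) (h3 : ℕ) (B B' : ℕ → ℕ) : ℕ → ℕ
  | 0 => 0
  | k + 1 => Cf T d h3 B B' k + (T (k + 1) - T k) * (d k ^ 2 + d (k + 1) ^ 2 +
      (d k + d (k + 1)) ^ 2 + h3 * (B k + B' k))

theorem fixc_eq (T a b : ℕ → ℕ) (h3 N : ℕ) (h0 : T 0 = 0) (hd : dd a b 0 = 0) (c : ℕ → Bool) :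
    fixc h3 (ta T 0 N) (pc T a 0 N) (pc T b 0 N) 0 0 0 0 c =
      c (Cf T (dd a b) h3 (Bq T a) (Bq T b) N) := by
  unfold pc
  generalize Bq T a = B
  generalize Bq T b = B'
  have : ∀ n k, fixc h3 (ta T k n) (up2 (fun j => a (j + 1)) B k n) (up2 (fun j => b (j + 1)) B' k n)
      (T k) (dd a b k) (dd a b k ^ 2) (Cf T (dd a b) h3 B B' k) c =
      c (Cf T (dd a b) h3 B B' (k + n)) := by
    intro n
    induction n with
    | zero => intro k; rfl
    | succ n ih => intro k; rw [show k + (n + 1) = k + 1 + n by omega, ← ih]; rfl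
  have h := this N 0
  rw [h0, hd, Nat.zero_add] at h
  exact h

def Cs (T d : ℕ → ℕ) (h26 : ℕ) (B : ℕ → ℕ) : ℕ → ℕ
  | 0 => 0
  | k + 1 => Cs T d h26 B k + (T (k + 1) - T k) * (d k ^ 2 + d (k + 1) ^ 2 +
      (d k + d (k + 1)) ^ 2) + (T (k + 1) - T k) * (h26 * B k)

def cq (T d : ℕ → ℕ) (h w : ℕ) (B : ℕ → ℕ) : ℕ → ℕ
  | 0 => 24576 * (h * h * w) / (6 * h) + 1
  | k + 1 => cst (Cs T d (6 * (h * h)) B k) (T (k + 1) - T k) (6 * (4096 - T (k + 1)))
      (d k ^ 2) (d (k + 1) ^ 2) (h * h * B k) (h * h * w) (6 * h)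

noncomputable def ca (T q : ℕ → ℕ) (tn tp : ℕ) : ℕ → ℕ
  | 0 => ifz tn (q 0) 0
  | k + 1 => cnd (Nat.ble tp (T k)) 0 (cnd (Nat.ble tn (T (k + 1))) (q (k + 1)) 0)

noncomputable def cb (T q : ℕ → ℕ) (tn tp : ℕ) : ℕ → ℕ
  | 0 => ifz tn (q 0) 0
  | k + 1 => cnd (Nat.ble tp (T k)) 0 (q (k + 1))

theorem frc_eq (T a b : ℕ → ℕ) (h w w' tn tp N : ℕ) (h0 : T 0 = 0) (hd : dd a b 0 = 0)
    (hm : ∀ k < N, T k < T (k + 1)) (c : L2 → Bool) :
    frc (h * h) (6 * (h * h)) (6 * h) (h * h * w) (h * h * w') tn tp (ta T 0 N) (pc T a 0 N)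
      (pc T b 0 N) 0 0 0 0 0 (dn2 (ca T (cq T (dd a b) h w (Bq T a)) tn tp)
        (cb T (cq T (dd a b) h w' (Bq T b)) tn tp) 1) c =
      c (dn2 (ca T (cq T (dd a b) h w (Bq T a)) tn tp) (cb T (cq T (dd a b) h w' (Bq T b)) tn tp)
        (N + 1)) := by
  unfold pc
  generalize Bq T a = E
  generalize Bq T b = E'
  have : ∀ n k A B dp dq Ca Cb, k + n = N → (T k < tp → A = up2 (fun j => a (j + 1)) E k n ∧
      B = up2 (fun j => b (j + 1)) E' k n ∧
      dp = dd a b k ∧ dq = dd a b k ^ 2 ∧ Ca = Cs T (dd a b) (6 * (h * h)) E k ∧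
      Cb = Cs T (dd a b) (6 * (h * h)) E' k) →
      frc (h * h) (6 * (h * h)) (6 * h) (h * h * w) (h * h * w') tn tp (ta T k n) A B (T k)
        dp dq Ca Cb (dn2 (ca T (cq T (dd a b) h w E) tn tp) (cb T (cq T (dd a b) h w' E') tn tp)
          (k + 1)) c =
      c (dn2 (ca T (cq T (dd a b) h w E) tn tp) (cb T (cq T (dd a b) h w' E') tn tp) (N + 1)) := by
    intro n
    induction n with
    | zero => intro k A B dp dq Ca Cb e _; rw [← e]; rfl
    | succ n ih =>
      intro k A B dp dq Ca Cb e hh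
      cases hb : Nat.ble tp (T k) with
      | true =>
        have h1 : tp ≤ T k := Nat.le_of_ble_eq_true hb
        rw [← ih (k + 1) A B dp dq Ca Cb (by omega) fun h' => absurd (hm k (by omega)) (by omega),
          dn2_succ _ _ (k + 1), ca, cb, hb]
        simp only [ta, up1, frc, hb]
        rfl
      | false =>
        have h1 : T k < tp := Nat.lt_of_not_le fun h' => by
          rw [Nat.ble_eq_true_of_le h'] at hb; cases hb
        obtain ⟨rfl, rfl, rfl, rfl, rfl, rfl⟩ := hh h1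
        rw [← ih (k + 1) _ _ _ _ _ _ (by omega) fun _ => ⟨rfl, rfl, rfl, rfl, rfl, rfl⟩,
          dn2_succ _ _ (k + 1), ca, cb, hb]
        simp only [ta, up1, frc, hb]
        rfl
  have h := this N 0 _ _ 0 0 0 0 (by omega) fun _ => ⟨rfl, rfl, hd.symm, by rw [hd]; rfl, rfl, rfl⟩
  rw [h0] at h
  exact h

noncomputable def sX (c0 c u : ℕ → ℕ) (X0 : ℕ) : ℕ → ℕ
  | 0 => X0
  | j + 1 => ifz (c0 j) (sX c0 c u X0 j) (mx (sX c0 c u X0 j) (c j + u j))

noncomputable def sZ (c0 c1 u : ℕ → ℕ) (X0 Y0 Z0 : ℕ) : ℕ → ℕ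
  | 0 => Z0
  | j + 1 => ifz (c0 j) (sZ c0 c1 u X0 Y0 Z0 j) (mx (sZ c0 c1 u X0 Y0 Z0 j)
      (mx (c1 j + sX c0 c0 u X0 (j + 1)) (c0 j + sX c0 c1 u Y0 (j + 1))))

theorem step_eq (c0 c1 u : ℕ → ℕ) (X0 Y0 Z0 n k : ℕ) (c : ℕ → List ℕ → Bool) :
    step (up2 c0 c1 k n) (up1 u k n) (sX c0 c0 u X0 k) (sX c0 c1 u Y0 k) (sZ c0 c1 u X0 Y0 Z0 k)
      (dn1 (fun j => sZ c0 c1 u X0 Y0 Z0 (j + 1)) k) c =
      c (sX c0 c0 u X0 (k + n)) (dn1 (fun j => sZ c0 c1 u X0 Y0 Z0 (j + 1)) (k + n)) := by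
  induction n generalizing k with
  | zero => rfl
  | succ n ih =>
    rw [show k + (n + 1) = k + 1 + n by omega, ← ih, dn1, up2, up1]
    simp only [sX, sZ]
    cases c0 k <;> rfl

theorem sX_mono (c0 c u : ℕ → ℕ) (X0 : ℕ) : Monotone (sX c0 c u X0) :=
  monotone_nat_of_le_succ fun j => by
    rw [sX, ifz_eq, mx_eq]; split_ifs <;> simp

theorem sZ_mono (c0 c1 u : ℕ → ℕ) (X0 Y0 Z0 : ℕ) : Monotone (sZ c0 c1 u X0 Y0 Z0) :=
  monotone_nat_of_le_succ fun j => by
    rw [sZ, ifz_eq, mx_eq]; split_ifs <;> simp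

theorem le_sX (c0 c u : ℕ → ℕ) (X0 : ℕ) {a j : ℕ} (h : a < j) (ha : c0 a ≠ 0) :
    c a + u a ≤ sX c0 c u X0 j := le_trans (by
  rw [sX, ifz_eq, if_neg ha, mx_eq]; simp) (sX_mono c0 c u X0 h)

theorem le_sZ (c0 c1 u : ℕ → ℕ) (X0 Y0 Z0 : ℕ) {a b j : ℕ} (h : a < j) (h' : b < j)
    (ha : c0 a ≠ 0) (hb : c0 b ≠ 0) : c0 a + c1 b + u (min a b) ≤ sZ c0 c1 u X0 Y0 Z0 j := by
  rcases le_total a b with hab | hab
  · refine le_trans ?_ (sZ_mono _ _ _ _ _ _ h')
    have := le_sX c0 c0 u X0 (show a < b + 1 by omega) ha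
    rw [sZ, ifz_eq, if_neg hb, mx_eq, mx_eq, min_eq_left hab]; omega
  · refine le_trans ?_ (sZ_mono _ _ _ _ _ _ h)
    have := le_sX c0 c1 u Y0 (show b < a + 1 by omega) hb
    rw [sZ, ifz_eq, if_neg ha, mx_eq, mx_eq, min_eq_right hab]; omega

theorem le_sZ' (c0 c1 u : ℕ → ℕ) (X0 Y0 Z0 : ℕ) {a j : ℕ} (h : a < j) (ha : c0 a ≠ 0) :
    c0 a + Y0 ≤ sZ c0 c1 u X0 Y0 Z0 j := by
  refine le_trans ?_ (sZ_mono _ _ _ _ _ _ h)
  have : Y0 ≤ sX c0 c1 u Y0 (a + 1) := sX_mono c0 c1 u Y0 (Nat.zero_le _)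
  rw [sZ, ifz_eq, if_neg ha, mx_eq, mx_eq]; omega

end Pool.Agent.Lib.MP_9b2593_an
end

-- part Pool.Agent.Lib.MP_9b2593_an.Pass
section

/-!
What the passes of the checker through the layers compute.
-/

namespace Pool.Agent.Lib.MP_9b2593_an

def AllF (p : ℕ → ℕ → Prop) : L2 → Prop
  | L2.nil => True
  | L2.cons x t l => p x t ∧ AllF p l

noncomputable def wvv (lam Y : ℕ) : ℕ := Nat.succ (Nat.div (Nat.mul lam 18014398509481984)
    (tay (Nat.mul 6283184 (Nat.sub 6144 Y)) 16 4096000000 1099511627776 1099511627776))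

theorem wv_eq (lam Y : ℕ) (k : ℕ → Bool) : wv lam Y k = k (wvv lam Y) := by
  rw [wv, force_eq, wvv]

def fmn (p : ℕ → Bool) : L2 → ℕ → ℕ
  | L2.nil, r => r
  | L2.cons x t l, r => fmn p l (if p x = true then r - (r - t) else r)

def fmx (p : ℕ → Bool) : L2 → ℕ → ℕ
  | L2.nil, r => r
  | L2.cons x t l, r => fmx p l (if p x = true then mx r (t + 1) else r)

theorem fmin_eq (p : ℕ → Bool) (l : L2) (r : ℕ) (k : ℕ → Bool) : fmin p l r k = k (fmn p l r) := by
  induction l generalizing r with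
  | nil => rfl
  | cons x t l ih =>
    rw [fmn, ← ih]
    show cnd (p x) (fmin p l (r - (r - t)) k) (fmin p l r k) = _
    cases p x <;> rfl

theorem fmax_eq (p : ℕ → Bool) (l : L2) (r : ℕ) (k : ℕ → Bool) : fmax p l r k = k (fmx p l r) := by
  induction l generalizing r with
  | nil => rfl
  | cons x t l ih =>
    rw [fmx, ← ih]
    show cnd (p x) (fmax p l (mx r (t + 1)) k) (fmax p l r k) = _
    cases p x <;> rfl

theorem fmn_ind {p : ℕ → Bool} {q : ℕ → ℕ → Prop} {Q : ℕ → Prop} {l : L2} (hl : AllF q l)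
    (h : ∀ x t, p x = true → q x t → Q t) {r : ℕ} (hr : Q r) : Q (fmn p l r) := by
  induction l generalizing r with
  | nil => exact hr
  | cons x t l ih =>
    refine ih hl.2 ?_
    split_ifs with hp
    · rcases le_total r t with h' | h'
      · rwa [show r - (r - t) = r by omega]
      · rw [show r - (r - t) = t by omega]; exact h x t hp hl.1
    · exact hr

theorem fmx_ind {p : ℕ → Bool} {q : ℕ → ℕ → Prop} {Q : ℕ → Prop} {l : L2} (hl : AllF q l)
    (h : ∀ x t, p x = true → q x t → Q (t + 1)) {r : ℕ} (hr : Q r) : Q (fmx p l r) := by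
  induction l generalizing r with
  | nil => exact hr
  | cons x t l ih =>
    refine ih hl.2 ?_
    split_ifs with hp
    · rw [mx_eq]
      rcases le_total r (t + 1) with h' | h'
      · rw [max_eq_right h']; exact h x t hp hl.1
      · rwa [max_eq_left h']
    · exact hr

def tnL (c : Cls) (_ Y' : ℕ) : ℕ := fmx (fun x => Nat.ble Y' x) c.nL 0
def tpL (c : Cls) (Y _ : ℕ) : ℕ := fmn (fun x => Nat.ble x Y) c.pL 4097
def tnR (c : Cls) (_ Y' : ℕ) : ℕ :=
  fmx (fun x => Nat.ble x Y') c.nR (fmx (fun x => Nat.ble 6144 x) c.nL 0)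
def tpR (c : Cls) (Y _ : ℕ) : ℕ := fmn (fun x => Nat.ble Y x) c.pR 4097

theorem winL_eq (c : Cls) (Y Y' : ℕ) (k : ℕ → ℕ → Bool) :
    winL c Y Y' k = k (tnL c Y Y') (tpL c Y Y') := by
  rw [winL, fmax_eq, fmin_eq]; rfl

theorem winR_eq (c : Cls) (Y Y' : ℕ) (k : ℕ → ℕ → Bool) :
    winR c Y Y' k = k (tnR c Y Y') (tpR c Y Y') := by
  rw [winR, fmax_eq, fmax_eq, fmin_eq]; rfl

noncomputable def UU (N : ℕ) (c0 c1 : ℕ → ℕ → ℕ) (f : ℕ) : ℕ → ℕ → ℕ
  | 0 => fun _ => 0
  | i + 1 => fun n => if i < f then 0 else sZ (fun p => c0 i (N - p)) (fun p => c1 i (N - p))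
      (fun p => UU N c0 c1 f i (N - p)) 0 0 0 (N - n + 1)

noncomputable def XX (N : ℕ) (c0 : ℕ → ℕ → ℕ) (U : ℕ → ℕ → ℕ) (i : ℕ) : ℕ :=
  sX (fun p => c0 i (N - p)) (fun p => c0 i (N - p)) (fun p => U i (N - p)) 0 (N + 1)

theorem UU_start (N : ℕ) (c0 c1 : ℕ → ℕ → ℕ) (f : ℕ) : UU N c0 c1 f f = fun _ => 0 := by
  cases f with
  | zero => rfl
  | succ f => funext n; rw [UU]; exact if_pos (Nat.lt_succ_self f)

noncomputable def rcs (N : ℕ) (c0 c1 U : ℕ → ℕ → ℕ) (lo : ℕ) : ℕ → Rc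
  | 0 => Rc.nil
  | n + 1 => Rc.cons (up2 (c0 (lo + n)) (c1 (lo + n)) 0 (N + 1)) (up1 (U (lo + n + 1)) 0 (N + 1))
      (U (lo + n) 0) (XX N c0 U (lo + n)) (rcs N c0 c1 U lo n)

section
variable (T : ℕ → ℕ) (N lam : ℕ) (Yf : ℕ → ℕ) (cols : List ℕ) (tn tp : ℕ → ℕ → ℕ)

noncomputable def col (i : ℕ) : ℕ → ℕ := xv (nth cols i)

noncomputable def JF (i : ℕ) : ℕ :=
  Cf T (dd (col cols i) (col cols (i + 1))) (3 * (ad (Yf i) (Yf (i + 1)) * ad (Yf i) (Yf (i + 1))))
    (Bq T (col cols i)) (Bq T (col cols (i + 1))) N / (3 * ad (Yf i) (Yf (i + 1))) + 1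

noncomputable def q0 (i : ℕ) : ℕ → ℕ := cq T (dd (col cols i) (col cols (i + 1)))
  (ad (Yf i) (Yf (i + 1))) (wvv lam (Yf i)) (Bq T (col cols i))

noncomputable def q1 (i : ℕ) : ℕ → ℕ := cq T (dd (col cols i) (col cols (i + 1)))
  (ad (Yf i) (Yf (i + 1))) (wvv lam (Yf (i + 1))) (Bq T (col cols (i + 1)))

noncomputable def C0 (i : ℕ) : ℕ → ℕ :=
  ca T (q0 T lam Yf cols i) (tn (Yf i) (Yf (i + 1))) (tp (Yf i) (Yf (i + 1)))

noncomputable def C1 (i : ℕ) : ℕ → ℕ :=
  cb T (q1 T lam Yf cols i) (tn (Yf i) (Yf (i + 1))) (tp (Yf i) (Yf (i + 1)))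

theorem fpass_succ (l : List ℕ) (td A : L2) (n i J : ℕ) (k : L2 → ℕ → Bool) :
    fpass N l td Yf cols (n + 1) i A J k = prepC N td (nth cols (i + 1)) fun B =>
      fixc (3 * (ad (Yf i) (Yf (i + 1)) * ad (Yf i) (Yf (i + 1)))) l A B 0 0 0 0 fun C =>
      fpass N l td Yf cols n (i + 1) B (J + (C / (3 * ad (Yf i) (Yf (i + 1))) + 1)) k := by
  simp only [fpass, force_eq]
  rfl

theorem fpass_eq (h0 : T 0 = 0) (n i J : ℕ) (k : L2 → ℕ → Bool) :
    fpass N (ta T 0 N) (tq T N) Yf cols n i (pc T (col cols i) 0 N) J k =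
      k (pc T (col cols (i + n)) 0 N) (J + ∑ j ∈ Finset.Ico i (i + n), JF T N Yf cols j) := by
  induction n generalizing i J with
  | zero => simp only [Nat.add_zero, Finset.Ico_self, Finset.sum_empty]; rfl
  | succ n ih =>
    rw [Finset.sum_eq_sum_Ico_succ_bot (by omega), show i + (n + 1) = i + 1 + n by omega,
      ← add_assoc J, ← ih]
    rw [fpass_succ, prepC_eq, col, fixc_eq _ _ _ _ _ h0 (dd_zero _ _)]
    rfl

theorem upass_succ (win : ℕ → ℕ → (ℕ → ℕ → Bool) → Bool) (l : List ℕ) (td A : L2) (n i w : ℕ)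
    (u : List ℕ) (E : ℕ) (rc : Rc) (k : L2 → ℕ → List ℕ → ℕ → Rc → Bool) :
    upass N lam l td Yf cols win (n + 1) i A w u E rc k =
    prepC N td (nth cols (i + 1)) fun B => wv lam (Yf (i + 1)) fun w' =>
      win (Yf i) (Yf (i + 1)) fun a b => frc (ad (Yf i) (Yf (i + 1)) * ad (Yf i) (Yf (i + 1)))
        (6 * (ad (Yf i) (Yf (i + 1)) * ad (Yf i) (Yf (i + 1)))) (6 * ad (Yf i) (Yf (i + 1)))
        (ad (Yf i) (Yf (i + 1)) * ad (Yf i) (Yf (i + 1)) * w)
        (ad (Yf i) (Yf (i + 1)) * ad (Yf i) (Yf (i + 1)) * w') a b l A B 0 0 0 0 0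
        (L2.cons (ifz a (24576 * (ad (Yf i) (Yf (i + 1)) * ad (Yf i) (Yf (i + 1)) * w) /
          (6 * ad (Yf i) (Yf (i + 1))) + 1) 0) (ifz a (24576 * (ad (Yf i) (Yf (i + 1)) *
          ad (Yf i) (Yf (i + 1)) * w') / (6 * ad (Yf i) (Yf (i + 1))) + 1) 0) L2.nil) fun cd =>
        step cd u 0 0 0 [] fun X ua => rev ua [] fun ud => rev2 cd L2.nil fun cs =>
        upass N lam l td Yf cols win n (i + 1) B w' ud (hd ua) (Rc.cons cs ua E X rc) k := by
  simp only [upass, force_eq]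
  rfl

theorem upass_eq (h0 : T 0 = 0) (hm : ∀ k < N, T k < T (k + 1))
    {win : ℕ → ℕ → (ℕ → ℕ → Bool) → Bool} (hw : ∀ Y Y' k, win Y Y' k = k (tn Y Y') (tp Y Y'))
    {f lo : ℕ} (hf : f ≤ lo) {U : ℕ → ℕ → ℕ}
    (hU : U = UU N (C0 T lam Yf cols tn tp) (C1 T lam Yf cols tn tp) f) (n r : ℕ)
    (k : L2 → ℕ → List ℕ → ℕ → Rc → Bool) :
    upass N lam (ta T 0 N) (tq T N) Yf cols win n (lo + r) (pc T (col cols (lo + r)) 0 N)
      (wvv lam (Yf (lo + r))) (dn1 (U (lo + r)) (N + 1)) (U (lo + r) 0)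
      (rcs N (C0 T lam Yf cols tn tp) (C1 T lam Yf cols tn tp) U lo r) k =
    k (pc T (col cols (lo + (r + n))) 0 N) (wvv lam (Yf (lo + (r + n))))
      (dn1 (U (lo + (r + n))) (N + 1)) (U (lo + (r + n)) 0)
      (rcs N (C0 T lam Yf cols tn tp) (C1 T lam Yf cols tn tp) U lo (r + n)) := by
  induction n generalizing r with
  | zero => rfl
  | succ n ih =>
    rw [show r + (n + 1) = r + 1 + n by omega, ← ih, rcs.eq_2, ← add_assoc]
    have hi : ¬ lo + r < f := by omega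
    generalize rcs N (C0 T lam Yf cols tn tp) (C1 T lam Yf cols tn tp) U lo r = rc
    generalize lo + r = i at hi ⊢
    rw [upass_succ, prepC_eq, wv_eq, hw]
    refine (frc_eq T _ _ _ _ _ _ _ N h0 (dd_zero _ _) hm _).trans ?_
    have e1 := step_eq (fun p => C0 T lam Yf cols tn tp i (N - p))
      (fun p => C1 T lam Yf cols tn tp i (N - p)) (fun p => U i (N - p)) 0 0 0 (N + 1) 0
    rw [← dn2_up _ _ N (N + 1) 0 (by omega), ← dn1_up (U i) N (N + 1) 0 (by omega), Nat.zero_add,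
      dn1_up (fun j => sZ _ _ _ 0 0 0 (j + 1)) N (N + 1) 0 (by omega)] at e1
    have e2 : U (i + 1) = fun n => sZ (fun p => C0 T lam Yf cols tn tp i (N - p))
      (fun p => C1 T lam Yf cols tn tp i (N - p)) (fun p => U i (N - p)) 0 0 0 (N - n + 1) := by
      funext n; rw [hU, UU]; exact if_neg hi
    rw [← e2] at e1
    refine (e1 _).trans ?_
    refine (rev_up _ 0 _ _).trans ((rev2_dn _ _ _ 0 _).trans ?_)
    rw [Nat.zero_add]
    rfl

end

section
variable {N : ℕ} {c0 c1 U : ℕ → ℕ → ℕ} {lo : ℕ}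

noncomputable def inf (N : ℕ) (c0 U : ℕ → ℕ → ℕ) (lo r n : ℕ) : L2 :=
  up2 (fun r => U (lo + r + 1) 0) (fun r => XX N c0 U (lo + r)) r n

theorem info_eq (n m : ℕ) (k : L2 → Bool) :
    info (rcs N c0 c1 U lo n) (inf N c0 U lo n m) k = k (inf N c0 U lo 0 (n + m)) := by
  induction n generalizing m with
  | zero => rw [Nat.zero_add]; rfl
  | succ n ih => rw [show n + 1 + m = n + (m + 1) by omega, ← ih]; rfl

theorem turn_ok {thr a b : ℕ} {d0 V : ℕ → ℕ → ℕ} {lo' : ℕ} (n r : ℕ)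
    (h : turn thr a b (rcs N c0 c1 U lo n) (inf N d0 V lo' r n) (V (lo' + r) 0) n = true) :
    ∀ m < n, (a ≤ m ∧ m < b) ∨ (U (lo + m) 0 + V (lo' + (r + n - 1 - m) + 1) 0 ≤ thr ∧
      U (lo + m + 1) 0 + V (lo' + (r + n - 1 - m)) 0 ≤ thr ∧
      XX N c0 U (lo + m) + XX N d0 V (lo' + (r + n - 1 - m)) ≤ thr) := by
  induction n generalizing r with
  | zero => intro m hm; omega
  | succ n ih =>
    have h' : andB (cnd (andB (Nat.ble a n) (Nat.blt n b)) true
        (andB (Nat.ble (U (lo + n) 0 + V (lo' + r + 1) 0) thr)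
          (andB (Nat.ble (U (lo + n + 1) 0 + V (lo' + r) 0) thr)
            (Nat.ble (XX N c0 U (lo + n) + XX N d0 V (lo' + r)) thr))))
        (turn thr a b (rcs N c0 c1 U lo n) (inf N d0 V lo' (r + 1) n) (V (lo' + (r + 1)) 0) n) = true := h
    rw [andB_eq, cnd_eq] at h'
    intro m hm
    rcases (Nat.lt_succ_iff.1 hm).eq_or_lt with rfl | hm'
    · rw [show r + (m + 1) - 1 - m = r by omega]
      have := h'.1
      split_ifs at this with h1
      · left; simpa using h1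
      · right; simpa using this
    · rw [show r + (n + 1) - 1 - m = r + 1 + n - 1 - m by omega]
      exact ih _ h'.2 m hm'

theorem step_up (a0 a1 v : ℕ → ℕ) (X F : ℕ) (k : List ℕ → Bool) :
    (step (up2 a0 a1 0 (N + 1)) (up1 v 0 (N + 1)) 0 X F [] fun _ vd => rev vd [] k) =
      k (up1 (fun n => sZ a0 a1 v 0 X F (n + 1)) 0 (N + 1)) := by
  refine (step_eq a0 a1 v 0 X F (N + 1) 0 _).trans ?_
  rw [Nat.zero_add]
  exact rev_dn _ _ 0 _

theorem vov_ok {F X : ℕ → ℕ} {Q : ℕ → (ℕ → ℕ) → Prop} {ov : ℕ}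
    (hQ : ∀ n r v, n + 1 + r = ov → Q (n + 1) v →
      Q n fun m => sZ (c0 (lo + n)) (c1 (lo + n)) v 0 (X r) (F r) (m + 1))
    {k : List ℕ → Bool} (n r : ℕ) (e : n + r = ov) (v : ℕ → ℕ) (hv : Q n v)
    (h : vov (rcs N c0 c1 U lo n) (up2 F X r n) (up1 v 0 (N + 1)) k = true) :
    ∃ v, Q 0 v ∧ k (up1 v 0 (N + 1)) = true := by
  induction n generalizing r v with
  | zero => exact ⟨v, hv, h⟩
  | succ n ih =>
    exact ih (r + 1) (by omega) _ (hQ n r v e hv) ((step_up _ _ v (X r) (F r) _).symm.trans h)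

theorem thru_ok {thr l h : ℕ} {u v : ℕ → ℕ} (n i : ℕ)
    (H : thru thr l h (up1 u i n) (up1 v i n) i = true) :
    ∀ m, i ≤ m → m < i + n → (l ≤ m ∧ m ≤ h) ∨ u m + v m ≤ thr := by
  induction n generalizing i with
  | zero => intro m _ _; omega
  | succ n ih =>
    have h' : andB (cnd (andB (Nat.ble l i) (Nat.ble i h)) true (Nat.ble (u i + v i) thr))
      (thru thr l h (up1 u (i + 1) n) (up1 v (i + 1) n) (i + 1)) = true := H
    rw [andB_eq, cnd_eq] at h'
    intro m h1 h2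
    rcases h1.eq_or_lt with rfl | h1
    · have := h'.1
      split_ifs at this with h3
      · left; simpa using h3
      · right; simpa using this
    · exact ih _ h'.2 m h1 (by omega)

theorem vpass_ok {thr T lc hc : ℕ} {Yf ν : ℕ → ℕ} {Pos Neg : ℕ → ℕ → Prop}
    {Q : ℕ → (ℕ → ℕ) → Prop} {m : ℕ} (hν : ∀ i, ν i ≤ N)
    (hQ : ∀ n < m, ∀ v, Q (n + 1) v →
      Q n fun j => sZ (c0 (lo + n)) (c1 (lo + n)) v 0 0 0 (j + 1))
    (hT : ∀ n < m, ∀ v, Q (n + 1) v → thr < U (lo + n + 1) (ν (lo + n + 1)) + v (ν (lo + n + 1)))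
    (hp : ∀ n < m, ∀ h < N, ν (lo + n + 1) ≤ h → Pos (Yf (lo + n + 1)) (dig T h))
    (hn : ∀ n < m, ∀ l < ν (lo + n + 1), Neg (Yf (lo + n + 1)) (dig T l))
    {k : L2 → L2 → Bool} (n : ℕ) (e : n ≤ m) (v : ℕ → ℕ) (hv : Q n v) (P G : L2) (hP : AllF Pos P)
    (hG : AllF Neg G) (h : vpass N thr T lc hc Yf (rcs N c0 c1 U lo n) (lo + n)
      (up1 v 0 (N + 1)) P G k = true) : ∃ P G, AllF Pos P ∧ AllF Neg G ∧ k P G = true := by
  induction n generalizing v P G with
  | zero => exact ⟨P, G, hP, hG, h⟩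
  | succ n ih =>
    have h' : ∀ l h, dig lc (lo + (n + 1)) = l → N - dig hc (lo + (n + 1)) = h →
      andB (andB (Nat.ble l N) (cnd (andB (Nat.ble l 0) (Nat.ble N h)) true
        (thru thr l h (up1 (U (lo + n + 1)) 0 (N + 1)) (up1 v 0 (N + 1)) 0)))
        (step (up2 (c0 (lo + n)) (c1 (lo + n)) 0 (N + 1)) (up1 v 0 (N + 1)) 0 0 0 [] fun _ vd =>
          rev vd [] fun va => sel (Nat.ble N h) P (L2.cons (Yf (lo + n + 1)) (dig T h) P) fun P' =>
          sel (Nat.ble l 0) G (L2.cons (Yf (lo + n + 1)) (dig T (l - 1)) G) fun G' =>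
          vpass N thr T lc hc Yf (rcs N c0 c1 U lo n) (lo + n) va P' G' k) = true := by
      rintro l h rfl rfl; exact h
    obtain ⟨l, hl⟩ : ∃ l, dig lc (lo + (n + 1)) = l := ⟨_, rfl⟩
    obtain ⟨g, hg⟩ : ∃ g, N - dig hc (lo + (n + 1)) = g := ⟨_, rfl⟩
    have h2 := h' l g hl hg
    rw [andB_eq, andB_eq, step_up, cnd_eq] at h2
    obtain ⟨⟨-, h3⟩, h4⟩ := h2
    have h5 : l ≤ ν (lo + n + 1) ∧ ν (lo + n + 1) ≤ g := by
      split_ifs at h3 with h6
      · have := hν (lo + n + 1)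
        simp only [andB_eq, Nat.ble_eq] at h6
        omega
      · have := hν (lo + n + 1)
        exact (thru_ok _ _ h3 _ (Nat.zero_le _) (by omega)).resolve_right (not_le.2 (hT n e v hv))
    have a1 : g < N → AllF Pos (L2.cons (Yf (lo + n + 1)) (dig T g) P) := fun h => ⟨hp n e g h h5.2, hP⟩
    have a2 : 0 < l → AllF Neg (L2.cons (Yf (lo + n + 1)) (dig T (l - 1)) G) := fun h =>
      ⟨hn n e _ (by omega), hG⟩
    have a3 := hQ n e v hv
    simp only [sel, cnd_eq, Nat.ble_eq] at h4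
    split_ifs at h4 with b1 b2 b2
    · exact ih (by omega) _ a3 _ _ hP hG h4
    · exact ih (by omega) _ a3 _ _ hP (a2 (by omega)) h4
    · exact ih (by omega) _ a3 _ _ (a1 (by omega)) hG h4
    · exact ih (by omega) _ a3 _ _ (a1 (by omega)) (a2 (by omega)) h4

end

theorem allN_ok {p : ℕ → Bool} {n : ℕ} (h : allN p n = true) : ∀ i < n, p i = true := by
  induction n with
  | zero => intro i hi; omega
  | succ n ih =>
    have h' : andB (p n) (allN p n) = true := h
    rw [andB_eq] at h'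
    intro i hi
    rcases (Nat.lt_succ_iff.1 hi).eq_or_lt with rfl | hi
    · exact h'.1
    · exact ih h'.2 i hi

theorem allL_any {p : ℕ → ℕ → ℕ → ℕ → Bool} {q : ℕ → ℕ → Prop} {l l' : L2} (hl : AllF q l)
    (hq : ∀ x t y u, p x t y u = true → q y u → q x t)
    (h : allL (fun x t => anyL (p x t) l) l' = true) : AllF q l' := by
  have a : ∀ x t, anyL (p x t) l = true → q x t := fun x t => by
    clear h
    induction l with
    | nil => intro h; cases h
    | cons y u l ih =>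
      intro h
      have h' : cnd (p x t y u) true (anyL (p x t) l) = true := h
      rw [cnd_eq] at h'
      split_ifs at h' with h1
      · exact hq _ _ _ _ h1 hl.1
      · exact ih hl.2 h'
  induction l' with
  | nil => trivial
  | cons x t l' ih =>
    have h' : andB (anyL (p x t) l) (allL (fun x t => anyL (p x t) l) l') = true := h
    rw [andB_eq] at h'
    exact ⟨a _ _ h'.1, ih h'.2⟩

end Pool.Agent.Lib.MP_9b2593_an
end

-- part Pool.Agent.Lib.MP_9b2593_an.DP
section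

/-!
Soundness of the dynamic programme.
-/

namespace Pool.Agent.Lib.MP_9b2593_an

/-- costs, states at the nodes, true costs, first free layer and turning layer of one side -/
structure Sd where
  c0 : ℕ → ℕ → ℕ
  c1 : ℕ → ℕ → ℕ
  ν : ℕ → ℕ
  g : ℕ → ℕ
  f : ℕ
  e : ℕ

def Sd.Lay (σ : Sd) (j : ℕ) : Prop :=
  ∃ a b, σ.ν (j + 1) ≤ a ∧ a ≤ σ.ν j ∧ σ.ν (j + 1) ≤ b ∧ b ≤ σ.ν j ∧ σ.c0 j a ≠ 0 ∧ σ.c0 j b ≠ 0 ∧
    σ.g j ≤ σ.c0 j a + σ.c1 j b

noncomputable def Sd.U (σ : Sd) (N : ℕ) : ℕ → ℕ → ℕ := UU N σ.c0 σ.c1 σ.f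

def Sd.S (σ : Sd) (i : ℕ) : ℕ := ∑ j ∈ Finset.Ico σ.f i, σ.g j

structure Sd.Ok (σ : Sd) (N : ℕ) : Prop where
  le : ∀ i, σ.ν i ≤ N
  fe : σ.f ≤ σ.e
  lay : ∀ j, σ.f ≤ j → j < σ.e → σ.Lay j

structure Two (N thr : ℕ) (L R : Sd) : Prop where
  l : L.Ok N
  r : R.Ok N
  gg : L.g L.e = R.g R.e
  alt : L.Lay L.e ∨ R.Lay R.e ∨ ∃ a ≤ L.ν L.e, ∃ b ≤ R.ν R.e, L.c0 L.e a ≠ 0 ∧ R.c0 R.e b ≠ 0 ∧
    L.g L.e ≤ L.c0 L.e a + R.c0 R.e b
  tot : thr < L.S L.e + L.g L.e + R.S R.e

theorem Two.symm {N thr : ℕ} {L R : Sd} (h : Two N thr L R) : Two N thr R L := by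
  refine ⟨h.r, h.l, h.gg.symm, ?_, by have := h.tot; have := h.gg; omega⟩
  rcases h.alt with h1 | h1 | ⟨a, ha, b, hb, h1, h2, h3⟩
  · exact Or.inr (Or.inl h1)
  · exact Or.inl h1
  · exact Or.inr (Or.inr ⟨b, hb, a, ha, h2, h1, by have := h.gg; omega⟩)

namespace Sd

variable {σ : Sd} {N : ℕ} (h : σ.Ok N)
include h

omit h in
theorem S_succ {j : ℕ} (hj : σ.f ≤ j) : σ.S (j + 1) = σ.S j + σ.g j := Finset.sum_Ico_succ_top hj _

theorem U_step {j : ℕ} (hj : σ.f ≤ j) (hl : σ.Lay j) (hS : ∀ n ≤ σ.ν j, σ.S j ≤ σ.U N j n) :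
    ∀ n ≤ σ.ν (j + 1), σ.S (j + 1) ≤ σ.U N (j + 1) n := by
  obtain ⟨a, b, a1, a2, b1, b2, ha, hb, hg⟩ := hl
  intro n hn
  have := h.le j
  have e1 : N - (N - a) = a := by omega
  have e2 : N - (N - b) = b := by omega
  have k := le_sZ (fun p => σ.c0 j (N - p)) (fun p => σ.c1 j (N - p)) (fun p => σ.U N j (N - p)) 0 0 0
    (a := N - a) (b := N - b) (j := N - n + 1) (by omega) (by omega) (by rwa [e1]) (by rwa [e2])
  have k2 := hS (N - min (N - a) (N - b)) (by omega)
  rw [e1, e2] at k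
  rw [S_succ hj, U, UU]
  simp only [if_neg (not_lt.2 hj)]
  exact le_trans (by omega) k

theorem U_ok {i : ℕ} (h1 : σ.f ≤ i) (h2 : i ≤ σ.e) : ∀ n ≤ σ.ν i, σ.S i ≤ σ.U N i n := by
  induction i, h1 using Nat.le_induction with
  | base => intro n _; simp [S]
  | succ j hj ih => exact U_step h hj (h.lay j hj h2) (ih (by omega))

theorem X_ok {a : ℕ} (ha : a ≤ σ.ν σ.e) (h0 : σ.c0 σ.e a ≠ 0) :
    σ.c0 σ.e a + σ.S σ.e ≤ XX N σ.c0 (σ.U N) σ.e := by
  have := h.le σ.e
  have e1 : N - (N - a) = a := by omega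
  have k := le_sX (fun p => σ.c0 σ.e (N - p)) (fun p => σ.c0 σ.e (N - p))
    (fun p => σ.U N σ.e (N - p)) 0 (a := N - a) (j := N + 1) (by omega) (by rwa [e1])
  have k2 := U_ok h h.fe le_rfl a ha
  rw [e1] at k
  exact le_trans (by omega) k

theorem F_ok (hl : σ.Lay σ.e) : σ.S σ.e + σ.g σ.e ≤ σ.U N (σ.e + 1) 0 :=
  (S_succ h.fe).symm.trans_le (U_step h h.fe hl (U_ok h h.fe le_rfl) 0 (Nat.zero_le _))

theorem V_step {thr j X F : ℕ} {v : ℕ → ℕ} (hj : σ.f ≤ j) (hl : σ.Lay j)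
    (hv : ∀ m, σ.ν (j + 1) ≤ m → m ≤ N → thr < σ.S (j + 1) + v m) :
    ∀ m, σ.ν j ≤ m → m ≤ N → thr < σ.S j + sZ (σ.c0 j) (σ.c1 j) v 0 X F (m + 1) := by
  obtain ⟨a, b, a1, a2, b1, b2, ha, hb, hg⟩ := hl
  intro m h1 _
  have := h.le j
  have k := le_sZ (σ.c0 j) (σ.c1 j) v 0 X F (a := a) (b := b) (j := m + 1) (by omega) (by omega) ha hb
  have k2 := hv (min a b) (by omega) (by omega)
  rw [S_succ hj] at k2
  omega

end Sd

variable {N thr : ℕ} {L R : Sd} (h : Two N thr L R)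
include h

theorem Two.turn : ¬ (L.U N L.e 0 + R.U N (R.e + 1) 0 ≤ thr ∧ L.U N (L.e + 1) 0 + R.U N R.e 0 ≤ thr ∧
    XX N L.c0 (L.U N) L.e + XX N R.c0 (R.U N) R.e ≤ thr) := by
  rintro ⟨a1, a2, a3⟩
  have b1 := Sd.U_ok h.l h.l.fe le_rfl 0 (Nat.zero_le _)
  have b2 := Sd.U_ok h.r h.r.fe le_rfl 0 (Nat.zero_le _)
  have := h.tot
  have := h.gg
  rcases h.alt with h1 | h1 | ⟨a, ha, b, hb, h1, h2, h3⟩
  · have := Sd.F_ok h.l h1; omega
  · have := Sd.F_ok h.r h1; omega
  · have := Sd.X_ok h.l ha h1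
    have := Sd.X_ok h.r hb h2
    omega

theorem Two.side {T lc hc mL i0 ov m : ℕ} {Yf : ℕ → ℕ} {Pos Neg : ℕ → ℕ → Prop} (hm : m < ov)
    (eL : L.e = L.f + mL + m) (eR : R.e = i0 + (ov - 1 - m))
    (hp : ∀ n < mL, ∀ h < N, L.ν (L.f + n + 1) ≤ h → Pos (Yf (L.f + n + 1)) (dig T h))
    (hn : ∀ n < mL, ∀ l < L.ν (L.f + n + 1), Neg (Yf (L.f + n + 1)) (dig T l))
    {k : L2 → L2 → Bool} {P G : L2} (hP : AllF Pos P) (hG : AllF Neg G)
    (H : (rep (R.U N i0 0) (N + 1) [] fun v0 =>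
      vov (rcs N L.c0 L.c1 (L.U N) (L.f + mL) ov) (inf N R.c0 (R.U N) i0 0 ov) v0 fun v1 =>
      vpass N thr T lc hc Yf (rcs N L.c0 L.c1 (L.U N) L.f mL) (L.f + mL) v1 P G k) = true) :
    ∃ P G, AllF Pos P ∧ AllF Neg G ∧ k P G = true := by
  have H1 := (rep_eq _ (N + 1) 0 _).symm.trans H
  rw [Nat.add_zero, ← up1_const _ 0] at H1
  refine (vov_ok (ov := ov) (Q := fun n v => (∀ j, R.U N (i0 + (ov - n)) 0 ≤ v j) ∧
    (n ≤ m → ∀ j, L.ν (L.f + mL + n) ≤ j → j ≤ N → thr < L.S (L.f + mL + n) + v j))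
    (fun n r v e hv => ⟨fun j => ?_, fun hnm => ?_⟩) ov 0 rfl _
    ⟨fun j => by simp, fun h' => absurd h' (by omega)⟩ H1).elim fun v ⟨hv, H2⟩ => ?_
  rotate_right
  · refine vpass_ok (m := mL) (ν := L.ν) (Q := fun n v => ∀ j, L.ν (L.f + n) ≤ j → j ≤ N →
      thr < L.S (L.f + n) + v j) h.l.le
      (fun n hn v hv => Sd.V_step h.l (by omega) (h.l.lay _ (by omega) (by omega)) hv)
      (fun n hn v hv => ?_) hp hn mL le_rfl v (hv.2 (Nat.zero_le _)) P G hP hG H2
    have a1 := hv _ le_rfl (h.l.le _)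
    have a2 := Sd.U_ok h.l (i := L.f + n + 1) (by omega) (by omega) _ le_rfl
    rw [← add_assoc] at a1
    omega
  · rw [show ov - n = r + 1 by omega]
    exact sZ_mono _ _ _ _ _ _ (Nat.zero_le (j + 1))
  · rcases hnm.eq_or_lt with rfl | hnm
    · rw [← eL]
      have e' : R.e = i0 + r := by omega
      have b2 := Sd.U_ok h.r h.r.fe le_rfl 0 (Nat.zero_le _)
      have := h.tot
      have := h.gg
      rcases h.alt with h1 | h1 | ⟨a, ha, b, hb, h1, h2, h3⟩
      · refine Sd.V_step h.l h.l.fe h1 fun j _ _ => ?_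
        have := hv.1 j
        rw [show ov - (n + 1) = r by omega, ← e'] at this
        rw [Sd.S_succ h.l.fe]; omega
      · intro j _ _
        have := Sd.F_ok h.r h1
        have a : R.U N (i0 + r + 1) 0 ≤ _ := sZ_mono (L.c0 L.e) (L.c1 L.e) v 0
          (XX N R.c0 (R.U N) (i0 + r)) (R.U N (i0 + r + 1) 0) (Nat.zero_le (j + 1))
        rw [← e'] at a ⊢
        dsimp only
        omega
      · intro j hj _
        have := Sd.X_ok h.r hb h2
        have a := le_sZ' (L.c0 L.e) (L.c1 L.e) v 0 (XX N R.c0 (R.U N) (i0 + r))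
          (R.U N (i0 + r + 1) 0) (j := j + 1) (by omega) h1
        rw [← e'] at a ⊢
        dsimp only
        omega
    · exact Sd.V_step h.l (by omega) (h.l.lay _ (by omega) (by omega)) (hv.2 hnm)

end Pool.Agent.Lib.MP_9b2593_an
end
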