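import Mathlib

/-!
A starlike exterior map.
-/

namespace Pool.Agent.Lib.MP_9b2593_an.Low

open Complex Set Metric

noncomputable def EE (η : ℂ) : ℂ := -((0.6039 : ℝ) * η ^ 1 + (0.1193 : ℝ) * η ^ 2 +
  (0.0366 : ℝ) * η ^ 3 + (0.0183 : ℝ) * η ^ 4 + (0.0033 : ℝ) * η ^ 5 + (0.0066 : ℝ) * η ^ 6)

noncomputable def NN (η : ℂ) : ℂ := -((0.6039 : ℝ) * η ^ 1 + (0.2386 : ℝ) * η ^ 2 +
  (0.1098 : ℝ) * η ^ 3 + (0.0732 : ℝ) * η ^ 4 + (0.0165 : ℝ) * η ^ 5 + (0.0396 : ℝ) * η ^ 6)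

noncomputable def ph (v : ℂ) : ℂ := (1 + EE (v ^ 2)) / v

theorem EE_le {η : ℂ} (h : ‖η‖ ≤ 1) : ‖EE η‖ ≤ 0.788 := by
  have b : ∀ (c : ℝ) (k : ℕ), 0 ≤ c → ‖(c : ℂ) * η ^ k‖ ≤ c := fun c k hc => by
    rw [norm_mul, norm_pow, norm_real, Real.norm_of_nonneg hc]
    exact mul_le_of_le_one_right hc (pow_le_one₀ (norm_nonneg _) h)
  rw [EE, norm_neg]
  refine (norm_add_le_of_le (norm_add_le_of_le (norm_add_le_of_le (norm_add_le_of_le
    (norm_add_le_of_le (b _ _ ?_) (b _ _ ?_)) (b _ _ ?_)) (b _ _ ?_)) (b _ _ ?_)) (b _ _ ?_)).trans ?_ <;>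
    norm_num

theorem slit {η : ℂ} (h : ‖η‖ ≤ 1) : 1 + EE η ∈ slitPlane :=
  mem_slitPlane_of_norm_lt_one ((EE_le h).trans_lt (by norm_num))

theorem hasE (η : ℂ) {g : ℂ → ℂ} {g' z : ℂ} (hg : HasDerivAt g (g' * η) z) (e : g z = η) :
    HasDerivAt (fun z => EE (g z)) (g' * NN η) z := by
  unfold EE
  refine ((((((((hg.pow 1).const_mul _).add ((hg.pow 2).const_mul _)).add ((hg.pow 3).const_mul _)).add
    ((hg.pow 4).const_mul _)).add ((hg.pow 5).const_mul _)).add ((hg.pow 6).const_mul _)).neg).congr_deriv ?_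
  rw [e, NN]; push_cast; norm_num; ring

theorem circ {η : ℂ} (h : ‖η‖ = 1) : 1 / 10 ≤ ((1 + EE η - 2 * NN η) * (starRingEnd ℂ) (1 + EE η)).re ∧
    normSq (1 + EE η) ≤ 2.35 := by
  have h0 : η ≠ 0 := fun h' => by simp [h'] at h
  have hc : (starRingEnd ℂ) η = η⁻¹ := by rw [inv_def, normSq_eq_norm_sq, h]; simp
  have r : ∀ k : ℕ, (η⁻¹ ^ k).re = (η ^ k).re := fun k => by rw [← hc, ← map_pow, conj_re]
  have b : ∀ k : ℕ, |(η ^ k).re| ≤ 1 := fun k => (abs_re_le_norm _).trans (by rw [norm_pow, h, one_pow])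
  have e2 : (η ^ 2).re = 2 * (η ^ 1).re ^ 2 - 1 := by
    have := normSq_eq_norm_sq η
    rw [h, normSq_apply] at this
    simp only [sq, mul_re, pow_one]; linarith
  have cE : (starRingEnd ℂ) (1 + EE η) = 1 + EE η⁻¹ := by
    simp only [EE, map_add, map_neg, map_mul, map_pow, conj_ofReal, map_one, hc]
  have b1 := abs_le.1 (b 1)
  have b3 := abs_le.1 (b 3)
  have b4 := abs_le.1 (b 4)
  have b5 := abs_le.1 (b 5)
  have b6 := abs_le.1 (b 6)
  constructor
  · have : (1 + EE η - 2 * NN η) * (1 + EE η⁻¹) = (0.58298812 : ℝ) +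
        ((0.36046074 : ℝ) * η ^ 1 + (-0.69301206 : ℝ) * η⁻¹ ^ 1) + ((0.22968837 : ℝ) * η ^ 2 + (-0.14940167 : ℝ) * η⁻¹ ^ 2) +
        ((0.09944004 : ℝ) * η ^ 3 + (-0.05004024 : ℝ) * η⁻¹ ^ 3) + ((0.10150299 : ℝ) * η ^ 4 + (-0.02265501 : ℝ) * η⁻¹ ^ 4) +
        ((-0.01414314 : ℝ) * η ^ 5 + (-0.00728574 : ℝ) * η⁻¹ ^ 5) + ((0.07260000 : ℝ) * η ^ 6 + (-0.00660000 : ℝ) * η⁻¹ ^ 6) := by
      simp only [EE, NN]; push_cast; norm_num; field_simp; ring
    rw [cE, this]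
    simp only [add_re, re_ofReal_mul, ofReal_re, r, e2]
    nlinarith [sq_nonneg ((η ^ 1).re - 1)]
  · have : (1 + EE η) * (1 + EE η⁻¹) = (1.3806566 : ℝ) +
        (-0.52673640 : ℝ) * (η ^ 1 + η⁻¹ ^ 1) + (-0.09477251 : ℝ) * (η ^ 2 + η⁻¹ ^ 2) +
        (-0.02491338 : ℝ) * (η ^ 3 + η⁻¹ ^ 3) + (-0.01551975 : ℝ) * (η ^ 4 + η⁻¹ ^ 4) +
        (0.00068574 : ℝ) * (η ^ 5 + η⁻¹ ^ 5) + (-0.00660000 : ℝ) * (η ^ 6 + η⁻¹ ^ 6) := by
      simp only [EE]; push_cast; norm_num; field_simp; ring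
    rw [← ofReal_re (normSq _), ← mul_conj, cE, this]
    simp only [add_re, re_ofReal_mul, ofReal_re, r, e2]
    nlinarith [sq_nonneg ((η ^ 1).re + 1)]

theorem re_pos {η : ℂ} (h : ‖η‖ ≤ 1) : 0 < ((1 + EE η - 2 * NN η) / (1 + EE η)).re := by
  have hd : DifferentiableOn ℂ (fun η => exp (-((1 + EE η - 2 * NN η) / (1 + EE η)))) (closedBall 0 1) :=
    fun η hη => by
      have := slitPlane_ne_zero (slit (mem_closedBall_zero_iff.1 hη))
      unfold EE NN at *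
      fun_prop (disch := assumption)
  have := Complex.norm_le_of_forall_mem_frontier_norm_le (U := ball (0 : ℂ) 1) isBounded_ball
    (C := Real.exp (-(1 / 40))) (DifferentiableOn.diffContOnCl (by rwa [closure_ball _ one_ne_zero]))
    (fun z hz => by
      rw [frontier_ball _ one_ne_zero, mem_sphere_zero_iff_norm] at hz
      obtain ⟨a, b⟩ := circ hz
      have n0 := normSq_pos.2 (slitPlane_ne_zero (slit hz.le))
      rw [norm_exp, neg_re, Real.exp_le_exp, neg_le_neg_iff, div_eq_mul_inv _ (1 + EE z), inv_def,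
        ← mul_assoc, re_mul_ofReal, ← div_eq_mul_inv, le_div_iff₀ n0]
      linarith) (z := η) (by rwa [closure_ball _ one_ne_zero, mem_closedBall_zero_iff])
  rw [norm_exp, neg_re, Real.exp_le_exp] at this
  linarith

noncomputable def ZL (ζ : ℂ) : ℂ := ζ - log (1 + EE (exp (2 * ζ)))

theorem nw {a b : ℂ} (ha : a.re ≤ 0) (hb : b.re ≤ 0) (h : a ≠ b) : 0 < ((ZL a - ZL b) / (a - b)).re := by
  have h0 := sub_ne_zero.2 h
  have n : ∀ s ∈ Icc (0 : ℝ) 1, ‖exp (2 * (b + s * (a - b)))‖ ≤ 1 := fun s hs => by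
    rw [norm_exp, Real.exp_le_one_iff]; simp; nlinarith [hs.1, hs.2]
  have d : ∀ s ∈ Icc (0 : ℝ) 1, HasDerivAt (fun s : ℝ => (ZL (b + s * (a - b)) / (a - b)).re)
      (((1 + EE (exp (2 * (b + s * (a - b)))) - 2 * NN (exp (2 * (b + s * (a - b))))) /
        (1 + EE (exp (2 * (b + s * (a - b)))))).re) s := fun s hs => by
    have h1 : HasDerivAt (fun z : ℂ => b + z * (a - b)) (a - b) s := by
      simpa using ((hasDerivAt_id (s : ℂ)).mul_const (a - b)).const_add b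
    have h2 := hasE (exp (2 * (b + s * (a - b)))) (g' := 2 * (a - b))
      ((h1.const_mul 2).cexp.congr_deriv (mul_comm _ _)) rfl
    have h3 := ((h1.sub ((h2.const_add 1).clog (slit (n s hs)))).div_const (a - b)).comp_ofReal
    refine (reCLM.hasFDerivAt.comp_hasDerivAt s h3).congr_deriv ?_
    have := slitPlane_ne_zero (slit (n s hs))
    simp only [reCLM_apply]
    generalize exp (2 * (b + s * (a - b))) = η at this ⊢
    congr 1; field_simp
  obtain ⟨s, hs, e⟩ := exists_hasDerivAt_eq_slope _ _ zero_lt_one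
    (fun s hs => (d s hs).continuousAt.continuousWithinAt) fun s hs => d s (Ioo_subset_Icc_self hs)
  have := re_pos (n s (Ioo_subset_Icc_self hs))
  rw [e] at this
  simpa [sub_div] using this

theorem key {v w : ℂ} (hv : ‖v‖ ≤ 1) (hw : ‖w‖ ≤ 1) (v0 : v ≠ 0) (w0 : w ≠ 0) {t : ℝ} (ht : 0 < t)
    (h : ph v = t * ph w) : v = w ∨ Real.log t * (Real.log ‖v‖ - Real.log ‖w‖) < 0 := by
  have e : ∀ ζ : ℂ, ‖exp ζ‖ ≤ 1 → exp (-ZL ζ) = ph (exp ζ) := fun ζ hζ => by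
    have : exp (2 * ζ) = exp ζ ^ 2 := by rw [← exp_nat_mul]; norm_num
    rw [ZL, neg_sub, exp_sub, this, exp_log (slitPlane_ne_zero (slit (by
      rw [norm_pow]; exact pow_le_one₀ (norm_nonneg _) hζ))), ph]
  have h1 : exp (-ZL (log v)) = exp (Real.log t - ZL (log w)) := by
    rw [sub_eq_add_neg, exp_add, e, e, exp_log v0, exp_log w0, h, ← ofReal_exp, Real.exp_log ht] <;>
      rwa [exp_log (by assumption)]
  obtain ⟨k, hk⟩ := exp_eq_exp_iff_exists_int.1 h1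
  have h2 : ZL (log w - k * (2 * Real.pi * I)) = ZL (log w) - k * (2 * Real.pi * I) := by
    have : exp (2 * (log w - k * (2 * Real.pi * I))) = exp (2 * log w) :=
      exp_eq_exp_iff_exists_int.2 ⟨-2 * k, by push_cast; ring⟩
    rw [ZL, ZL, this]; ring
  by_cases h3 : log v = log w - k * (2 * Real.pi * I)
  · left
    rw [← exp_log v0, ← exp_log w0]
    exact exp_eq_exp_iff_exists_int.2 ⟨-k, by rw [h3]; push_cast; ring⟩
  · right
    have r : (log w - k * (2 * Real.pi * I)).re = Real.log ‖w‖ := by simp [log_re]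
    have := nw (a := log v) (by rw [log_re]; exact Real.log_nonpos (norm_nonneg _) hv)
      (by rw [r]; exact Real.log_nonpos (norm_nonneg _) hw) h3
    rw [h2, show ZL (log v) - (ZL (log w) - k * (2 * Real.pi * I)) = (-Real.log t : ℝ) by
      push_cast; linear_combination -hk, div_eq_mul_inv, re_ofReal_mul, inv_re, sub_re, r, log_re,
      ← mul_div_assoc, div_pos_iff_of_pos_right (normSq_pos.2 (sub_ne_zero.2 h3))] at this
    linarith

theorem ph_inj {v w : ℂ} (hv : ‖v‖ ≤ 1) (hw : ‖w‖ ≤ 1) (v0 : v ≠ 0) (w0 : w ≠ 0) (h : ph v = ph w) :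
    v = w := (key hv hw v0 w0 one_pos (by simpa using h)).resolve_right (by simp)

theorem ph_sym (v : ℂ) : ph (-(starRingEnd ℂ) v) = -(starRingEnd ℂ) (ph v) := by
  simp only [ph, EE, map_div₀, map_add, map_neg, map_mul, map_pow, conj_ofReal, map_one, neg_sq, div_neg]

theorem ph_re {v : ℂ} (hv : ‖v‖ ≤ 1) (h : 0 < v.re) : 0 < (ph v).re := by
  have ne : ∀ v : ℂ, 0 < v.re → v ≠ 0 := fun v h h' => by simp [h'] at h
  by_contra h1
  have hc : Convex ℝ (closedBall (0 : ℂ) 1 ∩ {z | 0 < z.re}) :=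
    (convex_closedBall _ _).inter (convex_halfSpace_re_gt 0)
  obtain ⟨z, hz, e⟩ := hc.isPreconnected.intermediate_value (a := v) (b := 1) ⟨by simpa, h⟩ (by simp)
    (f := fun v => (ph v).re) (fun z hz => by
      have := ne z hz.2
      unfold ph EE
      fun_prop (disch := assumption)) (show (0 : ℝ) ∈ _ from ⟨not_lt.1 h1, by
        simp only [ph, EE]; norm_num⟩)
  have n := mem_closedBall_zero_iff.1 hz.1
  have := ph_inj (v := -(starRingEnd ℂ) z) (by simpa) n (by simpa using ne z hz.2) (ne z hz.2)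
    (by rw [ph_sym]; exact Complex.ext (by simpa using e.trans (neg_eq_zero.2 e).symm |>.symm) (by simp))
  have h2 := congrArg re this
  have h3 : 0 < z.re := hz.2
  simp at h2; linarith

end Pool.Agent.Lib.MP_9b2593_an.Low
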