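import Pool.Agent.Lib.MP_9b2593_an.LowA

/-!
The univalent function with a large omitted area.
-/

namespace Pool.Agent.Lib.MP_9b2593_an.Low

open Complex Set Metric

noncomputable def den (c m : ℝ) (ν : ℂ) : ℂ := m + c * ν - ν ^ 2

noncomputable def WW (c m : ℝ) (ν : ℂ) : ℂ := (ν ^ 2 + c * ν - m) / den c m ν

noncomputable def WD (c m : ℝ) (ν : ℂ) : ℂ := 2 * c * (ν ^ 2 + m) / den c m ν ^ 2

theorem W_inj {c m : ℝ} (hc : 0 < c) (hm : 0 < m) {x y : ℂ} (hx : 0 < x.re) (hy : 0 < y.re)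
    (dx : den c m x ≠ 0) (dy : den c m y ≠ 0) (h : WW c m x = WW c m y) : x = y := by
  rw [WW, WW, div_eq_div_iff dx dy, den, den] at h
  have : (c : ℂ) * ((x - y) * (x * y + m)) = 0 := by linear_combination h / 2
  rcases mul_eq_zero.1 ((mul_eq_zero.1 this).resolve_left (by exact_mod_cast hc.ne')) with h1 | h1
  · exact sub_eq_zero.1 h1
  · have a := congrArg re h1
    have b := congrArg im h1
    simp at a b
    have : x.re * (y.re ^ 2 + y.im ^ 2) + m * y.re = 0 := by linear_combination y.re * a + y.im * b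
    nlinarith [mul_pos hm hy, mul_nonneg hx.le (add_nonneg (sq_nonneg y.re) (sq_nonneg y.im))]

theorem W_lt {c m : ℝ} (hc : 0 < c) {x : ℂ} (hx : 0 < x.re) (h : normSq x < m) (dx : den c m x ≠ 0) :
    ‖WW c m x‖ < 1 := by
  rw [WW, norm_div, div_lt_one (norm_pos_iff.2 dx), ← sq_lt_sq₀ (norm_nonneg _) (norm_nonneg _),
    ← normSq_eq_norm_sq, ← normSq_eq_norm_sq]
  rw [normSq_apply] at h
  have := mul_pos (mul_pos hc hx) (sub_pos.2 h)
  simp [normSq_apply, den, sq]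
  nlinarith

theorem hasW {c m : ℝ} {x : ℂ} (dx : den c m x ≠ 0) : HasDerivAt (WW c m) (WD c m x) x := by
  have h1 := (hasDerivAt_pow 2 x)
  have h2 := (hasDerivAt_id x).const_mul (c : ℂ)
  refine (((h1.add h2).sub_const (m : ℂ)).div ((h2.const_add (m : ℂ)).sub h1) dx).congr_deriv ?_
  simp only [WD, den, Pi.sub_apply, Pi.add_apply, id]
  congr 1; norm_num; ring

theorem hasP {v : ℂ} (h : v ≠ 0) : HasDerivAt ph ((2 * NN (v ^ 2) - 1 - EE (v ^ 2)) / v ^ 2) v := by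
  have := hasE (v ^ 2) (g := fun z => z ^ 2) (g' := 2 / v) (z := v)
    ((hasDerivAt_pow 2 v).congr_deriv (by norm_num; field_simp)) rfl
  refine ((this.const_add 1).div (hasDerivAt_id v) h).congr_deriv ?_
  simp only [id]
  congr 1; field_simp; ring

noncomputable def sq' (z : ℂ) : ℂ := z ^ ((2 : ℕ) : ℂ)⁻¹

theorem sq'_sq (z : ℂ) : sq' z ^ 2 = z := cpow_nat_inv_pow z two_ne_zero

theorem sq'_re {z : ℂ} (h : z ∈ slitPlane) : 0 < (sq' z).re := by
  rw [sq', cpow_def_of_ne_zero (slitPlane_ne_zero h), exp_re]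
  refine mul_pos (Real.exp_pos _) (Real.cos_pos_of_mem_Ioo ?_)
  have a := neg_pi_lt_arg z
  have b := (arg_le_pi z).lt_of_ne (slitPlane_arg_ne_pi h)
  have : (log z * ((2 : ℕ) : ℂ)⁻¹).im = arg z / 2 := by simp [log_im]; ring
  rw [this]
  constructor <;> linarith

theorem has_sq' {z : ℂ} (h : z ∈ slitPlane) : HasDerivAt sq' (1 / (2 * sq' z)) z := by
  have h1 : HasDerivAt sq' (deriv sq' z) z :=
    ((hasDerivAt_id z).cpow_const (c := ((2 : ℕ) : ℂ)⁻¹) h).differentiableAt.hasDerivAt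
  have h2 := (h1.pow 2).unique ((hasDerivAt_id z).congr_of_eventuallyEq
    (Filter.Eventually.of_forall fun w => sq'_sq w))
  have h3 : sq' z ≠ 0 := fun h' => by simpa [h'] using sq'_re h
  refine h1.congr_deriv ?_
  rw [← h2]; norm_num; field_simp

theorem sq_inj {x y : ℂ} (hx : 0 < x.re) (hy : 0 < y.re) (h : x ^ 2 = y ^ 2) : x = y :=
  (sq_eq_sq_iff_eq_or_eq_neg.1 h).resolve_right fun h' => by rw [h', neg_re] at hx; linarith

theorem sq_slit {x : ℂ} (hx : 0 < x.re) : x ^ 2 ∈ slitPlane := by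
  by_cases h : x.im = 0
  · left; simp [sq, h, hx]
  · right; simp [sq, h, hx.ne', ← two_mul, mul_comm x.im]

theorem cay {z : ℂ} (h : ‖z‖ < 1) : 1 - z ≠ 0 ∧ 0 < ((1 + z) / (1 - z)).re := by
  have h0 : 1 - z ≠ 0 := fun h' => by simp [← sub_eq_zero.1 h'] at h
  refine ⟨h0, ?_⟩
  have : normSq z < 1 := by rw [normSq_eq_norm_sq]; nlinarith [norm_nonneg z]
  rw [div_re, ← add_div]
  refine div_pos ?_ (normSq_pos.2 h0)
  rw [normSq_apply] at this
  simp; nlinarith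

noncomputable def qq (a b : ℝ) (z : ℂ) : ℂ := sq' (a * ((1 + z) / (1 - z)) ^ 2 + b)

noncomputable def vz (a b : ℝ) (z : ℂ) : ℂ := sq' ((qq a b z - 1) / (qq a b z + 1))

section
variable {a b : ℝ} (ha : 0 < a) (hb : 1 < b) {z : ℂ} (hz : ‖z‖ < 1)
include ha hb hz

theorem P_slit {r : ℝ} (hr : r ≤ b) : a * ((1 + z) / (1 - z)) ^ 2 + b - r ∈ slitPlane := by
  rcases sq_slit (cay hz).2 with h | h
  · left
    simp only [sub_re, add_re, re_ofReal_mul, ofReal_re]
    nlinarith [mul_pos ha h]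
  · right
    simpa only [sub_im, add_im, im_ofReal_mul, ofReal_im, add_zero, sub_zero] using mul_ne_zero ha.ne' h

theorem q_re : 0 < (qq a b z).re := sq'_re (by simpa using P_slit ha hb hz (r := 0) (by linarith))

theorem q_ne : qq a b z + 1 ≠ 0 := fun h => by
  have := congrArg re h
  have := q_re ha hb hz
  simp at *; linarith

theorem eta_lt : ‖(qq a b z - 1) / (qq a b z + 1)‖ < 1 := by
  rw [norm_div, div_lt_one (norm_pos_iff.2 (q_ne ha hb hz)), ← sq_lt_sq₀ (norm_nonneg _) (norm_nonneg _),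
    ← normSq_eq_norm_sq, ← normSq_eq_norm_sq]
  have := q_re ha hb hz
  simp [normSq_apply]; nlinarith

theorem eta_slit : (qq a b z - 1) / (qq a b z + 1) ∈ slitPlane := by
  have h1 := P_slit ha hb hz (r := 1) hb.le
  have h2 := q_re ha hb hz
  have h3 := normSq_pos.2 (q_ne ha hb hz)
  rw [← sq'_sq (_ + _), ← qq] at h1
  generalize qq a b z = q at *
  by_cases h : q.im = 0
  · left
    have : 0 < q.re * q.re - 1 := by simpa [slitPlane, sq, h] using h1
    rw [div_re, ← add_div]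
    exact div_pos (by simp [h]; nlinarith) h3
  · right
    rw [div_im, ← sub_div]
    refine div_ne_zero (fun h' => h ?_) h3.ne'
    simp at h'; linarith

theorem v_re : 0 < (vz a b z).re := sq'_re (eta_slit ha hb hz)

theorem v_lt : ‖vz a b z‖ < 1 := by
  have := eta_lt ha hb hz
  rw [← sq'_sq (_ / _), ← vz, norm_pow] at this
  nlinarith [norm_nonneg (vz a b z)]

theorem v_eq : ((1 + vz a b z ^ 2) / (1 - vz a b z ^ 2)) ^ 2 = a * ((1 + z) / (1 - z)) ^ 2 + b := by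
  have := q_ne ha hb hz
  rw [← sq'_sq (_ + (b : ℂ)), ← qq, vz, sq'_sq]
  congr 1
  rw [div_eq_iff (by field_simp; norm_num; exact this)]; field_simp; ring

theorem has_v : HasDerivAt (vz a b) (1 / (2 * vz a b z) * (2 / (qq a b z + 1) ^ 2 * (1 / (2 * qq a b z) *
    (a * (2 * ((1 + z) / (1 - z)) * (2 / (1 - z) ^ 2)))))) z := by
  have h1 : HasDerivAt (fun z : ℂ => (1 + z) / (1 - z)) (2 / (1 - z) ^ 2) z :=
    (((hasDerivAt_id z).const_add 1).div ((hasDerivAt_id z).const_sub 1) (cay hz).1).congr_deriv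
      (by simp only [id]; congr 1; ring)
  have h2 : HasDerivAt (qq a b) _ z := (has_sq' (by simpa using P_slit ha hb hz (r := 0) (by linarith))).comp z
    (((h1.pow 2).const_mul (a : ℂ)).add_const (b : ℂ))
  have h3 := (has_sq' (eta_slit ha hb hz)).comp z ((h2.sub_const 1).div (h2.add_const 1) (q_ne ha hb hz))
  refine h3.congr_deriv ?_
  simp only [vz, qq, Pi.pow_apply]
  congr 1; norm_num; ring

end

theorem exists_map {v₀ v₁ n₀ n₁ : ℝ} (h1 : 0 < v₁) (h2 : v₁ < v₀) (h3 : v₀ < 1) (e0 : ph v₀ = n₀)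
    (e1 : ph v₁ = n₁) (h4 : 0 < n₀) (h5 : n₀ < n₁) {a b m : ℝ} (hm : m = (1 + v₀ ^ 2) / (1 - v₀ ^ 2))
    (hb : b = ((1 + v₁ ^ 2) / (1 - v₁ ^ 2)) ^ 2) (hab : a + b = m ^ 2) (ha : 0 < a) (hb1 : 1 < b)
    (hR : 1 ≤ ‖WD (n₁ - n₀) (n₀ * n₁) n₀ * ((2 * NN (v₀ ^ 2) - 1 - EE (v₀ ^ 2)) / v₀ ^ 2 *
      (1 / (2 * v₀) * (2 / (m + 1) ^ 2 * (1 / (2 * m) * (a * 4)))))‖) :
    ∃ f : ℂ → ℂ, DifferentiableOn ℂ f (ball 0 1) ∧ InjOn f (ball 0 1) ∧ f 0 = 0 ∧ deriv f 0 = 1 ∧
      ∀ z ∈ ball (0 : ℂ) 1, ∃ v : ℂ, ‖v‖ < 1 ∧ 0 < v.re ∧ den (n₁ - n₀) (n₀ * n₁) (ph v) ≠ 0 ∧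
        f z = WW (n₁ - n₀) (n₀ * n₁) (ph v) := by
  have ne : ∀ v : ℂ, 0 < v.re → v ≠ 0 := fun v h h' => by simp [h'] at h
  have dn : ∀ z : ℂ, ‖z‖ < 1 → den (n₁ - n₀) (n₀ * n₁) (ph (vz a b z)) ≠ 0 := fun z hz h => by
    have p := ph_re (v_lt ha hb1 hz).le (v_re ha hb1 hz)
    have : ((n₁ : ℂ) - ph (vz a b z)) * (ph (vz a b z) + n₀) = 0 := by
      rw [← h, den]; push_cast; ring
    rcases mul_eq_zero.1 this with h' | h'
    · have e := ph_inj (v := v₁) (by rw [norm_real, Real.norm_of_nonneg h1.le]; linarith)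
        (v_lt ha hb1 hz).le (by exact_mod_cast h1.ne') (ne _ (v_re ha hb1 hz))
        (e1.trans (sub_eq_zero.1 h'))
      have e' := v_eq ha hb1 hz
      rw [← e, hb] at e'
      push_cast at e'
      have : (a : ℂ) * ((1 + z) / (1 - z)) ^ 2 = 0 := by linear_combination -e'
      exact mul_ne_zero (by exact_mod_cast ha.ne') (pow_ne_zero 2 (ne _ (cay hz).2)) this
    · have := congrArg re h'
      simp at this; linarith
  have hF := fun z (hz : ‖z‖ < 1) =>
    (hasW (dn z hz)).comp z ((hasP (ne _ (v_re ha hb1 hz))).comp z (has_v ha hb1 hz))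
  have m0 : 0 < m := by rw [hm]; exact div_pos (by positivity) (by nlinarith)
  have z0 : ‖(0 : ℂ)‖ < 1 := by simp
  have q0 : qq a b 0 = m := sq_inj (q_re ha hb1 z0) (by simpa) (by
    rw [qq, sq'_sq]; simpa using congrArg ofReal hab)
  have w0 : vz a b 0 = v₀ := sq_inj (v_re ha hb1 z0) (by simpa using h1.trans h2) (by
    have : (1 : ℂ) - v₀ ^ 2 ≠ 0 := by exact_mod_cast (show (1 : ℝ) - v₀ ^ 2 ≠ 0 by nlinarith)
    rw [vz, sq'_sq, q0, hm]; push_cast
    rw [div_eq_iff (by field_simp; norm_num; exact this)]; field_simp; ring)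
  have hD := hF 0 z0
  simp only [Function.comp_apply, w0, q0, e0, add_zero, sub_zero, div_one, mul_one, one_pow,
    show (2 : ℂ) * 2 = 4 by norm_num] at hD
  generalize WD (n₁ - n₀) (n₀ * n₁) n₀ * _ = D at hD hR
  have D0 : D ≠ 0 := fun h => by rw [h, norm_zero] at hR; linarith
  have lt : ∀ z ∈ ball (0 : ℂ) 1, ‖z / D‖ < 1 := fun z hz => by
    rw [norm_div]
    exact (div_le_self (norm_nonneg _) hR).trans_lt (mem_ball_zero_iff.1 hz)
  refine ⟨fun z => WW (n₁ - n₀) (n₀ * n₁) (ph (vz a b (z / D))), fun z hz =>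
    (HasDerivAt.comp_of_eq z (hF _ (lt z hz)) ((hasDerivAt_id z).div_const D)
      rfl).differentiableAt.differentiableWithinAt,
    fun x hx y hy h => ?_, ?_, ?_, fun z hz => ⟨_, v_lt ha hb1 (lt z hz), v_re ha hb1 (lt z hz),
      dn _ (lt z hz), rfl⟩⟩
  · have a1 := lt x hx
    have a2 := lt y hy
    have b1 := ph_inj (v_lt ha hb1 a1).le (v_lt ha hb1 a2).le (ne _ (v_re ha hb1 a1))
      (ne _ (v_re ha hb1 a2)) (W_inj (sub_pos.2 h5) (mul_pos h4 (h4.trans h5))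
      (ph_re (v_lt ha hb1 a1).le (v_re ha hb1 a1)) (ph_re (v_lt ha hb1 a2).le (v_re ha hb1 a2))
      (dn _ a1) (dn _ a2) h)
    have b2 := (v_eq ha hb1 a1).symm.trans (b1 ▸ v_eq ha hb1 a2)
    have b3 := sq_inj (cay a1).2 (cay a2).2 (mul_left_cancel₀ (by exact_mod_cast ha.ne')
      (add_right_cancel b2))
    rw [div_eq_div_iff (cay a1).1 (cay a2).1] at b3
    exact (div_left_inj' D0).1 (by linear_combination b3 / 2)
  · simp only [zero_div, w0, e0, WW]
    rw [div_eq_zero_iff]; left; push_cast; ring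
  · have := (HasDerivAt.comp_of_eq (0 : ℂ) hD ((hasDerivAt_id (0 : ℂ)).div_const D) (by simp)).deriv
    rw [mul_one_div_cancel D0] at this
    exact this

end Pool.Agent.Lib.MP_9b2593_an.Low
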