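import Pool.Agent.Lib.MP_9b2593_an.LowB

/-!
Green's formula for the area swept out by the image of a star-shaped fan.
-/

namespace Pool.Agent.Lib.MP_9b2593_an.Low

open Complex Set Metric MeasureTheory

noncomputable def cr (x y : ℂ) : ℝ := x.re * y.im - x.im * y.re

theorem has_cr {f g : ℝ → ℂ} {f' g' : ℂ} {x : ℝ} (hf : HasDerivAt f f' x) (hg : HasDerivAt g g' x) :
    HasDerivAt (fun x => cr (f x) (g x)) (cr f' (g x) + cr (f x) g') x := by
  have a := reCLM.hasFDerivAt.comp_hasDerivAt x hf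
  have b := imCLM.hasFDerivAt.comp_hasDerivAt x hf
  have c := reCLM.hasFDerivAt.comp_hasDerivAt x hg
  have d := imCLM.hasFDerivAt.comp_hasDerivAt x hg
  refine ((a.mul d).sub (b.mul c)).congr_deriv ?_
  simp [cr]; ring

noncomputable def lin (x y : ℂ) : ℂ →L[ℝ] ℂ := reCLM.smulRight x + imCLM.smulRight y

theorem det_lin (x y : ℂ) : (lin x y).det = cr x y := by
  rw [ContinuousLinearMap.det, ← LinearMap.det_toMatrix basisOneI, Matrix.det_fin_two]
  simp [LinearMap.toMatrix_apply, lin, cr]; ring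

theorem rect {H : ℝ → ℝ → ℝ} {a b : ℝ} (hab : a ≤ b)
    (h : ContinuousOn H.uncurry (Icc 0 1 ×ˢ Icc a b)) :
    ∫ z in Ioo (0 : ℝ) 1 ×ℂ Ioo a b, H z.re z.im = ∫ t in (0 : ℝ)..1, ∫ X in a..b, H t X := by
  have i : IntegrableOn H.uncurry (Ioo 0 1 ×ˢ Ioo a b) (volume.prod volume) :=
    (h.integrableOn_compact (isCompact_Icc.prod isCompact_Icc)).mono_set
      (prod_mono Ioo_subset_Icc_self Ioo_subset_Icc_self)
  have := volume_preserving_equiv_real_prod.setIntegral_preimage_emb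
    measurableEquivRealProd.measurableEmbedding H.uncurry (Ioo 0 1 ×ˢ Ioo a b)
  refine this.trans ?_
  rw [Measure.volume_eq_prod, setIntegral_prod _ i]
  simp only [intervalIntegral.integral_of_le hab, intervalIntegral.integral_of_le zero_le_one,
    integral_Ioc_eq_integral_Ioo, Function.uncurry]

theorem green {W : ℂ → ℂ} {p q : ℝ → ℂ} {a b : ℝ} (hab : a ≤ b)
    (hp : ∀ X, HasDerivAt p (q X) X) (cq : Continuous q)
    (hW : ∀ t ∈ Icc (0 : ℝ) 1, ∀ X ∈ Icc a b, AnalyticAt ℂ W (t * p X))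
    (inj : InjOn (fun z : ℂ => W (z.re * p z.im)) (Ioo 0 1 ×ℂ Ioo a b)) {T : Set ℂ} (hT : volume T ≠ ⊤)
    (sub : ∀ t ∈ Ioo (0 : ℝ) 1, ∀ X ∈ Ioo a b, W (t * p X) ∈ T) :
    ENNReal.ofReal (((∫ X in a..b, cr (W (p X)) (deriv W (p X) * q X)) -
      ∫ t in (0 : ℝ)..1, cr (W (t * p b)) (deriv W (t * p b) * p b) -
        cr (W (t * p a)) (deriv W (t * p a) * p a)) / 2) ≤ volume T := by
  have cp : Continuous p := continuous_iff_continuousAt.2 fun X => (hp X).continuousAt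
  have cu : ∀ V : ℂ → ℂ, (∀ t ∈ Icc (0 : ℝ) 1, ∀ X ∈ Icc a b, AnalyticAt ℂ V (t * p X)) →
      ContinuousOn (fun x : ℝ × ℝ => V (x.1 * p x.2)) (Icc 0 1 ×ˢ Icc a b) := fun V h x hx =>
    (ContinuousAt.comp (f := fun x : ℝ × ℝ => (x.1 : ℂ) * p x.2) (h _ hx.1 _ hx.2).continuousAt
      (by fun_prop)).continuousWithinAt
  have c0 := cu W hW
  have c1 := cu _ fun t ht X hX => (hW t ht X hX).deriv
  have c2 := cu _ fun t ht X hX => (hW t ht X hX).deriv.deriv
  have dt : ∀ (V : ℂ → ℂ) (t X : ℝ), AnalyticAt ℂ V (t * p X) →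
      HasDerivAt (fun t : ℝ => V (t * p X)) (deriv V (t * p X) * p X) t := fun V t X h => by
    simpa using (h.differentiableAt.hasDerivAt.comp (t : ℂ) (hasDerivAt_mul_const (p X))).comp_ofReal
  have dX : ∀ (V : ℂ → ℂ) (t X : ℝ), AnalyticAt ℂ V (t * p X) →
      HasDerivAt (fun X : ℝ => V (t * p X)) (deriv V (t * p X) * (t * q X)) X := fun V t X h => by
    exact (h.differentiableAt.hasDerivAt.scomp X ((hp X).const_mul (t : ℂ))).congr_deriv (mul_comm _ _)
  set J : ℝ → ℝ → ℝ := fun t X => cr (deriv W (t * p X) * p X) (deriv W (t * p X) * (t * q X)) with hJ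
  set K : ℝ → ℝ → ℝ := fun t X => cr (W (t * p X))
    (deriv (deriv W) (t * p X) * p X * (t * q X) + deriv W (t * p X) * q X) with hK
  have cc : Continuous fun x : ℂ × ℂ => cr x.1 x.2 := by unfold cr; fun_prop
  have cP : ContinuousOn (fun x : ℝ × ℝ => p x.2) (Icc 0 1 ×ˢ Icc a b) := by fun_prop
  have cQ : ContinuousOn (fun x : ℝ × ℝ => q x.2) (Icc 0 1 ×ˢ Icc a b) := by fun_prop
  have cR : ContinuousOn (fun x : ℝ × ℝ => x.1 * q x.2) (Icc 0 1 ×ˢ Icc a b) := by fun_prop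
  have cJ : ContinuousOn J.uncurry (Icc 0 1 ×ˢ Icc a b) :=
    cc.comp_continuousOn ((c1.mul cP).prodMk (c1.mul cR))
  have cK : ContinuousOn K.uncurry (Icc 0 1 ×ˢ Icc a b) :=
    cc.comp_continuousOn (c0.prodMk (((c2.mul cP).mul cR).add (c1.mul cQ)))
  have cA : ContinuousOn (fun t X => J t X + K t X).uncurry (Icc 0 1 ×ˢ Icc a b) := cJ.add cK
  have cB : ContinuousOn (fun t X => -J t X + K t X).uncurry (Icc 0 1 ×ˢ Icc a b) := cJ.neg.add cK
  have u1 := uIcc_of_le (zero_le_one' ℝ)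
  have u2 := uIcc_of_le hab
  have s1 : ∀ H : ℝ → ℝ → ℝ, ContinuousOn H.uncurry (Icc 0 1 ×ˢ Icc a b) → ∀ X ∈ Icc a b,
      IntervalIntegrable (fun t => H t X) volume 0 1 := fun H h X hX =>
    (h.comp (f := fun t : ℝ => (t, X)) (by fun_prop) fun t ht => ⟨u1 ▸ ht, hX⟩).intervalIntegrable
  have s2 : ∀ H : ℝ → ℝ → ℝ, ContinuousOn H.uncurry (Icc 0 1 ×ˢ Icc a b) → ∀ t ∈ Icc (0 : ℝ) 1,
      IntervalIntegrable (H t) volume a b := fun H h t ht =>
    (h.comp (f := fun X : ℝ => (t, X)) (by fun_prop) fun X hX => ⟨ht, u2 ▸ hX⟩).intervalIntegrable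
  have ii : ∀ H : ℝ → ℝ → ℝ, ContinuousOn H.uncurry (Icc 0 1 ×ˢ Icc a b) →
      IntegrableOn (fun z : ℂ => H z.re z.im) (Ioo (0 : ℝ) 1 ×ℂ Ioo a b) := fun H h =>
    ((h.comp (f := fun z : ℂ => (z.re, z.im)) (by fun_prop) fun z hz => hz).integrableOn_compact
      (isCompact_Icc.reProdIm isCompact_Icc)).mono_set
      fun z hz => ⟨Ioo_subset_Icc_self hz.1, Ioo_subset_Icc_self hz.2⟩
  have e1 : ∫ z in Ioo (0 : ℝ) 1 ×ℂ Ioo a b, J z.re z.im + K z.re z.im =
      ∫ X in a..b, cr (W (p X)) (deriv W (p X) * q X) := by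
    rw [rect hab cA, intervalIntegral_intervalIntegral_swap
      ((cA.integrableOn_compact (isCompact_Icc.prod isCompact_Icc)).mono_set
        (prod_mono (u1 ▸ uIoc_subset_uIcc) (u2 ▸ uIoc_subset_uIcc)))]
    refine intervalIntegral.integral_congr fun X hX => ?_
    rw [u2] at hX
    have := intervalIntegral.integral_eq_sub_of_hasDerivAt (f := fun t : ℝ => cr (W (t * p X))
      (deriv W (t * p X) * (t * q X))) (fun t ht => has_cr (dt W t X (hW t (u1 ▸ ht) X hX))
        (((dt _ t X (hW t (u1 ▸ ht) X hX).deriv).mul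
          (hasDerivAt_mul_const (q X)).comp_ofReal))) (s1 _ cA X hX)
    exact this.trans (by simp [cr])
  have e2 : ∫ z in Ioo (0 : ℝ) 1 ×ℂ Ioo a b, -J z.re z.im + K z.re z.im =
      ∫ t in (0 : ℝ)..1, cr (W (t * p b)) (deriv W (t * p b) * p b) -
        cr (W (t * p a)) (deriv W (t * p a) * p a) := by
    rw [rect hab cB]
    refine intervalIntegral.integral_congr fun t ht => ?_
    rw [u1] at ht
    refine intervalIntegral.integral_eq_sub_of_hasDerivAt (f := fun X : ℝ => cr (W (t * p X))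
      (deriv W (t * p X) * p X)) (fun X hX => (has_cr (dX W t X (hW t ht X (u2 ▸ hX)))
        ((dX _ t X (hW t ht X (u2 ▸ hX)).deriv).mul (hp X))).congr_deriv ?_) (s2 _ cB t ht)
    simp only [hJ, hK, mul_right_comm _ (p X), Pi.mul_apply]
    congr 1
    simp only [cr]; ring
  have m : MeasurableSet (Ioo (0 : ℝ) 1 ×ℂ Ioo a b) := (isOpen_Ioo.reProdIm isOpen_Ioo).measurableSet
  have e3 := integral_image_eq_integral_abs_det_fderiv_smul volume m
    (f' := fun z => lin (deriv W (z.re * p z.im) * p z.im) (deriv W (z.re * p z.im) * (z.re * q z.im)))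
    (fun z hz => by
      have h1 := (hW _ (Ioo_subset_Icc_self hz.1) _ (Ioo_subset_Icc_self hz.2)).differentiableAt.hasDerivAt
      have h2 := (ofRealCLM.hasFDerivAt.comp z reCLM.hasFDerivAt).mul
        ((hp z.im).hasFDerivAt.comp z imCLM.hasFDerivAt)
      refine (((h1.hasFDerivAt.restrictScalars ℝ).comp z h2).congr_fderiv ?_).hasFDerivWithinAt
      ext1 h
      simp [lin]; ring) inj (fun _ => (1 : ℝ))
  simp only [det_lin, smul_eq_mul, mul_one, integral_const, Measure.restrict_apply_univ,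
    measureReal_def] at e3
  rw [← e1, ← e2, ← integral_sub (ii _ cA) (ii _ cB), ← integral_div]
  refine ENNReal.ofReal_le_of_le_toReal (le_trans ?_ (ENNReal.toReal_mono hT (measure_mono
    (s := (fun z : ℂ => W (z.re * p z.im)) '' (Ioo 0 1 ×ℂ Ioo a b)) ?_)))
  · rw [e3]
    refine integral_mono (((ii _ cA).sub (ii _ cB)).div_const 2)
      (ii _ cJ).abs fun z => ?_
    have := le_abs_self (J z.re z.im)
    simp only [hJ] at this ⊢
    linarith
  · rintro _ ⟨z, hz, rfl⟩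
    exact sub _ hz.1 _ hz.2

end Pool.Agent.Lib.MP_9b2593_an.Low
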