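import Mathlib

/-!
Integer list polynomials and certified lower bounds for integrals of rational functions.
-/

namespace Pool.Agent.Lib.MP_9b2593_an.Low

open Set MeasureTheory

def ev {R : Type*} [CommRing R] : List ℤ → R → R
  | [], _ => 0
  | a :: l, x => (a : R) + x * ev l x

def padd : List ℤ → List ℤ → List ℤ
  | [], l => l
  | a :: l, [] => a :: l
  | a :: l, b :: k => Int.add a b :: padd l k

def psm (c : ℤ) : List ℤ → List ℤ
  | [] => []
  | a :: l => Int.mul c a :: psm c l

noncomputable def frI {α : Type} (x : ℤ) (k : ℤ → α) : α :=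
  Int.rec (motive := fun _ => α)
    (fun n => Nat.rec (motive := fun _ => α) (k 0) (fun m _ => k (Int.ofNat m)) (Nat.add n 1))
    (fun n => Nat.rec (motive := fun _ => α) (k 0) (fun m _ => k (Int.negSucc m)) (Nat.add n 1)) x

noncomputable def frL {α : Type} (l : List ℤ) : (List ℤ → α) → α :=
  List.rec (motive := fun _ => (List ℤ → α) → α) (fun k => k [])
    (fun a _ ih k => frI a fun b => ih fun l => k (b :: l)) l

theorem frI_eq {α : Type} (x : ℤ) (k : ℤ → α) : frI x k = k x := by
  cases x <;> simp only [frI]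

theorem frL_eq {α : Type} : ∀ (l : List ℤ) (k : List ℤ → α), frL l k = k l
  | [], _ => by simp only [frL]
  | a :: l, k => by
    have := frL_eq l fun l => k (a :: l)
    simp only [frL, frI_eq] at this ⊢
    exact this

noncomputable def pmul : List ℤ → List ℤ → List ℤ
  | [], _ => []
  | a :: l, k => frL (padd (psm a k) (0 :: pmul l k)) id

noncomputable def ppow (l : List ℤ) : ℕ → List ℤ
  | 0 => [1]
  | k + 1 => pmul l (ppow l k)

def palt : List ℤ → List ℤ
  | [] => []
  | [a] => [a]
  | a :: b :: l => a :: -b :: palt l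

def reI : List ℤ → List ℤ
  | [] => []
  | [a] => [a]
  | a :: _ :: l => a :: 0 :: psm (-1) (reI l)

def step (m : ℤ) : ℤ → List ℤ → List ℤ
  | c, [] => [c]
  | c, r :: l => Int.add c (Int.mul m r) :: step m r l

def shift (m : ℤ) : List ℤ → List ℤ
  | [] => []
  | c :: l => step m c (shift m l)

def pdA : ℤ → List ℤ → List ℤ
  | _, [] => []
  | k, a :: l => Int.mul k a :: pdA (Int.add k 1) l

def asum : List ℤ → ℤ
  | [] => 0
  | a :: l => Int.add (Int.natAbs a) (asum l)

def evZ (x : ℤ) : List ℤ → ℤ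
  | [] => 0
  | a :: l => Int.add a (Int.mul x (evZ x l))

def bnd (x : ℤ) : List ℤ → ℤ
  | [] => 0
  | a :: l => Int.add (Int.natAbs a) (Int.mul x (bnd x l))

noncomputable def dg (H : ℤ) : ℕ → ℤ → List ℤ
  | 0, _ => []
  | k + 1, V => frI ((V + H) % (2 * H) - H) fun r => r :: frI ((V - r) / (2 * H)) (dg H k)

noncomputable def ts (H : ℤ) : ℕ → ℤ → ℤ
  | 0, V => if V = 0 then 0 else H
  | k + 1, V => frI ((V + H) % (2 * H) - H) fun r =>
    Int.add (Int.natAbs r) (frI ((V - r) / (2 * H)) (ts H k))

noncomputable def okK (H V : ℤ) : Bool := frI ((V + H) % (2 * H) - H) fun r =>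
  decide (frI ((V - r) / (2 * H)) (ts H 110) < r)

noncomputable def ser (D : List ℤ) : ℕ → ℤ → ℤ → List ℤ → List ℤ
  | 0, _, _, _ => []
  | d + 1, i, e, R => frI (R.headD 0 / D.headD 1) fun q =>
    ((q - e) / i) :: frL ((padd R (psm (-q) D)).tail.take d) (ser D d (i + 1) 0)

noncomputable def chk (N D : List ℤ) (H S e : ℤ) (d : ℕ) : ℕ → ℤ → ℤ → Bool
  | 0, _, r => decide (r ≤ 0)
  | k + 1, m, r => frI (evZ (m + 1 + 2 * H) N) fun U => frI (evZ (m + 1 + 2 * H) D) fun V =>
    frL (dg H d V) fun D' => frL (ser D' d 1 e (psm S (dg H d U))) fun A =>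
      frI (bnd (|m + 1| + 1) D) fun b => decide (b < H) && (okK H V &&
        (decide (|S| * bnd (|m + 1| + 1) N + asum (pdA 1 A) * b < H) &&
        (frI (S * U - evZ (2 * H) (pdA 1 A) * V) (okK H) &&
        frI (m + 2) fun m' => frI (r - (evZ 1 A + evZ (-1) A)) fun r' => chk N D H S e d k m' r')))

section
variable {R : Type*} [CommRing R]

theorem ev_padd : ∀ (l k : List ℤ) (x : R), ev (padd l k) x = ev l x + ev k x
  | [], k, x => by simp [padd, ev]
  | a :: l, [], x => by simp [padd, ev]
  | a :: l, b :: k, x => by simp only [padd, ev, ev_padd l k x, Int.add_def]; push_cast; ring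

theorem ev_psm (c : ℤ) : ∀ (l : List ℤ) (x : R), ev (psm c l) x = (c : R) * ev l x
  | [], x => by simp [psm, ev]
  | a :: l, x => by simp only [psm, ev, ev_psm c l x, Int.mul_def]; push_cast; ring

theorem ev_pmul : ∀ (l k : List ℤ) (x : R), ev (pmul l k) x = ev l x * ev k x
  | [], k, x => by simp [pmul, ev]
  | a :: l, k, x => by
    simp only [pmul, frL_eq, id, ev_padd, ev_psm, ev, ev_pmul l k x]; push_cast; ring

theorem ev_ppow (l : List ℤ) (x : R) : ∀ k, ev (ppow l k) x = ev l x ^ k
  | 0 => by simp [ppow, ev]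
  | k + 1 => by rw [ppow, ev_pmul, ev_ppow l x k, pow_succ']

theorem ev_palt : ∀ (l : List ℤ) (x : R), ev (palt l) x = ev l (-x)
  | [], x => by simp [palt, ev]
  | [a], x => by simp [palt, ev]
  | a :: b :: l, x => by simp only [palt, ev, ev_palt l x]; push_cast; ring

theorem ev_step (m : ℤ) (x : R) : ∀ (l : List ℤ) (c : ℤ), ev (step m c l) x = c + (m + x) * ev l x
  | [], c => by simp [step, ev]
  | r :: l, c => by simp only [step, ev, ev_step m x l r, Int.add_def, Int.mul_def]; push_cast; ring

theorem ev_shift (m : ℤ) (x : R) : ∀ l : List ℤ, ev (shift m l) x = ev l (m + x)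
  | [] => by simp [shift, ev]
  | c :: l => by simp only [shift, ev_step, ev_shift m x l, ev]

theorem ev_pdA (x : R) : ∀ (l : List ℤ) (k : ℤ), ev (pdA (k + 1) l) x = ev (pdA k l) x + ev l x
  | [], k => by simp [pdA, ev]
  | a :: l, k => by simp only [pdA, ev, Int.add_def, Int.mul_def, ev_pdA x l (k + 1)]; push_cast; ring

theorem map_ev {S : Type*} [CommRing S] (f : R →+* S) (x : R) : ∀ l : List ℤ, f (ev l x) = ev l (f x)
  | [] => by simp [ev]
  | a :: l => by simp [ev, map_ev f x l]

end

theorem ev_reI (x : ℝ) : ∀ l : List ℤ, ev (reI l) x = (ev l (x * Complex.I)).re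
  | [] => by simp [reI, ev]
  | [a] => by simp [reI, ev]
  | a :: b :: l => by simp [reI, ev, ev_psm, ev_reI x l]

theorem has_ev (x : ℝ) : ∀ l : List ℤ, HasDerivAt (fun y : ℝ => y * ev l y) (ev (pdA 1 l) x) x
  | [] => by simpa [pdA, ev] using hasDerivAt_const x (0 : ℝ)
  | a :: l => by
    refine ((hasDerivAt_id x).mul ((has_ev x l).const_add (a : ℝ))).congr_deriv ?_
    simp only [pdA, ev, Int.add_def, Int.mul_def, ev_pdA, id]; push_cast; ring

theorem cont_ev : ∀ l : List ℤ, Continuous fun y : ℝ => ev l y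
  | [] => continuous_const
  | _ :: l => continuous_const.add (continuous_id.mul (cont_ev l))

theorem ev_le {x : ℝ} (h : |x| ≤ 1) : ∀ l : List ℤ, |x * ev l x| ≤ asum l
  | [] => by simp [ev, asum]
  | a :: l => by
    have := ev_le h l
    simp only [ev, asum, Int.add_def, Int.natCast_natAbs]
    push_cast
    rw [abs_mul]
    exact (mul_le_of_le_one_left (abs_nonneg _) h).trans ((abs_add_le _ _).trans (by linarith))

theorem evZ_eq (x : ℤ) : ∀ l : List ℤ, evZ x l = ev l x
  | [] => by simp [ev, evZ]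
  | a :: l => by simp [ev, evZ, evZ_eq x l]

theorem as_cons (a : ℤ) (l : List ℤ) : asum (a :: l) = |a| + asum l := by simp [asum]

theorem as_nn : ∀ l : List ℤ, 0 ≤ asum l
  | [] => le_rfl
  | a :: l => as_cons a l ▸ add_nonneg (abs_nonneg a) (as_nn l)

theorem as_padd : ∀ l k : List ℤ, asum (padd l k) ≤ asum l + asum k
  | [], k => by simp [padd, asum]
  | a :: l, [] => by simp [padd, asum]
  | a :: l, b :: k => by
    simp only [padd, as_cons, Int.add_def]; linarith [as_padd l k, abs_add_le a b]

theorem as_psm (c : ℤ) : ∀ l : List ℤ, asum (psm c l) = |c| * asum l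
  | [] => by simp [psm, asum]
  | a :: l => by simp only [psm, as_cons, Int.mul_def, as_psm c l, abs_mul]; ring

theorem as_pmul (k : List ℤ) : ∀ l : List ℤ, asum (pmul l k) ≤ asum l * asum k
  | [] => by simp [pmul, asum]
  | a :: l => by
    have := as_padd (psm a k) (0 :: pmul l k)
    simp only [pmul, frL_eq, id, as_cons, as_psm, abs_zero] at this ⊢
    linarith [as_pmul k l]

theorem as_step (m : ℤ) : ∀ (l : List ℤ) (c : ℤ), asum (step m c l) ≤ |c| + (|m| + 1) * asum l
  | [], c => by simp [step, asum]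
  | r :: l, c => by
    simp only [step, as_cons, Int.add_def, Int.mul_def]
    linarith [as_step m l r, abs_add_le c (m * r), abs_mul m r]

theorem as_shift (m : ℤ) : ∀ l : List ℤ, asum (shift m l) ≤ bnd (|m| + 1) l
  | [] => le_rfl
  | c :: l => by
    simp only [shift, bnd, Int.add_def, Int.mul_def, Int.natCast_natAbs]
    exact (as_step m _ c).trans (by gcongr; exact as_shift m l)

theorem dig {H a : ℤ} (t : ℤ) (h : |a| < H) : (a + 2 * H * t + H) % (2 * H) - H = a ∧
    (a + 2 * H * t - a) / (2 * H) = t := by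
  obtain ⟨h1, h2⟩ := abs_lt.1 h
  rw [add_right_comm, Int.add_mul_emod_self_left, Int.emod_eq_of_lt (by linarith) (by linarith),
    add_sub_cancel_left, Int.mul_ediv_cancel_left _ (by linarith)]
  exact ⟨by ring, rfl⟩

theorem as_zero {H : ℤ} : ∀ l : List ℤ, asum l < H → ev l (2 * H) = 0 → asum l = 0
  | [], _, _ => rfl
  | a :: l, h, e => by
    rw [as_cons] at h ⊢
    have h0 : |a| < H := by linarith [as_nn l]
    have h1 := dig (ev l (2 * H)) h0
    have h2 := dig (H := H) 0 (a := 0) (by linarith [abs_nonneg a, abs_zero (α := ℤ)])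
    simp only [ev, Int.cast_id] at e
    rw [mul_zero, add_zero] at h2
    rw [e, h2.1] at h1
    obtain rfl := h1.1
    rw [as_zero l (by simpa using h) (h1.2.symm.trans h2.2)]; rfl

theorem as_ts {H : ℤ} : ∀ (k : ℕ) (l : List ℤ), asum l < H → asum l ≤ ts H k (ev l (2 * H))
  | 0, l, h => by
    rw [ts]
    split_ifs with e
    exacts [(as_zero l h e).le, h.le]
  | k + 1, [], h => by
    have := dig (H := H) 0 (a := 0) h
    have h2 := as_ts k [] h
    simp only [ts, frI_eq, ev, mul_zero, add_zero, Int.add_def] at this h2 ⊢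
    rw [this.1, this.2]; simpa using h2
  | k + 1, a :: l, h => by
    rw [as_cons] at h ⊢
    have := dig (ev l (2 * H)) (show |a| < H by linarith [as_nn l])
    simp only [ts, frI_eq, ev, Int.cast_id, this, Int.add_def, Int.natCast_natAbs]
    linarith [as_ts (H := H) k l (by linarith [abs_nonneg a])]

theorem okK_pos {H : ℤ} {x : ℝ} (hx : |x| ≤ 1) : ∀ {l : List ℤ}, asum l < H →
    okK H (ev l (2 * H)) = true → 0 < ev l x
  | [], h, e => by
    have := dig (H := H) 0 (a := 0) h
    have h2 := as_ts 110 [] h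
    simp only [okK, frI_eq, ev, mul_zero, add_zero, decide_eq_true_eq] at this h2 e
    rw [this.1, this.2] at e
    exact absurd e (not_lt.2 h2)
  | a :: l, h, e => by
    rw [as_cons] at h
    have := dig (ev l (2 * H)) (show |a| < H by linarith [as_nn l])
    simp only [okK, frI_eq, ev, Int.cast_id, this, decide_eq_true_eq] at e
    have h1 : (asum l : ℝ) < a := by
      exact_mod_cast (as_ts 110 l (by linarith [abs_nonneg a])).trans_lt e
    have := neg_abs_le (x * ev l x)
    have := ev_le hx l
    rw [ev]; linarith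

theorem chk_le (N D : List ℤ) (H S e : ℤ) (d : ℕ) : ∀ (k : ℕ) (m r : ℤ), chk N D H S e d k m r = true →
    IntervalIntegrable (fun x : ℝ => S * ev N x / ev D x) volume m (m + 2 * k) ∧
      (r : ℝ) ≤ ∫ x in (m : ℝ)..(m + 2 * k), S * ev N x / ev D x
  | 0, m, r, h => by simpa [chk] using h
  | k + 1, m, r, h => by
    simp only [chk, frL_eq, frI_eq, Bool.and_eq_true, decide_eq_true_eq, evZ_eq] at h
    generalize ser _ _ _ _ _ = A at h
    obtain ⟨a', a, b', b, c⟩ := h
    obtain ⟨i, j⟩ := chk_le N D H S e d k _ _ c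
    have s1 := as_shift (m + 1) N
    have s2 := as_shift (m + 1) D
    have hm : (m : ℝ) ≤ m + 2 := by linarith
    have u : ∀ x ∈ Icc (m : ℝ) (m + 2), |x - (m + 1)| ≤ 1 := fun x hx =>
      abs_le.2 ⟨by linarith [hx.1], by linarith [hx.2]⟩
    have p : ∀ x ∈ Icc (m : ℝ) (m + 2), 0 < ev D x := fun x hx => by
      simpa [ev_shift] using okK_pos (u x hx) (s2.trans_lt a') (by rwa [ev_shift])
    have i' : IntervalIntegrable (fun x : ℝ => S * ev N x / ev D x) volume m (m + 2) :=
      (((continuous_const.mul (cont_ev N)).continuousOn).div (cont_ev D).continuousOn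
        fun x hx => (p x (uIcc_of_le hm ▸ hx)).ne').intervalIntegrable
    have c1 : IntervalIntegrable (fun x : ℝ => ev (pdA 1 A) (x - (m + 1))) volume m (m + 2) :=
      ((cont_ev _).comp (by fun_prop)).intervalIntegrable _ _
    have f := intervalIntegral.integral_eq_sub_of_hasDerivAt
      (fun x _ => (has_ev (x - (m + 1)) A).comp_sub_const x (m + 1)) c1
    have g := intervalIntegral.integral_mono_on hm c1 i' fun x hx => by
      have := okK_pos (u x hx) (l := padd (psm S (shift (m + 1) N)) (psm (-1) (pmul (pdA 1 A)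
        (shift (m + 1) D)))) (((as_padd _ _).trans (by
          rw [as_psm, as_psm, abs_neg, abs_one, one_mul]
          exact add_le_add (mul_le_mul_of_nonneg_left s1 (abs_nonneg _))
            ((as_pmul _ _).trans (mul_le_mul_of_nonneg_left s2 (as_nn _))))).trans_lt b')
        (by simpa [ev_padd, ev_psm, ev_pmul, ev_shift, ← sub_eq_add_neg] using b)
      simp only [ev_padd, ev_psm, ev_pmul, ev_shift] at this
      push_cast at this
      rw [add_sub_cancel] at this
      rw [le_div_iff₀ (p x hx)]; linarith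
    have e1 := map_ev (Int.castRingHom ℝ) 1 A
    have e2 := map_ev (Int.castRingHom ℝ) (-1) A
    simp only [eq_intCast] at e1 e2
    push_cast at i j e1 e2 ⊢
    rw [show (m : ℝ) + 2 * (k + 1) = m + 2 + 2 * k by ring]
    refine ⟨i'.trans i, ?_⟩
    rw [← intervalIntegral.integral_add_adjacent_intervals i' i]
    rw [f, show (m : ℝ) + 2 - (m + 1) = 1 by ring, show (m : ℝ) - (m + 1) = -1 by ring] at g
    linarith

end Pool.Agent.Lib.MP_9b2593_an.Low
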