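import Pool.Agent.Lib.MP_9b2593_an.LowD

/-!
The polynomials in the boundary integrals, and the kernel checks.
-/

namespace Pool.Agent.Lib.MP_9b2593_an.Low

noncomputable def tm (e : ℤ) (j k : ℕ) : List ℤ := psm e (pmul (ppow [81, -1] j) (ppow [81, 1] k))

noncomputable def hm (a b c d e f : ℤ) : List ℤ := padd (tm 10000 0 12) (padd (tm a 2 10) (padd (tm b 4 8)
  (padd (tm c 6 6) (padd (tm d 8 4) (padd (tm e 10 2) (tm f 12 0))))))

noncomputable def pP : List ℤ := hm (-6039) (-1193) (-366) (-183) (-33) (-66)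

noncomputable def pR : List ℤ := hm 6039 3579 1830 1281 297 726

noncomputable def pQ : List ℤ := tm 10000 1 11

noncomputable def qf (a b c : ℤ) : List ℤ :=
  padd (psm a (pmul pP pP)) (padd (psm b (pmul pP pQ)) (psm c (pmul pQ pQ)))

noncomputable def pN (d c m k : ℤ) : List ℤ := psm (81 * k)
  (reI (pmul (palt (pmul (qf d c (-m)) (qf (-d) c m))) (pmul (qf d 0 m) (pmul pQ pR))))

noncomputable def pD (d c m : ℤ) : List ℤ :=
  pmul [6561, 0, 1] (ppow (reI (pmul (palt (qf (-d) c m)) (qf (-d) c m))) 2)

noncomputable def gN (d c m : ℤ) : List ℤ := psm (c * 149960000) [m * 1600000000, 0, -d * 14055001]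

noncomputable def gD (d c m : ℤ) : List ℤ :=
  padd (ppow [m * 1600000000, 0, d * 14055001] 2) [0, 0, (c * 149960000) ^ 2]

def dd : ℤ := 23354231296 * 10 ^ 96

def kN : ℤ := 59572608044978813720735013024872537736907297446449111365770623400731745 * 5 ^ 36

def cN : ℤ := kN * 2 ^ 36

def mN : ℤ := 55176218442374607226056555349652787184332986613999517712744682399023335404582270578651160672789259731079729

theorem ck1 : (frL (pN dd cN mN kN) fun N => frL (pD dd cN mN) fun D =>
    chk N D (2 ^ 2400) (3 ^ 49) 4000 8 81 (-81) (-1106418928172)) = true := by decide +kernel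

theorem ck2 : chk (gN dd cN mN) (gD dd cN mN) (2 ^ 1000) 1000000000000 20000 8 8 0 692481843568 = true := by
  decide +kernel

end Pool.Agent.Lib.MP_9b2593_an.Low
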