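import Pool.Agent.Lib.MP_9b2593_an.LowC
import Pool.Agent.Lib.MP_9b2593_an.LowE

/-!
The boundary integrands as quotients of integer polynomials.
-/

namespace Pool.Agent.Lib.MP_9b2593_an.Low

open Complex Set Metric MeasureTheory

noncomputable def vX (X : ℝ) : ℂ := (81 - X * I) / (81 + X * I)

noncomputable def qX (X : ℝ) : ℂ := (2 * NN (vX X ^ 2) - 1 - EE (vX X ^ 2)) / vX X ^ 2 *
  (-162 * I / (81 + X * I) ^ 2)

theorem a_ne (X : ℝ) : (81 : ℂ) - X * I ≠ 0 := fun h => by simpa using congrArg re h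

theorem b_ne (X : ℝ) : (81 : ℂ) + X * I ≠ 0 := fun h => by simpa using congrArg re h

theorem vX_ne (X : ℝ) : vX X ≠ 0 := div_ne_zero (a_ne X) (b_ne X)

theorem vX_norm (X : ℝ) : ‖vX X‖ = 1 := by
  rw [vX, norm_div, div_eq_one_iff_eq (norm_ne_zero_iff.2 (b_ne X)), ← norm_conj]
  simp [map_ofNat]

theorem vX_re (X : ℝ) : (vX X).re = (6561 - X ^ 2) / normSq (81 + X * I) := by
  rw [vX, div_re]; simp; ring

theorem vX_inj {X Y : ℝ} (h : vX X = vX Y) : X = Y := by
  rw [vX, vX, div_eq_div_iff (b_ne X) (b_ne Y)] at h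
  have := congrArg im h
  simp at this; linarith

theorem has_p (X : ℝ) : HasDerivAt (fun X => ph (vX X)) (qX X) X := by
  have h := (hasDerivAt_mul_const (x := (X : ℂ)) I)
  have h1 : HasDerivAt (fun z : ℂ => (81 - z * I) / (81 + z * I)) (-162 * I / (81 + X * I) ^ 2) X :=
    ((h.const_sub 81).div (h.const_add 81) (b_ne X)).congr_deriv (by congr 1; ring)
  exact ((hasP (vX_ne X)).comp (X : ℂ) h1).comp_ofReal

theorem cont_q : Continuous qX := by
  have cv : Continuous vX := Continuous.div (by fun_prop) (by fun_prop) b_ne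
  unfold qX NN EE
  exact (Continuous.div (by fun_prop) (by fun_prop) fun X => pow_ne_zero 2 (vX_ne X)).mul
    (Continuous.div (by fun_prop) (by fun_prop) fun X => pow_ne_zero 2 (b_ne X))

theorem ev_tm (e : ℤ) (j k : ℕ) (s : ℂ) : ev (tm e j k) s = e * ((81 - s) ^ j * (81 + s) ^ k) := by
  simp [tm, ev_psm, ev_pmul, ev_ppow, ev, sub_eq_add_neg]

theorem Q_ne (X : ℝ) : ev pQ (X * I) ≠ 0 := by
  rw [pQ, ev_tm]
  exact mul_ne_zero (by norm_num) (mul_ne_zero (pow_ne_zero _ (a_ne X)) (pow_ne_zero _ (b_ne X)))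

theorem p_eq (X : ℝ) : ph (vX X) = ev pP (X * I) / ev pQ (X * I) := by
  have := a_ne X
  have := b_ne X
  simp only [ph, EE, vX, pP, pQ, hm, ev_padd, ev_tm]
  generalize (81 : ℂ) - X * I = a at *
  generalize (81 : ℂ) + X * I = b at *
  push_cast; field_simp; ring

theorem q_eq (X : ℝ) : qX X = 162 * I * ev pR (X * I) / (ev pQ (X * I) * (6561 + X ^ 2 : ℝ)) := by
  have := a_ne X
  have := b_ne X
  have e : ((6561 + X ^ 2 : ℝ) : ℂ) = (81 - X * I) * (81 + X * I) := by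
    push_cast; linear_combination (X : ℂ) ^ 2 * I_sq
  simp only [qX, NN, EE, vX, pR, pQ, hm, ev_padd, ev_tm, e]
  generalize (81 : ℂ) - X * I = a at *
  generalize (81 : ℂ) + X * I = b at *
  push_cast; field_simp; ring

theorem cr_eq (x y : ℂ) : cr x y = ((starRingEnd ℂ) x * y).im := by simp [cr]; ring

theorem cr_W {N D G Q R : ℂ} {c r : ℝ} (hD : D ≠ 0) (hQ : Q ≠ 0) (hr : r ≠ 0) :
    cr (N / D) (2 * c * G * Q ^ 2 / D ^ 2 * (162 * I * R / (Q * r))) =
      324 * c * ((starRingEnd ℂ) (N * D) * (G * (Q * R))).re / (r * ((starRingEnd ℂ) D * D).re ^ 2) := by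
  have h1 : (starRingEnd ℂ) D ≠ 0 := (map_ne_zero _).2 hD
  have h2 : (r : ℂ) ≠ 0 := ofReal_ne_zero.2 hr
  have : (starRingEnd ℂ) (N / D) * (2 * c * G * Q ^ 2 / D ^ 2 * (162 * I * R / (Q * r))) =
      (324 * c / (r * normSq D ^ 2) : ℝ) * ((starRingEnd ℂ) (N * D) * (G * (Q * R)) * I) := by
    push_cast
    rw [normSq_eq_conj_mul_self, map_div₀, map_mul]
    field_simp; ring
  rw [cr_eq, this, im_ofReal_mul, mul_I_im, ← normSq_eq_conj_mul_self, ofReal_re]; ring

theorem F_eq {d c m k : ℤ} (hd : (d : ℝ) ≠ 0) (hk : c = k * 2 ^ 36) (X : ℝ)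
    (h : den (c / d) (m / d) (ph (vX X)) ≠ 0) :
    cr (WW (c / d) (m / d) (ph (vX X))) (WD (c / d) (m / d) (ph (vX X)) * qX X) =
      2 ^ 38 * (ev (pN d c m k) X / ev (pD d c m) X) := by
  have hQ := Q_ne X
  have hd' : (d : ℂ) ≠ 0 := by exact_mod_cast hd
  have cj : ∀ l, ev (palt l) (X * I) = (starRingEnd ℂ) (ev l (X * I)) := fun l => by
    rw [map_ev, ev_palt]; simp
  have e1 : den (c / d) (m / d) (ph (vX X)) = ev (qf (-d) c m) (X * I) / (d * ev pQ (X * I) ^ 2) := by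
    simp only [den, p_eq, qf, ev_padd, ev_psm, ev_pmul]; push_cast; field_simp; ring
  have hD : ev (qf (-d) c m) (X * I) ≠ 0 := fun h' => h (by rw [e1, h', zero_div])
  have e2 : WW (c / d) (m / d) (ph (vX X)) = ev (qf d c (-m)) (X * I) / ev (qf (-d) c m) (X * I) := by
    rw [WW, e1]
    generalize ev (qf (-d) c m) (X * I) = D at hD
    simp only [p_eq, qf, ev_padd, ev_psm, ev_pmul]; push_cast; field_simp; ring
  have e3 : WD (c / d) (m / d) (ph (vX X)) = 2 * (c : ℝ) * ev (qf d 0 m) (X * I) * ev pQ (X * I) ^ 2 /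
      ev (qf (-d) c m) (X * I) ^ 2 := by
    rw [WD, e1]
    generalize ev (qf (-d) c m) (X * I) = D at hD
    simp only [p_eq, qf, ev_padd, ev_psm, ev_pmul]; push_cast; field_simp; ring
  rw [e2, e3, q_eq, cr_W hD hQ (by positivity)]
  simp only [pN, pD, ev_psm, ev_pmul, ev_ppow, ev_reI, cj, ev]
  generalize ((starRingEnd ℂ) _ * (_ * _)).re = x
  generalize ((starRingEnd ℂ) _ * _).re = y
  rw [hk]; push_cast; ring

theorem side {c m : ℝ} (hm : 0 < m) (τ β : ℝ) : cr (WW c m (τ * I)) (WD c m (τ * I) * (β * I)) =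
    -2 * (c * β * (m - τ ^ 2) / ((m + τ ^ 2) ^ 2 + c ^ 2 * τ ^ 2)) := by
  have e : den c m (τ * I) = (m + τ ^ 2 : ℝ) + (c * τ : ℝ) * I := by
    rw [den]; push_cast; linear_combination -(τ : ℂ) ^ 2 * I_sq
  have h0 : den c m (τ * I) ≠ 0 := fun h => by
    have := congrArg re (e ▸ h)
    simp only [add_re, ofReal_re, mul_I_re, ofReal_im, neg_zero, add_zero, zero_re] at this
    nlinarith [sq_nonneg τ]
  have h1 : (starRingEnd ℂ) (den c m (τ * I)) ≠ 0 := (map_ne_zero _).2 h0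
  have n : normSq (den c m (τ * I)) = (m + τ ^ 2) ^ 2 + c ^ 2 * τ ^ 2 := by
    rw [e, normSq_add_mul_I]; ring
  have e2 : (starRingEnd ℂ) ((τ * I) ^ 2 + c * (τ * I) - m) = -den c m (τ * I) := by simp [den]; ring
  have : (starRingEnd ℂ) (WW c m (τ * I)) * (WD c m (τ * I) * (β * I)) =
      (-2 * (c * β * (m - τ ^ 2) / normSq (den c m (τ * I))) : ℝ) * I := by
    push_cast
    rw [normSq_eq_conj_mul_self, WW, WD, map_div₀, e2, mul_pow, I_sq]
    field_simp; ring
  rw [cr_eq, this, mul_I_im, ofReal_re, n]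

theorem g_eq {d c m : ℤ} (hd : (0 : ℝ) < d) (hm : (0 : ℝ) < m) (X : ℝ) :
    c / d * 1.4996 * (m / d - (X / 16 * 1.4996) ^ 2) / ((m / d + (X / 16 * 1.4996) ^ 2) ^ 2 +
      (c / d) ^ 2 * (X / 16 * 1.4996) ^ 2) = 16 * (ev (gN d c m) X / ev (gD d c m) X) := by
  have e : ev (gD d c m) X = (m * 1600000000 + d * 14055001 * X ^ 2) ^ 2 + (c * 149960000) ^ 2 * X ^ 2 := by
    simp only [gD, ev_padd, ev_ppow, ev]; push_cast; ring
  simp only [gN, e, ev_psm, ev]
  push_cast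
  rw [← mul_div_assoc, div_eq_div_iff (by positivity) (by positivity)]
  field_simp; ring

theorem area {n₀ n₁ : ℝ} (h4 : 0 < n₀) (h5 : n₀ < n₁) (h6 : 2.35 < n₀ * n₁) {d c m k : ℤ} (hd : (0 : ℝ) < d)
    (hk : c = k * 2 ^ 36) (hc : n₁ - n₀ = c / d) (hm : n₀ * n₁ = m / d) {f : ℂ → ℂ}
    (hf : ∀ z ∈ ball (0 : ℂ) 1, ∃ v : ℂ, ‖v‖ < 1 ∧ 0 < v.re ∧ den (n₁ - n₀) (n₀ * n₁) (ph v) ≠ 0 ∧
        f z = WW (n₁ - n₀) (n₀ * n₁) (ph v)) :
    ENNReal.ofReal ((2 ^ 38 * (∫ X in (-81 : ℝ)..81, ev (pN d c m k) X / ev (pD d c m) X) +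
      4 * ∫ X in (0 : ℝ)..16, ev (gN d c m) X / ev (gD d c m) X) / 2) ≤
      volume (ball (0 : ℂ) 1 \ f '' ball 0 1) := by
  have c0 := sub_pos.2 h5
  have m0 : 0 < n₀ * n₁ := by linarith
  have ns : ∀ t ∈ Icc (0 : ℝ) 1, ∀ X, normSq (t * ph (vX X)) < n₀ * n₁ := fun t ht X => by
    have := (circ (η := vX X ^ 2) (by rw [norm_pow, vX_norm, one_pow])).2
    rw [ph, map_mul, map_div₀, normSq_eq_norm_sq (vX X), vX_norm, normSq_ofReal, one_pow, div_one]
    nlinarith [normSq_nonneg (1 + EE (vX X ^ 2)), mul_le_one₀ ht.2 ht.1 ht.2]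
  have pb : ph (vX 81) = (1.4996 : ℝ) * I := by
    rw [show vX 81 = -I by rw [vX, div_eq_iff (b_ne _)]; push_cast; linear_combination 81 * I_sq, ph,
      neg_sq, I_sq, div_neg, div_I, EE]
    push_cast; norm_num
  have pa : ph (vX (-81)) = (-1.4996 : ℝ) * I := by
    rw [show vX (-81) = I by rw [vX, div_eq_iff (b_ne _)]; push_cast; linear_combination 81 * I_sq, ph,
      I_sq, div_I, EE]
    push_cast; norm_num
  have rp : ∀ X ∈ Ioo (-81 : ℝ) 81, 0 < (ph (vX X)).re := fun X hX => ph_re (vX_norm X).le (by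
    rw [vX_re]; exact div_pos (by nlinarith [hX.1, hX.2]) (normSq_pos.2 (b_ne X)))
  have dn : ∀ t ∈ Icc (0 : ℝ) 1, ∀ X ∈ Icc (-81 : ℝ) 81, den (n₁ - n₀) (n₀ * n₁) (t * ph (vX X)) ≠ 0 :=
    fun t ht X hX h => by
    have r : 0 ≤ (ph (vX X)).re := by
      rcases hX.1.eq_or_lt with rfl | h1
      · simp [pa]
      rcases hX.2.eq_or_lt with rfl | h2
      · simp [pb]
      exact (rp X ⟨h1, h2⟩).le
    have n := ns t ht X
    have : ((n₁ : ℂ) - t * ph (vX X)) * (t * ph (vX X) + n₀) = 0 := by rw [← h, den]; push_cast; ring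
    rcases mul_eq_zero.1 this with h' | h'
    · rw [← sub_eq_zero.1 h', normSq_ofReal] at n; nlinarith
    · have := congrArg re h'
      simp at this; nlinarith [mul_nonneg ht.1 r]
  have rt : ∀ t ∈ Ioo (0 : ℝ) 1, ∀ X ∈ Ioo (-81 : ℝ) 81, 0 < (t * ph (vX X)).re := fun t ht X hX => by
    rw [re_ofReal_mul]; exact mul_pos ht.1 (rp X hX)
  have := green (W := WW (n₁ - n₀) (n₀ * n₁)) (a := -81) (b := 81) (by norm_num) has_p cont_q
    (fun t ht X hX => by
      have := dn t ht X hX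
      unfold WW den at *
      fun_prop (disch := assumption))
    (fun x hx y hy h => by
      have e := W_inj c0 m0 (rt _ hx.1 _ hx.2) (rt _ hy.1 _ hy.2)
        (dn _ (Ioo_subset_Icc_self hx.1) _ (Ioo_subset_Icc_self hx.2))
        (dn _ (Ioo_subset_Icc_self hy.1) _ (Ioo_subset_Icc_self hy.2)) h
      have x0 : (x.re : ℂ) ≠ 0 := ofReal_ne_zero.2 hx.1.1.ne'
      have e2 := vX_inj ((key (vX_norm _).le (vX_norm _).le (vX_ne x.im) (vX_ne y.im)
        (div_pos hy.1.1 hx.1.1) (by push_cast; field_simp; linear_combination e)).resolve_right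
        (by simp [vX_norm]))
      rw [e2] at e
      exact Complex.ext (ofReal_injective (mul_right_cancel₀ (fun h' => by simpa [h'] using rp _ hy.2) e)) e2)
    (T := ball (0 : ℂ) 1 \ f '' ball 0 1) ((measure_mono sdiff_subset).trans_lt measure_ball_lt_top).ne
    (fun t ht X hX => by
      have d1 := dn _ (Ioo_subset_Icc_self ht) _ (Ioo_subset_Icc_self hX)
      refine ⟨mem_ball_zero_iff.2 (W_lt c0 (rt t ht X hX) (ns t (Ioo_subset_Icc_self ht) X) d1), ?_⟩
      rintro ⟨z, hz, e⟩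
      obtain ⟨v, h1, h2, h3, h4⟩ := hf z hz
      have v0 : v ≠ 0 := fun h => by simp [h] at h2
      rcases key h1.le (vX_norm X).le v0 (vX_ne X) ht.1 (W_inj c0 m0 (ph_re h1.le h2) (rt t ht X hX) h3 d1
        (h4.symm.trans e)) with h | h
      · rw [h, vX_norm] at h1; exact lt_irrefl _ h1
      · rw [vX_norm, Real.log_one, sub_zero] at h
        exact h.not_gt (mul_pos_of_neg_of_neg (Real.log_neg ht.1 ht.2) (Real.log_neg (norm_pos_iff.2 v0) h1)))
  refine le_trans (le_of_eq ?_) this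
  rw [sub_eq_add_neg (∫ _ in _.._, _), ← intervalIntegral.integral_neg, ← intervalIntegral.integral_const_mul]
  congr 3
  · refine intervalIntegral.integral_congr fun X hX => ?_
    have := dn 1 (by simp) X (by rwa [uIcc_of_le (by norm_num)] at hX)
    rw [ofReal_one, one_mul] at this
    simp only [(hasW this).deriv]
    rw [hc, hm] at this ⊢
    exact (F_eq hd.ne' hk X this).symm
  · have e := intervalIntegral.integral_comp_div (a := 0) (b := 16) (c := 16) (fun t : ℝ => c / d * 1.4996 *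
      (m / d - (t * 1.4996) ^ 2) / ((m / d + (t * 1.4996) ^ 2) ^ 2 + (c / d) ^ 2 * (t * 1.4996) ^ 2)) (by norm_num)
    simp only [g_eq hd (by rwa [hm, div_pos_iff_of_pos_right hd] at m0), intervalIntegral.integral_const_mul,
      zero_div, div_self (show (16 : ℝ) ≠ 0 by norm_num), smul_eq_mul] at e
    rw [mul_left_cancel₀ (by norm_num) e, ← intervalIntegral.integral_const_mul]
    refine intervalIntegral.integral_congr fun t ht => ?_
    rw [uIcc_of_le zero_le_one] at ht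
    simp only [(hasW (dn t ht 81 (by norm_num))).deriv, (hasW (dn t ht (-81) (by norm_num))).deriv]
    rw [pa, pb, ← mul_assoc (t : ℂ), ← mul_assoc (t : ℂ), ← ofReal_mul, ← ofReal_mul, side m0, side m0, hc, hm]
    ring

end Pool.Agent.Lib.MP_9b2593_an.Low
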