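import Pool.Agent.Lib.MP_9b2593_an.LowF

/-!
A normalised univalent function that omits a large part of the unit disc.
-/

namespace Pool.Agent.Lib.MP_9b2593_an.OldLower

open Pool.Agent.Lib.MP_9b2593_an.Low

theorem result : ∃ f : ℂ → ℂ, DifferentiableOn ℂ f (Metric.ball 0 1) ∧ Set.InjOn f (Metric.ball 0 1) ∧
    f 0 = 0 ∧ deriv f 0 = 1 ∧ ENNReal.ofReal (0.23857 * Real.pi) ≤
      MeasureTheory.volume (Metric.ball (0 : ℂ) 1 \ f '' Metric.ball 0 1) := by
  obtain ⟨f, h1, h2, h3, h4, h5⟩ := exists_map (v₀ := 0.787) (v₁ := 0.289795)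
    (n₀ := 2840673872429505524973588015228115299727 / 3935000000000000000000000000000000000000)
    (n₁ := 19423637108748697560015780902920514969700513852515657272114516747327 /
      5935001600000000000000000000000000000000000000000000000000000000000)
    (by norm_num) (by norm_num) (by norm_num) (by norm_num [ph, EE]) (by norm_num [ph, EE]) (by norm_num)
    (by norm_num) (a := _) rfl rfl (sub_add_cancel _ _) (by norm_num) (by norm_num)
    (by norm_num [WD, den, NN, EE])
  refine ⟨f, h1, h2, h3, h4, le_trans (ENNReal.ofReal_le_ofReal ?_) (area (d := dd) (c := cN) (m := mN)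
    (k := kN) (by norm_num) (by norm_num) (by norm_num) (by norm_num [dd]) rfl
    (by norm_num [dd, cN, kN]) (by norm_num [dd, mN]) h5)⟩
  have a := ck1
  simp only [frL_eq] at a
  have b := (chk_le _ _ _ _ _ _ _ _ _ a).2
  have c := (chk_le _ _ _ _ _ _ _ _ _ ck2).2
  simp only [mul_div_assoc, intervalIntegral.integral_const_mul] at b c
  norm_num at b c ⊢
  linarith [Real.pi_lt_d6]

end Pool.Agent.Lib.MP_9b2593_an.OldLower
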