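import Pool.Agent.Lib.MP_9b2593_an.Area
import Pool.Agent.Lib.MP_9b2593_an.DP

-- part Pool.Agent.Lib.MP_9b2593_an.Energy
section

/-!
The energy inequality.
-/

namespace Pool.Agent.Lib.MP_9b2593_an

open MeasureTheory Set Filter Topology Metric Complex

noncomputable def cost (τ : ℝ → ℝ) (M : ℝ → ℝ → ℝ) (lam s : ℝ) : ENNReal :=
  2 * (∫⁻ t in Icc 0 (τ s), ENNReal.ofReal (M s t)) +
    (Iio 0).indicator (fun s => ENNReal.ofReal (lam * (2 * (Real.pi - τ s) * Real.exp (2 * s)))) s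

namespace Hyp0

variable {f L : ℂ → ℂ} (H : Hyp0 f L)
include H

theorem exists_min (hne : ¬ ball (0 : ℂ) 1 ⊆ f '' ball 0 1) :
    ∃ c ≤ 0, ∀ s ≤ 0, cm (f '' ball 0 1) c ≤ cm (f '' ball 0 1) s := by
  have hneg : ∀ n : ℕ, -(1 / ((n : ℝ) + 1)) < 0 := fun n => neg_lt_zero.2 (by positivity)
  have hsub : ∀ σ < 0, f '' ball 0 (Real.exp σ) ⊆ f '' ball 0 1 := fun σ h =>
    image_mono (ball_subset_ball (Real.exp_lt_one_iff.2 h).le)
  have lsc : LowerSemicontinuous (cm (f '' ball 0 1)) := fun s y hy => by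
    have t1 := tendsto_measure_iUnion_atTop (μ := volume)
      (s := fun n : ℕ => {φ ∈ JJ | exp (pt s φ) ∈ f '' ball 0 (Real.exp (-(1 / ((n : ℝ) + 1))))})
      (fun a b hab φ hφ => ⟨hφ.1, image_mono (ball_subset_ball (Real.exp_le_exp.2
        (neg_le_neg (Nat.one_div_le_one_div hab)))) hφ.2⟩)
    have e : ⋃ n : ℕ, {φ ∈ JJ | exp (pt s φ) ∈ f '' ball 0 (Real.exp (-(1 / ((n : ℝ) + 1))))} =
        {φ ∈ JJ | exp (pt s φ) ∈ f '' ball 0 1} := by
      refine Subset.antisymm (iUnion_subset fun n φ hφ => ⟨hφ.1, hsub _ (hneg n) hφ.2⟩) ?_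
      rintro φ ⟨h1, z, hz, e⟩
      have t2 : Tendsto (fun n : ℕ => Real.exp (-(1 / ((n : ℝ) + 1)))) atTop (𝓝 1) := by
        simpa using! (Real.continuous_exp.tendsto _).comp
          (tendsto_one_div_add_atTop_nhds_zero_nat (𝕜 := ℝ)).neg
      obtain ⟨n, hn⟩ := (t2.eventually (lt_mem_nhds (mem_ball_zero_iff.1 hz))).exists
      exact mem_iUnion.2 ⟨n, h1, z, mem_ball_zero_iff.2 hn, e⟩
    rw [e] at t1
    have t3 := (((ENNReal.tendsto_toReal (sep_ne_top _)).comp t1).div_const 2).eventually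
      (lt_mem_nhds hy)
    obtain ⟨n, hn⟩ := t3.exists
    filter_upwards [(H.curve hne (hneg n)).1.continuousAt.eventually (lt_mem_nhds hn)] with x hx
    exact hx.trans_le (cm_mono (hsub _ (hneg n)) x)
  obtain ⟨-, p, -, -, -, -, hb, -⟩ := H.curve hne (σ := -1) (by norm_num)
  obtain ⟨c, hc, hc'⟩ := LowerSemicontinuousOn.exists_isMinOn (s := Icc (min (ZZ L (pt (-1) p)).re 0) 0)
    ⟨0, min_le_right _ _, le_rfl⟩ isCompact_Icc (lsc.lowerSemicontinuousOn _)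
  refine ⟨c, hc.2, fun s hs => ?_⟩
  rcases le_or_gt (min (ZZ L (pt (-1) p)).re 0) s with h | h
  · exact hc' ⟨h, hs⟩
  · rw [cm_eq_pi (s := s) fun w hw => hsub _ (by norm_num) (hb (by
      simpa [hw] using h.trans_le (min_le_left _ _)))]
    exact cm_le_pi _ _

theorem energy (hne : ¬ ball (0 : ℂ) 1 ⊆ f '' ball 0 1) {M : ℝ → ℝ → ℝ}
    (hM : Measurable fun p : ℝ × ℝ => M p.1 p.2)
    (hl : ∀ σ < 0, ENNReal.ofReal (2 * Real.pi) ≤ ∫⁻ ψ in JJ, ENNReal.ofReal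
      (M (ZZ L (pt σ ψ)).re (cm (f '' ball 0 (Real.exp σ)) (ZZ L (pt σ ψ)).re) *
        ‖ZD L (pt σ ψ)‖ ^ 2)) {lam s₀ s₁ : ℝ} (hlam : 0 ≤ lam) (h0 : s₀ < 0) (h1 : 0 ≤ s₁)
    (hw : lam * Real.exp (2 * s₀) ≤ 1) (hM0 : ∀ s < s₀, ∀ t, M s t ≤ 1)
    (hM1 : ∀ s, s₁ < s → ∀ t, M s t ≤ 0) :
    ENNReal.ofReal (2 * Real.pi * (-s₀)) +
      ENNReal.ofReal lam * volume (ball (0 : ℂ) 1 \ f '' ball 0 1) ≤
      ∫⁻ s in Ioc s₀ s₁, cost (cm (f '' ball 0 1)) M lam s := by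
  set τ := cm (f '' ball 0 1) with hτ
  refine ENNReal.le_of_forall_pos_le_add fun ε hε _ => ?_
  obtain ⟨δ, hδ, hδ'⟩ := Metric.continuousAt_iff.1 (H.anL (mem_ball_self one_pos)).continuousAt
    (ε / (2 * Real.pi)) (by positivity)
  set σ := min (s₀ - ε / (2 * Real.pi)) (Real.log (δ / 2)) with hσ
  have hε' : 0 < ε / (2 * Real.pi) := by positivity
  have σ0 : σ < 0 := (min_le_left _ _).trans_lt (by linarith)
  obtain ⟨-, p, -, -, -, -, hb, -⟩ := H.curve hne σ0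
  set x := (ZZ L (pt σ p)).re with hx
  have hxσ : |x - σ| ≤ ε / (2 * Real.pi) := by
    have : dist (exp (pt σ p)) 0 < δ := by
      rw [dist_zero_right, norm_exp_pt]
      refine (Real.exp_le_exp.2 (min_le_right _ _)).trans_lt ?_
      rw [Real.exp_log (by positivity)]; linarith
    have := hδ' this
    rw [H.L0, dist_zero_right] at this
    simpa [hx, ZZ] using (Complex.abs_re_le_norm _).trans this.le
  have hx0 : x ≤ s₀ := by linarith [(abs_le.1 hxσ).2, min_le_left (s₀ - ε / (2 * Real.pi)) (Real.log (δ / 2))]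
  have a1 := H.energy0 hne hM hl σ0 hb
  have a2 : ENNReal.ofReal lam * volume (ball (0 : ℂ) 1 \ f '' ball 0 1) ≤ ∫⁻ s in Ici x,
      (Iio 0).indicator (fun s => ENNReal.ofReal (lam * (2 * (Real.pi - τ s) * Real.exp (2 * s)))) s := by
    refine (mul_le_mul_right H.area_le _).trans ?_
    rw [← lintegral_const_mul' _ _ ENNReal.ofReal_ne_top, ← lintegral_indicator measurableSet_Iio,
      ← lintegral_indicator measurableSet_Ici]
    refine lintegral_mono fun s => ?_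
    simp only [← ENNReal.ofReal_mul hlam]
    by_cases hs : s ∈ Ici x
    · rw [indicator_of_mem hs]
    · have : τ s = Real.pi := cm_eq_pi fun w hw => image_mono
        (ball_subset_ball (Real.exp_lt_one_iff.2 σ0).le) (hb (by simpa [hw] using hs))
      refine le_trans (indicator_le_self _ _ s) ?_
      simp [← hτ, this]
  have a3 := (add_le_add a1 a2).trans (le_lintegral_add _ _)
  have a4 : ∫⁻ s in Ici x, cost τ M lam s ≤ ENNReal.ofReal (2 * Real.pi * (s₀ - x)) +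
      ∫⁻ s in Ioc s₀ s₁, cost τ M lam s := by
    rw [← setLIntegral_congr (Ioc_ae_eq_Icc (a := s₀) (b := s₁)).symm]
    calc _ ≤ ∫⁻ s in Ico x s₀ ∪ (Icc s₀ s₁ ∪ Ioi s₁), cost τ M lam s :=
          lintegral_mono_set fun s hs => by
            rcases lt_or_ge s s₀ with h | h
            · exact Or.inl ⟨hs, h⟩
            · exact Or.inr ((le_or_gt s s₁).imp (fun h' => ⟨h, h'⟩) id)
      _ ≤ _ := (lintegral_union_le _ _ _).trans (add_le_add ?_ ((lintegral_union_le _ _ _).trans ?_))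
    · rw [ENNReal.ofReal_mul (by positivity), ← Real.volume_Ico, ← setLIntegral_const]
      refine setLIntegral_mono' measurableSet_Ico fun s hs => ?_
      have b1 : ∫⁻ t in Icc 0 (τ s), ENNReal.ofReal (M s t) ≤ ENNReal.ofReal (τ s) := by
        refine (lintegral_mono fun t => ENNReal.ofReal_le_one.2 (hM0 s hs.2 t)).trans ?_
        simp
      have b2 : lam * Real.exp (2 * s) ≤ 1 := le_trans (mul_le_mul_of_nonneg_left
        (Real.exp_le_exp.2 (by linarith [hs.2])) hlam) hw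
      have b3 : 0 ≤ τ s := cm_nonneg _ _
      have b4 : τ s ≤ Real.pi := cm_le_pi _ _
      refine (add_le_add (mul_le_mul_right b1 2) (indicator_le_self _ _ s)).trans ?_
      rw [← ENNReal.ofReal_ofNat, ← ENNReal.ofReal_mul (by norm_num),
        ← ENNReal.ofReal_add (by positivity) (by have := sub_nonneg.2 b4; positivity)]
      exact ENNReal.ofReal_le_ofReal (by nlinarith)
    · rw [setLIntegral_congr_fun (s := Ioi s₁) measurableSet_Ioi (g := fun _ => 0) fun s hs => ?_]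
      · simp
      · have : s ∉ Iio 0 := not_lt.2 (h1.trans (le_of_lt hs))
        simp [cost, this, ENNReal.ofReal_eq_zero.2 (hM1 s hs _)]
  refine (ENNReal.add_le_add_iff_left (a := ENNReal.ofReal (2 * Real.pi * (s₀ - x)))
    ENNReal.ofReal_ne_top).1 ?_
  have hp := Real.pi_pos
  calc _ = ENNReal.ofReal (2 * Real.pi * (s₀ - x) + 2 * Real.pi * (-s₀)) +
        ENNReal.ofReal lam * volume (ball (0 : ℂ) 1 \ f '' ball 0 1) := by
        rw [ENNReal.ofReal_add (by nlinarith) (by nlinarith), add_assoc]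
    _ ≤ ENNReal.ofReal (2 * Real.pi * (-σ)) + ε +
        ENNReal.ofReal lam * volume (ball (0 : ℂ) 1 \ f '' ball 0 1) := by
        gcongr
        rw [← ENNReal.ofReal_coe_nnreal, ← ENNReal.ofReal_add (by nlinarith) (by positivity)]
        refine ENNReal.ofReal_le_ofReal ?_
        have := (abs_le.1 hxσ).1
        rw [neg_le, le_div_iff₀ (by positivity)] at this
        linarith
    _ ≤ _ := by
        rw [add_right_comm, ← add_assoc]
        exact add_le_add_left (a3.trans a4) _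

end Hyp0

end Pool.Agent.Lib.MP_9b2593_an
end

-- part Pool.Agent.Lib.MP_9b2593_an.Cell
section

/-!
Bounds for the cost on one circle.
-/

namespace Pool.Agent.Lib.MP_9b2593_an

open MeasureTheory Set Filter Topology

theorem lint_split (x : ℕ → ℝ) (g : ℝ → ENNReal) (a n : ℕ) :
    ∫⁻ s in Ioc (x a) (x (a + n)), g s ≤
      ∑ k ∈ Finset.range n, ∫⁻ s in Ioo (x (a + k)) (x (a + k + 1)), g s := by
  induction n with
  | zero => simp
  | succ n ih =>
    rw [Finset.sum_range_succ, setLIntegral_congr (Ioo_ae_eq_Ioc (a := x (a + n)))]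
    exact (lintegral_mono_set (Ioc_subset_Ioc_union_Ioc (b := x (a + n)))).trans
      ((lintegral_union_le _ _ _).trans (add_le_add_left ih _))

theorem bern {a b P Q R : ℝ} (hab : a < b) {g : ℝ → ℝ} (h0 : ∀ x ∈ Ioo a b, 0 ≤ g x)
    (h : ∀ x ∈ Ioo a b, ∀ v, 0 ≤ v → v ≤ 1 → x = a + v * (b - a) →
      g x ≤ P * (1 - v) ^ 2 + 2 * Q * v * (1 - v) + R * v ^ 2) :
    ∫⁻ x in Ioo a b, ENNReal.ofReal (g x) ≤ ENNReal.ofReal ((b - a) * (P + Q + R) / 3) := by
  have hd : 0 < b - a := sub_pos.2 hab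
  set p : ℝ → ℝ := fun x => P * (1 - (x - a) / (b - a)) ^ 2 +
    2 * Q * ((x - a) / (b - a)) * (1 - (x - a) / (b - a)) + R * ((x - a) / (b - a)) ^ 2 with hp
  have hg : ∀ x ∈ Ioo a b, g x ≤ p x := fun x hx => h x hx _ (div_nonneg (by linarith [hx.1]) hd.le)
    ((div_le_one hd).2 (by linarith [hx.2])) (by field_simp; ring)
  have hc : Continuous p := by simp only [hp]; fun_prop
  refine (setLIntegral_mono' measurableSet_Ioo fun x hx => ENNReal.ofReal_le_ofReal (hg x hx)).trans ?_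
  rw [← ofReal_integral_eq_lintegral_ofReal (hc.integrableOn_Icc.mono_set Ioo_subset_Icc_self)
    ((ae_restrict_iff' measurableSet_Ioo).2 (ae_of_all _ fun x hx => (h0 x hx).trans (hg x hx))),
    ← integral_Ioc_eq_integral_Ioo, ← intervalIntegral.integral_of_le hab.le]
  have hF : ∀ x, HasDerivAt (fun x => (b - a) * (P * ((x - a) / (b - a)) +
      (Q - P) * ((x - a) / (b - a)) ^ 2 + (P - 2 * Q + R) / 3 * ((x - a) / (b - a)) ^ 3)) (p x) x := by
    intro x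
    have h1 := ((hasDerivAt_id x).sub_const a).div_const (b - a)
    refine ((((h1.const_mul P).add ((h1.pow 2).const_mul (Q - P))).add
      ((h1.pow 3).const_mul ((P - 2 * Q + R) / 3))).const_mul (b - a)).congr_deriv ?_
    have e : (b - a) * (1 / (b - a)) = 1 := by field_simp
    simp only [hp, id, Nat.cast_ofNat, Nat.add_one_sub_one, pow_one, show 3 - 1 = 2 from rfl]
    generalize (x - a) / (b - a) = v
    linear_combination (P + (Q - P) * 2 * v + (P - 2 * Q + R) * v ^ 2) * e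
  rw [intervalIntegral.integral_eq_sub_of_hasDerivAt (fun x _ => hF x) (hc.intervalIntegrable _ _)]
  refine le_of_eq (congrArg _ ?_)
  field_simp; ring

theorem lin_le {a b P R : ℝ} (hab : a < b) {g : ℝ → ENNReal} (hP : 0 ≤ P) (hR : 0 ≤ R)
    (h : ∀ x ∈ Ioo a b, ∀ v, 0 ≤ v → v ≤ 1 → x = a + v * (b - a) →
      g x ≤ ENNReal.ofReal ((1 - v) * P + v * R)) :
    ∫⁻ x in Ioo a b, g x ≤ ENNReal.ofReal ((b - a) / 2 * (P + R)) := by
  have hd : 0 < b - a := sub_pos.2 hab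
  have hv : ∀ x ∈ Ioo a b, 0 ≤ (x - a) / (b - a) ∧ (x - a) / (b - a) ≤ 1 := fun x hx =>
    ⟨div_nonneg (by linarith [hx.1]) hd.le, (div_le_one hd).2 (by linarith [hx.2])⟩
  refine (setLIntegral_mono' measurableSet_Ioo fun x hx =>
    h x hx _ (hv x hx).1 (hv x hx).2 (by field_simp; ring)).trans ?_
  refine (bern hab (P := P) (Q := (P + R) / 2) (R := R) (fun x hx => ?_)
    fun x hx v _ _ e => le_of_eq ?_).trans (le_of_eq (congrArg _ (by ring)))
  · have := (hv x hx).1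
    have := sub_nonneg.2 (hv x hx).2
    positivity
  · rw [e]; field_simp; ring

/-- radial slope of the stream function on the row `k` -/
noncomputable def aa (t : ℕ → ℝ) (q : ℕ → ℝ) (k : ℕ) : ℝ :=
  ∑ i ∈ Finset.range k, q i * (t (i + 1) - t i)

noncomputable def ful (t a b : ℕ → ℝ) (k : ℕ) : ℝ :=
  2 * (t (k + 1) - t k) * ((a k ^ 2 + a k * a (k + 1) + a (k + 1) ^ 2) / 3 + b k ^ 2)

noncomputable def fre (t a b : ℕ → ℝ) (W : ℝ) (k : ℕ) : ℝ :=
  (t (k + 1) - t k) * (max W (a k ^ 2 + b k ^ 2) + max W (a (k + 1) ^ 2 + b k ^ 2))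

section
variable {I : ℕ → Set ℝ} {t : ℕ → ℝ} {N n : ℕ} {F : Fld} {s : ℝ} (ht : Monotone t) (hn : n ≤ N)
  (hact : ∀ k < N, s ∉ I k ↔ k < n)
include ht hn hact

omit ht in
theorem AA_eq (x : ℝ) : AA I t N F s x = ∑ k ∈ Finset.range n, F.q k s * clp t k x := by
  unfold AA
  rw [← Finset.sum_subset (Finset.range_subset_range.2 hn) fun k hk hk' => ?_]
  · refine Finset.sum_congr rfl fun k hk => ?_
    have := Finset.mem_range.1 hk
    rw [hh, if_neg ((hact k (by omega)).2 this)]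
  · rw [Finset.mem_range] at hk hk'
    rw [hh, if_pos (not_not.1 fun h => hk' ((hact k hk).1 h)), mul_zero]

theorem MM_cell {k : ℕ} (hk : k < n) {x : ℝ} (hx : x ∈ Ioo (t k) (t (k + 1))) :
    MM I t N F s x = (aa t (fun i => F.q i s) k + F.q k s * (x - t k)) ^ 2 + F.b k s ^ 2 := by
  rw [MM, AA_eq hn hact, BB, Finset.sum_eq_single (s := Finset.range N) k, if_pos ⟨(hact k (by omega)).2 hk, hx⟩,
    sq_abs, ← Finset.sum_subset (Finset.range_subset_range.2 (Nat.succ_le_of_lt hk)),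
    Finset.sum_range_succ, clp_mid hx.1.le hx.2.le, aa]
  · congr 3
    exact Finset.sum_congr rfl fun i hi => by
      rw [clp_high ((ht (Finset.mem_range.1 hi)).trans hx.1.le)]
  · intro i _ hi
    rw [clp_low (ht (Nat.le_succ i)) (hx.2.le.trans (ht (by simpa using hi))), mul_zero]
  · intro i _ hi
    refine if_neg fun h => ?_
    rcases lt_or_gt_of_ne hi with h' | h'
    · exact absurd (h.2.2.trans_le (ht h')) (not_lt.2 hx.1.le)
    · exact absurd (hx.2.trans_le (ht h')) (not_lt.2 h.2.1.le)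
  · intro h; exact absurd (Finset.mem_range.2 (by omega)) h

theorem MM_top {x : ℝ} (hx : t n ≤ x) : MM I t N F s x = aa t (fun i => F.q i s) n ^ 2 := by
  rw [MM, AA_eq hn hact, BB, Finset.sum_eq_zero (s := Finset.range N), aa]
  · simp only [ne_eq, OfNat.ofNat_ne_zero, not_false_eq_true, zero_pow, add_zero]
    congr 1
    exact Finset.sum_congr rfl fun i hi => by
      rw [clp_high ((ht (Finset.mem_range.1 hi)).trans hx)]
  · intro i hi
    refine if_neg fun h => ?_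
    exact absurd (h.2.2.trans_le (ht ((hact i (Finset.mem_range.1 hi)).1 h.1))) (not_lt.2 hx)

theorem cost_le (h0 : t 0 = 0) (hN : t n ≤ Real.pi) (hs : ∀ k < N, t k < t (k + 1)) {τ W : ℝ}
    (hτ : τ ∈ Icc 0 Real.pi) (hW : 0 ≤ W) {m : ℕ} (hm : m ≤ n) (hm' : t m ≤ τ ∨ W = 0) :
    2 * (∫⁻ x in Icc 0 τ, ENNReal.ofReal (MM I t N F s x)) +
      ENNReal.ofReal (2 * (Real.pi - τ) * W) ≤
      ENNReal.ofReal (∑ k ∈ Finset.range m, ful t (aa t fun i => F.q i s) (fun i => F.b i s) k +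
        ∑ k ∈ Finset.range (n - m), fre t (aa t fun i => F.q i s) (fun i => F.b i s) W (m + k) +
        2 * (Real.pi - t n) * max W (aa t (fun i => F.q i s) n ^ 2)) := by
  set a := aa t fun i => F.q i s with ha
  set g : ℝ → ℝ := fun x => 2 * if x ≤ τ then MM I t N F s x else W with hg
  have M0 : ∀ x, 0 ≤ MM I t N F s x := fun x => by unfold MM; positivity
  have g0 : ∀ x, 0 ≤ g x := fun x => by
    simp only [hg]; split_ifs
    · linarith [M0 x]
    · linarith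
  have g1 : ∀ x, g x ≤ 2 * max W (MM I t N F s x) := fun x => by
    simp only [hg]; split_ifs <;> simp
  have as : ∀ k, a (k + 1) = a k + F.q k s * (t (k + 1) - t k) := fun k => by
    simp only [ha, aa, Finset.sum_range_succ]
  have f0 : ∀ k, 0 ≤ ful t a (fun i => F.b i s) k := fun k => by
    have := sub_nonneg.2 (ht (Nat.le_succ k))
    have : 0 ≤ a k ^ 2 + a k * a (k + 1) + a (k + 1) ^ 2 := by
      nlinarith [sq_nonneg (a k + a (k + 1)), sq_nonneg (a k), sq_nonneg (a (k + 1))]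
    unfold ful; positivity
  have f1 : ∀ k, 0 ≤ fre t a (fun i => F.b i s) W k := fun k => by
    have := sub_nonneg.2 (ht (Nat.le_succ k))
    unfold fre; positivity
  have t0 : ∀ k, 0 ≤ t k := fun k => h0 ▸ ht (Nat.zero_le k)
  calc _ = (∫⁻ x in Ioc 0 τ, ENNReal.ofReal (g x)) + ∫⁻ x in Ioc τ Real.pi, ENNReal.ofReal (g x) := by
        congr 1
        · rw [← lintegral_const_mul' _ _ (by norm_num), setLIntegral_congr Ioc_ae_eq_Icc]
          refine setLIntegral_congr_fun measurableSet_Icc fun x hx => ?_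
          simp only [hg, if_pos hx.2]
          rw [ENNReal.ofReal_mul (by norm_num), ENNReal.ofReal_ofNat]
        · rw [setLIntegral_congr_fun measurableSet_Ioc (g := fun _ => ENNReal.ofReal (2 * W))
            fun x hx => by simp only [hg, if_neg (not_le.2 hx.1)], setLIntegral_const,
            Real.volume_Ioc, ← ENNReal.ofReal_mul (by positivity)]
          congr 1; ring
    _ = ∫⁻ x in Ioc 0 Real.pi, ENNReal.ofReal (g x) := by
        rw [← lintegral_union measurableSet_Ioc (Ioc_disjoint_Ioc_of_le le_rfl),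
          Ioc_union_Ioc_eq_Ioc hτ.1 hτ.2]
    _ ≤ (∫⁻ x in Ioc (t 0) (t (0 + m)), ENNReal.ofReal (g x)) +
        (∫⁻ x in Ioc (t m) (t (m + (n - m))), ENNReal.ofReal (g x)) +
        ∫⁻ x in Ioc (t n) Real.pi, ENNReal.ofReal (g x) := by
        rw [h0, zero_add, Nat.add_sub_cancel' hm]
        refine (lintegral_mono_set (Ioc_subset_Ioc_union_Ioc (b := t n))).trans
          ((lintegral_union_le _ _ _).trans (add_le_add_left ?_ _))
        exact (lintegral_mono_set (Ioc_subset_Ioc_union_Ioc (b := t m))).trans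
          (lintegral_union_le _ _ _)
    _ ≤ _ := by
        rw [ENNReal.ofReal_add (add_nonneg (Finset.sum_nonneg fun k _ => f0 k)
          (Finset.sum_nonneg fun k _ => f1 _)) (by have := sub_nonneg.2 hN; positivity),
          ENNReal.ofReal_add (Finset.sum_nonneg fun k _ => f0 k) (Finset.sum_nonneg fun k _ => f1 _),
          ENNReal.ofReal_sum_of_nonneg fun k _ => f0 k, ENNReal.ofReal_sum_of_nonneg fun k _ => f1 _]
        refine add_le_add (add_le_add ((lint_split t _ 0 m).trans (Finset.sum_le_sum fun k hk => ?_))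
          ((lint_split t _ m (n - m)).trans (Finset.sum_le_sum fun k hk => ?_))) ?_
        · have hk := Finset.mem_range.1 hk
          rw [zero_add]
          refine (bern (hs k (by omega)) (P := 2 * (a k ^ 2 + F.b k s ^ 2))
            (Q := 2 * (a k * a (k + 1) + F.b k s ^ 2)) (R := 2 * (a (k + 1) ^ 2 + F.b k s ^ 2))
            (fun x _ => g0 x) fun x hx v _ _ e => ?_).trans (le_of_eq (congrArg _ (by unfold ful; ring)))
          have : g x ≤ 2 * MM I t N F s x := by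
            simp only [hg]; split_ifs with h
            · exact le_rfl
            · rcases hm' with h' | h'
              · exact absurd (hx.2.le.trans ((ht hk).trans h')) h
              · rw [h']; linarith [M0 x]
          refine this.trans (le_of_eq ?_)
          rw [MM_cell ht hn hact (by omega) hx, as, e, ← ha]; ring
        · have hk := Finset.mem_range.1 hk
          refine (lin_le (hs (m + k) (by omega)) (P := 2 * max W (a (m + k) ^ 2 + F.b (m + k) s ^ 2))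
            (R := 2 * max W (a (m + k + 1) ^ 2 + F.b (m + k) s ^ 2)) (by positivity) (by positivity)
            fun x hx v v0 v1 e => ENNReal.ofReal_le_ofReal ((g1 x).trans ?_)).trans
            (le_of_eq (congrArg _ (by unfold fre; ring)))
          have e' : a (m + k) + F.q (m + k) s * (x - t (m + k)) =
              (1 - v) * a (m + k) + v * a (m + k + 1) := by rw [as, e]; ring
          rw [MM_cell ht hn hact (by omega) hx, ← ha, e']
          have b1 := le_max_left W (a (m + k) ^ 2 + F.b (m + k) s ^ 2)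
          have b2 := le_max_right W (a (m + k) ^ 2 + F.b (m + k) s ^ 2)
          have b3 := le_max_left W (a (m + k + 1) ^ 2 + F.b (m + k) s ^ 2)
          have b4 := le_max_right W (a (m + k + 1) ^ 2 + F.b (m + k) s ^ 2)
          have v2 := sub_nonneg.2 v1
          have := max_le (a := W) (c := (1 - v) * max W (a (m + k) ^ 2 + F.b (m + k) s ^ 2) +
            v * max W (a (m + k + 1) ^ 2 + F.b (m + k) s ^ 2))
            (b := ((1 - v) * a (m + k) + v * a (m + k + 1)) ^ 2 + F.b (m + k) s ^ 2) (by nlinarith)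
            (by nlinarith [mul_nonneg (mul_nonneg v0 v2) (sq_nonneg (a (m + k) - a (m + k + 1)))])
          linarith
        · refine (setLIntegral_mono' measurableSet_Ioc (g := fun _ =>
            ENNReal.ofReal (2 * max W (a n ^ 2))) fun x hx => ENNReal.ofReal_le_ofReal ?_).trans ?_
          · rw [ha, ← MM_top (F := F) ht hn hact hx.1.le]; exact g1 x
          · rw [setLIntegral_const, Real.volume_Ioc, ← ENNReal.ofReal_mul (by positivity)]
            exact le_of_eq (congrArg _ (by ring))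

end

end Pool.Agent.Lib.MP_9b2593_an
end

-- part Pool.Agent.Lib.MP_9b2593_an.Mesh
section

/-!
Stream functions which are piecewise linear in the radial variable.
-/

namespace Pool.Agent.Lib.MP_9b2593_an

open MeasureTheory Set Filter Topology

noncomputable def gr (y : ℕ → ℝ) (v : ℕ → ℕ → ℝ) (j k : ℕ) : ℝ :=
  (v (j + 1) k - v j k) / (y (j + 1) - y j)

noncomputable def fld (y : ℕ → ℝ) (v : ℕ → ℕ → ℝ) (M : ℕ) : Fld :=
  ⟨fun k s => v 0 k + ∑ j ∈ Finset.range M, gr y v j k * clp y j s,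
    fun k s => ∑ j ∈ Finset.range M, (Ico (y j) (y (j + 1))).indicator (fun _ => gr y v j k) s⟩

variable {y : ℕ → ℝ} {v : ℕ → ℕ → ℝ} {M : ℕ} (hy : Monotone y)
include hy

theorem fld_ok {N : ℕ} (hv : ∀ j k, N ≤ k → v j k = 0) : (fld y v M).Ok := by
  have m : ∀ j, y j ≤ y (j + 1) := fun j => hy (Nat.le_succ j)
  refine ⟨fun k => continuous_const.add (continuous_finsetSum _ fun j _ =>
    continuous_const.mul (cont_clp y j)), fun k => ?_, ?_, fun k x => ?_⟩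
  · simp only [fld]
    exact Finset.measurable_sum _ fun j _ => measurable_const.indicator measurableSet_Ico
  · set C : ℕ → ℝ := fun k => |v 0 k| + ∑ j ∈ Finset.range M, |gr y v j k| * (1 + (y (j + 1) - y j))
      with hC
    have C0 : ∀ k, 0 ≤ C k := fun k => add_nonneg (abs_nonneg _) (Finset.sum_nonneg fun j _ =>
      mul_nonneg (abs_nonneg _) (by linarith [m j]))
    have C1 : ∀ k, C k ≤ ∑ k ∈ Finset.range N, C k := fun k => by
      rcases lt_or_ge k N with h | h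
      · exact Finset.single_le_sum (fun k _ => C0 k) (Finset.mem_range.2 h)
      · refine le_trans (le_of_eq ?_) (Finset.sum_nonneg fun k _ => C0 k)
        simp [hC, gr, hv _ k h]
    refine ⟨_, fun k s => ⟨le_trans ?_ (C1 k), le_trans ?_ (C1 k)⟩⟩
    · simp only [fld, hC]
      refine (Finset.abs_sum_le_sum_abs _ _).trans (le_add_of_nonneg_of_le (abs_nonneg (v 0 k))
        (Finset.sum_le_sum fun j _ => ?_))
      refine le_trans ?_ (le_mul_of_one_le_right (abs_nonneg _) (by linarith [m j]))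
      rw [indicator_apply]; split_ifs <;> simp
    · simp only [fld, hC]
      refine (abs_add_le _ _).trans (add_le_add_right ((Finset.abs_sum_le_sum_abs _ _).trans
        (Finset.sum_le_sum fun j _ => ?_)) _)
      rw [abs_mul, abs_of_nonneg (clp_mem (m j) s).1]
      exact mul_le_mul_of_nonneg_left (by linarith [(clp_mem (m j) s).2]) (abs_nonneg _)
  · have : ∀ j ∈ Finset.range M, ∀ᶠ z in 𝓝[>] x, gr y v j k * clp y j z = gr y v j k * clp y j x +
        (Ico (y j) (y (j + 1))).indicator (fun _ => gr y v j k) x * (z - x) ∧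
        (Ico (y j) (y (j + 1))).indicator (fun _ => gr y v j k) z =
        (Ico (y j) (y (j + 1))).indicator (fun _ => gr y v j k) x := fun j _ => by
      rcases lt_or_ge x (y j) with h | h
      · filter_upwards [Ioo_mem_nhdsGT h] with z hz
        rw [clp_low (m j) h.le, clp_low (m j) hz.2.le, indicator_of_notMem fun h' => h.not_ge h'.1,
          indicator_of_notMem fun h' => hz.2.not_ge h'.1]
        simp
      rcases lt_or_ge x (y (j + 1)) with h' | h'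
      · filter_upwards [Ioo_mem_nhdsGT h'] with z hz
        rw [clp_mid h h'.le, clp_mid (h.trans hz.1.le) hz.2.le, indicator_of_mem (mem_Ico.2 ⟨h, h'⟩),
          indicator_of_mem (mem_Ico.2 ⟨h.trans hz.1.le, hz.2⟩)]
        exact ⟨by ring, rfl⟩
      · filter_upwards [self_mem_nhdsWithin] with z hz
        rw [clp_high h', clp_high (h'.trans (le_of_lt hz)), indicator_of_notMem fun a => a.2.not_ge h',
          indicator_of_notMem fun a => a.2.not_ge (h'.trans (le_of_lt hz))]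
        simp
    filter_upwards [(eventually_all_finset _).2 this] with z hz
    refine ⟨?_, Finset.sum_congr rfl fun j hj => (hz j hj).2⟩
    simp only [fld]
    rw [Finset.sum_congr rfl fun j hj => (hz j hj).1, Finset.sum_add_distrib, Finset.sum_mul, add_assoc]

theorem b_left {s : ℝ} (h : s ≤ y 0) (k : ℕ) : (fld y v M).b k s = v 0 k := by
  simp only [fld]
  rw [Finset.sum_eq_zero fun j _ => by
    rw [clp_low (hy (Nat.le_succ j)) (h.trans (hy (Nat.zero_le j))), mul_zero], add_zero]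

theorem q_left {s : ℝ} (h : s < y 0) (k : ℕ) : (fld y v M).q k s = 0 := by
  simp only [fld]
  exact Finset.sum_eq_zero fun j _ => indicator_of_notMem
    (fun a => h.not_ge ((hy (Nat.zero_le j)).trans a.1)) _

theorem q_right {s : ℝ} (h : y M ≤ s) (k : ℕ) : (fld y v M).q k s = 0 := by
  simp only [fld]
  exact Finset.sum_eq_zero fun _ hj => indicator_of_notMem
    (fun a => a.2.not_ge ((hy (Finset.mem_range.1 hj)).trans h)) _

theorem q_mid {s : ℝ} {j : ℕ} (hj : j < M) (h : s ∈ Ico (y j) (y (j + 1))) (k : ℕ) :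
    (fld y v M).q k s = gr y v j k := by
  simp only [fld]
  rw [Finset.sum_eq_single_of_mem j (Finset.mem_range.2 hj) fun i _ hi => indicator_of_notMem
    (fun a => ?_) _, indicator_of_mem h]
  rcases lt_or_gt_of_ne hi with h' | h'
  · exact a.2.not_ge ((hy h').trans h.1)
  · exact h.2.not_ge ((hy h').trans a.1)

variable (hs : ∀ j < M, y j < y (j + 1))
include hs

theorem tele {s : ℝ} {j : ℕ} (hj : j ≤ M) (h : y j ≤ s) (k : ℕ) :
    v 0 k + ∑ i ∈ Finset.range j, gr y v i k * clp y i s = v j k := by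
  induction j with
  | zero => simp
  | succ j ih =>
    rw [Finset.sum_range_succ, ← add_assoc, ih (by omega) ((hy (Nat.le_succ j)).trans h), clp_high h,
      gr, div_mul_cancel₀ _ (sub_pos.2 (hs j hj)).ne']
    ring

theorem b_right {s : ℝ} (h : y M ≤ s) (k : ℕ) : (fld y v M).b k s = v M k := tele hy hs le_rfl h k

theorem b_mid {s : ℝ} {j : ℕ} (hj : j < M) (h : s ∈ Icc (y j) (y (j + 1))) (k : ℕ) :
    (fld y v M).b k s = v j k + gr y v j k * (s - y j) := by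
  simp only [fld]
  rw [← Finset.sum_subset (Finset.range_subset_range.2 (Nat.succ_le_of_lt hj)) fun i _ hi => by
    rw [clp_low (hy (Nat.le_succ i)) (h.2.trans (hy (by simpa using hi))), mul_zero],
    Finset.sum_range_succ, ← add_assoc, tele hy hs hj.le h.1, clp_mid h.1 h.2]

end Pool.Agent.Lib.MP_9b2593_an
end

-- part Pool.Agent.Lib.MP_9b2593_an.Bound
section

/-!
From the integers of the checker to bounds for the cost.
-/

namespace Pool.Agent.Lib.MP_9b2593_an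

open MeasureTheory Set Filter Topology Real

noncomputable def yy (Y : ℕ) : ℝ := π * (Y - 6144) / 4096

noncomputable def tv (t : ℕ) : ℝ := π * t / 4096

theorem yy_le {a b : ℕ} : yy a ≤ yy b ↔ a ≤ b := by
  rw [yy, yy, div_le_div_iff_of_pos_right (by norm_num), mul_le_mul_iff_right₀ pi_pos,
    sub_le_sub_iff_right, Nat.cast_le]

theorem tv_le {a b : ℕ} : tv a ≤ tv b ↔ a ≤ b := by
  rw [tv, tv, div_le_div_iff_of_pos_right (by norm_num), mul_le_mul_iff_right₀ pi_pos, Nat.cast_le]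

theorem tv_sub {a b : ℕ} (h : a ≤ b) : tv b - tv a = π / 4096 * ((b - a : ℕ) : ℝ) := by
  rw [Nat.cast_sub h, tv, tv]; ring

theorem ad_cast (a b : ℕ) : (ad a b : ℝ) = |(a : ℝ) - b| := by
  show ((a - b + (b - a) : ℕ) : ℝ) = _
  rcases le_total a b with h | h
  · rw [Nat.sub_eq_zero_of_le h, zero_add, Nat.cast_sub h, abs_sub_comm,
      abs_of_nonneg (sub_nonneg.2 (Nat.cast_le.2 h))]
  · rw [Nat.sub_eq_zero_of_le h, add_zero, Nat.cast_sub h, abs_of_nonneg (sub_nonneg.2 (Nat.cast_le.2 h))]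

theorem le_div_succ (a : ℕ) {b : ℕ} (hb : 0 < b) : (a : ℝ) ≤ b * ((a / b + 1 : ℕ) : ℝ) := by
  exact_mod_cast (Nat.lt_mul_div_succ a hb).le

theorem tay_succ (y n i a s : ℕ) : tay y (n + 1) i a s =
    tay y n (i + 4096000000) (a * y / i) (s + a * y / i) := rfl

theorem tay_le (y : ℕ) (K : ℝ) (n m i a s : ℕ) (hi : (i : ℝ) = 4096000000 * (m + 1))
    (ha : a ≤ K * (((y : ℝ) / 4096000000) ^ m / m.factorial))
    (hs : s ≤ K * ∑ j ∈ Finset.range (m + 1), ((y : ℝ) / 4096000000) ^ j / j.factorial) (hK : 0 ≤ K) :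
    s ≤ tay y n i a s ∧ tay y n i a s ≤ K * exp (y / 4096000000) := by
  induction n generalizing m i a s with
  | zero => exact ⟨le_rfl, hs.trans (mul_le_mul_of_nonneg_left
      (Real.sum_le_exp_of_nonneg (by positivity) _) hK)⟩
  | succ n ih =>
    have h1 : ((a * y / i : ℕ) : ℝ) ≤ K * (((y : ℝ) / 4096000000) ^ (m + 1) / (m + 1).factorial) := by
      refine Nat.cast_div_le.trans ?_
      rw [hi, Nat.cast_mul, div_le_iff₀ (by positivity)]
      refine (mul_le_mul_of_nonneg_right ha (Nat.cast_nonneg y)).trans (le_of_eq ?_)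
      rw [Nat.factorial_succ, pow_succ]; push_cast; field_simp
    have := ih (m + 1) (i + 4096000000) _ (s + a * y / i) (by push_cast; rw [hi]; ring) h1
      (by rw [Finset.sum_range_succ, mul_add, Nat.cast_add]; exact add_le_add hs h1)
    rw [tay_succ]
    exact ⟨le_trans (Nat.le_add_right _ _) this.1, this.2⟩

theorem wvv_le (lam : ℕ) {Y : ℕ} (hY : Y ≤ 6144) :
    lam / 1024 * exp (2 * yy Y) ≤ wvv lam Y / 2 ^ 24 := by
  obtain ⟨h1, h2⟩ := tay_le (6283184 * (6144 - Y)) 1099511627776 16 0 4096000000 1099511627776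
    1099511627776 (by norm_num) (by norm_num) (by norm_num) (by norm_num)
  have e : wvv lam Y = lam * 18014398509481984 /
      tay (6283184 * (6144 - Y)) 16 4096000000 1099511627776 1099511627776 + 1 := by
    have : ∀ a b : ℕ, Nat.div a b = a / b := fun _ _ => rfl
    rw [wvv, Nat.succ_eq_add_one, this, Nat.mul_eq, Nat.mul_eq, Nat.sub_eq]
  rw [e]
  generalize tay (6283184 * (6144 - Y)) 16 4096000000 1099511627776 1099511627776 = s at h1 h2
  have h3 := le_div_succ (lam * 18014398509481984) (b := s) (by omega)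
  generalize ((lam * 18014398509481984 / s + 1 : ℕ) : ℝ) = w at h3
  have h4 : (s : ℝ) * exp (2 * yy Y) ≤ 1099511627776 := by
    refine (mul_le_mul_of_nonneg_right h2 (exp_pos _).le).trans ?_
    rw [mul_assoc, ← exp_add]
    refine mul_le_of_le_one_right (by norm_num) (exp_le_one_iff.2 ?_)
    have : (Y : ℝ) ≤ 6144 := by exact_mod_cast hY
    rw [yy, Nat.cast_mul, Nat.cast_sub hY]
    push_cast
    nlinarith [Real.pi_gt_d6]
  have s0 : (0 : ℝ) < s := by exact_mod_cast (by omega : 0 < s)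
  push_cast at h3
  refine le_of_mul_le_mul_left ?_ s0
  nlinarith [mul_le_mul_of_nonneg_left h4 (Nat.cast_nonneg (α := ℝ) lam)]

theorem max_conv {u ρ W x : ℝ} {w0 w1 d b0 b1 : ℕ} (u0 : 0 ≤ u) (u1 : u ≤ 1) (hρ : 0 ≤ ρ)
    (hW : W ≤ ρ * ((1 - u) * w0 + u * w1)) (hx : x ≤ ρ * (d + ((1 - u) * b0 + u * b1))) :
    max W x ≤ ρ * ((1 - u) * mx w0 (d + b0) + u * mx w1 (d + b1)) := by
  have u2 := sub_nonneg.2 u1
  rw [mx_eq, mx_eq]
  push_cast
  refine max_le (hW.trans ?_) (hx.trans ?_)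
  · gcongr <;> exact le_max_left _ _
  · refine le_trans (le_of_eq (by ring)) (mul_le_mul_of_nonneg_left (add_le_add
      (mul_le_mul_of_nonneg_left (le_max_right _ _) u2)
      (mul_le_mul_of_nonneg_left (le_max_right _ _) u0)) hρ)

section
variable {T d B0 B1 : ℕ → ℕ} {t a b : ℕ → ℝ} {N H : ℕ} {u : ℝ} (hH : 0 < H)
  (ht : ∀ k ≤ N, t k = tv (T k)) (hT : ∀ k < N, T k < T (k + 1))
  (ha : ∀ k ≤ N, |a k| = d k / (4096 * H))
  (hb : ∀ k < N, b k ^ 2 ≤ ((1 - u) * B0 k + u * B1 k) / 2 ^ 24)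
include hH ht hT ha hb

omit ht hT hb in
theorem a_sq {k : ℕ} (hk : k ≤ N) : a k ^ 2 = 1 / (2 ^ 24 * (H : ℝ) ^ 2) * (d k : ℝ) ^ 2 := by
  have : (0 : ℝ) < H := Nat.cast_pos.2 hH
  rw [← sq_abs, ha k hk]; field_simp; norm_num

theorem ful_le {k : ℕ} (hk : k ≤ N) : ∑ i ∈ Finset.range k, ful t a b i ≤
    π / 4096 * (1 / (2 ^ 24 * (H : ℝ) ^ 2)) / 3 *
      ((1 - u) * Cs T d (6 * (H * H)) B0 k + u * Cs T d (6 * (H * H)) B1 k) := by
  have h0 : (0 : ℝ) < H := Nat.cast_pos.2 hH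
  induction k with
  | zero => simp [Cs]
  | succ k ih =>
    rw [Finset.sum_range_succ]
    refine (add_le_add (ih (by omega)) (le_refl _)).trans ?_
    have e1 := a_sq hH ha (k := k) (by omega)
    have e2 := a_sq hH ha hk
    have e3 : a k * a (k + 1) ≤ 1 / (2 ^ 24 * (H : ℝ) ^ 2) * (d k * d (k + 1)) := by
      refine (le_abs_self _).trans (le_of_eq ?_)
      rw [abs_mul, ha k (by omega), ha _ hk]; field_simp; ring
    have e4 : b k ^ 2 ≤ 1 / (2 ^ 24 * (H : ℝ) ^ 2) * (H * H * ((1 - u) * B0 k + u * B1 k)) :=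
      (hb k hk).trans (le_of_eq (by field_simp))
    rw [ful, ht _ hk, ht k (by omega), tv_sub (hT k hk).le, Cs, Cs, e1, e2]
    push_cast
    generalize 1 / (2 ^ 24 * (H : ℝ) ^ 2) = ρ at e3 e4 ⊢
    have p : 0 ≤ π / 4096 * ((T (k + 1) - T k : ℕ) : ℝ) := by positivity
    nlinarith [mul_le_mul_of_nonneg_left e3 p, mul_le_mul_of_nonneg_left e4 p]

theorem free_le (u0 : 0 ≤ u) (u1 : u ≤ 1) (hN : T N = 4096) {W : ℝ} {w0 w1 : ℕ}
    (hW : W ≤ ((1 - u) * w0 + u * w1) / 2 ^ 24) {k : ℕ} (hk : k < N) :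
    ∑ i ∈ Finset.range k, ful t a b i + fre t a b W k + 2 * (π - t (k + 1)) * max W (a (k + 1) ^ 2) ≤
      (1 - u) * (π / (2 ^ 35 * H) * cq T d H w0 B0 (k + 1)) +
        u * (π / (2 ^ 35 * H) * cq T d H w1 B1 (k + 1)) := by
  have h0 : (0 : ℝ) < H := Nat.cast_pos.2 hH
  have hρ : 0 ≤ 1 / (2 ^ 24 * (H : ℝ) ^ 2) := by positivity
  have e0 := ful_le hH ht hT ha hb hk.le
  have hW' : W ≤ 1 / (2 ^ 24 * (H : ℝ) ^ 2) * ((1 - u) * (H * H * w0 : ℕ) + u * (H * H * w1 : ℕ)) :=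
    hW.trans (le_of_eq (by push_cast; field_simp))
  have e4 : b k ^ 2 ≤ 1 / (2 ^ 24 * (H : ℝ) ^ 2) *
      ((1 - u) * (H * H * B0 k : ℕ) + u * (H * H * B1 k : ℕ)) :=
    (hb k hk).trans (le_of_eq (by push_cast; field_simp))
  have m1 := max_conv (x := a k ^ 2 + b k ^ 2) (d := d k ^ 2) u0 u1 hρ hW'
    (by rw [a_sq hH ha hk.le, mul_add]; exact add_le_add (by simp) e4)
  have m2 := max_conv (x := a (k + 1) ^ 2 + b k ^ 2) (d := d (k + 1) ^ 2) u0 u1 hρ hW'
    (by rw [a_sq hH ha hk, mul_add]; exact add_le_add (by simp) e4)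
  have m3 := max_conv (x := a (k + 1) ^ 2) (d := d (k + 1) ^ 2) (b0 := 0) (b1 := 0) u0 u1 hρ hW'
    (by rw [a_sq hH ha hk]; simp)
  have hT' : T (k + 1) ≤ 4096 := by
    have : ∀ n j, j + n = N → T j ≤ 4096 := fun n => by
      induction n with
      | zero => intro j e; rw [← hN, ← e]; exact le_rfl
      | succ n ih => intro j e; exact (hT j (by omega)).le.trans (ih (j + 1) (by omega))
    exact this (N - (k + 1)) _ (by omega)
  have e5 : π - t (k + 1) = π / 4096 * ((4096 - T (k + 1) : ℕ) : ℝ) := by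
    rw [← tv_sub hT', ht _ hk, tv.eq_1 4096]; push_cast; ring
  have c : ∀ (w : ℕ) (B : ℕ → ℕ), (Cs T d (6 * (H * H)) B k : ℝ) + 3 * ((T (k + 1) - T k : ℕ) : ℝ) *
      (mx (H * H * w) (d k ^ 2 + H * H * B k) + mx (H * H * w) (d (k + 1) ^ 2 + H * H * B k)) +
      6 * ((4096 - T (k + 1) : ℕ) : ℝ) * mx (H * H * w) (d (k + 1) ^ 2 + 0) ≤
      6 * H * cq T d H w B (k + 1) := fun w B => by
    have := le_div_succ (Cs T d (6 * (H * H)) B k + 3 * (T (k + 1) - T k) *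
      (mx (H * H * w) (d k ^ 2 + H * H * B k) + mx (H * H * w) (d (k + 1) ^ 2 + H * H * B k)) +
      6 * (4096 - T (k + 1)) * mx (H * H * w) (d (k + 1) ^ 2)) (b := 6 * H) (by omega)
    exact le_trans (by simp) (this.trans (le_of_eq (by rw [Nat.cast_mul 6]; rfl)))
  have e6 : π / (2 ^ 35 * H) = π / 4096 * (1 / (2 ^ 24 * (H : ℝ) ^ 2)) / 3 * (6 * H) := by
    field_simp; norm_num
  rw [fre, e5, ht _ hk, ht k hk.le, tv_sub (hT k hk).le, e6]
  generalize 1 / (2 ^ 24 * (H : ℝ) ^ 2) = ρ at *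
  have p1 : 0 ≤ π / 4096 * ((T (k + 1) - T k : ℕ) : ℝ) := by positivity
  have p2 : 0 ≤ π / 4096 * ((4096 - T (k + 1) : ℕ) : ℝ) := by positivity
  have p3 : 0 ≤ π / 4096 * ρ / 3 := by positivity
  have u2 := sub_nonneg.2 u1
  have f1 := mul_le_mul_of_nonneg_left (add_le_add m1 m2) p1
  have f2 := mul_le_mul_of_nonneg_left m3 p2
  have f3 := mul_le_mul_of_nonneg_left (add_le_add (mul_le_mul_of_nonneg_left (c w0 B0) u2)
    (mul_le_mul_of_nonneg_left (c w1 B1) u0)) p3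
  linear_combination e0 + f1 + 2 * f2 + f3

end

theorem zero_le' {T d B0 B1 : ℕ → ℕ} {H : ℕ} {u : ℝ} (hH : 0 < H) (u0 : 0 ≤ u) (u1 : u ≤ 1)
    {W : ℝ} {w0 w1 : ℕ} (hW : W ≤ ((1 - u) * w0 + u * w1) / 2 ^ 24) :
    2 * π * W ≤ (1 - u) * (π / (2 ^ 35 * H) * cq T d H w0 B0 0) +
      u * (π / (2 ^ 35 * H) * cq T d H w1 B1 0) := by
  have h0 : (0 : ℝ) < H := Nat.cast_pos.2 hH
  have c : ∀ (w : ℕ) (B : ℕ → ℕ), 2 * π * (w / 2 ^ 24) ≤ π / (2 ^ 35 * H) * cq T d H w B 0 := fun w B => by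
    have := le_div_succ (24576 * (H * H * w)) (b := 6 * H) (by omega)
    rw [cq]
    generalize ((24576 * (H * H * w) / (6 * H) + 1 : ℕ) : ℝ) = q at this
    push_cast at this
    rw [div_mul_eq_mul_div, le_div_iff₀ (by positivity)]
    have : 4096 * (H * w) ≤ q := le_of_mul_le_mul_left (by linarith) (show (0 : ℝ) < 6 * H by positivity)
    nlinarith [mul_le_mul_of_nonneg_left this pi_pos.le]
  have u2 := sub_nonneg.2 u1
  have f := mul_le_mul_of_nonneg_left hW (show 0 ≤ 2 * π by positivity)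
  linear_combination f + mul_le_mul_of_nonneg_left (c w0 B0) u2 + mul_le_mul_of_nonneg_left (c w1 B1) u0

theorem Cs_add (T d B B' : ℕ → ℕ) (H k : ℕ) : Cs T d (6 * (H * H)) B k + Cs T d (6 * (H * H)) B' k =
    2 * Cf T d (3 * (H * H)) B B' k := by
  induction k with
  | zero => rfl
  | succ k ih => rw [Cs, Cs, Cf, mul_add 2, ← ih]; ring

end Pool.Agent.Lib.MP_9b2593_an
end

-- part Pool.Agent.Lib.MP_9b2593_an.Layer
section

/-!
The cost of one layer.
-/

namespace Pool.Agent.Lib.MP_9b2593_an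

open MeasureTheory Set Filter Topology Real

theorem pick (P0 P1 Q0 Q1 c : ℝ) :
    (∀ u, 0 ≤ u → u ≤ 1 → c ≤ u → (1 - u) * Q0 + u * Q1 ≤ (1 - u) * P0 + u * P1) ∨
    (∀ u, 0 ≤ u → u ≤ 1 → u ≤ c → (1 - u) * P0 + u * P1 ≤ (1 - u) * Q0 + u * Q1) ∨
    (P1 ≤ Q1 ∧ Q0 ≤ P0) := by
  rcases le_total Q0 P0 with h | h <;> rcases le_total P1 Q1 with h' | h'
  · exact Or.inr (Or.inr ⟨h', h⟩)
  · exact Or.inl fun u _ _ _ => by nlinarith
  · exact Or.inr (Or.inl fun u _ _ _ => by nlinarith)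
  · rcases le_total ((1 - c) * P0 + c * P1) ((1 - c) * Q0 + c * Q1) with h2 | h2
    · exact Or.inr (Or.inl fun u _ _ _ => by nlinarith)
    · exact Or.inl fun u _ _ _ => by nlinarith

theorem amax {A : Set ℝ} (hA : A.Nonempty) {n : ℝ → ℕ} {N : ℕ} (hn : ∀ s, n s ≤ N) (f : ℕ → ℕ) :
    ∃ s ∈ A, ∀ s' ∈ A, (f (n s') : ℝ) ≤ f (n s) := by
  obtain ⟨_, ⟨s, hs, rfl⟩, h⟩ := Set.exists_max_image (n '' A) f
    ((Set.finite_Iic N).subset (by rintro _ ⟨s, -, rfl⟩; exact hn s)) (hA.image n)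
  exact ⟨s, hs, fun s' hs' => Nat.cast_le.2 (h _ ⟨s', hs', rfl⟩)⟩

theorem lay_le {a b c K : ℝ} (hab : a < b) (hK : 0 ≤ K) {g : ℝ → ENNReal} {nL nR : ℝ → ℕ} {N : ℕ}
    (hL : ∀ s, nL s ≤ N) (hR : ∀ s, nR s ≤ N) {α0 α1 β0 β1 : ℕ → ℕ}
    (h1 : ∀ s ∈ Ioo a b, s ≤ c → ∀ u, 0 ≤ u → u ≤ 1 → s = a + u * (b - a) →
      g s ≤ ENNReal.ofReal ((1 - u) * (K * α0 (nL s)) + u * (K * α1 (nL s))))
    (h2 : ∀ s ∈ Ioo a b, c < s → ∀ u, 0 ≤ u → u ≤ 1 → s = a + u * (b - a) →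
      g s ≤ ENNReal.ofReal ((1 - u) * (K * β0 (nR s)) + u * (K * β1 (nR s)))) :
    ∃ γ : ℕ, ∫⁻ s in Ioo a b, g s ≤ ENNReal.ofReal ((b - a) / 2 * (K * γ)) ∧
      ((∃ s ∈ Ioo a b ∩ Iic c, ∃ s' ∈ Ioo a b ∩ Iic c, γ = α0 (nL s) + α1 (nL s')) ∨
       (∃ s ∈ Ioo a b ∩ Ioi c, ∃ s' ∈ Ioo a b ∩ Ioi c, γ = β1 (nR s) + β0 (nR s')) ∨
       (∃ s ∈ Ioo a b ∩ Iic c, ∃ s' ∈ Ioo a b ∩ Ioi c, γ = α0 (nL s) + β1 (nR s'))) := by
  have fin : ∀ P Q : ℕ, (∀ s ∈ Ioo a b, ∀ u, 0 ≤ u → u ≤ 1 → s = a + u * (b - a) →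
      (s ≤ c → (1 - u) * α0 (nL s) + u * α1 (nL s) ≤ (1 - u) * P + u * Q) ∧
      (c < s → (1 - u) * β0 (nR s) + u * β1 (nR s) ≤ (1 - u) * P + u * Q)) →
      ∫⁻ s in Ioo a b, g s ≤ ENNReal.ofReal ((b - a) / 2 * (K * (P + Q : ℕ))) := fun P Q h => by
    refine (lin_le hab (P := K * P) (R := K * Q) (by positivity) (by positivity)
      fun s hs u u0 u1 e => ?_).trans (le_of_eq (by push_cast; rw [mul_add K]))
    rcases le_or_gt s c with h' | h'
    · exact (h1 s hs h' u u0 u1 e).trans (ENNReal.ofReal_le_ofReal (by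
        linear_combination mul_le_mul_of_nonneg_left ((h s hs u u0 u1 e).1 h') hK))
    · exact (h2 s hs h' u u0 u1 e).trans (ENNReal.ofReal_le_ofReal (by
        linear_combination mul_le_mul_of_nonneg_left ((h s hs u u0 u1 e).2 h') hK))
  have cv : ∀ {u x y P Q : ℝ}, 0 ≤ u → u ≤ 1 → x ≤ P → y ≤ Q →
      (1 - u) * x + u * y ≤ (1 - u) * P + u * Q := fun u0 u1 h h' => by
    have := sub_nonneg.2 u1
    gcongr
  rcases (Ioo a b ∩ Iic c).eq_empty_or_nonempty with hA | hA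
  · have hA' : ∀ s ∈ Ioo a b, c < s := fun s hs => not_le.1 fun h => hA.subset ⟨hs, h⟩
    have hB : (Ioo a b ∩ Ioi c).Nonempty := (nonempty_Ioo.2 hab).imp fun s hs => ⟨hs, hA' s hs⟩
    obtain ⟨s, hs, m⟩ := amax hB hR β1
    obtain ⟨s', hs', m'⟩ := amax hB hR β0
    refine ⟨_, fin _ _ fun x hx u u0 u1 _ => ⟨fun h => absurd (hA' x hx) (not_lt.2 h),
      fun h => cv u0 u1 (m' x ⟨hx, h⟩) (m x ⟨hx, h⟩)⟩, Or.inr (Or.inl ⟨s, hs, s', hs', add_comm _ _⟩)⟩
  obtain ⟨r, hr, l⟩ := amax hA hL α0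
  obtain ⟨r', hr', l'⟩ := amax hA hL α1
  rcases (Ioo a b ∩ Ioi c).eq_empty_or_nonempty with hB | hB
  · exact ⟨_, fin _ _ fun x hx u u0 u1 _ => ⟨fun h => cv u0 u1 (l x ⟨hx, h⟩) (l' x ⟨hx, h⟩),
      fun h => (hB.subset ⟨hx, h⟩).elim⟩, Or.inl ⟨r, hr, r', hr', rfl⟩⟩
  obtain ⟨s, hs, m⟩ := amax hB hR β1
  obtain ⟨s', hs', m'⟩ := amax hB hR β0
  have hd := sub_pos.2 hab
  rcases pick (α0 (nL r)) (α1 (nL r')) (β0 (nR s')) (β1 (nR s)) ((c - a) / (b - a)) with h | h | h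
  · exact ⟨_, fin _ _ fun x hx u u0 u1 e => ⟨fun h => cv u0 u1 (l x ⟨hx, h⟩) (l' x ⟨hx, h⟩),
      fun h' => (cv u0 u1 (m' x ⟨hx, h'⟩) (m x ⟨hx, h'⟩)).trans (h u u0 u1
        ((div_le_iff₀ hd).2 (by linarith)))⟩, Or.inl ⟨r, hr, r', hr', rfl⟩⟩
  · exact ⟨_, fin _ _ fun x hx u u0 u1 e => ⟨fun h' => (cv u0 u1 (l x ⟨hx, h'⟩) (l' x ⟨hx, h'⟩)).trans
      (h u u0 u1 ((le_div_iff₀ hd).2 (by linarith))),
      fun h => cv u0 u1 (m' x ⟨hx, h⟩) (m x ⟨hx, h⟩)⟩, Or.inr (Or.inl ⟨s, hs, s', hs', add_comm _ _⟩)⟩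
  · exact ⟨_, fin _ _ fun x hx u u0 u1 e => ⟨fun h' => cv u0 u1 (l x ⟨hx, h'⟩) ((l' x ⟨hx, h'⟩).trans h.1),
      fun h' => cv u0 u1 ((m' x ⟨hx, h'⟩).trans h.2) (m x ⟨hx, h'⟩)⟩,
      Or.inr (Or.inr ⟨r, hr, s, hs, rfl⟩)⟩

open Classical in
/-- the number of active rows -/
noncomputable def st (N : ℕ) (p : ℕ → Prop) : ℕ := Nat.find (⟨N, Or.inl rfl⟩ : ∃ n, n = N ∨ p n)

theorem st_le (N : ℕ) (p : ℕ → Prop) : st N p ≤ N := by
  classical
  exact Nat.find_min' _ (Or.inl rfl)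

theorem st_not {N k : ℕ} {p : ℕ → Prop} (h : k < st N p) : ¬ p k := by
  classical
  exact fun h' => Nat.find_min _ h (Or.inr h')

theorem st_spec {N : ℕ} {p : ℕ → Prop} (h : p N) : p (st N p) := by
  classical
  rcases Nat.find_spec (⟨N, Or.inl rfl⟩ : ∃ n, n = N ∨ p n) with e | e
  · exact (congrArg p e).mpr h
  · exact e

theorem st_ge {N k : ℕ} {p : ℕ → Prop} (hp : ∀ i j, i ≤ j → p i → p j) (hk : k < N)
    (h : st N p ≤ k) : p k := by
  classical
  rcases Nat.find_spec (⟨N, Or.inl rfl⟩ : ∃ n, n = N ∨ p n) with e | e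
  · exact absurd (e.ge.trans h) (not_le.2 hk)
  · exact hp _ _ h e

theorem st_anti {N : ℕ} {p q : ℕ → Prop} (h : ∀ k, p k → q k) : st N q ≤ st N p := by
  classical
  exact Nat.find_mono fun n hn => hn.imp id (h n)

theorem cq_pos (T d : ℕ → ℕ) (h w : ℕ) (B : ℕ → ℕ) (n : ℕ) : cq T d h w B n ≠ 0 := by
  cases n <;> exact Nat.succ_ne_zero _

theorem allowed {T : ℕ → ℕ} {N tn tp : ℕ} {p : ℕ → Prop} (h0 : T 0 = 0) (hN : p N)
    (h1 : ∀ k < N, tp ≤ T k → p k) (h2 : ∀ n ≤ N, p n → tn ≤ T n) (q : ℕ → ℕ) :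
    ca T q tn tp (st N p) = q (st N p) ∧ cb T q tn tp (st N p) = q (st N p) := by
  have a := h2 _ (st_le N p) (st_spec hN)
  have b : ∀ k < st N p, ¬ tp ≤ T k := fun k hk h => st_not hk (h1 k (hk.trans_le (st_le N p)) h)
  generalize st N p = n at a b
  cases n with
  | zero => rw [h0, Nat.le_zero] at a; subst a; exact ⟨rfl, rfl⟩
  | succ k => simp [ca, cb, cnd_eq, a, b k (Nat.lt_succ_self k)]

noncomputable def tt (T : ℕ → ℕ) (N k : ℕ) : ℝ := tv (T (min k N))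

noncomputable def yv (S : ℕ → ℕ) (M j : ℕ) : ℝ := yy (S (min j M))

noncomputable def vv (T : ℕ → ℕ) (N : ℕ) (x : ℕ → ℕ → ℕ) (j k : ℕ) : ℝ :=
  π / 2 ^ 24 * ((x j (k + 1) : ℝ) - x j k) / (tt T N (k + 1) - tt T N k)

theorem mono_of {T : ℕ → ℕ} {N : ℕ} (hT : ∀ k < N, T k < T (k + 1)) {i j : ℕ} (h : i ≤ j)
    (hj : j ≤ N) : T i ≤ T j := by
  induction j, h using Nat.le_induction with
  | base => exact le_rfl
  | succ j _ ih => exact (ih (by omega)).trans (hT j hj).le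

theorem mono_min {T : ℕ → ℕ} {N : ℕ} (hT : ∀ k < N, T k < T (k + 1)) :
    Monotone fun k => T (min k N) :=
  fun _ _ h => mono_of hT (min_le_min_right _ h) (min_le_right _ _)

theorem tt_eq {T : ℕ → ℕ} {N k : ℕ} (h : k ≤ N) : tt T N k = tv (T k) := by rw [tt, min_eq_left h]

theorem yv_eq {S : ℕ → ℕ} {M j : ℕ} (h : j ≤ M) : yv S M j = yy (S j) := by rw [yv, min_eq_left h]

theorem vv_top (T : ℕ → ℕ) (N : ℕ) (x : ℕ → ℕ → ℕ) (j k : ℕ) (h : N ≤ k) : vv T N x j k = 0 := by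
  rw [vv, tt, tt, min_eq_right h, min_eq_right (by omega), sub_self, div_zero]

theorem tv_top : tv 4096 = π := by rw [tv]; push_cast; ring

structure Grid (T : ℕ → ℕ) (N : ℕ) (S : ℕ → ℕ) (M : ℕ) : Prop where
  t0 : T 0 = 0
  tN : T N = 4096
  ts : ∀ k < N, T k < T (k + 1)
  ss : ∀ j < M, S j < S (j + 1)

namespace Grid

variable {T S : ℕ → ℕ} {N M : ℕ} (G : Grid T N S M)
include G

theorem tm : Monotone (tt T N) := fun _ _ h => tv_le.2 (mono_min G.ts h)

theorem ym : Monotone (yv S M) := fun _ _ h => yy_le.2 (mono_min G.ss h)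

theorem tlt (k : ℕ) (h : k < N) : tt T N k < tt T N (k + 1) := by
  rw [tt_eq h.le, tt_eq h, ← not_le, tv_le, not_le]; exact G.ts k h

theorem ylt (j : ℕ) (h : j < M) : yv S M j < yv S M (j + 1) := by
  rw [yv_eq h.le, yv_eq h, ← not_le, yy_le, not_le]; exact G.ss j h

theorem tz : tt T N 0 = 0 := by rw [tt_eq (Nat.zero_le _), G.t0, tv]; simp

theorem tp : tt T N N = π := by rw [tt_eq le_rfl, G.tN, tv_top]

theorem tmem (k : ℕ) : tt T N k ∈ Icc 0 π :=
  ⟨G.tz ▸ G.tm (Nat.zero_le k), by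
    rw [tt, ← tv_top, tv_le, ← G.tN]; exact mono_of G.ts (min_le_right _ _) le_rfl⟩

theorem ysub {j : ℕ} (h : j < M) : yv S M (j + 1) - yv S M j = π / 4096 * ad (S j) (S (j + 1)) := by
  rw [yv_eq h.le, yv_eq h, ad_cast, abs_sub_comm, abs_of_nonneg
    (sub_nonneg.2 (Nat.cast_le.2 (G.ss j h).le)), yy, yy]; ring

theorem hpos {j : ℕ} (h : j < M) : 0 < ad (S j) (S (j + 1)) := by
  have := G.ss j h
  show 0 < S j - S (j + 1) + (S (j + 1) - S j)
  omega

theorem sum_vv (x : ℕ → ℕ → ℕ) (j : ℕ) (h0 : x j 0 = 0) {k : ℕ} (hk : k ≤ N) :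
    ∑ i ∈ Finset.range k, vv T N x j i * (tt T N (i + 1) - tt T N i) = π / 2 ^ 24 * x j k := by
  induction k with
  | zero => simp [h0]
  | succ k ih =>
    rw [Finset.sum_range_succ, ih (by omega), vv, div_mul_cancel₀ _ (sub_pos.2 (G.tlt k hk)).ne']; ring

theorem vv_sq (x : ℕ → ℕ → ℕ) (j : ℕ) {k : ℕ} (hk : k < N) :
    vv T N x j k ^ 2 ≤ Bq T (x j) k / 2 ^ 24 := by
  have h1 : 0 < T (k + 1) - T k := Nat.sub_pos_of_lt (G.ts k hk)
  have h2 := le_div_succ (ad (x j (k + 1)) (x j k) ^ 2) (pow_pos h1 2)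
  rw [vv, tt_eq hk, tt_eq hk.le, tv_sub (G.ts k hk).le, Bq]
  generalize ((ad (x j (k + 1)) (x j k) ^ 2 / (T (k + 1) - T k) ^ 2 + 1 : ℕ) : ℝ) = q at h2
  rw [Nat.cast_pow, Nat.cast_pow, ad_cast, sq_abs] at h2
  have h3 : (0 : ℝ) < (T (k + 1) - T k : ℕ) := Nat.cast_pos.2 h1
  have := pi_pos
  rw [div_pow, div_le_div_iff₀ (by positivity) (by positivity)]
  nlinarith [mul_le_mul_of_nonneg_left h2 (show 0 ≤ π ^ 2 by positivity)]

variable {x : ℕ → ℕ → ℕ} (hx : ∀ j, x j 0 = 0) {j : ℕ} (hj : j < M) {s u : ℝ}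
  (hs : s ∈ Ioo (yv S M j) (yv S M (j + 1))) (u0 : 0 ≤ u) (u1 : u ≤ 1)
  (e : s = yv S M j + u * (yv S M (j + 1) - yv S M j))
include hx hj hs

theorem aa_abs (k : ℕ) (hk : k ≤ N) :
    |aa (tt T N) (fun i => (fld (yv S M) (vv T N x) M).q i s) k| =
      dd (x j) (x (j + 1)) k / (4096 * ad (S j) (S (j + 1))) := by
  have : (0 : ℝ) < ad (S j) (S (j + 1)) := Nat.cast_pos.2 (G.hpos hj)
  have := pi_pos
  simp only [aa, q_mid G.ym hj (Ioo_subset_Ico_self hs), gr, div_mul_eq_mul_div, sub_mul]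
  rw [← Finset.sum_div, Finset.sum_sub_distrib, G.sum_vv x _ (hx _) hk, G.sum_vv x _ (hx _) hk,
    G.ysub hj, dd, ad_cast (x j k), ← mul_sub, abs_div, abs_mul, abs_sub_comm, abs_of_pos (by positivity),
    abs_of_pos (a := π / 4096 * _) (by positivity)]
  field_simp; ring

include u0 u1 e

omit hx in
theorem b_sq (k : ℕ) (hk : k < N) : (fld (yv S M) (vv T N x) M).b k s ^ 2 ≤
    ((1 - u) * Bq T (x j) k + u * Bq T (x (j + 1)) k) / 2 ^ 24 := by
  have e1 : (fld (yv S M) (vv T N x) M).b k s = (1 - u) * vv T N x j k + u * vv T N x (j + 1) k := by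
    have := (sub_pos.2 (G.ylt j hj)).ne'
    rw [b_mid G.ym G.ylt hj (Ioo_subset_Icc_self hs), gr, e]; field_simp; ring
  have u2 := sub_nonneg.2 u1
  rw [e1]
  nlinarith [mul_le_mul_of_nonneg_left (G.vv_sq x j hk) u2,
    mul_le_mul_of_nonneg_left (G.vv_sq x (j + 1) hk) u0,
    mul_nonneg (mul_nonneg u0 u2) (sq_nonneg (vv T N x j k - vv T N x (j + 1) k))]

theorem pt_free {I : ℕ → Set ℝ} {n : ℕ} (hn : n ≤ N) (hact : ∀ k < N, s ∉ I k ↔ k < n) {τ : ℝ}
    (hτ : τ ∈ Icc 0 π) (hτ' : ∀ k < n, tt T N k ≤ τ) (lam : ℕ) (hS : S (j + 1) ≤ 6144) :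
    2 * (∫⁻ y in Icc 0 τ, ENNReal.ofReal (MM I (tt T N) N (fld (yv S M) (vv T N x) M) s y)) +
      ENNReal.ofReal (lam / 1024 * (2 * (π - τ) * exp (2 * s))) ≤ ENNReal.ofReal
      ((1 - u) * (π / (2 ^ 35 * ad (S j) (S (j + 1))) * cq T (dd (x j) (x (j + 1)))
        (ad (S j) (S (j + 1))) (wvv lam (S j)) (Bq T (x j)) n) +
      u * (π / (2 ^ 35 * ad (S j) (S (j + 1))) * cq T (dd (x j) (x (j + 1)))
        (ad (S j) (S (j + 1))) (wvv lam (S (j + 1))) (Bq T (x (j + 1))) n)) := by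
  have u2 := sub_nonneg.2 u1
  have hW : lam / 1024 * exp (2 * s) ≤ ((1 - u) * wvv lam (S j) + u * wvv lam (S (j + 1))) / 2 ^ 24 := by
    have c := convexOn_exp.2 (mem_univ (2 * yy (S j))) (mem_univ (2 * yy (S (j + 1)))) u2 u0 (by ring)
    rw [yv_eq hj.le, yv_eq hj] at e
    rw [show 2 * s = (1 - u) • (2 * yy (S j)) + u • (2 * yy (S (j + 1))) by rw [e]; simp; ring]
    simp only [smul_eq_mul] at c ⊢
    linear_combination mul_le_mul_of_nonneg_left c (show (0 : ℝ) ≤ lam / 1024 by positivity) +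
      mul_le_mul_of_nonneg_left (wvv_le lam ((G.ss j hj).le.trans hS)) u2 +
      mul_le_mul_of_nonneg_left (wvv_le lam hS) u0
  rw [show lam / 1024 * (2 * (π - τ) * exp (2 * s)) = 2 * (π - τ) * (lam / 1024 * exp (2 * s)) by ring]
  cases n with
  | zero =>
    refine (cost_le G.tm hn hact G.tz (G.tmem _).2 G.tlt hτ (by positivity) le_rfl
      (Or.inl (G.tz.trans_le hτ.1))).trans (ENNReal.ofReal_le_ofReal ?_)
    refine le_trans (le_of_eq ?_) (zero_le' (G.hpos hj) u0 u1 hW)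
    simp [G.tz, aa]
    positivity
  | succ k =>
    refine (cost_le G.tm hn hact G.tz (G.tmem _).2 G.tlt hτ (by positivity) (Nat.le_succ k)
      (Or.inl (hτ' k (Nat.lt_succ_self k)))).trans (ENNReal.ofReal_le_ofReal ?_)
    refine le_trans (le_of_eq ?_) (free_le (G.hpos hj) (fun k => tt_eq) G.ts (G.aa_abs hx hj hs)
      (G.b_sq hj hs u0 u1 e) u0 u1 G.tN hW hn)
    simp

theorem pt_fix {I : ℕ → Set ℝ} (hact : ∀ k < N, s ∉ I k) {τ W : ℝ} (hτ : τ ∈ Icc 0 π) (hW : 0 ≤ W)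
    (h : τ = π ∨ W = 0) :
    2 * (∫⁻ y in Icc 0 τ, ENNReal.ofReal (MM I (tt T N) N (fld (yv S M) (vv T N x) M) s y)) +
      ENNReal.ofReal (2 * (π - τ) * W) ≤ ENNReal.ofReal
      ((1 - u) * (π / 4096 * (1 / (2 ^ 24 * (ad (S j) (S (j + 1)) : ℝ) ^ 2)) / 3 *
        Cs T (dd (x j) (x (j + 1))) (6 * (ad (S j) (S (j + 1)) * ad (S j) (S (j + 1)))) (Bq T (x j)) N) +
      u * (π / 4096 * (1 / (2 ^ 24 * (ad (S j) (S (j + 1)) : ℝ) ^ 2)) / 3 *
        Cs T (dd (x j) (x (j + 1))) (6 * (ad (S j) (S (j + 1)) * ad (S j) (S (j + 1))))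
          (Bq T (x (j + 1))) N)) := by
  refine (cost_le G.tm le_rfl (fun k hk => iff_of_true (hact k hk) hk) G.tz (G.tmem _).2 G.tlt hτ hW
    le_rfl (h.imp (fun h => (G.tp.trans h.symm).le) id)).trans (ENNReal.ofReal_le_ofReal ?_)
  refine le_trans (le_of_eq ?_) ((ful_le (G.hpos hj) (fun k => tt_eq) G.ts (G.aa_abs hx hj hs)
      (G.b_sq hj hs u0 u1 e) le_rfl).trans (le_of_eq (by ring)))
  simp [G.tp]

end Grid

end Pool.Agent.Lib.MP_9b2593_an
end

-- part Pool.Agent.Lib.MP_9b2593_an.Key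
section

/-!
The energy inequality on a grid.
-/

namespace Pool.Agent.Lib.MP_9b2593_an

open MeasureTheory Set Filter Topology Real Metric

def KL (τ : ℝ → ℝ) (x t : ℝ) : Prop := ∃ s ≤ x, s ≤ 0 ∧ τ s ≤ t

def KR (τ : ℝ → ℝ) (x t : ℝ) : Prop := ∃ s ∈ Icc x 0, τ s ≤ t

theorem KL.mono {τ : ℝ → ℝ} {x t x' t' : ℝ} (h : KL τ x t) (h1 : x ≤ x') (h2 : t ≤ t') : KL τ x' t' :=
  h.imp fun _ h => ⟨h.1.trans h1, h.2.1, h.2.2.trans h2⟩

theorem KR.mono {τ : ℝ → ℝ} {x t x' t' : ℝ} (h : KR τ x t) (h1 : x' ≤ x) (h2 : t ≤ t') : KR τ x' t' :=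
  h.imp fun _ h => ⟨⟨h1.trans h.1.1, h.1.2⟩, h.2.trans h2⟩

def DD (Ω : Set ℂ) (x : ℕ) : Prop := ball (0 : ℂ) (exp (yy x)) ⊆ Ω

structure Holds (Ω : Set ℂ) (c : ℝ) (K : Cls) : Prop where
  dlo : K.dlo = 0 ∨ DD Ω K.dlo
  dhi : ¬ DD Ω K.dhi
  clo : yy K.clo ≤ max c (yy 0)
  chi : c ≤ yy K.chi
  pL : AllF (fun x t => KL (cm Ω) (yy x) (tv t)) K.pL
  nL : AllF (fun x t => ¬ KL (cm Ω) (yy x) (tv t)) K.nL
  pR : AllF (fun x t => KR (cm Ω) (yy x) (tv t)) K.pR
  nR : AllF (fun x t => ¬ KR (cm Ω) (yy x) (tv t)) K.nR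

structure Bad (cn : ℕ) (f L : ℂ → ℂ) (c : ℝ) : Prop where
  H : Hyp0 f L
  ne : ¬ ball (0 : ℂ) 1 ⊆ f '' ball 0 1
  c0 : c ≤ 0
  mn : ∀ s ≤ 0, cm (f '' ball 0 1) c ≤ cm (f '' ball 0 1) s
  lt : cm (f '' ball 0 1) c < π
  big : ENNReal.ofReal (cn / 100000 * π) < volume (ball (0 : ℂ) 1 \ f '' ball 0 1)

theorem DD.pi {Ω : Set ℂ} {x : ℕ} (h : DD Ω x) {s : ℝ} (hs : s < yy x) : cm Ω s = π :=
  cm_eq_pi fun _ hw => h (by simpa [hw] using hs)

theorem MM_le {I : ℕ → Set ℝ} {t : ℕ → ℝ} {N : ℕ} {F : Fld} {s B : ℝ} (ht : Monotone t)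
    (hq : ∀ k, F.q k s = 0) (hb : ∀ k < N, F.b k s = B) (x : ℝ) : MM I t N F s x ≤ B ^ 2 := by
  classical
  have e : AA I t N F s x = 0 := Finset.sum_eq_zero fun k _ => by rw [hq, zero_mul]
  rw [MM, e, BB]
  by_cases h : ∃ k < N, s ∉ I k ∧ x ∈ Ioo (t k) (t (k + 1))
  · obtain ⟨k, hk, h⟩ := h
    rw [Finset.sum_eq_single_of_mem k (Finset.mem_range.2 hk) fun i _ hi => if_neg fun h' => ?_,
      if_pos h, hb k hk]
    · simp
    · rcases lt_or_gt_of_ne hi with h2 | h2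
      · exact h'.2.2.not_ge ((ht h2).trans h.2.1.le)
      · exact h.2.2.not_ge ((ht h2).trans h'.2.1.le)
  · rw [Finset.sum_eq_zero fun k hk => if_neg fun h' => h ⟨k, Finset.mem_range.1 hk, h'⟩]
    simpa using sq_nonneg B

theorem exists_layer {y : ℕ → ℝ} {a n : ℕ} {c : ℝ} (h1 : y a ≤ c) (h2 : c ≤ y (a + (n + 1))) :
    ∃ m < n + 1, y (a + m) ≤ c ∧ c ≤ y (a + m + 1) := by
  induction n with
  | zero => exact ⟨0, one_pos, h1, h2⟩
  | succ n ih =>
    rcases le_total c (y (a + (n + 1))) with h | h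
    · obtain ⟨m, hm, h'⟩ := ih h
      exact ⟨m, by omega, h'⟩
    · exact ⟨n + 1, by omega, h, h2⟩

theorem ad_comm (a b : ℕ) : ad a b = ad b a := Nat.add_comm _ _

theorem dd_comm (a b : ℕ → ℕ) : dd a b = dd b a := funext fun _ => ad_comm _ _

theorem yy_top : yy 6144 = 0 := by simp [yy]

noncomputable def kap : ℝ := π ^ 2 / 2 ^ 48

/-- the conditions on the grid and on the two stream functions -/
structure Wf (K : Cls) (T S : ℕ → ℕ) (N M fL j0 ov fR lam km : ℕ) (xL xR : ℕ → ℕ → ℕ) : Prop where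
  G : Grid T N S M
  s0 : S 0 = 0
  sR : S (M - fR) = 6144
  le1 : fL ≤ j0
  le2 : j0 + ov + fR ≤ M
  sL : S fL ≤ K.dlo
  sj : S j0 ≤ max K.clo K.dlo
  so : K.chi ≤ S (j0 + ov)
  ov1 : 1 ≤ ov
  zL : ∀ j, xL j 0 = 0
  zR : ∀ j, xR j 0 = 0
  xM : ∀ k, xR M k = 0
  x0 : ∀ k ≤ N, xL 0 k = T k * 4096
  x0' : j0 = 0 → xR 0 = xL 0
  top : ∀ j < j0 + ov, S j < K.dhi → xL (j + 1) N = 16777216
  kmN : km ≤ N
  kmT : fmn (fun _ => true) K.pR (fmn (fun _ => true) K.pL 4096) ≤ T km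
  eq : ∀ i ≤ ov, ∀ k ≤ km, xL (j0 + i) k = xR (j0 + i) k
  l1 : 1 ≤ lam
  l2 : wvv lam 0 ≤ 16777216

section
variable {cn : ℕ} {f L : ℂ → ℂ} {c : ℝ} (B : Bad cn f L c) {K : Cls} (h : Holds (f '' ball 0 1) c K)
  {T S : ℕ → ℕ} {N M fL j0 ov fR lam km : ℕ} {xL xR : ℕ → ℕ → ℕ}
  (W : Wf K T S N M fL j0 ov fR lam km xL xR)
include B h W

omit h W in
theorem DD_le {x : ℕ} (hx : DD (f '' ball 0 1) x) : yy x ≤ c :=
  not_lt.1 fun h => B.lt.ne (hx.pi h)

theorem j0_le : yv S M j0 ≤ max c (yy 0) := by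
  rw [yv_eq (by have := W.le2; omega)]
  rcases le_max_iff.1 W.sj with h1 | h1
  · exact (yy_le.2 h1).trans h.clo
  · rcases h.dlo with h2 | h2
    · exact le_max_of_le_right (yy_le.2 (h2 ▸ h1))
    · exact le_max_of_le_left ((yy_le.2 h1).trans (DD_le B h2))

omit B in
theorem le_ov : c ≤ yv S M (j0 + ov) := by
  rw [yv_eq (by have := W.le2; omega)]; exact h.chi.trans (yy_le.2 W.so)

omit B h in
theorem y0 : yv S M 0 = yy 0 := by rw [yv_eq (Nat.zero_le _), W.s0]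

theorem j0_zero (hc : c ≤ yv S M 0) : j0 = 0 := by
  by_contra h0
  have := j0_le B h W
  rw [← y0 W, max_eq_right hc] at this
  exact (W.G.ylt 0 (by have := W.le2; omega)).not_ge ((W.G.ym (by omega)).trans this)

theorem turn_ex : ∃ m < ov, yv S M (j0 + m) ≤ max c (yy 0) ∧ max c (yy 0) ≤ yv S M (j0 + m + 1) := by
  obtain ⟨n, rfl⟩ : ∃ n, ov = n + 1 := ⟨ov - 1, by have := W.ov1; omega⟩
  exact exists_layer (j0_le B h W) (max_le (le_ov h W) (y0 W ▸ W.G.ym (Nat.zero_le _)))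

theorem grid_energy : ENNReal.ofReal (2 * π * (-yv S M 0)) +
    ENNReal.ofReal (lam / 1024) * volume (ball (0 : ℂ) 1 \ f '' ball 0 1) ≤
    ∫⁻ s in Ioc (yv S M 0) (yv S M M), cost (cm (f '' ball 0 1))
      (MC (fun k => II (cm (f '' ball 0 1)) c (tt T N k)) (tt T N) N c (fld (yv S M) (vv T N xL) M)
        (fld (yv S M) (vv T N xR) M)) (lam / 1024) s := by
  have G := W.G
  have oL := fld_ok (M := M) G.ym (vv_top T N xL)
  have oR := fld_ok (M := M) G.ym (vv_top T N xR)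
  have l2 := W.le2
  have yM : 0 ≤ yv S M M := by
    rw [← yy_top, ← W.sR, ← yv_eq (Nat.sub_le M fR)]; exact G.ym (Nat.sub_le _ _)
  have v1 : ∀ k < N, vv T N xL 0 k = 1 := fun k hk => by
    have := (sub_pos.2 (G.tlt k hk)).ne'
    rw [vv, W.x0 _ hk, W.x0 _ hk.le, div_eq_one_iff_eq this, tt_eq hk, tt_eq hk.le, tv, tv]
    push_cast; ring
  refine B.H.energy B.ne (meas_MC (fun k => meas_II _ _ _) _ _ _ oL oR) (fun σ hσ =>
    B.H.length B.ne G.tm G.tmem (fun k hk => (G.tlt k hk).trans_le (G.tmem _).2) B.c0 B.mn B.lt oL oR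
      h.dhi (fun s h1 h2 => ?_) (fun k hk h1 => ?_) hσ) (by positivity) ?_ yM ?_ (fun s hs y => ?_)
      fun s hs y => ?_
  · have e : ∀ j, yv S M j < s → j < M → xL (j + 1) N = 16777216 := fun j hj hj' => W.top j
      (not_le.1 fun h' => hj.not_ge (h2.trans ((le_ov h W).trans (G.ym h'))))
      (not_le.1 fun h' => hj.not_ge (h1.trans (by rw [yv_eq hj'.le]; exact yy_le.2 h')))
    have e0 : xL 0 N = 16777216 := by rw [W.x0 N le_rfl, G.tN]
    simp only [fld, add_mul, Finset.sum_add_distrib, Finset.sum_mul]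
    rw [G.sum_vv xL 0 (W.zL 0) le_rfl, e0, Finset.sum_comm, Finset.sum_eq_zero fun j hj => ?_]
    · norm_num
    rcases le_or_gt s (yv S M j) with h' | h'
    · simp [clp_low (G.ym (Nat.le_succ j)) h']
    · have e1 : xL j N = 16777216 := by
        cases j with
        | zero => exact e0
        | succ j => exact e j ((G.ym (Nat.le_succ j)).trans_lt h') (by have := Finset.mem_range.1 hj; omega)
      simp only [gr, mul_right_comm _ (clp _ _ _), div_mul_eq_mul_div, sub_mul]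
      rw [← Finset.sum_div, Finset.sum_sub_distrib, ← Finset.sum_mul, ← Finset.sum_mul, G.sum_vv xL _ (W.zL _) le_rfl,
        G.sum_vv xL _ (W.zL _) le_rfl, e1, e j h' (Finset.mem_range.1 hj)]
      simp
  · have a1 : cm (f '' ball 0 1) c ≤ tv (T km) := le_trans (fmn_ind (Q := fun t =>
      cm (f '' ball 0 1) c ≤ tv t) h.pR (fun x t _ ⟨s, h1, h2⟩ => (B.mn s h1.2).trans h2)
      (fmn_ind (Q := fun t => cm (f '' ball 0 1) c ≤ tv t) h.pL
        (fun x t _ ⟨s, _, h1, h2⟩ => (B.mn s h1).trans h2) (tv_top ▸ B.lt.le))) (tv_le.2 W.kmT)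
    have a2 : k < km := not_le.1 fun h' => (h1.trans_le a1).not_ge (by
      rw [← tt_eq W.kmN]; exact G.tm h')
    have a3 : ∀ i ≤ ov, vv T N xL (j0 + i) k = vv T N xR (j0 + i) k := fun i hi => by
      rw [vv, vv, W.eq i hi k a2.le, W.eq i hi _ a2]
    rcases le_total c (yv S M 0) with h' | h'
    · have := a3 0 (Nat.zero_le _)
      rw [j0_zero B h W h'] at this
      rwa [b_left G.ym h', b_left G.ym h']
    · obtain ⟨m, hm, h2⟩ := turn_ex B h W
      rw [← y0 W, max_eq_left h'] at h2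
      rw [b_mid G.ym G.ylt (by omega) h2, b_mid G.ym G.ylt (by omega) h2, gr, gr, a3 m hm.le,
        add_assoc j0, a3 _ hm]
  · rw [y0 W, yy]; have := pi_pos; push_cast; linarith
  · have : (wvv lam 0 : ℝ) ≤ 16777216 := by exact_mod_cast W.l2
    rw [y0 W]; linarith [wvv_le lam (Nat.zero_le 6144)]
  · rw [MC, ← one_pow 2]
    split_ifs with h'
    · exact MM_le G.tm (q_left G.ym hs) (fun k hk => (b_left G.ym hs.le k).trans (v1 k hk)) y
    · refine MM_le G.tm (q_left G.ym hs) (fun k hk => (b_left G.ym hs.le k).trans ?_) y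
      rw [← v1 k hk, vv, vv, W.x0' (j0_zero B h W ((not_le.1 h').trans hs).le)]
  · rw [MC, if_neg (not_le.2 ((B.c0.trans yM).trans_lt hs))]
    refine (MM_le G.tm (q_right G.ym hs.le) (B := 0)
      (fun k _ => (b_right G.ym G.ylt hs.le k).trans ?_) y).trans (by simp)
    simp [vv, W.xM]

end

end Pool.Agent.Lib.MP_9b2593_an
end

-- part Pool.Agent.Lib.MP_9b2593_an.Sides
section

/-!
The two sides of the minimiser and the costs of the layers.
-/

namespace Pool.Agent.Lib.MP_9b2593_an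

open MeasureTheory Set Filter Topology Real Metric

noncomputable def nL (τ : ℝ → ℝ) (T : ℕ → ℕ) (N : ℕ) (s : ℝ) : ℕ := st N fun k => KL τ s (tt T N k)

noncomputable def nR (τ : ℝ → ℝ) (T : ℕ → ℕ) (N : ℕ) (s : ℝ) : ℕ := st N fun k => KR τ s (tt T N k)

theorem nL_anti (τ : ℝ → ℝ) (T : ℕ → ℕ) (N : ℕ) {s s' : ℝ} (h : s ≤ s') : nL τ T N s' ≤ nL τ T N s :=
  st_anti fun _ h' => h'.mono h le_rfl

theorem nR_mono (τ : ℝ → ℝ) (T : ℕ → ℕ) (N : ℕ) {s s' : ℝ} (h : s ≤ s') : nR τ T N s ≤ nR τ T N s' :=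
  st_anti fun _ h' => h'.mono h le_rfl

def LY (c0 c1 : ℕ → ℕ) (n0 n1 γ : ℕ) : Prop :=
  ∃ a b, n1 ≤ a ∧ a ≤ n0 ∧ n1 ≤ b ∧ b ≤ n0 ∧ c0 a ≠ 0 ∧ c0 b ≠ 0 ∧ γ ≤ c0 a + c1 b

section
variable {Ω : Set ℂ} {c : ℝ} {K : Cls} (h : Holds Ω c K) {T S : ℕ → ℕ} {N M : ℕ} (G : Grid T N S M)
include h G

theorem allowL {Y Y' : ℕ} {s : ℝ} (h0 : s ≤ 0) (h1 : yy Y ≤ s) (h2 : s ≤ yy Y') (q : ℕ → ℕ) :
    ca T q (tnL K Y Y') (tpL K Y Y') (nL (cm Ω) T N s) = q (nL (cm Ω) T N s) ∧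
    cb T q (tnL K Y Y') (tpL K Y Y') (nL (cm Ω) T N s) = q (nL (cm Ω) T N s) := by
  refine allowed G.t0 ⟨s, le_rfl, h0, (cm_le_pi _ _).trans G.tp.ge⟩ ?_ ?_ q
  · refine fmn_ind (Q := fun t => ∀ k < N, t ≤ T k → KL (cm Ω) s (tt T N k)) h.pL
      (fun x t hx hq k hk ht => hq.mono ((yy_le.2 (Nat.le_of_ble_eq_true hx)).trans h1)
        (by rw [tt_eq hk.le]; exact tv_le.2 ht)) fun k hk ht => ?_
    have := mono_of G.ts hk.le le_rfl
    rw [G.tN] at this; omega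
  · exact fmx_ind (Q := fun t => ∀ n ≤ N, KL (cm Ω) s (tt T N n) → t ≤ T n) h.nL
      (fun x t hx hq n hn hp => not_le.1 fun ht => hq (hp.mono
        (h2.trans (yy_le.2 (Nat.le_of_ble_eq_true hx))) (by rw [tt_eq hn]; exact tv_le.2 ht)))
      fun _ _ _ => Nat.zero_le _

theorem allowR {Y Y' : ℕ} {s : ℝ} (h0 : s ≤ 0) (h1 : yy Y' ≤ s) (h2 : s ≤ yy Y) (q : ℕ → ℕ) :
    ca T q (tnR K Y Y') (tpR K Y Y') (nR (cm Ω) T N s) = q (nR (cm Ω) T N s) ∧
    cb T q (tnR K Y Y') (tpR K Y Y') (nR (cm Ω) T N s) = q (nR (cm Ω) T N s) := by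
  refine allowed G.t0 ⟨s, ⟨le_rfl, h0⟩, (cm_le_pi _ _).trans G.tp.ge⟩ ?_ ?_ q
  · refine fmn_ind (Q := fun t => ∀ k < N, t ≤ T k → KR (cm Ω) s (tt T N k)) h.pR
      (fun x t hx hq k hk ht => hq.mono (h2.trans (yy_le.2 (Nat.le_of_ble_eq_true hx)))
        (by rw [tt_eq hk.le]; exact tv_le.2 ht)) fun k hk ht => ?_
    have := mono_of G.ts hk.le le_rfl
    rw [G.tN] at this; omega
  · refine fmx_ind (Q := fun t => ∀ n ≤ N, KR (cm Ω) s (tt T N n) → t ≤ T n) h.nR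
      (fun x t hx hq n hn hp => not_le.1 fun ht => hq (hp.mono
        ((yy_le.2 (Nat.le_of_ble_eq_true hx)).trans h1) (by rw [tt_eq hn]; exact tv_le.2 ht))) ?_
    exact fmx_ind (Q := fun t => ∀ n ≤ N, KR (cm Ω) s (tt T N n) → t ≤ T n) h.nL
      (fun x t hx hq n hn ⟨r, hr, hp⟩ => not_le.1 fun ht => hq ⟨r, hr.2.trans (yy_top.ge.trans
        (yy_le.2 (Nat.le_of_ble_eq_true hx))), hr.2, hp.trans (by rw [tt_eq hn]; exact tv_le.2 ht)⟩)
      fun _ _ _ => Nat.zero_le _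

theorem free_lay (lam : ℕ) (cL cR : List ℕ) {i j : ℕ} (e : i + j + 1 = M)
    (hS : S (j + 1) ≤ 6144) : ∃ γ : ℕ, ∫⁻ s in Ioo (yv S M j) (yv S M (j + 1)), cost (cm Ω)
      (MC (fun k => II (cm Ω) c (tt T N k)) (tt T N) N c (fld (yv S M) (vv T N (col cL)) M)
        (fld (yv S M) (vv T N fun j => col cR (M - j)) M)) (lam / 1024) s ≤ ENNReal.ofReal (kap * γ) ∧
      ((yv S M j < c ∧ LY (C0 T lam S cL (tnL K) (tpL K) j) (C1 T lam S cL (tnL K) (tpL K) j)
        (nL (cm Ω) T N (yv S M j)) (nL (cm Ω) T N (yv S M (j + 1))) γ) ∨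
      (c < yv S M (j + 1) ∧ LY (C0 T lam (fun i => S (M - i)) cR (tnR K) (tpR K) i)
        (C1 T lam (fun i => S (M - i)) cR (tnR K) (tpR K) i)
        (nR (cm Ω) T N (yv S M (M - i))) (nR (cm Ω) T N (yv S M (M - (i + 1)))) γ) ∨
      (yv S M j < c ∧ c < yv S M (j + 1) ∧ ∃ a ≤ nL (cm Ω) T N (yv S M j),
        ∃ b ≤ nR (cm Ω) T N (yv S M (M - i)), C0 T lam S cL (tnL K) (tpL K) j a ≠ 0 ∧
        C0 T lam (fun i => S (M - i)) cR (tnR K) (tpR K) i b ≠ 0 ∧
        γ ≤ C0 T lam S cL (tnL K) (tpL K) j a + C0 T lam (fun i => S (M - i)) cR (tnR K) (tpR K) i b)) := by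
  have hj : j < M := by omega
  have e1 : M - i = j + 1 := by omega
  have e2 : M - (i + 1) = j := by omega
  have neg : ∀ s ∈ Ioo (yv S M j) (yv S M (j + 1)), s < 0 := fun s hs =>
    hs.2.trans_le (by rw [yv_eq hj, ← yy_top]; exact yy_le.2 hS)
  have mem : ∀ s, cm Ω s ∈ Icc 0 π := fun s => ⟨cm_nonneg _ _, cm_le_pi _ _⟩
  have hH : (0 : ℝ) < ad (S j) (S (j + 1)) := Nat.cast_pos.2 (G.hpos hj)
  obtain ⟨γ, h1, h2⟩ := lay_le (c := c) (K := π / (2 ^ 35 * ad (S j) (S (j + 1)))) (G.ylt j hj)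
    (by positivity) (g := cost (cm Ω) (MC (fun k => II (cm Ω) c (tt T N k)) (tt T N) N c
      (fld (yv S M) (vv T N (col cL)) M) (fld (yv S M) (vv T N fun j => col cR (M - j)) M)) (lam / 1024))
    (nL := nL (cm Ω) T N) (nR := nR (cm Ω) T N) (fun _ => st_le _ _) (fun _ => st_le _ _)
    (α0 := q0 T lam S cL j) (α1 := q1 T lam S cL j) (β0 := q1 T lam (fun i => S (M - i)) cR i)
    (β1 := q0 T lam (fun i => S (M - i)) cR i) (fun s hs hsc u u0 u1 eq => by
      simp only [cost, MC, if_pos hsc, indicator_of_mem (mem_Iio.2 (neg s hs))]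
      refine G.pt_free (fun _ => xv_zero _) hj hs u0 u1 eq (st_le _ _) (fun k hk => ?_) (mem s)
        (fun k hk => not_lt.1 fun h' => st_not hk ⟨s, le_rfl, (neg s hs).le, h'.le⟩) lam hS
      refine ⟨fun h' => not_le.1 fun h2 => h' ?_, fun h' h2 => st_not h' ?_⟩
      · obtain ⟨r, a, -, b⟩ := st_ge (fun a b hab h => h.mono le_rfl (G.tm hab)) hk h2
        exact Or.inl ⟨hsc, r, a, b⟩
      · obtain ⟨-, r, a, b⟩ := h2.resolve_right fun h => h.1.not_ge hsc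
        exact ⟨r, a, a.trans (neg s hs).le, b⟩) (fun s hs hsc u u0 u1 eq => by
      simp only [cost, MC, if_neg (not_le.2 hsc), indicator_of_mem (mem_Iio.2 (neg s hs))]
      refine (G.pt_free (x := fun j => col cR (M - j)) (fun _ => xv_zero _) hj hs u0 u1 eq
        (n := nR (cm Ω) T N s) (st_le _ _) (fun k hk => ?_) (mem s)
        (fun k hk => not_lt.1 fun h' => st_not hk ⟨s, ⟨le_rfl, (neg s hs).le⟩, h'.le⟩) lam hS).trans
        (le_of_eq ?_)
      · exact ⟨fun h' => not_le.1 fun h2 => h' (Or.inr ⟨hsc,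
          st_ge (fun a b hab h => h.mono le_rfl (G.tm hab)) hk h2⟩),
          fun h' h2 => st_not h' (h2.resolve_left fun h => hsc.not_ge h.1).2⟩
      · simp only [q0, q1, e1, e2, show M - j = i + 1 by omega, show M - (j + 1) = i by omega,
          dd_comm (col cR i), ad_comm (S (j + 1))])
  refine ⟨γ, h1.trans (le_of_eq (congrArg _ ?_)), ?_⟩
  · rw [G.ysub hj, kap]; field_simp; norm_num
  have aL : ∀ s ∈ Ioo (yv S M j) (yv S M (j + 1)) ∩ Iic c,
      C0 T lam S cL (tnL K) (tpL K) j (nL (cm Ω) T N s) = q0 T lam S cL j (nL (cm Ω) T N s) ∧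
      C1 T lam S cL (tnL K) (tpL K) j (nL (cm Ω) T N s) = q1 T lam S cL j (nL (cm Ω) T N s) :=
    fun s hs => by
      have := allowL h G (neg s hs.1).le ((yv_eq hj.le).ge.trans hs.1.1.le)
        (hs.1.2.le.trans (yv_eq hj).le)
      exact ⟨(this _).1, (this _).2⟩
  have aR : ∀ s ∈ Ioo (yv S M j) (yv S M (j + 1)) ∩ Ioi c,
      C0 T lam (fun i => S (M - i)) cR (tnR K) (tpR K) i (nR (cm Ω) T N s) =
        q0 T lam (fun i => S (M - i)) cR i (nR (cm Ω) T N s) ∧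
      C1 T lam (fun i => S (M - i)) cR (tnR K) (tpR K) i (nR (cm Ω) T N s) =
        q1 T lam (fun i => S (M - i)) cR i (nR (cm Ω) T N s) := fun s hs => by
    have := allowR h G (neg s hs.1).le ((yv_eq hj.le).ge.trans hs.1.1.le)
      (hs.1.2.le.trans (yv_eq hj).le)
    simp only [C0, C1, e1, e2]
    exact ⟨(this _).1, (this _).2⟩
  rw [e1, e2]
  rcases h2 with ⟨s, hs, r, hr, rfl⟩ | ⟨s, hs, r, hr, rfl⟩ | ⟨s, hs, r, hr, rfl⟩
  · exact Or.inl ⟨hs.1.1.trans_le hs.2, _, _, nL_anti _ _ _ hs.1.2.le, nL_anti _ _ _ hs.1.1.le,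
      nL_anti _ _ _ hr.1.2.le, nL_anti _ _ _ hr.1.1.le, (aL s hs).1 ▸ cq_pos _ _ _ _ _ _,
      (aL r hr).1 ▸ cq_pos _ _ _ _ _ _, by rw [(aL s hs).1, (aL r hr).2]⟩
  · exact Or.inr (Or.inl ⟨lt_trans hs.2 hs.1.2, _, _, nR_mono _ _ _ hs.1.1.le, nR_mono _ _ _ hs.1.2.le,
      nR_mono _ _ _ hr.1.1.le, nR_mono _ _ _ hr.1.2.le, (aR s hs).1 ▸ cq_pos _ _ _ _ _ _,
      (aR r hr).1 ▸ cq_pos _ _ _ _ _ _, by rw [(aR s hs).1, (aR r hr).2]⟩)
  · exact Or.inr (Or.inr ⟨hs.1.1.trans_le hs.2, lt_trans hr.2 hr.1.2, _, nL_anti _ _ _ hs.1.1.le, _,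
      nR_mono _ _ _ hr.1.2.le, (aL s hs).1 ▸ cq_pos _ _ _ _ _ _, (aR r hr).1 ▸ cq_pos _ _ _ _ _ _,
      by rw [(aL s hs).1, (aR r hr).1]⟩)

omit h in
theorem fix_lay {x : ℕ → ℕ → ℕ} (hx : ∀ j, x j 0 = 0) {j : ℕ} (hj : j < M) {I : ℕ → Set ℝ}
    {g : ℝ → ENNReal} (hg : ∀ s ∈ Ioo (yv S M j) (yv S M (j + 1)), (∀ k < N, s ∉ I k) ∧
      g s ≤ 2 * (∫⁻ y in Icc 0 (cm Ω s), ENNReal.ofReal
        (MM I (tt T N) N (fld (yv S M) (vv T N x) M) s y))) {C H : ℕ} (hH : H = ad (S j) (S (j + 1)))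
    (hC : Cs T (dd (x j) (x (j + 1))) (6 * (H * H)) (Bq T (x j)) N +
      Cs T (dd (x j) (x (j + 1))) (6 * (H * H)) (Bq T (x (j + 1))) N = 2 * C) :
    ∫⁻ s in Ioo (yv S M j) (yv S M (j + 1)), g s ≤ ENNReal.ofReal (kap * (C / (3 * H) + 1 : ℕ)) := by
  subst hH
  refine (lin_le (G.ylt j hj) (by positivity) (by positivity) fun s hs u u0 u1 e => (hg s hs).2.trans
    (le_self_add.trans (G.pt_fix hx hj hs u0 u1 e (hg s hs).1 ⟨cm_nonneg _ _, cm_le_pi _ _⟩ le_rfl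
      (Or.inr rfl)))).trans (ENNReal.ofReal_le_ofReal ?_)
  have h1 := le_div_succ C (b := 3 * ad (S j) (S (j + 1))) (by have := G.hpos hj; omega)
  have h2 : (0 : ℝ) < ad (S j) (S (j + 1)) := Nat.cast_pos.2 (G.hpos hj)
  rw [← mul_add, ← Nat.cast_add, hC, G.ysub hj, kap]
  generalize ((C / (3 * ad (S j) (S (j + 1))) + 1 : ℕ) : ℝ) = q at h1
  push_cast at h1 ⊢
  generalize (ad (S j) (S (j + 1)) : ℝ) = H at h1 h2
  refine le_trans (le_of_eq ?_) (mul_le_mul_of_nonneg_left ((div_le_iff₀' (by positivity)).2 h1)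
    (by positivity))
  field_simp; norm_num

end

end Pool.Agent.Lib.MP_9b2593_an
end
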