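import Pool.Agent.Lib.MP_9b2593_an.Sides

-- part Pool.Agent.Lib.MP_9b2593_an.Two
section

/-!
The data for the dynamic programme.
-/

namespace Pool.Agent.Lib.MP_9b2593_an

open MeasureTheory Set Filter Topology Real Metric

noncomputable def sdL (Ω : Set ℂ) (K : Cls) (T S : ℕ → ℕ) (N M lam : ℕ) (cL : List ℕ) (g : ℕ → ℕ)
    (f e : ℕ) : Sd :=
  ⟨C0 T lam S cL (tnL K) (tpL K), C1 T lam S cL (tnL K) (tpL K),
    fun j => nL (cm Ω) T N (yv S M j), g, f, e⟩

noncomputable def sdR (Ω : Set ℂ) (K : Cls) (T S : ℕ → ℕ) (N M lam : ℕ) (cR : List ℕ) (g : ℕ → ℕ)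
    (f e : ℕ) : Sd :=
  ⟨C0 T lam (fun i => S (M - i)) cR (tnR K) (tpR K), C1 T lam (fun i => S (M - i)) cR (tnR K) (tpR K),
    fun i => nR (cm Ω) T N (yv S M (M - i)), fun i => g (M - 1 - i), f, e⟩

theorem num_le (cn lam : ℕ) :
    kap * (844424930131968 + cn * lam * 2748779069440 / 3141593 : ℕ) ≤
      2 * π * (-yy 0) + lam / 1024 * (cn / 100000 * π) := by
  have h1 : ((cn * lam * 2748779069440 / 3141593 : ℕ) : ℝ) ≤ cn * lam * 2748779069440 / 3141593 :=
    Nat.cast_div_le.trans (le_of_eq (by push_cast; ring))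
  rw [Nat.cast_add]
  generalize ((cn * lam * 2748779069440 / 3141593 : ℕ) : ℝ) = q at h1
  have h2 := Real.pi_lt_d6
  have h3 := pi_pos
  have h4 : (0 : ℝ) ≤ cn * lam := by positivity
  have h5 := mul_le_mul_of_nonneg_left h1 (show 0 ≤ π ^ 2 / 2 ^ 48 by positivity)
  have h6 := mul_le_mul_of_nonneg_left h2.le (mul_nonneg h4 h3.le)
  rw [kap, yy]
  push_cast
  nlinarith

theorem exists_two {cn : ℕ} {f L : ℂ → ℂ} {c : ℝ} (B : Bad cn f L c) {K : Cls}
    (h : Holds (f '' ball 0 1) c K) {T S : ℕ → ℕ} {N M fL j0 ov fR lam km : ℕ} {cL cR : List ℕ}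
    (W : Wf K T S N M fL j0 ov fR lam km (col cL) fun j => col cR (M - j)) {D J : ℕ}
    (hD : D = 844424930131968 + cn * lam * 2748779069440 / 3141593)
    (hJ : J = ∑ j ∈ Finset.Ico 0 fL, JF T N S cL j +
      ∑ j ∈ Finset.Ico 0 fR, JF T N (fun i => S (M - i)) cR j) (hle : J ≤ D) :
    ∃ g m, m < ov ∧ yv S M (j0 + m) ≤ max c (yy 0) ∧ c ≤ yv S M (j0 + m + 1) ∧
      Two N (D - J) (sdL (f '' ball 0 1) K T S N M lam cL g fL (j0 + m))
        (sdR (f '' ball 0 1) K T S N M lam cR g fR (M - 1 - (j0 + m))) := by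
  have G := W.G
  have l1 := W.le1
  have l2 := W.le2
  obtain ⟨m, hm, m1, m2⟩ := turn_ex B h W
  have en := grid_energy B h W
  set Ω := f '' ball 0 1 with hΩ
  set g := cost (cm Ω) (MC (fun k => II (cm Ω) c (tt T N k)) (tt T N) N c
    (fld (yv S M) (vv T N (col cL)) M) (fld (yv S M) (vv T N fun j => col cR (M - j)) M)) (lam / 1024)
    with hg
  have key : ∀ j, ∃ γ : ℕ, j < M → ∫⁻ s in Ioo (yv S M j) (yv S M (j + 1)), g s ≤
      ENNReal.ofReal (kap * γ) ∧ (j < fL → γ = JF T N S cL j) ∧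
      (∀ i < fR, i + j + 1 = M → γ = JF T N (fun i => S (M - i)) cR i) ∧
      (fL ≤ j → ∀ i, fR ≤ i → i + j + 1 = M →
      ((yv S M j < c ∧ LY (C0 T lam S cL (tnL K) (tpL K) j) (C1 T lam S cL (tnL K) (tpL K) j)
        (nL (cm Ω) T N (yv S M j)) (nL (cm Ω) T N (yv S M (j + 1))) γ) ∨
      (c < yv S M (j + 1) ∧ LY (C0 T lam (fun i => S (M - i)) cR (tnR K) (tpR K) i)
        (C1 T lam (fun i => S (M - i)) cR (tnR K) (tpR K) i)
        (nR (cm Ω) T N (yv S M (M - i))) (nR (cm Ω) T N (yv S M (M - (i + 1)))) γ) ∨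
      (yv S M j < c ∧ c < yv S M (j + 1) ∧ ∃ a ≤ nL (cm Ω) T N (yv S M j),
        ∃ b ≤ nR (cm Ω) T N (yv S M (M - i)), C0 T lam S cL (tnL K) (tpL K) j a ≠ 0 ∧
        C0 T lam (fun i => S (M - i)) cR (tnR K) (tpR K) i b ≠ 0 ∧
        γ ≤ C0 T lam S cL (tnL K) (tpL K) j a +
          C0 T lam (fun i => S (M - i)) cR (tnR K) (tpR K) i b))) := fun j => by
    by_cases hj : j < M
    swap
    · exact ⟨0, fun h => absurd h hj⟩
    rcases lt_or_ge j fL with h1 | h1
    · refine ⟨_, fun _ => ⟨fix_lay (Ω := Ω) G (x := col cL) (fun _ => xv_zero _) hj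
        (I := fun k => II (cm Ω) c (tt T N k)) (fun s hs => ?_) rfl (Cs_add _ _ _ _ _ _),
        fun _ => rfl, fun i _ _ => by omega, fun _ => by omega⟩⟩
      have a1 : S (j + 1) ≤ K.dlo := (mono_of G.ss h1 (by omega)).trans W.sL
      have a2 : DD Ω K.dlo := h.dlo.resolve_left (by have := G.ss j hj; omega)
      have a3 : s < yy K.dlo := hs.2.trans_le (by rw [yv_eq hj]; exact yy_le.2 a1)
      have a4 : s ≤ c := a3.le.trans (DD_le B a2)
      refine ⟨fun k hk => ?_, ?_⟩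
      · rintro (⟨-, r, b1, b2⟩ | b)
        · rw [a2.pi (b1.trans_lt a3)] at b2
          exact ((G.tlt k hk).trans_le (G.tmem _).2).not_ge b2
        · exact b.1.not_ge a4
      · simp only [hg, cost, MC, if_pos a4, indicator_apply]
        rw [a2.pi a3]; simp
    obtain ⟨i, hi⟩ : ∃ i, i + j + 1 = M := ⟨M - j - 1, by omega⟩
    rcases lt_or_ge i fR with h2 | h2
    · have e1 : M - i = j + 1 := by omega
      have e2 : M - (i + 1) = j := by omega
      refine ⟨JF T N (fun i => S (M - i)) cR i, fun _ => ⟨fix_lay (Ω := Ω) G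
        (x := fun j => col cR (M - j)) (fun _ => xv_zero _) hj
        (I := fun k => II (cm Ω) c (tt T N k)) (fun s hs => ?_) (by dsimp only; rw [e1, e2, ad_comm]) ?_,
        fun _ => by omega, fun i' _ _ => by rw [show i' = i by omega], fun _ _ _ _ => by omega⟩⟩
      · have a1 : 0 < s := lt_of_le_of_lt (by
          rw [← yy_top, ← W.sR, ← yv_eq (Nat.sub_le M fR)]; exact G.ym (by omega)) hs.1
        have a2 : ¬ s ≤ c := not_le.2 (B.c0.trans_lt a1)
        refine ⟨fun k _ => ?_, ?_⟩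
        · rintro (b | ⟨-, r, b, -⟩)
          · exact a2 b.1
          · exact a1.not_ge (b.1.trans b.2)
        · simp only [hg, cost, MC, if_neg a2,
            indicator_of_notMem (show s ∉ Iio 0 from not_lt.2 a1.le), add_zero, le_refl]
      · rw [show M - j = i + 1 by omega, show M - (j + 1) = i by omega, add_comm, dd_comm]
        exact Cs_add _ _ _ _ _ _
    · obtain ⟨γ, a1, a2⟩ := free_lay h G lam cL cR hi
        (by rw [← W.sR]; exact mono_of G.ss (by omega) (by omega))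
      exact ⟨γ, fun _ => ⟨a1, fun _ => by omega, fun _ _ _ => by omega,
        fun _ i' _ _ => by rwa [show i' = i by omega]⟩⟩
  choose γ hγ using key
  have k0 : 0 < kap := by have := pi_pos; unfold kap; positivity
  have tot : D < ∑ j ∈ Finset.range M, γ j := by
    have a1 := lint_split (yv S M) g 0 M
    simp only [zero_add] at a1
    have a2 := en.trans (a1.trans (Finset.sum_le_sum fun j hj => (hγ j (Finset.mem_range.1 hj)).1))
    have l0 : (0 : ℝ) < lam / 1024 := by have := Nat.cast_pos (α := ℝ).2 W.l1; positivity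
    have y0' : 0 ≤ 2 * π * -yy 0 := by rw [yy]; have := pi_pos; push_cast; nlinarith
    rw [← ENNReal.ofReal_sum_of_nonneg fun j _ => by positivity, ← Finset.mul_sum, ← Nat.cast_sum,
      y0 W] at a2
    have a3 := (ENNReal.add_lt_add_left ENNReal.ofReal_ne_top (ENNReal.mul_lt_mul_right
      (ENNReal.ofReal_pos.2 l0).ne' ENNReal.ofReal_ne_top B.big)).trans_le a2
    rw [← ENNReal.ofReal_mul l0.le, ← ENNReal.ofReal_add y0' (by have := pi_pos; positivity),
      ENNReal.ofReal_lt_ofReal_iff_of_nonneg (by have := pi_pos; positivity)] at a3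
    rw [hD]
    exact_mod_cast lt_of_mul_lt_mul_left ((num_le cn lam).trans_lt a3) k0.le
  refine ⟨γ, m, hm, m1, le_max_left _ _ |>.trans m2, ⟨fun _ => st_le _ _, by dsimp only [sdL]; omega,
    fun j h1 h2 => ?_⟩, ⟨fun _ => st_le _ _, by dsimp only [sdR]; omega, fun i h1 h2 => ?_⟩, ?_, ?_, ?_⟩
  · dsimp only [sdL] at h1 h2
    have a1 : yv S M (j + 1) ≤ c := (le_max_iff.1 ((G.ym h2).trans m1)).resolve_right (by
      rw [← y0 W]; exact not_le.2 ((G.ym (Nat.zero_le j)).trans_lt (G.ylt j (by omega))))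
    rcases (hγ j (by omega)).2.2.2 h1 (M - 1 - j) (by omega) (by omega) with a | a | a
    · exact a.2
    · exact absurd a.1 (not_lt.2 a1)
    · exact absurd a.2.1 (not_lt.2 a1)
  · dsimp only [sdR] at h1 h2
    have a1 : c ≤ yv S M (M - 1 - i) := ((le_max_left _ _).trans m2).trans (G.ym (by omega))
    rcases (hγ (M - 1 - i) (by omega)).2.2.2 (by omega) i h1 (by omega) with a | a | a
    · exact absurd a.1 (not_lt.2 a1)
    · exact a.2
    · exact absurd a.1 (not_lt.2 a1)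
  · dsimp only [sdL, sdR]; congr 1; omega
  · have e : γ (j0 + m) = γ (M - 1 - (M - 1 - (j0 + m))) := by congr 1; omega
    rcases (hγ (j0 + m) (by omega)).2.2.2 (by omega) (M - 1 - (j0 + m)) (by omega) (by omega)
      with a | a | a
    · exact Or.inl a.2
    · exact Or.inr (Or.inl (by have := a.2; rw [e] at this; exact this))
    · exact Or.inr (Or.inr a.2.2)
  · dsimp only [sdL, sdR, Sd.S]
    obtain ⟨n, hn⟩ : ∃ n, M = j0 + m + 1 + n := ⟨M - (j0 + m + 1), by omega⟩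
    have e1 : ∑ j ∈ Finset.range n, γ (j0 + m + 1 + j) = ∑ j ∈ Finset.Ico 0 n, γ (M - 1 - j) := by
      rw [← Finset.sum_range_reflect, Finset.range_eq_Ico]
      exact Finset.sum_congr rfl fun j hj => by
        have := (Finset.mem_Ico.1 hj).2
        congr 1; omega
    have e2 : ∑ j ∈ Finset.Ico 0 fL, γ j = ∑ j ∈ Finset.Ico 0 fL, JF T N S cL j :=
      Finset.sum_congr rfl fun j hj => by
        have := (Finset.mem_Ico.1 hj).2
        exact (hγ j (by omega)).2.1 this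
    have e3 : ∑ j ∈ Finset.Ico 0 fR, γ (M - 1 - j) =
        ∑ j ∈ Finset.Ico 0 fR, JF T N (fun i => S (M - i)) cR j :=
      Finset.sum_congr rfl fun j hj => by
        have := (Finset.mem_Ico.1 hj).2
        exact (hγ _ (by omega)).2.2.1 j this (by omega)
    rw [show Finset.range M = Finset.range (j0 + m + 1 + n) by rw [← hn], Finset.sum_range_add,
      Finset.sum_range_succ, e1, Finset.range_eq_Ico,
      ← Finset.sum_Ico_consecutive _ (Nat.zero_le fL) (by omega),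
      ← Finset.sum_Ico_consecutive _ (Nat.zero_le fR) (show fR ≤ n by omega), e2, e3] at tot
    rw [show M - 1 - (j0 + m) = n by omega]
    omega

end Pool.Agent.Lib.MP_9b2593_an
end

-- part Pool.Agent.Lib.MP_9b2593_an.Sound
section

/-!
Soundness of the checker and the rules for splitting into cases.
-/

namespace Pool.Agent.Lib.MP_9b2593_an

open MeasureTheory Set Filter Topology Real Metric

theorem xv_mod {a b km k : ℕ} (h : a % 2 ^ (20 * km) = b % 2 ^ (20 * km)) (hk : k ≤ km) :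
    xv a k = xv b k := by
  have e : ∀ c, val' c k = (c >>> (20 * k) &&& (2 ^ 20 - 1)) * 32 := fun c => rfl
  have e2 : ∀ a, xv a k = a % 2 ^ (20 * k) * 2 ^ 20 / 2 ^ (20 * k) * 32 := fun a => by
    rw [xv, e, Nat.and_two_pow_sub_one_eq_mod, Nat.shiftRight_eq_div_pow,
      ← Nat.mod_mul_right_div_self, ← Nat.mul_mod_mul_right]
    norm_num
  have d : 2 ^ (20 * k) ∣ 2 ^ (20 * km) := pow_dvd_pow _ (by omega)
  rw [e2, e2, ← Nat.mod_mod_of_dvd a d, h, Nat.mod_mod_of_dvd b d]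

theorem wf_ok {K : Cls} {x : Cert} {M : ℕ} (e : M = x.fL + x.mL + x.ov + (x.fR + x.mR))
    (h : wf K x (x.fL + x.mL) M = true) : Wf K (dig x.T) (dig x.S) x.N M x.fL (x.fL + x.mL) x.ov x.fR
      x.lam x.km (col x.cL) fun j => col x.cR (M - j) := by
  have hx : ∀ a, val' (a * 1048576) = xv a := fun _ => rfl
  simp only [wf, andB_eq, force_eq, fmin_eq, wv_eq, Nat.beq_eq, Nat.ble_eq, mx_eq, Nat.add_eq,
    Nat.sub_eq, Nat.mul_eq, Nat.succ_eq_add_one, hx] at h
  obtain ⟨a1, a2, a3, a4, a5, a6, a7, a8, a9, a10, a11, a12, a13, a14, a15, a16, a17, a18, a19⟩ := h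
  refine ⟨⟨a1, a2, fun k hk => by simpa using allN_ok a3 k hk, fun k hk => by simpa using allN_ok a4 k hk⟩,
    a5, a6, by omega, by omega, a7, a8, a9, a10, fun _ => xv_zero _, fun _ => xv_zero _, fun k => ?_,
    fun k hk => ?_, fun h0 => ?_, fun j hj h' => ?_, a15, a16, fun i hi k hk => ?_, a18, a19⟩
  · rw [Nat.sub_self, col, a11]
    have e : ∀ c, val' c k = (c >>> (20 * k) &&& 1048575) * 32 := fun c => rfl
    simp [xv, e]
  · cases k with
    | zero => rw [a1]; exact xv_zero _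
    | succ k => exact Nat.eq_of_beq_eq_true (allN_ok a12 k hk)
  · rw [h0] at a13
    rw [Nat.sub_zero, col, col, Nat.eq_of_beq_eq_true a13]
  · have := allN_ok a14 j hj
    rw [cnd_eq, if_neg (by simpa using h')] at this
    exact Nat.eq_of_beq_eq_true this
  · have := Nat.eq_of_beq_eq_true (allN_ok a17 i (by omega))
    rw [show Nat.shiftLeft 1 (20 * x.km) = 2 ^ (20 * x.km) from Nat.one_shiftLeft _] at this
    exact xv_mod this hk

theorem imp_ok {Ω : Set ℂ} {c : ℝ} {K K' : Cls} (H : imp K K' = true) (h : Holds Ω c K) :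
    Holds Ω c K' := by
  simp only [imp, andB_eq, Nat.ble_eq] at H
  obtain ⟨a1, a2, a3, a4, a5, a6, a7, a8⟩ := H
  have m : ∀ {a b}, a ≤ b → DD Ω b → DD Ω a := fun h h' =>
    (ball_subset_ball (exp_le_exp.2 (yy_le.2 h))).trans h'
  refine ⟨h.dlo.imp (by omega) (m a1), fun h' => h.dhi (m a2 h'), (yy_le.2 a3).trans h.clo,
    h.chi.trans (yy_le.2 a4), allL_any h.pL ?_ a5, allL_any h.nL ?_ a6, allL_any h.pR ?_ a7,
    allL_any h.nR ?_ a8⟩ <;> simp only [andB_eq, Nat.ble_eq]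
  · exact fun _ _ _ _ a b => b.mono (yy_le.2 a.1) (tv_le.2 a.2)
  · exact fun _ _ _ _ a b c => b (c.mono (yy_le.2 a.1) (tv_le.2 a.2))
  · exact fun _ _ _ _ a b => b.mono (yy_le.2 a.1) (tv_le.2 a.2)
  · exact fun _ _ _ _ a b c => b (c.mono (yy_le.2 a.1) (tv_le.2 a.2))

theorem chk_ok {cn : ℕ} {f L : ℂ → ℂ} {c : ℝ} (B : Bad cn f L c) {K K' : Cls}
    (h : Holds (f '' ball 0 1) c K) {x : Cert} (H : chk cn K x K' = true) :
    Holds (f '' ball 0 1) c K' := by
  simp only [chk, force_eq, andB_eq, Nat.add_eq, Nat.sub_eq, Nat.mul_eq, Nat.succ_eq_add_one] at H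
  obtain ⟨M, hM⟩ : ∃ M, M = x.fL + x.mL + x.ov + (x.fR + x.mR) := ⟨_, rfl⟩
  rw [← hM] at H
  have W := wf_ok hM H.1
  have G := W.G
  have H := H.2
  have e1 : ∀ k, digs x.T 1 x.N [] k = k (ta (dig x.T) 0 x.N) := fun k =>
    (digs_eq x.T 1 x.N 0 k).trans (by simp only [ta, add_comm 1, add_zero])
  have e2 : ∀ k, mktq x.T x.N 0 L2.nil k = k (tq (dig x.T) x.N) := fun k =>
    (mktq_eq x.T x.N 0 k).trans (by rw [zero_add])
  have e3 : ∀ k, rep 0 (x.N + 1) [] k = k (dn1 (fun _ => 0) (x.N + 1)) := fun k =>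
    (rep_eq 0 (x.N + 1) 0 k).trans (by rw [dn1_const])
  have hc : ∀ l i, xv (nth l i) = col l i := fun _ _ => rfl
  have hd : ∀ a b : ℕ, Nat.div a b = a / b := fun _ _ => rfl
  rw [e1, e2, e3, prepC_eq, hc, fpass_eq _ _ _ _ G.t0, prepC_eq, hc, fpass_eq _ _ _ _ G.t0] at H
  simp only [zero_add, andB_eq, wv_eq, Nat.ble_eq, hd] at H
  obtain ⟨g, m, hm, m1, m2, tw⟩ := exists_two B h W rfl rfl H.1
  have H := H.2
  generalize 844424930131968 + cn * x.lam * 2748779069440 / 3141593 - _ = thr at tw H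
  set σ := sdL (f '' ball 0 1) K (dig x.T) (dig x.S) x.N M x.lam x.cL g x.fL (x.fL + x.mL + m) with hσ
  set ρ := sdR (f '' ball 0 1) K (dig x.T) (dig x.S) x.N M x.lam x.cR g x.fR
    (M - 1 - (x.fL + x.mL + m)) with hρ
  have u1 := upass_eq _ x.N x.lam _ x.cL _ _ G.t0 G.ts (winL_eq K) (le_refl x.fL)
    (U := σ.U x.N) rfl x.mL 0
  have u2 := upass_eq _ x.N x.lam _ x.cL _ _ G.t0 G.ts (winL_eq K) (Nat.le_add_right x.fL x.mL)
    (U := σ.U x.N) rfl x.ov 0
  have u3 := upass_eq _ x.N x.lam _ x.cR _ _ G.t0 G.ts (winR_eq K) (le_refl x.fR)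
    (U := ρ.U x.N) rfl x.mR 0
  have u4 := upass_eq _ x.N x.lam _ x.cR _ _ G.t0 G.ts (winR_eq K) (Nat.le_add_right x.fR x.mR)
    (U := ρ.U x.N) rfl x.ov 0
  have p1 : σ.f = x.fL := rfl
  have p2 : σ.e = x.fL + x.mL + m := rfl
  have p3 : ρ.f = x.fR := rfl
  have p4 : ρ.e = M - 1 - (x.fL + x.mL + m) := rfl
  have z1 : σ.U x.N x.fL = fun _ => 0 := UU_start _ _ _ _
  have z2 : ρ.U x.N x.fR = fun _ => 0 := UU_start _ _ _ _
  simp only [add_zero, zero_add, rcs.eq_1, z1, z2, W.sR] at u1 u2 u3 u4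
  have i1 : ∀ (τ : Sd) lo k, info (rcs x.N τ.c0 τ.c1 (τ.U x.N) lo x.ov) L2.nil k =
    k (inf x.N τ.c0 (τ.U x.N) lo 0 x.ov) := fun τ lo k => info_eq x.ov 0 k
  rw [u1, u2, u3, u4] at H
  have H := (i1 ρ _ _).symm.trans H
  rw [andB_eq, cnd_eq] at H
  have t1 := (turn_ok x.ov 0 H.1 m hm).resolve_right (by
    have := tw.turn
    rwa [show ρ.e = x.fR + x.mR + (0 + x.ov - 1 - m) by omega] at this)
  have H := H.2
  rw [if_neg (by rw [Nat.ble_eq]; omega)] at H
  set k : L2 → L2 → L2 → L2 → Bool := fun pL nL pR nR => andB (x.b.ble x.ov) (imp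
    ⟨K.dlo, K.dhi, mx K.clo (dig x.S (x.fL + x.mL + x.a)),
      K.chi - (K.chi - dig x.S (x.fL + x.mL + x.b)), pL, nL, pR, nR⟩ K') with hk
  have s1 : ∃ P Q, AllF (fun x t => KL (cm (f '' ball 0 1)) (yy x) (tv t)) P ∧
      AllF (fun x t => ¬ KL (cm (f '' ball 0 1)) (yy x) (tv t)) Q ∧ ifz (x.lR + x.hR) (k P Q K.pR K.nR)
      (info (rcs x.N σ.c0 σ.c1 (σ.U x.N) (x.fL + x.mL) x.ov) L2.nil fun il =>
        rep (σ.U x.N (x.fL + x.mL) 0) (x.N + 1) [] fun v0 =>
        vov (rcs x.N ρ.c0 ρ.c1 (ρ.U x.N) (x.fR + x.mR) x.ov) il v0 fun v1 =>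
        vpass x.N thr x.T x.lR x.hR (fun i => dig x.S (M - i))
          (rcs x.N ρ.c0 ρ.c1 (ρ.U x.N) x.fR x.mR) (x.fR + x.mR) v1 K.pR K.nR (k P Q)) = true := by
    rw [ifz_eq] at H
    split_ifs at H
    · exact ⟨_, _, h.pL, h.nL, H⟩
    · refine tw.side (mL := x.mL) hm rfl (by omega) (fun n hn l hl h' => ?_)
        (fun n hn l hl => ?_) h.pL h.nL H
      · have := st_ge (fun a b hab h => KL.mono h le_rfl (G.tm hab)) hl h'
        rwa [yv_eq (by omega), tt_eq hl.le] at this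
      · have := st_not hl
        rwa [yv_eq (by omega), tt_eq (hl.le.trans (st_le _ _))] at this
  obtain ⟨P, Q, hP, hQ, H⟩ := s1
  have s2 : ∃ P' Q', AllF (fun x t => KR (cm (f '' ball 0 1)) (yy x) (tv t)) P' ∧
      AllF (fun x t => ¬ KR (cm (f '' ball 0 1)) (yy x) (tv t)) Q' ∧ k P Q P' Q' = true := by
    rw [ifz_eq] at H
    split_ifs at H
    · exact ⟨_, _, h.pR, h.nR, H⟩
    · refine tw.symm.side (mL := x.mR) (m := x.ov - 1 - m) (i0 := x.fL + x.mL) (by omega)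
        (by omega) (by omega) (fun n hn l hl h' => ?_)
        (fun n hn l hl => ?_) h.pR h.nR ((i1 σ _ _).symm.trans H)
      · have := st_ge (fun a b hab h => KR.mono h le_rfl (G.tm hab)) hl h'
        rwa [yv_eq (Nat.sub_le _ _), tt_eq hl.le] at this
      · have := st_not hl
        rwa [yv_eq (Nat.sub_le _ _), tt_eq (hl.le.trans (st_le _ _))] at this
  obtain ⟨P', Q', hP', hQ', H⟩ := s2
  simp only [hk, andB_eq, Nat.ble_eq] at H
  refine imp_ok H.2 ⟨h.dlo, h.dhi, ?_, ?_, hP, hQ, hP', hQ'⟩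
  · dsimp only
    rw [mx_eq]
    rcases le_total K.clo (dig x.S (x.fL + x.mL + x.a)) with a | a
    · rw [max_eq_right a, ← yv_eq (M := M) (by omega)]; exact (G.ym (by omega)).trans m1
    · rw [max_eq_left a]; exact h.clo
  · dsimp only
    rcases le_total K.chi (dig x.S (x.fL + x.mL + x.b)) with a | a
    · rw [Nat.sub_eq_zero_of_le a]; exact h.chi
    · rw [Nat.sub_sub_self a, ← yv_eq (M := M) (by omega)]; exact m2.trans (G.ym (by omega))

def Good (cn : ℕ) (K : Cls) : Prop := ∀ f L c, Bad cn f L c → ¬ Holds (f '' ball 0 1) c K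

variable {cn : ℕ} {K A B : Cls}

theorem good_bot : Good cn bot := fun _ _ _ _ h => h.dhi ((ball_subset_ball (exp_le_exp.2
  (yy_le.2 (Nat.zero_le 1)))).trans (h.dlo.resolve_left one_ne_zero))

theorem good_step {x : Cert} (H : chk cn K x A = true) (hA : Good cn A) : Good cn K :=
  fun f L c b h => hA f L c b (chk_ok b h H)

theorem good_d (x : ℕ) (H : andB (imp { K with dhi := x } A) (imp { K with dlo := x } B) = true)
    (hA : Good cn A) (hB : Good cn B) : Good cn K := fun f L c b h => by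
  rw [andB_eq] at H
  by_cases d : DD (f '' ball 0 1) x
  · exact hB f L c b (imp_ok H.2 ⟨Or.inr d, h.dhi, h.clo, h.chi, h.pL, h.nL, h.pR, h.nR⟩)
  · exact hA f L c b (imp_ok H.1 ⟨h.dlo, d, h.clo, h.chi, h.pL, h.nL, h.pR, h.nR⟩)

theorem good_c (x : ℕ) (H : andB (imp { K with chi := x } A) (imp { K with clo := x } B) = true)
    (hA : Good cn A) (hB : Good cn B) : Good cn K := fun f L c b h => by
  rw [andB_eq] at H
  rcases le_total c (yy x) with d | d
  · exact hA f L c b (imp_ok H.1 ⟨h.dlo, h.dhi, h.clo, d, h.pL, h.nL, h.pR, h.nR⟩)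
  · exact hB f L c b (imp_ok H.2 ⟨h.dlo, h.dhi, le_max_of_le_left d, h.chi, h.pL, h.nL, h.pR, h.nR⟩)

theorem good_L (x t : ℕ) (H : andB (imp { K with pL := L2.cons x t K.pL } A)
    (imp { K with nL := L2.cons x t K.nL } B) = true) (hA : Good cn A) (hB : Good cn B) :
    Good cn K := fun f L c b h => by
  rw [andB_eq] at H
  by_cases d : KL (cm (f '' ball 0 1)) (yy x) (tv t)
  · exact hA f L c b (imp_ok H.1 ⟨h.dlo, h.dhi, h.clo, h.chi, ⟨d, h.pL⟩, h.nL, h.pR, h.nR⟩)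
  · exact hB f L c b (imp_ok H.2 ⟨h.dlo, h.dhi, h.clo, h.chi, h.pL, ⟨d, h.nL⟩, h.pR, h.nR⟩)

theorem good_R (x t : ℕ) (H : andB (imp { K with pR := L2.cons x t K.pR } A)
    (imp { K with nR := L2.cons x t K.nR } B) = true) (hA : Good cn A) (hB : Good cn B) :
    Good cn K := fun f L c b h => by
  rw [andB_eq] at H
  by_cases d : KR (cm (f '' ball 0 1)) (yy x) (tv t)
  · exact hA f L c b (imp_ok H.1 ⟨h.dlo, h.dhi, h.clo, h.chi, h.pL, h.nL, ⟨d, h.pR⟩, h.nR⟩)
  · exact hB f L c b (imp_ok H.2 ⟨h.dlo, h.dhi, h.clo, h.chi, h.pL, h.nL, h.pR, ⟨d, h.nR⟩⟩)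

theorem final (H : Good cn ⟨0, 6144, 0, 6144, L2.nil, L2.nil, L2.nil, L2.nil⟩) {f : ℂ → ℂ}
    (df : DifferentiableOn ℂ f (ball 0 1)) (inj : InjOn f (ball 0 1)) (h0 : f 0 = 0)
    (h1 : deriv f 0 = 1) :
    volume (ball (0 : ℂ) 1 \ f '' ball 0 1) ≤ ENNReal.ofReal (cn / 100000 * π) := by
  refine not_lt.1 fun big => ?_
  obtain ⟨L, hL⟩ := exists_L df inj h0 h1
  have ne : ¬ ball (0 : ℂ) 1 ⊆ f '' ball 0 1 := fun h => by
    rw [sdiff_eq_empty.2 h] at big; simp at big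
  obtain ⟨c, c0, mn⟩ := hL.exists_min ne
  refine H f L c ⟨hL, ne, c0, mn, not_le.1 fun h => big.not_ge (hL.area_le.trans ?_), big⟩
    ⟨Or.inl rfl, by rwa [DD, yy_top, exp_zero], le_max_right _ _, c0.trans yy_top.ge, trivial, trivial,
      trivial, trivial⟩
  rw [setLIntegral_congr_fun measurableSet_Iio (g := fun _ => 0) fun s hs => ?_]
  · simp
  · simp [le_antisymm (cm_le_pi _ s) (h.trans (mn s (le_of_lt hs)))]

end Pool.Agent.Lib.MP_9b2593_an
end
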